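import Pool.Agent.H888.WA.V13

set_option linter.unusedVariables false
set_option linter.unusedSectionVars false
set_option linter.style.haveILetI false

namespace Pool.Agent.H888.DH

open Finset

theorem unit_pow_mul_self (σ : ℤˣ) (k : ℕ) : (σ : ℤ) ^ k * (σ : ℤ) ^ k = 1 := by
  rw [← mul_pow]
  have : (σ : ℤ) * σ = 1 := by
    rcases Int.units_eq_one_or σ with h | h <;> rw [h] <;> simp
  rw [this, one_pow]

/-- Twist of a coefficient vector by signs. -/
def twist {s : ℕ} (k : ℕ) (σ : Fin s → ℤˣ) (a : Fin s → ℤ) : Fin s → ℤ := fun i => (σ i : ℤ) ^ k * a i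

theorem twist_sum {R : Type*} [CommRing R] {s : ℕ} (k : ℕ) (σ : Fin s → ℤˣ) (a : Fin s → ℤ) (x : Fin s → R) :
    ∑ i, ((twist k σ a i : ℤ) : R) * x i ^ k = ∑ i, (a i : R) * (((σ i : ℤ) : R) * x i) ^ k := by
  apply Finset.sum_congr rfl
  intro i _
  unfold twist
  push_cast
  rw [mul_pow]; ring

theorem unit_cast_mul_self {R : Type*} [CommRing R] (σ : ℤˣ) : (((σ : ℤ) : R)) * (((σ : ℤ) : R)) = 1 := by
  have h := unit_pow_mul_self σ 1
  rw [pow_one] at h
  have := congrArg (fun z : ℤ => (z : R)) h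
  push_cast at this
  exact this

theorem twist_sum' {R : Type*} [CommRing R] {s : ℕ} (k : ℕ) (σ : Fin s → ℤˣ) (a : Fin s → ℤ) (x : Fin s → R) :
    ∑ i, ((twist k σ a i : ℤ) : R) * (((σ i : ℤ) : R) * x i) ^ k = ∑ i, (a i : R) * (x i) ^ k := by
  rw [twist_sum]
  apply Finset.sum_congr rfl
  intro i _
  rw [← mul_assoc, unit_cast_mul_self, one_mul]

theorem twist_inj {s : ℕ} (k : ℕ) (σ : Fin s → ℤˣ) : Function.Injective (twist k σ) := by
  intro a b h
  funext i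
  have h1 := congrFun h i
  unfold twist at h1
  have h2 := congrArg (fun z => (σ i : ℤ) ^ k * z) h1
  simp only [← mul_assoc, unit_pow_mul_self, one_mul] at h2
  exact h2

theorem abs_unit (σ : ℤˣ) : |(σ : ℤ)| = 1 := by
  rcases Int.units_eq_one_or σ with h | h <;> rw [h] <;> simp

theorem wa_bound (k r m : ℕ) (hk : 3 ≤ k) (hr : 2 * k + 1 ≤ r) (hm : 1 ≤ m) (ε : ℝ) (hε : 0 < ε) :
    ∃ H0 : ℕ, ∀ H : ℕ, H0 ≤ H → ∀ F : Finset (Fin (r + 1) → ℤ),
      (∀ b ∈ F, b ∈ boxA (r + 1) H ∧ (∀ p : ℕ, ∀ _ : Fact p.Prime, Sol ℚ_[p] k (r + 1) b) ∧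
        ∃ (y : Fin (r + 1) → ℝ) (u : ∀ p : ℕ, ∀ _ : Fact p.Prime, Fin (r + 1) → ℤ_[p]),
          ((∀ o, |y o| ≤ 1) ∧ (∃ o, |y o| = 1) ∧ ∑ o, (b o : ℝ) * (y o) ^ k = 0) ∧
          (∀ (p : ℕ) (hp : Fact p.Prime), p ≤ m → PrimZ p k (r + 1) b (u p hp)) ∧
          ¬ ApproxQ k (r + 1) m H b y u) →
      (F.card : ℝ) ≤ ε * (H : ℝ) ^ (r + 1) := by
  classical
  obtain ⟨H0, hH0⟩ := pos_bound k r m hk hr hm (ε / 2 ^ (r + 1)) (by positivity)
  refine ⟨H0, fun H hH F hF => ?_⟩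
  set Bad : (Fin (r + 1) → ℤ) → Prop := fun b =>
    ∃ (y : Fin (r + 1) → ℝ) (u : ∀ p : ℕ, ∀ _ : Fact p.Prime, Fin (r + 1) → ℤ_[p]),
          ((∀ o, 0 ≤ y o ∧ y o ≤ 1) ∧ (∃ o, y o = 1) ∧ ∑ o, (b o : ℝ) * (y o) ^ k = 0) ∧
          (∀ (p : ℕ) (hp : Fact p.Prime), p ≤ m → PrimZ p k (r + 1) b (u p hp)) ∧
          ¬ ApproxQ k (r + 1) m H b y u with hBad
  set Fσ : (Fin (r + 1) → ℤˣ) → Finset (Fin (r + 1) → ℤ) := fun σ => F.filter (fun a => Bad (twist k σ a)) with hFσ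
  have hsub : F ⊆ Finset.univ.biUnion Fσ := by
    intro a ha
    obtain ⟨hab, hels, y, u, ⟨hy1, ⟨o, ho⟩, hy3⟩, hu, hna⟩ := hF a ha
    set σ : Fin (r + 1) → ℤˣ := fun i => if 0 ≤ y i then 1 else -1 with hσ
    have hσy : ∀ i, |y i| = ((σ i : ℤ) : ℝ) * y i := by
      intro i
      simp only [hσ]
      split_ifs with h
      · rw [abs_of_nonneg h]; simp
      · push Not at h
        rw [abs_of_neg h]; simp
    rw [Finset.mem_biUnion]
    refine ⟨σ, Finset.mem_univ _, ?_⟩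
    rw [hFσ, Finset.mem_filter]
    refine ⟨ha, fun i => |y i|, fun p hp i => ((σ i : ℤ) : ℤ_[p]) * u p hp i, ⟨?_, ⟨o, ho⟩, ?_⟩, ?_, ?_⟩
    · intro i; exact ⟨abs_nonneg _, hy1 i⟩
    · simp only [hσy]
      rw [twist_sum']
      exact hy3
    · intro p hp hpm
      obtain ⟨⟨o', ho'⟩, hs⟩ := hu p hp hpm
      refine ⟨⟨o', ?_⟩, ?_⟩
      · apply IsUnit.mul _ ho'
        exact IsUnit.of_mul_eq_one _ (unit_cast_mul_self (σ o'))
      · rw [twist_sum']; exact hs
    · rintro ⟨x, T, g0, g00, g1, g2, g3⟩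
      apply hna
      refine ⟨fun i => (σ i : ℤ) * x i, T, g0, ?_, ?_, ?_, ?_⟩
      · intro i
        rw [abs_mul, abs_unit, one_mul]
        exact g00 i
      · have h1 := twist_sum (R := ℤ) k σ a x
        simp only [Int.cast_id] at h1
        rw [← h1]; exact g1
      · intro i
        have e1 : (((σ i : ℤ) * x i : ℤ) : ℝ) / T - y i = ((σ i : ℤ) : ℝ) * ((x i : ℝ) / T - |y i|) := by
          rw [hσy i]
          have := unit_cast_mul_self (R := ℝ) (σ i)
          push_cast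
          linear_combination (y i) * this
        rw [e1, abs_mul]
        have e2 : |(((σ i : ℤ)) : ℝ)| = 1 := by
          have := abs_unit (σ i)
          exact_mod_cast this
        rw [e2, one_mul]
        exact g2 i
      · intro p hp hpm i
        have h1 := g3 p hp hpm i
        have e1 : (((σ i : ℤ) * x i : ℤ) : ℚ_[p]) / T - (u p hp i : ℚ_[p]) =
            ((σ i : ℤ) : ℚ_[p]) * ((x i : ℚ_[p]) / T - ((((σ i : ℤ) : ℤ_[p]) * u p hp i : ℤ_[p]) : ℚ_[p])) := by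
          have := unit_cast_mul_self (R := ℚ_[p]) (σ i)
          push_cast
          linear_combination (u p hp i : ℚ_[p]) * this
        rw [e1, norm_mul]
        have e2 : ‖((σ i : ℤ) : ℚ_[p])‖ = 1 := by
          rcases Int.units_eq_one_or (σ i) with h | h <;> rw [h] <;> simp
        rw [e2, one_mul]
        exact h1
  have hcard : ∀ σ, ((Fσ σ).card : ℝ) ≤ ε / 2 ^ (r + 1) * (H : ℝ) ^ (r + 1) := by
    intro σ
    have h1 : (Fσ σ).card = ((Fσ σ).image (twist k σ)).card :=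
      (Finset.card_image_of_injective _ (twist_inj k σ)).symm
    rw [h1]
    apply hH0 H hH
    intro b hb
    rw [Finset.mem_image] at hb
    obtain ⟨a, ha, rfl⟩ := hb
    rw [hFσ, Finset.mem_filter] at ha
    obtain ⟨haF, hbad⟩ := ha
    obtain ⟨hab, hels, _⟩ := hF a haF
    refine ⟨?_, ?_, hbad⟩
    · rw [mem_boxA]
      intro l
      unfold twist
      rw [abs_mul, abs_pow, abs_unit, one_pow, one_mul]
      exact mem_boxA.mp hab l
    · intro p hp
      obtain ⟨x, hx, hs⟩ := hels p hp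
      refine ⟨fun i => ((σ i : ℤ) : ℚ_[p]) * x i, ?_, ?_⟩
      · intro h0
        apply hx
        funext i
        have h2 := congrFun h0 i
        have h3 := congrArg (fun z => ((σ i : ℤ) : ℚ_[p]) * z) h2
        simp only [← mul_assoc, unit_cast_mul_self, one_mul, Pi.zero_apply, mul_zero] at h3
        exact h3
      · rw [twist_sum']; exact hs
  calc (F.card : ℝ) ≤ ((Finset.univ.biUnion Fσ).card : ℝ) := by exact_mod_cast Finset.card_le_card hsub
    _ ≤ ∑ σ : Fin (r + 1) → ℤˣ, ((Fσ σ).card : ℝ) := by exact_mod_cast Finset.card_biUnion_le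
    _ ≤ ∑ σ : Fin (r + 1) → ℤˣ, ε / 2 ^ (r + 1) * (H : ℝ) ^ (r + 1) := Finset.sum_le_sum (fun σ _ => hcard σ)
    _ = _ := by
        rw [Finset.sum_const, Finset.card_univ, Fintype.card_fun, Fintype.card_fin, nsmul_eq_mul]
        have : Fintype.card ℤˣ = 2 := by decide
        rw [this]
        push_cast
        field_simp

end Pool.Agent.H888.DH
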