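import Pool.Agent.H888.DH.Loc3

set_option linter.unusedVariables false
set_option linter.unusedSectionVars false
set_option linter.style.haveILetI false

namespace Pool.Agent.H888.DH

open Finset

section
variable {p : ℕ} [hp : Fact p.Prime]

/-- Hensel's lemma for `a T^k + C` with a close root. -/
theorem hensel_close (k : ℕ) (a C x : ℤ_[p]) (M e : ℕ) (he : 1 ≤ e)
    (hf : (p : ℤ_[p]) ^ (2 * M + e) ∣ a * x ^ k + C)
    (hd : ¬ (p : ℤ_[p]) ^ (M + 1) ∣ k * a * x ^ (k - 1)) :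
    ∃ z : ℤ_[p], a * z ^ k + C = 0 ∧ (p : ℤ_[p]) ^ e ∣ z - x := by
  set F : Polynomial ℤ_[p] := Polynomial.C a * Polynomial.X ^ k + Polynomial.C C with hF
  have hev : ∀ y, Polynomial.aeval y F = a * y ^ k + C := by
    intro y; simp [hF]
  have hev' : ∀ y, Polynomial.aeval y (Polynomial.derivative F) = k * a * y ^ (k - 1) := by
    intro y
    simp [hF, Polynomial.derivative_X_pow]
    ring
  have e1 := padic_norm_le _ _ hf
  have e2 := padic_norm_ge _ _ hd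
  have hp1 : (1 : ℝ) < p := by exact_mod_cast hp.out.one_lt
  have hp0 : (0 : ℝ) < p := by linarith
  have h1 : ‖Polynomial.aeval x F‖ < ‖Polynomial.aeval x (Polynomial.derivative F)‖ ^ 2 := by
    rw [hev, hev']
    calc _ ≤ (p : ℝ) ^ (-((2 * M + e : ℕ) : ℤ)) := e1
      _ < ((p : ℝ) ^ (-(M : ℤ))) ^ 2 := by
          rw [← zpow_natCast, ← zpow_mul]
          apply zpow_lt_zpow_right₀ hp1
          push_cast
          have : (1 : ℤ) ≤ e := by exact_mod_cast he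
          linarith
      _ ≤ _ := by
          have : (0 : ℝ) < (p : ℝ) ^ (-(M : ℤ)) := by positivity
          gcongr
  obtain ⟨z, hz0, hz1, _, _⟩ := hensels_lemma h1
  rw [hev] at hz0
  rw [hev'] at hz1
  refine ⟨z, hz0, ?_⟩
  -- closeness
  obtain ⟨w, hw⟩ := Polynomial.binomExpansion F x (z - x)
  have hw' : a * z ^ k + C = (a * x ^ k + C) + (k * a * x ^ (k - 1)) * (z - x) + w * (z - x) ^ 2 := by
    have h2 : x + (z - x) = z := by ring
    rw [h2] at hw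
    have e3 : ∀ y, Polynomial.eval y F = a * y ^ k + C := by intro y; simp [hF]
    have e4 : ∀ y, Polynomial.eval y (Polynomial.derivative F) = k * a * y ^ (k - 1) := by
      intro y
      simp [hF, Polynomial.derivative_X_pow]
      ring
    rw [e3, e3, e4] at hw
    exact hw
  rw [hz0] at hw'
  set D := (k : ℤ_[p]) * a * x ^ (k - 1) with hD
  have h3 : a * x ^ k + C = -((z - x) * (D + w * (z - x))) := by linear_combination -hw'
  have h4 : ‖w * (z - x)‖ < ‖D‖ := by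
    rw [norm_mul]
    calc ‖w‖ * ‖z - x‖ ≤ 1 * ‖z - x‖ := mul_le_mul_of_nonneg_right (PadicInt.norm_le_one _) (norm_nonneg _)
      _ = ‖z - x‖ := one_mul _
      _ < _ := hz1
  have h5 : ‖D + w * (z - x)‖ = ‖D‖ := by
    rw [PadicInt.norm_add_eq_max_of_ne h4.ne']
    exact max_eq_left h4.le
  have h6 : ‖a * x ^ k + C‖ = ‖z - x‖ * ‖D‖ := by
    rw [h3, norm_neg, norm_mul, h5]
  have h7 : ‖z - x‖ ≤ (p : ℝ) ^ (-((M + e : ℕ) : ℤ)) := by
    rw [h6] at e1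
    have hDpos : 0 < ‖D‖ := lt_of_lt_of_le (by positivity) e2
    have h8 : ‖z - x‖ * (p : ℝ) ^ (-(M : ℤ)) ≤ (p : ℝ) ^ (-((2 * M + e : ℕ) : ℤ)) :=
      (mul_le_mul_of_nonneg_left e2 (norm_nonneg _)).trans e1
    have h9 : (p : ℝ) ^ (-((2 * M + e : ℕ) : ℤ)) = (p : ℝ) ^ (-((M + e : ℕ) : ℤ)) * (p : ℝ) ^ (-(M : ℤ)) := by
      rw [← zpow_add₀ hp0.ne']
      congr 1
      push_cast; ring
    rw [h9] at h8
    exact le_of_mul_le_mul_right h8 (by positivity)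
  rw [PadicInt.norm_le_pow_iff_mem_span_pow, Ideal.mem_span_singleton] at h7
  exact (pow_dvd_pow _ (by omega)).trans h7

theorem val_toZModPow_sub (m : ℕ) (x : ℤ_[p]) [NeZero (p ^ m)] :
    (p : ℤ_[p]) ^ m ∣ (((PadicInt.toZModPow m x).val : ℕ) : ℤ_[p]) - x := by
  rw [← Ideal.mem_span_singleton, ← PadicInt.ker_toZModPow, RingHom.mem_ker, map_sub, map_natCast,
    ZMod.natCast_zmod_val, sub_self]

/-- **Lifting lemma with closeness.** -/
theorem lift_count2 (k r : ℕ) (hk : 1 ≤ k) (a : Fin (r + 1) → ℤ) (n : ℕ) (x : Fin r → ℤ_[p])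
    (l : Fin r) (M e m : ℕ) (he : 1 ≤ e) (hm : 2 * M + e ≤ m) [NeZero (p ^ m)]
    (hf : (p : ℤ_[p]) ^ (2 * M + e) ∣ (a 0 : ℤ_[p]) * (n : ℤ_[p]) ^ k + ∑ j, (a (Fin.succ j) : ℤ_[p]) * (x j) ^ k)
    (hd : ¬ (p : ℤ_[p]) ^ (M + 1) ∣ k * (a (Fin.succ l) : ℤ_[p]) * (x l) ^ (k - 1)) :
    ∃ S : Finset (Fin r → ZMod (p ^ m)), (∀ z ∈ S, z ∈ SolN k r a n (p ^ m) ∧ ∀ j,
      (p : ℤ_[p]) ^ e ∣ (((z j).val : ℕ) : ℤ_[p]) - x j) ∧
      (p ^ (m - (2 * M + e))) ^ (r - 1) ≤ S.card := by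
  classical
  refine ⟨(SolN k r a n (p ^ m)).filter (fun z : Fin r → ZMod (p ^ m) => ∀ j,
      (p : ℤ_[p]) ^ e ∣ (((z j).val : ℕ) : ℤ_[p]) - x j), fun z hz => Finset.mem_filter.mp hz, ?_⟩
  set E := 2 * M + e with hE
  set q := p ^ (m - E) with hq
  have hppos : 0 < p := hp.out.pos
  have hq0 : 0 < q := pow_pos hppos _
  -- perturbation
  set y : ({j : Fin r // j ≠ l} → Fin q) → Fin r → ℤ_[p] :=
    fun t j => if h : j ≠ l then x j + (p : ℤ_[p]) ^ E * ((t ⟨j, h⟩ : ℕ) : ℤ_[p]) else x l with hy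
  have hyx : ∀ t j, (p : ℤ_[p]) ^ E ∣ y t j - x j := by
    intro t j
    simp only [hy]
    by_cases h : j ≠ l
    · rw [dif_pos h]; exact ⟨((t ⟨j, h⟩ : ℕ) : ℤ_[p]), by ring⟩
    · rw [dif_neg h]
      push Not at h
      rw [h, sub_self]; exact dvd_zero _
  have hyl : ∀ t, y t l = x l := by
    intro t; simp only [hy]; rw [dif_neg (by simp)]
  -- Hensel
  have hhen : ∀ t, ∃ z : ℤ_[p], (a (Fin.succ l) : ℤ_[p]) * z ^ k +
      ((a 0 : ℤ_[p]) * (n : ℤ_[p]) ^ k + ∑ j ∈ Finset.univ.erase l, (a (Fin.succ j) : ℤ_[p]) * (y t j) ^ k) = 0 ∧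
      (p : ℤ_[p]) ^ e ∣ z - x l := by
    intro t
    apply hensel_close k _ _ _ M e he _ hd
    have h1 : (a (Fin.succ l) : ℤ_[p]) * (x l) ^ k +
        ((a 0 : ℤ_[p]) * (n : ℤ_[p]) ^ k + ∑ j ∈ Finset.univ.erase l, (a (Fin.succ j) : ℤ_[p]) * (y t j) ^ k) =
        (a 0 : ℤ_[p]) * (n : ℤ_[p]) ^ k + ∑ j, (a (Fin.succ j) : ℤ_[p]) * (y t j) ^ k := by
      rw [← Finset.add_sum_erase Finset.univ _ (Finset.mem_univ l), hyl]
      ring
    rw [h1]
    have h2 : (a 0 : ℤ_[p]) * (n : ℤ_[p]) ^ k + ∑ j, (a (Fin.succ j) : ℤ_[p]) * (y t j) ^ k =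
        ((a 0 : ℤ_[p]) * (n : ℤ_[p]) ^ k + ∑ j, (a (Fin.succ j) : ℤ_[p]) * (x j) ^ k) +
        ∑ j, (a (Fin.succ j) : ℤ_[p]) * ((y t j) ^ k - (x j) ^ k) := by
      rw [add_assoc, ← Finset.sum_add_distrib]
      congr 1
      apply Finset.sum_congr rfl; intro j _; ring
    rw [h2]
    apply dvd_add hf
    apply Finset.dvd_sum
    intro j _
    exact Dvd.dvd.mul_left ((hyx t j).trans (sub_dvd_pow_sub_pow _ _ k)) _
  choose zz hzz1 hzz2 using hhen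
  set sol : ({j : Fin r // j ≠ l} → Fin q) → Fin r → ℤ_[p] :=
    fun t j => if h : j ≠ l then y t j else zz t with hsol
  have hsoleq : ∀ t, (a 0 : ℤ_[p]) * (n : ℤ_[p]) ^ k + ∑ j, (a (Fin.succ j) : ℤ_[p]) * (sol t j) ^ k = 0 := by
    intro t
    rw [← Finset.add_sum_erase Finset.univ _ (Finset.mem_univ l)]
    have e1 : sol t l = zz t := by simp only [hsol]; rw [dif_neg (by simp)]
    have e2 : ∑ j ∈ Finset.univ.erase l, (a (Fin.succ j) : ℤ_[p]) * (sol t j) ^ k =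
        ∑ j ∈ Finset.univ.erase l, (a (Fin.succ j) : ℤ_[p]) * (y t j) ^ k := by
      apply Finset.sum_congr rfl
      intro j hj
      have : j ≠ l := (Finset.mem_erase.mp hj).1
      simp only [hsol]; rw [dif_pos this]
    rw [e1, e2, ← hzz1 t]
    ring
  have hsolx : ∀ t j, (p : ℤ_[p]) ^ e ∣ sol t j - x j := by
    intro t j
    by_cases h : j ≠ l
    · have e1 : sol t j = y t j := by simp only [hsol]; rw [dif_pos h]
      rw [e1]
      exact (pow_dvd_pow _ (by omega)).trans (hyx t j)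
    · push Not at h
      rw [h]
      have e1 : sol t l = zz t := by simp only [hsol]; rw [dif_neg (by simp)]
      rw [e1]; exact hzz2 t
  -- the injection
  have hcard : (Finset.univ : Finset ({j : Fin r // j ≠ l} → Fin q)).card = q ^ (r - 1) := by
    rw [Finset.card_univ, Fintype.card_fun, Fintype.card_fin, Fintype.card_subtype_compl]
    simp
  rw [← hcard]
  apply Finset.card_le_card_of_injOn (fun t j => PadicInt.toZModPow m (sol t j))
  · intro t _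
    rw [Finset.mem_coe, Finset.mem_filter]
    refine ⟨?_, ?_⟩
    · rw [mem_SolN]
      have h1 := congrArg (PadicInt.toZModPow m) (hsoleq t)
      rw [map_add, map_mul, map_pow, map_sum, map_zero, map_intCast, map_natCast] at h1
      simpa only [map_mul, map_pow, map_intCast] using h1
    · intro j
      have h1 := val_toZModPow_sub m (sol t j)
      have h2 : (p : ℤ_[p]) ^ e ∣ (((PadicInt.toZModPow m (sol t j)).val : ℕ) : ℤ_[p]) - sol t j :=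
        (pow_dvd_pow _ (by omega)).trans h1
      have h3 := dvd_add h2 (hsolx t j)
      have e1 : ((((PadicInt.toZModPow m (sol t j)).val : ℕ) : ℤ_[p]) - sol t j) + (sol t j - x j) =
        (((PadicInt.toZModPow m (sol t j)).val : ℕ) : ℤ_[p]) - x j := by ring
      rwa [e1] at h3
  · intro t _ t' _ htt
    funext ⟨j, hj⟩
    have h1 : PadicInt.toZModPow m (sol t j) = PadicInt.toZModPow m (sol t' j) := congrFun htt j
    have e1 : sol t j = x j + (p : ℤ_[p]) ^ E * ((t ⟨j, hj⟩ : ℕ) : ℤ_[p]) := by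
      simp only [hsol, hy]; rw [dif_pos hj, dif_pos hj]
    have e2 : sol t' j = x j + (p : ℤ_[p]) ^ E * ((t' ⟨j, hj⟩ : ℕ) : ℤ_[p]) := by
      simp only [hsol, hy]; rw [dif_pos hj, dif_pos hj]
    rw [e1, e2, map_add, map_add, add_right_inj, map_mul, map_mul, map_pow, map_natCast,
      map_natCast, map_natCast] at h1
    have h2 : (((p ^ E * (t ⟨j, hj⟩ : ℕ) : ℕ)) : ZMod (p ^ m)) = ((p ^ E * (t' ⟨j, hj⟩ : ℕ) : ℕ) : ZMod (p ^ m)) := by
      push_cast; exact h1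
    rw [ZMod.natCast_eq_natCast_iff] at h2
    have h3 : ∀ u : Fin q, p ^ E * (u : ℕ) < p ^ m := by
      intro u
      calc p ^ E * (u : ℕ) < p ^ E * q := Nat.mul_lt_mul_of_pos_left u.2 (pow_pos hppos _)
        _ = p ^ m := by rw [hq, ← pow_add]; congr 1; omega
    have h4 := Nat.ModEq.eq_of_lt_of_lt h2 (h3 _) (h3 _)
    exact Fin.ext (Nat.eq_of_mul_eq_mul_left (pow_pos hppos _) h4)

theorem isUnit_of_dvd_sub {u v : ℤ_[p]} (hu : IsUnit u) (e : ℕ) (he : 1 ≤ e)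
    (h : (p : ℤ_[p]) ^ e ∣ v - u) : IsUnit v := by
  have h1 : (p : ℤ_[p]) ∣ v - u := (dvd_pow_self _ (by omega)).trans h
  rw [PadicInt.isUnit_iff] at hu ⊢
  by_contra hne
  have hlt : ‖v‖ < 1 := lt_of_le_of_ne (PadicInt.norm_le_one _) hne
  rw [PadicInt.norm_lt_one_iff_dvd] at hlt
  have h2 : (p : ℤ_[p]) ∣ u := by
    have := dvd_sub hlt h1
    have e1 : v - (v - u) = u := by ring
    rwa [e1] at this
  rw [← PadicInt.norm_lt_one_iff_dvd] at h2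
  linarith

/-- **Perturbed zero at a small prime.** -/
theorem localS (k r : ℕ) (hk : 1 ≤ k) (a : Fin (r + 1) → ℤ) (M e : ℕ) (he : 1 ≤ e)
    (ha : ∀ o, ¬ (p : ℤ) ^ (M + 1) ∣ a o) (u : Fin (r + 1) → ℤ_[p])
    (hprim : ∃ o, IsUnit (u o)) (hu : ∑ o, (a o : ℤ_[p]) * (u o) ^ k = 0) :
    ∃ c ≤ 2 * (k + M) + e, ∃ u' : Fin (r + 1) → ℤ_[p], (∀ o, (p : ℤ_[p]) ^ e ∣ u' o - u o) ∧
      ∑ o, (a o : ℤ_[p]) * (u' o) ^ k = 0 ∧ (∃ ε₀ : (ℤ_[p])ˣ, u' 0 = (p : ℤ_[p]) ^ c * ε₀) ∧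
      ∃ l : Fin r, ¬ (p : ℤ_[p]) ^ (k + M + 1) ∣ k * (a (Fin.succ l) : ℤ_[p]) * (u' (Fin.succ l)) ^ (k - 1) := by
  classical
  obtain ⟨o0, ho0⟩ := hprim
  have ha' : ∀ o, ¬ (p : ℤ_[p]) ^ (M + 1) ∣ (a o : ℤ_[p]) := by
    intro o h
    exact ha o ((padic_pow_dvd_int _ _).mp h)
  have hkk : ¬ (p : ℤ_[p]) ^ (k - 1 + 1) ∣ (k : ℤ_[p]) := by
    rw [Nat.sub_add_cancel hk]; exact not_pow_dvd_self k hk
  have hprime : Prime (p : ℤ_[p]) := PadicInt.prime_p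
  have hgood : ∀ l : Fin r, ∀ v : ℤ_[p], ¬ (p : ℤ_[p]) ^ (M + 1) ∣ (a (Fin.succ l) : ℤ_[p]) * v ^ (k - 1) →
      ¬ (p : ℤ_[p]) ^ (k + M + 1) ∣ k * (a (Fin.succ l) : ℤ_[p]) * v ^ (k - 1) := by
    intro l v hl
    rw [mul_assoc]
    intro h
    apply not_pow_dvd_mul hprime hkk hl
    exact (pow_dvd_pow _ (by omega)).trans h
  have hunit : ∀ l : Fin r, ∀ v : ℤ_[p], IsUnit v →
      ¬ (p : ℤ_[p]) ^ (M + 1) ∣ (a (Fin.succ l) : ℤ_[p]) * v ^ (k - 1) := by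
    intro l v hv h
    exact ha' _ ((IsUnit.dvd_mul_right (hv.pow (k - 1))).mp h)
  set E := 2 * (k + M) + e with hE
  by_cases h : (p : ℤ_[p]) ^ E ∣ u 0
  · -- move u 0 to p^E
    have ho0' : o0 ≠ 0 := by
      intro h0
      rw [h0] at ho0
      have h1 : (p : ℤ_[p]) ∣ u 0 := (dvd_pow_self _ (by omega)).trans h
      exact hprime.not_isUnit (isUnit_of_dvd_unit h1 ho0)
    obtain ⟨l, rfl⟩ := Fin.exists_succ_eq.mpr ho0'
    rw [Fin.sum_univ_succ, ← Finset.add_sum_erase Finset.univ _ (Finset.mem_univ l)] at hu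
    obtain ⟨z, hz1, hz2⟩ := hensel_close k (a (Fin.succ l) : ℤ_[p])
      ((a 0 : ℤ_[p]) * ((p : ℤ_[p]) ^ E) ^ k + ∑ j ∈ Finset.univ.erase l, (a (Fin.succ j) : ℤ_[p]) * (u (Fin.succ j)) ^ k)
      (u (Fin.succ l)) (k + M) e he (by
        have e1 : (a (Fin.succ l) : ℤ_[p]) * u (Fin.succ l) ^ k + ((a 0 : ℤ_[p]) * ((p : ℤ_[p]) ^ E) ^ k +
            ∑ j ∈ Finset.univ.erase l, (a (Fin.succ j) : ℤ_[p]) * (u (Fin.succ j)) ^ k) =
            (a 0 : ℤ_[p]) * (((p : ℤ_[p]) ^ E) ^ k - (u 0) ^ k) := by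
          linear_combination hu
        rw [e1]
        apply Dvd.dvd.mul_left
        refine dvd_trans ?_ (sub_dvd_pow_sub_pow _ _ k)
        exact dvd_sub dvd_rfl h) (hgood l _ (hunit l _ ho0))
    refine ⟨E, le_rfl, Fin.cons ((p : ℤ_[p]) ^ E) (fun j => if j = l then z else u (Fin.succ j)), ?_, ?_, ?_, ?_⟩
    · intro o
      refine Fin.cases ?_ (fun j => ?_) o
      · rw [Fin.cons_zero]
        exact (pow_dvd_pow _ (by omega)).trans (dvd_sub dvd_rfl h)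
      · rw [Fin.cons_succ]
        by_cases hj : j = l
        · rw [if_pos hj, hj]; exact hz2
        · rw [if_neg hj, sub_self]; exact dvd_zero _
    · rw [Fin.sum_univ_succ, ← Finset.add_sum_erase Finset.univ _ (Finset.mem_univ l)]
      simp only [Fin.cons_zero, Fin.cons_succ, if_true]
      have e2 : ∑ j ∈ Finset.univ.erase l, (a (Fin.succ j) : ℤ_[p]) * (if j = l then z else u (Fin.succ j)) ^ k =
          ∑ j ∈ Finset.univ.erase l, (a (Fin.succ j) : ℤ_[p]) * (u (Fin.succ j)) ^ k := by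
        apply Finset.sum_congr rfl
        intro j hj
        rw [if_neg (Finset.mem_erase.mp hj).1]
      rw [e2]
      linear_combination hz1
    · exact ⟨1, by rw [Fin.cons_zero, Units.val_one, mul_one]⟩
    · refine ⟨l, ?_⟩
      rw [Fin.cons_succ, if_pos rfl]
      exact hgood l _ (hunit l _ (isUnit_of_dvd_sub ho0 e he hz2))
  · have hu0 : u 0 ≠ 0 := by rintro h0; rw [h0] at h; exact h (dvd_zero _)
    have hspec := PadicInt.unitCoeff_spec hu0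
    have hcE : (u 0).valuation ≤ E := by
      by_contra hcon
      push Not at hcon
      apply h
      rw [hspec]
      exact Dvd.dvd.mul_left (pow_dvd_pow _ hcon.le) _
    refine ⟨(u 0).valuation, hcE, u, ?_, hu, ⟨PadicInt.unitCoeff hu0, ?_⟩, ?_⟩
    · intro o; rw [sub_self]; exact dvd_zero _
    · rw [mul_comm]; exact hspec
    · have hgen : ∃ l : Fin r, ¬ (p : ℤ_[p]) ^ (M + 1) ∣ (a (Fin.succ l) : ℤ_[p]) * (u (Fin.succ l)) ^ (k - 1) := by
        rcases Fin.eq_zero_or_eq_succ o0 with h0 | ⟨l, h0⟩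
        · subst h0
          rw [Fin.sum_univ_succ] at hu
          by_contra hcon
          push Not at hcon
          have h1 : (p : ℤ_[p]) ^ (M + 1) ∣ (a 0 : ℤ_[p]) * (u 0) ^ k := by
            have e1 : (a 0 : ℤ_[p]) * (u 0) ^ k = - ∑ i : Fin r, (a (Fin.succ i) : ℤ_[p]) * (u (Fin.succ i)) ^ k := by
              linear_combination hu
            rw [e1]
            apply Dvd.dvd.neg_right
            apply Finset.dvd_sum
            intro l _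
            have e2 : (a (Fin.succ l) : ℤ_[p]) * (u (Fin.succ l)) ^ k =
                (a (Fin.succ l) : ℤ_[p]) * (u (Fin.succ l)) ^ (k - 1) * u (Fin.succ l) := by
              rw [mul_assoc, ← pow_succ, Nat.sub_add_cancel hk]
            rw [e2]
            exact Dvd.dvd.mul_right (hcon l) _
          exact ha' 0 ((IsUnit.dvd_mul_right (ho0.pow k)).mp h1)
        · subst h0
          exact ⟨l, hunit l _ ho0⟩
      obtain ⟨l, hl⟩ := hgen
      exact ⟨l, hgood l _ hl⟩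

theorem isUnit_natCast {n' : ℕ} (hn' : ¬ p ∣ n') : IsUnit ((n' : ℕ) : ℤ_[p]) := by
  rw [PadicInt.isUnit_iff]
  by_contra hne
  have hlt : ‖((n' : ℕ) : ℤ_[p])‖ < 1 := lt_of_le_of_ne (PadicInt.norm_le_one _) hne
  rw [PadicInt.norm_lt_one_iff_dvd] at hlt
  have : (p : ℤ_[p]) ^ 1 ∣ (((n' : ℤ)) : ℤ_[p]) := by
    rw [pow_one]; exact_mod_cast hlt
  rw [padic_pow_dvd_int, pow_one] at this
  exact hn' (by exact_mod_cast this)

/-- count near the perturbed zero -/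
theorem countS (k r : ℕ) (hk : 1 ≤ k) (a : Fin (r + 1) → ℤ) (M e c : ℕ) (he : 1 ≤ e)
    (u' : Fin (r + 1) → ℤ_[p]) (hu' : ∑ o, (a o : ℤ_[p]) * (u' o) ^ k = 0)
    (hε : ∃ ε₀ : (ℤ_[p])ˣ, u' 0 = (p : ℤ_[p]) ^ c * ε₀)
    (hl : ∃ l : Fin r, ¬ (p : ℤ_[p]) ^ (k + M + 1) ∣ k * (a (Fin.succ l) : ℤ_[p]) * (u' (Fin.succ l)) ^ (k - 1))
    (n' : ℕ) (hn' : ¬ p ∣ n') :
    ∃ lam : (ℤ_[p])ˣ, ((p ^ c * n' : ℕ) : ℤ_[p]) = lam * u' 0 ∧ ∀ m : ℕ, 2 * (k + M) + e ≤ m →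
      ∀ _ : NeZero (p ^ m), ∃ S : Finset (Fin r → ZMod (p ^ m)),
        (∀ z ∈ S, z ∈ SolN k r a (p ^ c * n') (p ^ m) ∧ ∀ j,
          (p : ℤ_[p]) ^ e ∣ (((z j).val : ℕ) : ℤ_[p]) - lam * u' (Fin.succ j)) ∧
        (p ^ (m - (2 * (k + M) + e))) ^ (r - 1) ≤ S.card := by
  classical
  obtain ⟨ε₀, hε₀⟩ := hε
  obtain ⟨l, hl⟩ := hl
  obtain ⟨v, hv⟩ := isUnit_natCast (p := p) hn'
  refine ⟨v * ε₀⁻¹, ?_, ?_⟩
  · rw [hε₀]
    push_cast
    rw [← hv]
    have : ((ε₀⁻¹ : (ℤ_[p])ˣ) : ℤ_[p]) * (ε₀ : ℤ_[p]) = 1 := Units.inv_mul _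
    linear_combination (-((v : ℤ_[p]) * (p : ℤ_[p]) ^ c)) * this
  · intro m hm _
    have hnv : (((p ^ c * n' : ℕ)) : ℤ_[p]) = ((v * ε₀⁻¹ : (ℤ_[p])ˣ) : ℤ_[p]) * u' 0 := by
      rw [hε₀]
      push_cast
      rw [← hv]
      have : ((ε₀⁻¹ : (ℤ_[p])ˣ) : ℤ_[p]) * (ε₀ : ℤ_[p]) = 1 := Units.inv_mul _
      linear_combination (-((v : ℤ_[p]) * (p : ℤ_[p]) ^ c)) * this
    set lam := v * ε₀⁻¹ with hlam
    apply lift_count2 k r hk a (p ^ c * n') (fun j => (lam : ℤ_[p]) * u' (Fin.succ j)) l (k + M) e m he hm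
    · rw [Fin.sum_univ_succ] at hu'
      have e1 : (a 0 : ℤ_[p]) * ((p ^ c * n' : ℕ) : ℤ_[p]) ^ k +
          ∑ j : Fin r, (a (Fin.succ j) : ℤ_[p]) * ((lam : ℤ_[p]) * u' (Fin.succ j)) ^ k = 0 := by
        rw [hnv]
        have e2 : ∑ j : Fin r, (a (Fin.succ j) : ℤ_[p]) * ((lam : ℤ_[p]) * u' (Fin.succ j)) ^ k =
            (lam : ℤ_[p]) ^ k * ∑ j : Fin r, (a (Fin.succ j) : ℤ_[p]) * (u' (Fin.succ j)) ^ k := by
          rw [Finset.mul_sum]
          apply Finset.sum_congr rfl; intro j _; ring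
        rw [e2]
        linear_combination (lam : ℤ_[p]) ^ k * hu'
      rw [e1]; exact dvd_zero _
    · intro hdvd
      apply hl
      have e1 : (k : ℤ_[p]) * (a (Fin.succ l) : ℤ_[p]) * ((lam : ℤ_[p]) * u' (Fin.succ l)) ^ (k - 1) =
          (lam : ℤ_[p]) ^ (k - 1) * (k * (a (Fin.succ l) : ℤ_[p]) * (u' (Fin.succ l)) ^ (k - 1)) := by ring
      rw [e1] at hdvd
      exact (IsUnit.dvd_mul_left (lam.isUnit.pow _)).mp hdvd

end

end Pool.Agent.H888.DH
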