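import Pool.Agent.H888.WA.L1
import Pool.Agent.H888.DH.Loc4

set_option linter.unusedVariables false
set_option linter.unusedSectionVars false
set_option linter.style.haveILetI false

namespace Pool.Agent.H888.DH

open Finset

section
variable {p : ℕ} [hp : Fact p.Prime]

/-- count at the auxiliary prime, with unit coordinates -/
theorem countPi (k r : ℕ) (hk : 2 ≤ k) (hkp : ¬ p ∣ k) (a : Fin (r + 1) → ℤ) (n : ℕ) (hn : p ∣ n)
    (l0 : Fin r) (hl0 : ((a (Fin.succ l0) : ℤ) : ZMod p) ≠ 0) (z : Fin r → ZMod p) (hz : ∀ l, z l ≠ 0)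
    (hsum : ∑ l, ((a (Fin.succ l) : ℤ) : ZMod p) * z l ^ k = 0) (m : ℕ) (hm : 0 < m) [NeZero (p ^ m)] :
    ∃ S : Finset (Fin r → ZMod (p ^ m)), (∀ z ∈ S, z ∈ SolN k r a n (p ^ m) ∧
      ∀ j, ¬ (p : ℤ) ∣ (((z j).val : ℕ) : ℤ)) ∧ (p ^ (m - 1)) ^ (r - 1) ≤ S.card := by
  classical
  have hk0 : ((k : ℕ) : ZMod p) ≠ 0 := by
    rw [Ne, ZMod.natCast_eq_zero_iff]; exact hkp
  have hf : (p : ℤ_[p]) ^ (2 * 0 + 1) ∣ (a 0 : ℤ_[p]) * (n : ℤ_[p]) ^ k +
      ∑ j, (a (Fin.succ j) : ℤ_[p]) * (((z j).val : ℕ) : ℤ_[p]) ^ k := by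
    have e1 : (p : ℤ) ^ 1 ∣ (a 0 * (n : ℤ) ^ k + ∑ j, a (Fin.succ j) * (((z j).val : ℕ) : ℤ) ^ k) := by
      rw [pow_one, ← ZMod.intCast_zmod_eq_zero_iff_dvd]
      push_cast
      simp only [ZMod.natCast_zmod_val]
      rw [(ZMod.natCast_eq_zero_iff n p).mpr hn, zero_pow (by omega), mul_zero, zero_add]
      exact hsum
    have e2 := (padic_pow_dvd_int (p := p) _ 1).mpr e1
    simpa using e2
  have hd : ¬ (p : ℤ_[p]) ^ (0 + 1) ∣ k * (a (Fin.succ l0) : ℤ_[p]) * ((((z l0).val : ℕ) : ℤ_[p])) ^ (k - 1) := by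
    intro h
    have e1 : (p : ℤ_[p]) ^ 1 ∣ (((k : ℤ) * a (Fin.succ l0) * (((z l0).val : ℕ) : ℤ) ^ (k - 1) : ℤ) : ℤ_[p]) := by
      push_cast; simpa using h
    rw [padic_pow_dvd_int, pow_one, ← ZMod.intCast_zmod_eq_zero_iff_dvd] at e1
    push_cast at e1
    rw [ZMod.natCast_zmod_val] at e1
    rcases mul_eq_zero.mp e1 with h' | h'
    · rcases mul_eq_zero.mp h' with h'' | h''
      · exact hk0 h''
      · exact hl0 h''
    · exact hz l0 ((pow_eq_zero_iff (by omega : k - 1 ≠ 0)).mp h')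
  obtain ⟨S, hS, hc⟩ := lift_count2 (p := p) k r (by omega) a n (fun j => (((z j).val : ℕ) : ℤ_[p])) l0 0 1 m
    le_rfl (by omega) hf hd
  refine ⟨S, fun w hw => ⟨(hS w hw).1, fun j hdj => ?_⟩, by simpa using hc⟩
  have h1 := (hS w hw).2 j
  have h2 : (p : ℤ_[p]) ^ 1 ∣ ((((w j).val : ℤ) - ((z j).val : ℤ) : ℤ) : ℤ_[p]) := by
    push_cast; exact h1
  rw [padic_pow_dvd_int, pow_one] at h2
  have h3 : (p : ℤ) ∣ ((z j).val : ℤ) := by
    have := dvd_sub hdj h2
    have e : ((w j).val : ℤ) - (((w j).val : ℤ) - ((z j).val : ℤ)) = ((z j).val : ℤ) := by ring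
    rwa [e] at this
  have h4 : p ∣ (z j).val := by exact_mod_cast h3
  have h5 : (z j).val < p := ZMod.val_lt _
  have h6 : (z j).val = 0 := Nat.eq_zero_of_dvd_of_lt h4 h5
  exact hz j ((ZMod.val_eq_zero _).mp h6)

theorem exists_unit_sol (k r' : ℕ) (hk : 1 ≤ k) (hr : 2 ≤ r') (hpk : 2 * r' * k < p)
    (a' : Fin (r' + 1) → ZMod p) (ha' : ∀ o, a' o ≠ 0)
    (hN : (p : ℝ) ^ (r' - 1) / 2 ≤ Np k r' a') :
    ∃ z : Fin r' → ZMod p, (∀ l, z l ≠ 0) ∧ LL a' (fun l => z l ^ k) = 0 := by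
  classical
  by_contra hcon
  push Not at hcon
  have hpp : (0 : ℝ) < p := by exact_mod_cast hp.out.pos
  set Sl := Finset.univ.filter (fun z : Fin r' → ZMod p => LL a' (fun l => z l ^ k) = 0) with hSl
  set Sj : Fin r' → Finset (Fin r' → ZMod p) := fun j => Sl.filter (fun z => z j = 0) with hSj
  have hsub : Sl ⊆ Finset.univ.biUnion Sj := by
    intro z hz
    have hz' := (Finset.mem_filter.mp hz).2
    rw [Finset.mem_biUnion]
    by_contra hc
    push Not at hc
    refine hcon z (fun l h0 => hc l (Finset.mem_univ _) (Finset.mem_filter.mpr ⟨hz, h0⟩)) hz'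
  have hcard : ∀ j, ((Sj j).card : ℝ) ≤ (p : ℝ) ^ (r' - 2) * k := by
    intro j
    obtain ⟨j', hj'⟩ : ∃ j' : Fin r', j' ≠ j := by
      haveI : Nontrivial (Fin r') := Fin.nontrivial_iff_two_le.mpr hr
      exact exists_ne j
    set W : Finset (Fin r' → ZMod p) := Fintype.piFinset (fun l => if l = j ∨ l = j' then {0} else Finset.univ) with hW
    have hWc : (W.card : ℝ) ≤ (p : ℝ) ^ (r' - 2) := by
      rw [hW, Fintype.card_piFinset]
      push_cast
      apply prod_le_pow_sub_two _ (p : ℝ) (by exact_mod_cast hp.out.one_lt.le) j j' hj'.symm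
        (fun l => by positivity)
      · rw [if_pos (Or.inl rfl)]; simp
      · rw [if_pos (Or.inr rfl)]; simp
      · intro l
        split_ifs
        · rw [Finset.card_singleton]; exact_mod_cast hp.out.one_lt.le
        · rw [Finset.card_univ, ZMod.card]
    have h1 := card_le_mul_real (Sj j) W (fun z => Function.update z j' 0) (by
      intro z hz
      rw [hW, Fintype.mem_piFinset]
      intro l
      rw [hSj, Finset.mem_filter] at hz
      by_cases hl : l = j ∨ l = j'
      · rw [if_pos hl, Finset.mem_singleton]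
        rcases hl with rfl | rfl
        · rw [Function.update_of_ne hj'.symm]; exact hz.2
        · rw [Function.update_self]
      · rw [if_neg hl]; exact Finset.mem_univ _) (k : ℝ) (by
      intro w _
      set Qf := (Sj j).filter (fun z => Function.update z j' 0 = w) with hQf
      have hdet : ∀ z ∈ Qf, ∀ z' ∈ Qf, ∀ l, l ≠ j' → z l = z' l := by
        intro z hz z' hz' l hl
        rw [hQf, Finset.mem_filter] at hz hz'
        have e1 := congrFun hz.2 l
        have e2 := congrFun hz'.2 l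
        rw [Function.update_of_ne hl] at e1 e2
        rw [e1, e2]
      rcases Finset.eq_empty_or_nonempty Qf with h0 | ⟨z0, hz0⟩
      · rw [h0]; simp
      have hinj : Qf.card ≤ (Finset.univ.filter (fun y : ZMod p => y ^ k = (z0 j') ^ k)).card := by
        apply Finset.card_le_card_of_injOn (fun z => z j')
        · intro z hz
          rw [Finset.mem_coe, Finset.mem_filter]
          refine ⟨Finset.mem_univ _, ?_⟩
          have e1 : LL a' (fun l => z l ^ k) = 0 := by
            rw [Finset.mem_coe, hQf, Finset.mem_filter, hSj, Finset.mem_filter] at hz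
            exact (Finset.mem_filter.mp hz.1.1).2
          have e2 : LL a' (fun l => z0 l ^ k) = 0 := by
            have hz0' := hz0
            rw [hQf, Finset.mem_filter, hSj, Finset.mem_filter] at hz0'
            exact (Finset.mem_filter.mp hz0'.1.1).2
          unfold LL at e1 e2
          rw [← Finset.add_sum_erase Finset.univ _ (Finset.mem_univ j')] at e1 e2
          have e3 : ∑ l ∈ Finset.univ.erase j', a' (Fin.succ l) * z l ^ k =
              ∑ l ∈ Finset.univ.erase j', a' (Fin.succ l) * z0 l ^ k := by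
            apply Finset.sum_congr rfl
            intro l hl
            rw [hdet z (Finset.mem_coe.mp hz) z0 hz0 l (Finset.mem_erase.mp hl).1]
          have e4 : a' (Fin.succ j') * (z j' ^ k - z0 j' ^ k) = 0 := by
            linear_combination e1 - e2 - e3
          rcases mul_eq_zero.mp e4 with h | h
          · exact absurd h (ha' _)
          · exact sub_eq_zero.mp h
        · intro z hz z' hz' hzz
          funext l
          by_cases hl : l = j'
          · rw [hl]; exact hzz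
          · exact hdet z (Finset.mem_coe.mp hz) z' (Finset.mem_coe.mp hz') l hl
      exact_mod_cast hinj.trans (card_roots_le k hk _))
    refine h1.trans ?_
    exact mul_le_mul_of_nonneg_right hWc (by positivity)
  have htot : (Sl.card : ℝ) ≤ r' * ((p : ℝ) ^ (r' - 2) * k) := by
    calc (Sl.card : ℝ) ≤ ((Finset.univ.biUnion Sj).card : ℝ) := by exact_mod_cast Finset.card_le_card hsub
      _ ≤ ∑ j : Fin r', ((Sj j).card : ℝ) := by exact_mod_cast Finset.card_biUnion_le
      _ ≤ ∑ j : Fin r', (p : ℝ) ^ (r' - 2) * k := Finset.sum_le_sum (fun j _ => hcard j)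
      _ = _ := by rw [Finset.sum_const, Finset.card_univ, Fintype.card_fin, nsmul_eq_mul]
  have hNp : (Np k r' a' : ℝ) = Sl.card := by unfold Np; rfl
  rw [hNp] at hN
  have h2 : (p : ℝ) ^ (r' - 1) = (p : ℝ) ^ (r' - 2) * p := by rw [← pow_succ]; congr 1; omega
  rw [h2] at hN
  have h3 : (p : ℝ) ^ (r' - 2) * p ≤ (p : ℝ) ^ (r' - 2) * (2 * r' * k) := by nlinarith
  have h4 : (p : ℝ) ≤ 2 * r' * k := le_of_mul_le_mul_left h3 (by positivity)
  have h5 : p ≤ 2 * r' * k := by exact_mod_cast h4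
  omega

/-- bad classes at the auxiliary prime. -/
noncomputable def BadPi (k r p : ℕ) [Fact p.Prime] : Finset (Fin (r + 1) → ZMod p) := by
  classical
  exact Finset.univ.filter (fun a => (∃ o, a o = 0) ∨
    ¬ ∃ z : Fin r → ZMod p, (∀ l, z l ≠ 0) ∧ ∑ l, a (Fin.succ l) * z l ^ k = 0)

theorem card_BadPi_le (k r : ℕ) (hk : 1 ≤ k) (hr : 5 ≤ r) (hpk : 2 * r * k < p) :
    ((BadPi k r p).card : ℝ) ≤ (r + 1 + 4 * (k : ℝ) ^ r) * (p : ℝ) ^ r := by
  classical
  have hpp : (0 : ℝ) < p := by exact_mod_cast hp.out.pos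
  have hp1 : (1 : ℝ) ≤ p := by exact_mod_cast hp.out.one_lt.le
  obtain ⟨r', rfl⟩ : ∃ r', r = r' + 1 := ⟨r - 1, by omega⟩
  set A1 := Finset.univ.biUnion (fun o : Fin (r' + 1 + 1) =>
    (Finset.univ.filter (fun a : Fin (r' + 1 + 1) → ZMod p => a o = 0))) with hA1
  set B1 := Finset.univ.filter (fun a' : Fin (r' + 1) → ZMod p =>
    ¬ ((p : ℝ) ^ (r' - 1) / 2 ≤ (Np k r' a' : ℝ))) with hB1
  set A2 := Finset.univ.filter (fun a : Fin (r' + 1 + 1) → ZMod p => Fin.tail a ∈ B1) with hA2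
  have hsub : BadPi k (r' + 1) p ⊆ A1 ∪ A2 := by
    intro a ha
    rw [BadPi, Finset.mem_filter] at ha
    rw [Finset.mem_union]
    by_cases h0 : ∃ o, a o = 0
    · left
      obtain ⟨o, ho⟩ := h0
      rw [hA1, Finset.mem_biUnion]
      exact ⟨o, Finset.mem_univ _, Finset.mem_filter.mpr ⟨Finset.mem_univ _, ho⟩⟩
    · right
      rcases ha.2 with h | h
      · exact absurd h h0
      push Not at h0
      rw [hA2, Finset.mem_filter]
      refine ⟨Finset.mem_univ _, ?_⟩
      rw [hB1, Finset.mem_filter]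
      refine ⟨Finset.mem_univ _, fun hN => h ?_⟩
      obtain ⟨z, hz1, hz2⟩ := exists_unit_sol (p := p) k r' hk (by omega) (by
        have : 2 * r' * k ≤ 2 * (r' + 1) * k := Nat.mul_le_mul_right _ (by omega)
        omega) (Fin.tail a) (fun o => h0 _) hN
      refine ⟨Fin.cons 1 z, ?_, ?_⟩
      · intro l
        refine Fin.cases ?_ (fun l' => ?_) l
        · rw [Fin.cons_zero]; exact one_ne_zero
        · rw [Fin.cons_succ]; exact hz1 l'
      · rw [Fin.sum_univ_succ]
        simp only [Fin.cons_zero, Fin.cons_succ, one_pow, mul_one]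
        unfold LL Fin.tail at hz2
        exact hz2
  have hc1 : (A1.card : ℝ) ≤ (r' + 1 + 1) * (p : ℝ) ^ (r' + 1) := by
    have h1 : ∀ o : Fin (r' + 1 + 1), (Finset.univ.filter (fun a : Fin (r' + 1 + 1) → ZMod p => a o = 0)).card ≤
        p ^ (r' + 1) := by
      intro o
      have h2 : (Finset.univ : Finset (Fin (r' + 1) → ZMod p)).card = p ^ (r' + 1) := by
        rw [Finset.card_univ, Fintype.card_fun, ZMod.card, Fintype.card_fin]
      rw [← h2]
      apply Finset.card_le_card_of_injOn (fun a j => a (o.succAbove j))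
      · intro a _; simp
      · intro a ha b hb hab
        rw [Finset.mem_coe, Finset.mem_filter] at ha hb
        funext i
        by_cases hi : i = o
        · rw [hi, ha.2, hb.2]
        · obtain ⟨j, rfl⟩ := Fin.exists_succAbove_eq hi
          exact congrFun hab j
    calc (A1.card : ℝ) ≤ ∑ o : Fin (r' + 1 + 1),
          ((Finset.univ.filter (fun a : Fin (r' + 1 + 1) → ZMod p => a o = 0)).card : ℝ) := by
          exact_mod_cast Finset.card_biUnion_le
      _ ≤ ∑ o : Fin (r' + 1 + 1), (p : ℝ) ^ (r' + 1) := by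
          apply Finset.sum_le_sum
          intro o _
          exact_mod_cast h1 o
      _ = _ := by
          rw [Finset.sum_const, Finset.card_univ, Fintype.card_fin, nsmul_eq_mul]
          push_cast; ring
  have hB1c : (B1.card : ℝ) ≤ 4 * (k : ℝ) ^ r' * (p : ℝ) ^ 2 := by
    have hm := moment_mod_p (p := p) k r' hk (by omega)
    have e1 : (B1.card : ℝ) * ((p : ℝ) ^ (r' - 1) / 2) ^ 2 ≤ (k : ℝ) ^ r' * (p : ℝ) ^ (2 * r') := by
      calc (B1.card : ℝ) * ((p : ℝ) ^ (r' - 1) / 2) ^ 2 = ∑ a ∈ B1, ((p : ℝ) ^ (r' - 1) / 2) ^ 2 := by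
            rw [Finset.sum_const, nsmul_eq_mul]
        _ ≤ ∑ a ∈ B1, ((Np k r' a : ℝ) - (p : ℝ) ^ (r' - 1)) ^ 2 := by
            apply Finset.sum_le_sum
            intro a ha
            rw [hB1, Finset.mem_filter] at ha
            have h1 := not_le.mp ha.2
            rw [← sq_abs ((Np k r' a : ℝ) - _)]
            apply pow_le_pow_left₀ (by positivity)
            rw [abs_sub_comm]
            refine le_trans ?_ (le_abs_self _)
            linarith
        _ ≤ ∑ a : Fin (r' + 1) → ZMod p, ((Np k r' a : ℝ) - (p : ℝ) ^ (r' - 1)) ^ 2 :=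
            Finset.sum_le_sum_of_subset_of_nonneg (Finset.subset_univ _) (fun _ _ _ => by positivity)
        _ ≤ _ := hm
    have e2 : (p : ℝ) ^ (2 * r') = (p : ℝ) ^ 2 * ((p : ℝ) ^ (r' - 1)) ^ 2 := by
      rw [← pow_mul, ← pow_add]; congr 1; omega
    have e3 : (B1.card : ℝ) * ((p : ℝ) ^ (r' - 1)) ^ 2 ≤ (4 * (k : ℝ) ^ r' * (p : ℝ) ^ 2) * ((p : ℝ) ^ (r' - 1)) ^ 2 := by
      rw [e2] at e1
      have : (B1.card : ℝ) * ((p : ℝ) ^ (r' - 1) / 2) ^ 2 = (B1.card : ℝ) * ((p : ℝ) ^ (r' - 1)) ^ 2 / 4 := by ring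
      rw [this] at e1
      linarith
    exact le_of_mul_le_mul_right e3 (by positivity)
  have hc2 : (A2.card : ℝ) ≤ p * (4 * (k : ℝ) ^ r' * (p : ℝ) ^ 2) := by
    have h1 : A2.card ≤ ((Finset.univ : Finset (ZMod p)) ×ˢ B1).card := by
      apply Finset.card_le_card_of_injOn (fun a => (a 0, Fin.tail a))
      · intro a ha
        rw [Finset.mem_coe, Finset.mem_product]
        exact ⟨Finset.mem_univ _, (Finset.mem_filter.mp ha).2⟩
      · intro a _ b _ hab
        simp only [Prod.mk.injEq] at hab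
        rw [← Fin.cons_self_tail a, ← Fin.cons_self_tail b, hab.1, hab.2]
    rw [Finset.card_product, Finset.card_univ, ZMod.card] at h1
    calc (A2.card : ℝ) ≤ p * B1.card := by exact_mod_cast h1
      _ ≤ _ := by gcongr
  have hfin : (p : ℝ) * (4 * (k : ℝ) ^ r' * (p : ℝ) ^ 2) ≤ 4 * (k : ℝ) ^ (r' + 1) * (p : ℝ) ^ (r' + 1) := by
    have h1 : (p : ℝ) ^ 3 ≤ (p : ℝ) ^ (r' + 1) := pow_le_pow_right₀ hp1 (by omega)
    have h2 : (k : ℝ) ^ r' ≤ (k : ℝ) ^ (r' + 1) := pow_le_pow_right₀ (by exact_mod_cast hk) (by omega)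
    calc (p : ℝ) * (4 * (k : ℝ) ^ r' * (p : ℝ) ^ 2) = 4 * (k : ℝ) ^ r' * (p : ℝ) ^ 3 := by ring
      _ ≤ _ := by gcongr
  calc ((BadPi k (r' + 1) p).card : ℝ) ≤ ((A1 ∪ A2).card : ℝ) := by exact_mod_cast Finset.card_le_card hsub
    _ ≤ (A1.card : ℝ) + A2.card := by exact_mod_cast Finset.card_union_le _ _
    _ ≤ (r' + 1 + 1) * (p : ℝ) ^ (r' + 1) + 4 * (k : ℝ) ^ (r' + 1) * (p : ℝ) ^ (r' + 1) :=
        add_le_add hc1 (hc2.trans hfin)
    _ = _ := by push_cast; ring

end

end Pool.Agent.H888.DH
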