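import Pool.Agent.H888.WA.L2
import Pool.Agent.H888.DH.Loc5

set_option linter.unusedVariables false
set_option linter.unusedSectionVars false
set_option linter.style.haveILetI false

namespace Pool.Agent.H888.DH

open Finset

/-- Solutions modulo `N` with local constraints at the prime divisors of `N`. -/
noncomputable def SolG (k r : ℕ) (a : Fin (r + 1) → ℤ) (n N : ℕ) [NeZero N]
    (Γ : ℕ → (Fin r → ℤ) → Prop) : Finset (Fin r → ZMod N) := by
  classical
  exact (SolN k r a n N).filter (fun z => ∀ p ∈ N.primeFactors, Γ p (fun l => (((z l).val : ℕ) : ℤ)))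

theorem mem_SolG {k r : ℕ} {a : Fin (r + 1) → ℤ} {n N : ℕ} [NeZero N] {Γ : ℕ → (Fin r → ℤ) → Prop}
    {z : Fin r → ZMod N} : z ∈ SolG k r a n N Γ ↔ z ∈ SolN k r a n N ∧
      ∀ p ∈ N.primeFactors, Γ p (fun l => (((z l).val : ℕ) : ℤ)) := by
  classical
  rw [SolG, Finset.mem_filter]

theorem card_SolG_mul (k r : ℕ) (a : Fin (r + 1) → ℤ) (n : ℕ) {x y : ℕ} [NeZero x] [NeZero y]
    [NeZero (x * y)] (h : x.Coprime y) (Γ : ℕ → (Fin r → ℤ) → Prop) (f : ℕ → ℕ)
    (hΓ : ∀ (p : ℕ) (z z' : Fin r → ℤ), (∀ l, (p : ℤ) ^ (f p) ∣ z' l - z l) → Γ p z → Γ p z')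
    (hx : ∀ p ∈ x.primeFactors, p ^ (f p) ∣ x) (hy : ∀ p ∈ y.primeFactors, p ^ (f p) ∣ y) :
    (SolG k r a n x Γ).card * (SolG k r a n y Γ).card ≤ (SolG k r a n (x * y) Γ).card := by
  classical
  rw [← Finset.card_product]
  let e := ZMod.chineseRemainder h
  have he1 : ∀ w : ZMod x × ZMod y, (x : ℤ) ∣ (((e.symm w).val : ℕ) : ℤ) - ((w.1.val : ℕ) : ℤ) := by
    intro w
    rw [← ZMod.intCast_zmod_eq_zero_iff_dvd]
    push_cast
    rw [ZMod.natCast_zmod_val]
    have h1 : e (((e.symm w).val : ℕ) : ZMod (x * y)) = w := by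
      rw [ZMod.natCast_zmod_val, RingEquiv.apply_symm_apply]
    rw [map_natCast] at h1
    have h2 := congrArg Prod.fst h1
    rw [Prod.fst_natCast] at h2
    rw [h2, sub_self]
  have he2 : ∀ w : ZMod x × ZMod y, (y : ℤ) ∣ (((e.symm w).val : ℕ) : ℤ) - ((w.2.val : ℕ) : ℤ) := by
    intro w
    rw [← ZMod.intCast_zmod_eq_zero_iff_dvd]
    push_cast
    rw [ZMod.natCast_zmod_val]
    have h1 : e (((e.symm w).val : ℕ) : ZMod (x * y)) = w := by
      rw [ZMod.natCast_zmod_val, RingEquiv.apply_symm_apply]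
    rw [map_natCast] at h1
    have h2 := congrArg Prod.snd h1
    rw [Prod.snd_natCast] at h2
    rw [h2, sub_self]
  apply Finset.card_le_card_of_injOn (fun z l => e.symm (z.1 l, z.2 l))
  · intro z hz
    rw [Finset.mem_coe, Finset.mem_product] at hz
    rw [Finset.mem_coe, mem_SolG]
    obtain ⟨h1, g1⟩ := mem_SolG.mp hz.1
    obtain ⟨h2, g2⟩ := mem_SolG.mp hz.2
    refine ⟨?_, ?_⟩
    · rw [mem_SolN] at h1 h2 ⊢
      apply e.injective
      rw [map_add, map_mul, map_pow, map_sum, map_zero, map_intCast, map_natCast]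
      have h3 : ∀ l, e ((a (Fin.succ l) : ZMod (x * y)) * (e.symm (z.1 l, z.2 l)) ^ k) =
          ((a (Fin.succ l) : ZMod x) * (z.1 l) ^ k, (a (Fin.succ l) : ZMod y) * (z.2 l) ^ k) := by
        intro l
        rw [map_mul, map_pow, RingEquiv.apply_symm_apply, map_intCast]
        rfl
      simp only [h3]
      apply Prod.ext
      · simp only [Prod.fst_add, Prod.fst_mul, Prod.pow_fst, Prod.fst_intCast, Prod.fst_natCast,
          Prod.fst_sum, Prod.fst_zero]
        exact h1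
      · simp only [Prod.snd_add, Prod.snd_mul, Prod.pow_snd, Prod.snd_intCast, Prod.snd_natCast,
          Prod.snd_sum, Prod.snd_zero]
        exact h2
    · intro p hp
      rw [Nat.Coprime.primeFactors_mul h, Finset.mem_union] at hp
      rcases hp with hp | hp
      · refine hΓ p _ _ ?_ (g1 p hp)
        intro l
        have h4 : ((p : ℤ)) ^ (f p) ∣ (x : ℤ) := by exact_mod_cast hx p hp
        exact h4.trans (he1 (z.1 l, z.2 l))
      · refine hΓ p _ _ ?_ (g2 p hp)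
        intro l
        have h4 : ((p : ℤ)) ^ (f p) ∣ (y : ℤ) := by exact_mod_cast hy p hp
        exact h4.trans (he2 (z.1 l, z.2 l))
  · intro z _ z' _ hzz
    have h1 : ∀ l, (z.1 l, z.2 l) = (z'.1 l, z'.2 l) := by
      intro l
      exact e.symm.injective (congrFun hzz l)
    apply Prod.ext
    · funext l; exact congrArg Prod.fst (h1 l)
    · funext l; exact congrArg Prod.snd (h1 l)

/-- Product lower bound for the number of constrained solutions. -/
theorem card_SolG_lower (k r : ℕ) (a : Fin (r + 1) → ℤ) (n : ℕ) (Γ : ℕ → (Fin r → ℤ) → Prop) (f : ℕ → ℕ)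
    (hΓ : ∀ (p : ℕ) (z z' : Fin r → ℤ), (∀ l, (p : ℤ) ^ (f p) ∣ z' l - z l) → Γ p z → Γ p z') (w : ℕ → ℝ)
    (hw : ∀ p : ℕ, p.Prime → 0 ≤ w p)
    (h : ∀ p : ℕ, p.Prime → ∀ m : ℕ, 0 < m → f p ≤ m → ∀ _ : NeZero (p ^ m),
      ∃ S : Finset (Fin r → ZMod (p ^ m)), (∀ z ∈ S, z ∈ SolN k r a n (p ^ m) ∧
        Γ p (fun l => (((z l).val : ℕ) : ℤ))) ∧ w p * ((p : ℝ) ^ m) ^ (r - 1) ≤ S.card)
    (N : ℕ) [NeZero N] (hN : ∀ p ∈ N.primeFactors, p ^ (f p) ∣ N) :
    (∏ p ∈ N.primeFactors, w p) * (N : ℝ) ^ (r - 1) ≤ (SolG k r a n N Γ).card := by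
  classical
  have key : ∀ N : ℕ, ∀ _ : NeZero N, (∀ p ∈ N.primeFactors, p ^ (f p) ∣ N) →
      (∏ p ∈ N.primeFactors, w p) * (N : ℝ) ^ (r - 1) ≤ (SolG k r a n N Γ).card := by
    intro N
    induction N using Nat.recOnPosPrimePosCoprime with
    | prime_pow p m hp hm =>
      intro inst hN
      have hpf : (p ^ m).primeFactors = {p} := Nat.primeFactors_prime_pow hm.ne' hp
      have hfm : f p ≤ m := by
        have := hN p (by rw [hpf]; exact Finset.mem_singleton_self p)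
        exact (Nat.pow_dvd_pow_iff_le_right hp.one_lt).mp this
      obtain ⟨S, hS, hc⟩ := h p hp m hm hfm inst
      rw [hpf, Finset.prod_singleton]
      push_cast
      refine hc.trans ?_
      have hsub : S ⊆ SolG k r a n (p ^ m) Γ := by
        intro z hz
        rw [mem_SolG]
        refine ⟨(hS z hz).1, ?_⟩
        intro p' hp'
        rw [hpf, Finset.mem_singleton] at hp'
        rw [hp']
        exact (hS z hz).2
      exact_mod_cast Finset.card_le_card hsub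
    | zero => intro h; exact absurd rfl h.out
    | one =>
      intro _ _
      simp only [Nat.primeFactors_one, Finset.prod_empty, Nat.cast_one, one_pow, one_mul]
      have : (0 : Fin r → ZMod 1) ∈ SolG k r a n 1 Γ := by
        rw [mem_SolG]
        refine ⟨?_, ?_⟩
        · rw [mem_SolN]; exact Subsingleton.elim _ _
        · intro p hp; simp at hp
      exact_mod_cast Finset.card_pos.mpr ⟨_, this⟩
    | coprime x y hx hy hxy ihx ihy =>
      intro _ hN
      haveI : NeZero x := ⟨by omega⟩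
      haveI : NeZero y := ⟨by omega⟩
      have hNx : ∀ p ∈ x.primeFactors, p ^ (f p) ∣ x := by
        intro p hp
        have h1 := hN p (by rw [Nat.Coprime.primeFactors_mul hxy]; exact Finset.mem_union_left _ hp)
        have hpx := Nat.dvd_of_mem_primeFactors hp
        have hpp := Nat.prime_of_mem_primeFactors hp
        have hcop : Nat.Coprime (p ^ (f p)) y := by
          apply Nat.Coprime.pow_left
          exact Nat.Coprime.coprime_dvd_left hpx hxy
        exact hcop.dvd_of_dvd_mul_right h1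
      have hNy : ∀ p ∈ y.primeFactors, p ^ (f p) ∣ y := by
        intro p hp
        have h1 := hN p (by rw [Nat.Coprime.primeFactors_mul hxy]; exact Finset.mem_union_right _ hp)
        have hpx := Nat.dvd_of_mem_primeFactors hp
        have hcop : Nat.Coprime (p ^ (f p)) x := by
          apply Nat.Coprime.pow_left
          exact Nat.Coprime.coprime_dvd_left hpx hxy.symm
        exact hcop.dvd_of_dvd_mul_left h1
      rw [Nat.Coprime.primeFactors_mul hxy, Finset.prod_union hxy.disjoint_primeFactors]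
      have h1 := ihx inferInstance hNx
      have h2 := ihy inferInstance hNy
      have h3 := card_SolG_mul k r a n hxy Γ f hΓ hNx hNy
      have h4 : 0 ≤ (∏ p ∈ y.primeFactors, w p) * (y : ℝ) ^ (r - 1) :=
        mul_nonneg (Finset.prod_nonneg (fun p hp => hw p (Nat.prime_of_mem_primeFactors hp)))
          (by positivity)
      calc ((∏ p ∈ x.primeFactors, w p) * ∏ p ∈ y.primeFactors, w p) * ((x * y : ℕ) : ℝ) ^ (r - 1)
          = ((∏ p ∈ x.primeFactors, w p) * (x : ℝ) ^ (r - 1)) *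
            ((∏ p ∈ y.primeFactors, w p) * (y : ℝ) ^ (r - 1)) := by
            push_cast; rw [mul_pow]; ring
        _ ≤ ((SolG k r a n x Γ).card : ℝ) * (SolG k r a n y Γ).card :=
            mul_le_mul h1 h2 h4 (by positivity)
        _ ≤ _ := by exact_mod_cast h3
  exact key N inferInstance hN

section
variable {p : ℕ} [hp : Fact p.Prime]

/-- Data at a small prime. -/
theorem prime_data (k r : ℕ) (hk : 1 ≤ k) (a : Fin (r + 1) → ℤ) (M e : ℕ) (he : 1 ≤ e)
    (ha : ∀ o, ¬ (p : ℤ) ^ (M + 1) ∣ a o) (u : Fin (r + 1) → ℤ_[p])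
    (hprim : ∃ o, IsUnit (u o)) (hu : ∑ o, (a o : ℤ_[p]) * (u o) ^ k = 0) :
    ∃ c ≤ 2 * (k + M) + e, ∀ n' : ℕ, ¬ p ∣ n' → ∃ (ξ : Fin r → ℕ) (T0 : ℕ), ¬ p ∣ T0 ∧
      ((p : ℤ_[p]) ^ e ∣ ((p ^ c * n' : ℕ) : ℤ_[p]) - T0 * u 0) ∧
      (∀ j, (p : ℤ_[p]) ^ e ∣ (ξ j : ℤ_[p]) - T0 * u (Fin.succ j)) ∧
      ∀ m : ℕ, 2 * (k + M) + e ≤ m → ∀ _ : NeZero (p ^ m), ∃ S : Finset (Fin r → ZMod (p ^ m)),
        (∀ z ∈ S, z ∈ SolN k r a (p ^ c * n') (p ^ m) ∧ ∀ j, (p : ℤ) ^ e ∣ (((z j).val : ℕ) : ℤ) - ξ j) ∧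
        (p ^ (m - (2 * (k + M) + e))) ^ (r - 1) ≤ S.card := by
  classical
  obtain ⟨c, hc, u', hu'u, hu', hε, hl⟩ := localS (p := p) k r hk a M e he ha u hprim hu
  refine ⟨c, hc, fun n' hn' => ?_⟩
  obtain ⟨lam, hlam, hcount⟩ := countS (p := p) k r hk a M e c he u' hu' hε hl n' hn'
  haveI : NeZero (p ^ e) := ⟨(pow_pos hp.out.pos _).ne'⟩
  set ξ : Fin r → ℕ := fun j => (PadicInt.toZModPow e ((lam : ℤ_[p]) * u' (Fin.succ j))).val with hξ
  set T0 : ℕ := (PadicInt.toZModPow e (lam : ℤ_[p])).val with hT0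
  have hT0c : (p : ℤ_[p]) ^ e ∣ (T0 : ℤ_[p]) - lam := val_toZModPow_sub e _
  have hξc : ∀ j, (p : ℤ_[p]) ^ e ∣ (ξ j : ℤ_[p]) - lam * u' (Fin.succ j) := fun j => val_toZModPow_sub e _
  refine ⟨ξ, T0, ?_, ?_, ?_, ?_⟩
  · intro hd
    have h1 := isUnit_of_dvd_sub (p := p) lam.isUnit e he hT0c
    have h2 : (p : ℤ_[p]) ∣ (T0 : ℤ_[p]) := by exact_mod_cast (Nat.cast_dvd_cast hd : ((p : ℕ) : ℤ_[p]) ∣ _)
    exact PadicInt.prime_p.not_isUnit (isUnit_of_dvd_unit h2 h1)
  · rw [hlam]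
    have h1 : (lam : ℤ_[p]) * u' 0 - T0 * u 0 = lam * (u' 0 - u 0) - (T0 - lam) * u 0 := by ring
    rw [h1]
    exact dvd_sub ((hu'u 0).mul_left _) (hT0c.mul_right _)
  · intro j
    have h1 : (ξ j : ℤ_[p]) - T0 * u (Fin.succ j) = ((ξ j : ℤ_[p]) - lam * u' (Fin.succ j)) +
        lam * (u' (Fin.succ j) - u (Fin.succ j)) - (T0 - lam) * u (Fin.succ j) := by ring
    rw [h1]
    exact dvd_sub (dvd_add (hξc j) ((hu'u _).mul_left _)) (hT0c.mul_right _)
  · intro m hm inst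
    obtain ⟨S, hS, hcS⟩ := hcount m hm inst
    refine ⟨S, fun z hz => ⟨(hS z hz).1, fun j => ?_⟩, hcS⟩
    have h1 := (hS z hz).2 j
    have h2 := dvd_sub h1 (hξc j)
    have e1 : ((((z j).val : ℕ) : ℤ_[p]) - lam * u' (Fin.succ j)) - ((ξ j : ℤ_[p]) - lam * u' (Fin.succ j)) =
        ((((z j).val : ℕ) : ℤ) - (ξ j : ℤ) : ℤ) := by push_cast; ring
    rw [e1, padic_pow_dvd_int] at h2
    exact h2

end

end Pool.Agent.H888.DH
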