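import Pool.Agent.H888.WA.L3

set_option linter.unusedVariables false
set_option linter.unusedSectionVars false
set_option linter.style.haveILetI false

namespace Pool.Agent.H888.DH

open Finset

/-- the local constraints -/
def Gam (r p0 e π : ℕ) (ξ : Fin r → ℕ) (p : ℕ) (z : Fin r → ℤ) : Prop :=
  (p ≤ p0 → ∀ l, (p : ℤ) ^ e ∣ z l - ξ l) ∧ (p = π → ∀ l, ¬ (π : ℤ) ∣ z l)

/-- lower bound for the density -/
noncomputable def sig1 (r p0 E π : ℕ) : ℝ :=
  (∏ p ∈ prs p0, 1 / ((p : ℝ) ^ E) ^ (r - 1)) * (1 / (π : ℝ) ^ (r - 1)) * (1 / 2)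

theorem sig1_pos (r p0 E π : ℕ) (hπ : 0 < π) : 0 < sig1 r p0 E π := by
  unfold sig1
  have hπ' : (0 : ℝ) < π := by exact_mod_cast hπ
  apply mul_pos _ (by norm_num)
  apply mul_pos _ (by positivity)
  apply Finset.prod_pos
  intro p hp
  have := (mem_prs.mp hp).2.pos
  have : (0 : ℝ) < p := by exact_mod_cast this
  positivity

set_option maxHeartbeats 1000000 in
theorem sigma_lower2 (k r : ℕ) (hk : 3 ≤ k) (hr : 7 ≤ r) (p0 M e π : ℕ) [hπ : Fact π.Prime]
    (hp0 : 4 ≤ p0) (hkp : k ≤ p0) (he : 1 ≤ e) (hπ0 : p0 < π) (a : Fin (r + 1) → ℤ)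
    (u : ∀ p : ℕ, ∀ _ : Fact p.Prime, Fin (r + 1) → ℤ_[p])
    (hprim : ∀ (p : ℕ) (hp : Fact p.Prime), p ≤ p0 → ∃ o, IsUnit (u p hp o))
    (hu : ∀ (p : ℕ) (hp : Fact p.Prime), p ≤ p0 → ∑ o, (a o : ℤ_[p]) * (u p hp o) ^ k = 0)
    (ha : ∀ p : ℕ, p.Prime → p ≤ p0 → ∀ o, ¬ (p : ℤ) ^ (M + 1) ∣ a o)
    (hπa : (fun o => ((a o : ℤ) : ZMod π)) ∉ BadPi k r π) :
    ∃ n₀ : ℕ, 1 ≤ n₀ ∧ n₀ ≤ nmax p0 (2 * (k + M) + e) ∧ ∀ jj : ℕ, 1 ≤ jj →
      ∃ (ξ : Fin r → ℕ) (T0 : ℕ), (∀ l, ξ l < nmax p0 e) ∧ T0 < nmax p0 e ∧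
      (∀ (p : ℕ) (hp : Fact p.Prime), p ≤ p0 → ¬ p ∣ T0 ∧
        ((p : ℤ_[p]) ^ e ∣ ((n₀ * π ^ jj : ℕ) : ℤ_[p]) - T0 * u p hp 0) ∧
        (∀ j, (p : ℤ_[p]) ^ e ∣ (ξ j : ℤ_[p]) - T0 * u p hp (Fin.succ j))) ∧
      ∀ G : ℕ, (∀ p : ℕ, ∀ _ : Fact p.Prime, p0 < p → p ≤ G → p ≠ π →
          (fun o => ((a o : ℤ) : ZMod p)) ∉ BadP k r p) →
        ∀ _ : NeZero (n₀ ^ k * ((π * nmax p0 (2 * (k + M) + e)) * G.factorial)),
        sig1 r p0 (2 * (k + M) + e) π *
          ((n₀ ^ k * ((π * nmax p0 (2 * (k + M) + e)) * G.factorial) : ℕ) : ℝ) ^ (r - 1) ≤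
        (SolG k r a (n₀ * π ^ jj) (n₀ ^ k * ((π * nmax p0 (2 * (k + M) + e)) * G.factorial))
          (Gam r p0 e π ξ)).card := by
  classical
  set E := 2 * (k + M) + e with hE
  have hP : ∀ p : ℕ, ∃ c : ℕ, ∀ (hp : Fact p.Prime), p ≤ p0 → c ≤ E ∧ ∀ n' : ℕ, ¬ p ∣ n' →
      ∃ (ξ : Fin r → ℕ) (T0 : ℕ), ¬ p ∣ T0 ∧
      ((p : ℤ_[p]) ^ e ∣ ((p ^ c * n' : ℕ) : ℤ_[p]) - T0 * u p hp 0) ∧
      (∀ j, (p : ℤ_[p]) ^ e ∣ (ξ j : ℤ_[p]) - T0 * u p hp (Fin.succ j)) ∧
      ∀ m : ℕ, E ≤ m → ∀ _ : NeZero (p ^ m), ∃ S : Finset (Fin r → ZMod (p ^ m)),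
        (∀ z ∈ S, z ∈ SolN k r a (p ^ c * n') (p ^ m) ∧ ∀ j, (p : ℤ) ^ e ∣ (((z j).val : ℕ) : ℤ) - ξ j) ∧
        (p ^ (m - E)) ^ (r - 1) ≤ S.card := by
    intro p
    by_cases hp : p.Prime ∧ p ≤ p0
    · haveI : Fact p.Prime := ⟨hp.1⟩
      obtain ⟨c, hc1, hc2⟩ := prime_data (p := p) k r (by omega) a M e he (ha p hp.1 hp.2)
        (u p inferInstance) (hprim p inferInstance hp.2) (hu p inferInstance hp.2)
      exact ⟨c, fun hp' _ => ⟨hc1, hc2⟩⟩
    · exact ⟨0, fun h1 h2 => absurd ⟨h1.out, h2⟩ hp⟩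
  choose c hc using hP
  set n₀ := ∏ p ∈ prs p0, p ^ c p with hn₀
  have hn1 : 1 ≤ n₀ := by
    apply Nat.one_le_iff_ne_zero.mpr
    rw [hn₀, Finset.prod_ne_zero_iff]
    intro p hp
    exact pow_ne_zero _ (mem_prs.mp hp).2.ne_zero
  have hnmax : n₀ ≤ nmax p0 E := by
    unfold nmax
    apply Finset.prod_le_prod'
    intro p hp
    have := mem_prs.mp hp
    exact Nat.pow_le_pow_right this.2.pos (hc p ⟨this.2⟩ this.1).1
  have hn₀p : ∀ p : ℕ, p.Prime → p0 < p → ¬ p ∣ n₀ := by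
    intro p hp hpp hd
    rw [hn₀] at hd
    obtain ⟨q, hq, hd'⟩ := (Prime.dvd_finsetProd_iff hp.prime _).mp hd
    have h3 := (Nat.prime_dvd_prime_iff_eq hp (mem_prs.mp hq).2).mp (hp.dvd_of_dvd_pow hd')
    have := (mem_prs.mp hq).1
    omega
  refine ⟨n₀, hn1, hnmax, ?_⟩
  intro jj hjj
  set n := n₀ * π ^ jj with hn
  have hX : ∀ p : ℕ, ∃ (ξ : Fin r → ℕ) (T0 : ℕ), ∀ (hp : Fact p.Prime), p ≤ p0 → ¬ p ∣ T0 ∧
      ((p : ℤ_[p]) ^ e ∣ ((n : ℕ) : ℤ_[p]) - T0 * u p hp 0) ∧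
      (∀ j, (p : ℤ_[p]) ^ e ∣ (ξ j : ℤ_[p]) - T0 * u p hp (Fin.succ j)) ∧
      ∀ m : ℕ, E ≤ m → ∀ _ : NeZero (p ^ m), ∃ S : Finset (Fin r → ZMod (p ^ m)),
        (∀ z ∈ S, z ∈ SolN k r a n (p ^ m) ∧ ∀ j, (p : ℤ) ^ e ∣ (((z j).val : ℕ) : ℤ) - ξ j) ∧
        (p ^ (m - E)) ^ (r - 1) ≤ S.card := by
    intro p
    by_cases hp : p.Prime ∧ p ≤ p0
    · haveI : Fact p.Prime := ⟨hp.1⟩
      have hpp : p ∈ prs p0 := mem_prs.mpr ⟨hp.2, hp.1⟩
      have hdec : n = p ^ c p * ((∏ q ∈ (prs p0).erase p, q ^ c q) * π ^ jj) := by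
        rw [hn, hn₀, ← Finset.mul_prod_erase _ _ hpp]; ring
      have hnd : ¬ p ∣ (∏ q ∈ (prs p0).erase p, q ^ c q) * π ^ jj := by
        intro hd
        rcases (Nat.Prime.dvd_mul hp.1).mp hd with hd | hd
        · obtain ⟨q, hq, hd'⟩ := (Prime.dvd_finsetProd_iff hp.1.prime _).mp hd
          rw [Finset.mem_erase] at hq
          have h3 := (Nat.prime_dvd_prime_iff_eq hp.1 (mem_prs.mp hq.2).2).mp (hp.1.dvd_of_dvd_pow hd')
          exact hq.1 h3.symm
        · have h3 := (Nat.prime_dvd_prime_iff_eq hp.1 hπ.out).mp (hp.1.dvd_of_dvd_pow hd)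
          have := hp.2
          omega
      obtain ⟨ξ, T0, h1⟩ := (hc p inferInstance hp.2).2 _ hnd
      rw [← hdec] at h1
      exact ⟨ξ, T0, fun hp' _ => h1⟩
    · exact ⟨0, 0, fun h1 h2 => absurd ⟨h1.out, h2⟩ hp⟩
  choose ξp Tp hXp using hX
  -- CRT
  have hne : ∀ p ∈ prs p0, p ^ e ≠ 0 := fun p hp => pow_ne_zero _ (mem_prs.mp hp).2.ne_zero
  have hpw : Set.Pairwise (prs p0 : Set ℕ) (Function.onFun Nat.Coprime (fun p => p ^ e)) := by
    intro p hp q hq hpq
    have h1 := (mem_prs.mp (Finset.mem_coe.mp hp)).2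
    have h2 := (mem_prs.mp (Finset.mem_coe.mp hq)).2
    exact Nat.Coprime.pow e e ((Nat.coprime_primes h1 h2).mpr hpq)
  set ξ : Fin r → ℕ := fun l =>
    (Nat.chineseRemainderOfFinset (fun p => ξp p l) (fun p => p ^ e) (prs p0) hne hpw : ℕ) with hξ
  have hξmod : ∀ l, ∀ p ∈ prs p0, ξ l ≡ ξp p l [MOD p ^ e] := fun l =>
    (Nat.chineseRemainderOfFinset (fun p => ξp p l) (fun p => p ^ e) (prs p0) hne hpw).2
  have hξlt : ∀ l, ξ l < nmax p0 e := fun l => Nat.chineseRemainderOfFinset_lt_prod _ _ hne hpw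
  set T0 : ℕ := (Nat.chineseRemainderOfFinset (fun p => Tp p) (fun p => p ^ e) (prs p0) hne hpw : ℕ) with hT0
  have hTmod : ∀ p ∈ prs p0, T0 ≡ Tp p [MOD p ^ e] :=
    (Nat.chineseRemainderOfFinset (fun p => Tp p) (fun p => p ^ e) (prs p0) hne hpw).2
  have hTlt : T0 < nmax p0 e := Nat.chineseRemainderOfFinset_lt_prod _ _ hne hpw
  refine ⟨ξ, T0, hξlt, hTlt, ?_, ?_⟩
  · intro p hp hpp
    have hmem : p ∈ prs p0 := mem_prs.mpr ⟨hpp, hp.out⟩
    obtain ⟨h1, h2, h3, _⟩ := hXp p hp hpp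
    have hTd : (p : ℤ_[p]) ^ e ∣ (T0 : ℤ_[p]) - Tp p := by
      have h4 : ((p ^ e : ℕ) : ℤ) ∣ (T0 : ℤ) - Tp p := (Nat.modEq_iff_dvd.mp (hTmod p hmem).symm)
      have h5 : (p : ℤ) ^ e ∣ ((T0 : ℤ) - Tp p) := by exact_mod_cast h4
      have h6 := (padic_pow_dvd_int (p := p) _ e).mpr h5
      push_cast at h6
      exact h6
    have hξd : ∀ j, (p : ℤ_[p]) ^ e ∣ (ξ j : ℤ_[p]) - ξp p j := by
      intro j
      have h4 : ((p ^ e : ℕ) : ℤ) ∣ (ξ j : ℤ) - ξp p j := (Nat.modEq_iff_dvd.mp (hξmod j p hmem).symm)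
      have h5 : (p : ℤ) ^ e ∣ ((ξ j : ℤ) - ξp p j) := by exact_mod_cast h4
      have h6 := (padic_pow_dvd_int (p := p) _ e).mpr h5
      push_cast at h6
      exact h6
    refine ⟨?_, ?_, ?_⟩
    · intro hd
      apply h1
      have h4 : p ∣ p ^ e := dvd_pow_self _ (by omega)
      have h5 : T0 ≡ Tp p [MOD p] := (hTmod p hmem).of_dvd h4
      exact (Nat.ModEq.dvd_iff h5 dvd_rfl).mp hd
    · have e1 : ((n : ℕ) : ℤ_[p]) - T0 * u p hp 0 = (((n : ℕ) : ℤ_[p]) - Tp p * u p hp 0) -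
          (T0 - Tp p) * u p hp 0 := by ring
      rw [e1]
      exact dvd_sub h2 (hTd.mul_right _)
    · intro j
      have e1 : (ξ j : ℤ_[p]) - T0 * u p hp (Fin.succ j) = ((ξ j : ℤ_[p]) - ξp p j) +
          ((ξp p j : ℤ_[p]) - Tp p * u p hp (Fin.succ j)) - (T0 - Tp p) * u p hp (Fin.succ j) := by ring
      rw [e1]
      exact dvd_sub (dvd_add (hξd j) (h3 j)) (hTd.mul_right _)
  · intro G hgood inst
    set K := n₀ ^ k * ((π * nmax p0 E) * G.factorial) with hK
    set f : ℕ → ℕ := fun p => if p ≤ p0 then max E e else if p = π then 1 else 0 with hf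
    have hEe : max E e = E := max_eq_left (by omega)
    set w : ℕ → ℝ := fun p => if p ≤ p0 then 1 / ((p : ℝ) ^ E) ^ (r - 1) else
      if p = π then 1 / (π : ℝ) ^ (r - 1) else
      if p ≤ G then 1 - 2 / (p : ℝ) ^ 2 else 0 with hw
    have hπR : (0 : ℝ) < π := by exact_mod_cast hπ.out.pos
    have hw0 : ∀ p, p.Prime → 0 ≤ w p := by
      intro p hp
      simp only [hw]
      split_ifs
      · positivity
      · positivity
      · have : (2 : ℝ) ≤ p := by exact_mod_cast hp.two_le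
        have : 2 / (p : ℝ) ^ 2 ≤ 1 := by rw [div_le_one (by positivity)]; nlinarith
        linarith
      · exact le_rfl
    have hΓ : ∀ (p : ℕ) (z z' : Fin r → ℤ), (∀ l, (p : ℤ) ^ (f p) ∣ z' l - z l) →
        Gam r p0 e π ξ p z → Gam r p0 e π ξ p z' := by
      intro p z z' hzz hG
      refine ⟨fun hpp l => ?_, fun hpp l hd => ?_⟩
      · have h1 := hG.1 hpp l
        have h2 := hzz l
        simp only [hf] at h2
        rw [if_pos hpp, hEe] at h2
        have h3 : (p : ℤ) ^ e ∣ z' l - z l := (pow_dvd_pow _ (by omega)).trans h2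
        have := dvd_add h3 h1
        have e1 : z' l - z l + (z l - ξ l) = z' l - ξ l := by ring
        rwa [e1] at this
      · have h1 := hG.2 hpp l
        have h2 := hzz l
        simp only [hf] at h2
        rw [if_neg (by omega), if_pos hpp, pow_one, hpp] at h2
        apply h1
        have := dvd_sub hd h2
        have e1 : z' l - (z' l - z l) = z l := by ring
        rwa [e1] at this
    have hlow := card_SolG_lower k r a n (Gam r p0 e π ξ) f hΓ w hw0 (by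
      intro p hp m hm hfm inst'
      haveI : Fact p.Prime := ⟨hp⟩
      have hpR : (0 : ℝ) < p := by exact_mod_cast hp.pos
      by_cases h1 : p ≤ p0
      · -- small primes
        simp only [hf] at hfm
        rw [if_pos h1, hEe] at hfm
        obtain ⟨_, _, _, hS⟩ := hXp p inferInstance h1
        obtain ⟨S, hS1, hS2⟩ := hS m hfm inst'
        refine ⟨S, fun z hz => ⟨(hS1 z hz).1, ⟨fun _ l => ?_, fun hpp => ?_⟩⟩, ?_⟩
        · have h2 := (hS1 z hz).2 l
          have hmem : p ∈ prs p0 := mem_prs.mpr ⟨h1, hp⟩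
          have h4 : ((p ^ e : ℕ) : ℤ) ∣ (ξ l : ℤ) - ξp p l := (Nat.modEq_iff_dvd.mp (hξmod l p hmem).symm)
          have h5 : (p : ℤ) ^ e ∣ ((ξ l : ℤ) - ξp p l) := by exact_mod_cast h4
          have := dvd_sub h2 h5
          have e1 : (((z l).val : ℕ) : ℤ) - (ξp p l : ℤ) - ((ξ l : ℤ) - ξp p l) = (((z l).val : ℕ) : ℤ) - ξ l := by
            ring
          rwa [e1] at this
        · omega
        · simp only [hw]
          rw [if_pos h1]
          have e1 : 1 / ((p : ℝ) ^ E) ^ (r - 1) * ((p : ℝ) ^ m) ^ (r - 1) = (((p : ℝ) ^ (m - E))) ^ (r - 1) := by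
            have e2 : (p : ℝ) ^ m = (p : ℝ) ^ (m - E) * (p : ℝ) ^ E := by
              rw [← pow_add]; congr 1; omega
            rw [e2, mul_pow]
            field_simp
          rw [e1]
          exact_mod_cast hS2
      · by_cases h2 : p = π
        · subst h2
          rw [BadPi, Finset.mem_filter] at hπa
          push Not at hπa
          obtain ⟨hb1, z, hz1, hz2⟩ := hπa (Finset.mem_univ _)
          have hpk : ¬ p ∣ k := by
            intro hd
            have := Nat.le_of_dvd (by omega) hd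
            omega
          obtain ⟨S, hS1, hS2⟩ := countPi (p := p) k r (by omega) hpk a n (by
            rw [hn]; exact Dvd.dvd.mul_left (dvd_pow_self _ (by omega)) _) ⟨0, by omega⟩
            (hb1 _) z hz1 hz2 m hm
          refine ⟨S, fun z hz => ⟨(hS1 z hz).1, ⟨fun h3 => absurd h3 h1, fun _ l => (hS1 z hz).2 l⟩⟩, ?_⟩
          simp only [hw]
          rw [if_neg h1, if_pos trivial]
          have e1 : 1 / (p : ℝ) ^ (r - 1) * ((p : ℝ) ^ m) ^ (r - 1) = (((p : ℝ) ^ (m - 1))) ^ (r - 1) := by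
            have e2 : (p : ℝ) ^ m = (p : ℝ) ^ (m - 1) * p := by
              rw [← pow_succ]; congr 1; omega
            rw [e2, mul_pow]
            field_simp
          rw [e1]
          exact_mod_cast hS2
        · refine ⟨SolN k r a n (p ^ m), fun z hz => ⟨hz, ⟨fun h3 => absurd h3 h1, fun h3 => absurd h3 h2⟩⟩, ?_⟩
          simp only [hw]
          rw [if_neg h1, if_neg h2]
          split_ifs with h3
          · have hnd : ¬ p ∣ n := by
              intro hd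
              rcases (Nat.Prime.dvd_mul hp).mp hd with hd | hd
              · exact hn₀p p hp (by omega) hd
              · exact h2 ((Nat.prime_dvd_prime_iff_eq hp hπ.out).mp (hp.dvd_of_dvd_pow hd))
            have hkd : ¬ p ∣ k := by
              intro hd
              have := Nat.le_of_dvd (by omega) hd
              omega
            exact localG (p := p) k r (by omega) hr hkd a (hgood p inferInstance (by omega) h3 h2) n hnd m hm
          · rw [zero_mul]; positivity) K (by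
      intro p hp
      have hpp := Nat.prime_of_mem_primeFactors hp
      simp only [hf]
      split_ifs with h1 h2
      · rw [hEe, hK]
        apply Dvd.dvd.mul_left
        apply Dvd.dvd.mul_right
        apply Dvd.dvd.mul_left
        exact Finset.dvd_prod_of_mem (fun p => p ^ E) (mem_prs.mpr ⟨h1, hpp⟩)
      · rw [pow_one, h2, hK]
        exact Dvd.dvd.mul_left (Dvd.dvd.mul_right (dvd_mul_right _ _) _) _
      · rw [pow_zero]; exact one_dvd _)
    refine le_trans ?_ hlow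
    apply mul_le_mul_of_nonneg_right _ (by positivity)
    -- compare products
    set I' := (Finset.Ioc p0 G).erase π with hI'
    have hsub : K.primeFactors ⊆ (prs p0 ∪ {π}) ∪ I' := by
      intro p hp
      rw [Nat.mem_primeFactors] at hp
      rw [Finset.mem_union, Finset.mem_union, mem_prs, Finset.mem_singleton, hI', Finset.mem_erase,
        Finset.mem_Ioc]
      by_cases h1 : p ≤ p0
      · left; left; exact ⟨h1, hp.1⟩
      · by_cases h2 : p = π
        · left; right; exact h2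
        · right
          refine ⟨h2, by omega, ?_⟩
          rcases (Nat.Prime.dvd_mul hp.1).mp hp.2.1 with h3 | h3
          · exact absurd (hp.1.dvd_of_dvd_pow h3) (hn₀p p hp.1 (by omega))
          · rcases (Nat.Prime.dvd_mul hp.1).mp h3 with h4 | h4
            · rcases (Nat.Prime.dvd_mul hp.1).mp h4 with h5 | h5
              · exact absurd ((Nat.prime_dvd_prime_iff_eq hp.1 hπ.out).mp h5) h2
              · exfalso
                unfold nmax at h5
                obtain ⟨q, hq, hd'⟩ := (Prime.dvd_finsetProd_iff hp.1.prime _).mp h5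
                have h6 := (Nat.prime_dvd_prime_iff_eq hp.1 (mem_prs.mp hq).2).mp (hp.1.dvd_of_dvd_pow hd')
                have := (mem_prs.mp hq).1
                omega
            · exact (Nat.Prime.dvd_factorial hp.1).mp h4
    have hd1 : Disjoint (prs p0) ({π} : Finset ℕ) := by
      rw [Finset.disjoint_left]
      intro p hp hp'
      have := (mem_prs.mp hp).1
      rw [Finset.mem_singleton] at hp'
      omega
    have hd2 : Disjoint (prs p0 ∪ {π}) I' := by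
      rw [Finset.disjoint_left]
      intro p hp hp'
      rw [hI', Finset.mem_erase, Finset.mem_Ioc] at hp'
      rw [Finset.mem_union, Finset.mem_singleton] at hp
      rcases hp with hp | hp
      · have := (mem_prs.mp hp).1
        omega
      · exact hp'.1 hp
    have hE1 : ∀ p ∈ prs p0, w p = 1 / ((p : ℝ) ^ E) ^ (r - 1) := by
      intro p hp
      simp only [hw]; rw [if_pos (mem_prs.mp hp).1]
    have hEπ : w π = 1 / (π : ℝ) ^ (r - 1) := by
      simp only [hw]; rw [if_neg (by omega), if_pos trivial]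
    have hE2 : ∀ p ∈ I', w p = 1 - 2 / (p : ℝ) ^ 2 := by
      intro p hp
      rw [hI', Finset.mem_erase, Finset.mem_Ioc] at hp
      simp only [hw]; rw [if_neg (by omega), if_neg hp.1, if_pos hp.2.2]
    have hfac : ∀ i ∈ Finset.Ioc p0 G, 0 ≤ 1 - 2 / (i : ℝ) ^ 2 ∧ 1 - 2 / (i : ℝ) ^ 2 ≤ 1 := by
      intro i hi
      rw [Finset.mem_Ioc] at hi
      have hip : (4 : ℝ) ≤ i := by exact_mod_cast (by omega : 4 ≤ i)
      have h1 : 2 / (i : ℝ) ^ 2 ≤ 1 := by rw [div_le_one (by positivity)]; nlinarith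
      have h2 : 0 ≤ 2 / (i : ℝ) ^ 2 := by positivity
      exact ⟨by linarith, by linarith⟩
    have hr1 : ∀ i ∈ (prs p0 ∪ {π}) ∪ I', 0 ≤ w i ∧ w i ≤ 1 := by
      intro i hi
      rw [Finset.mem_union, Finset.mem_union, Finset.mem_singleton] at hi
      rcases hi with (hi | hi) | hi
      · rw [hE1 i hi]
        have hip : (1 : ℝ) ≤ i := by exact_mod_cast (mem_prs.mp hi).2.pos
        refine ⟨by positivity, ?_⟩
        rw [div_le_one (by positivity)]
        exact one_le_pow₀ (one_le_pow₀ hip)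
      · rw [hi, hEπ]
        refine ⟨by positivity, ?_⟩
        rw [div_le_one (by positivity)]
        exact one_le_pow₀ (by exact_mod_cast hπ.out.one_lt.le)
      · rw [hE2 i hi]
        exact hfac i (Finset.mem_of_mem_erase hi)
    have hhalf : (1 / 2 : ℝ) ≤ ∏ p ∈ I', (1 - 2 / (p : ℝ) ^ 2) :=
      (prod_tail_ge_half p0 hp0 G).trans (prod_le_prod_of_subset_le_one (Finset.erase_subset _ _) _
        (fun i hi => (hfac i hi).1) (fun i hi => (hfac i hi).2))
    calc sig1 r p0 E π = (∏ p ∈ prs p0, 1 / ((p : ℝ) ^ E) ^ (r - 1)) * (1 / (π : ℝ) ^ (r - 1)) * (1 / 2) := rfl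
      _ ≤ (∏ p ∈ prs p0, 1 / ((p : ℝ) ^ E) ^ (r - 1)) * (1 / (π : ℝ) ^ (r - 1)) *
          ∏ p ∈ I', (1 - 2 / (p : ℝ) ^ 2) := by
          apply mul_le_mul_of_nonneg_left hhalf
          apply mul_nonneg _ (by positivity)
          exact Finset.prod_nonneg (fun p _ => by positivity)
      _ = (∏ p ∈ prs p0, w p) * w π * ∏ p ∈ I', w p := by
          rw [Finset.prod_congr rfl hE1, Finset.prod_congr rfl hE2, hEπ]
      _ = ∏ p ∈ (prs p0 ∪ {π}) ∪ I', w p := by
          rw [Finset.prod_union hd2, Finset.prod_union hd1, Finset.prod_singleton]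
      _ ≤ ∏ p ∈ K.primeFactors, w p :=
          prod_le_prod_of_subset_le_one hsub w (fun i hi => (hr1 i hi).1) (fun i hi => (hr1 i hi).2)

end Pool.Agent.H888.DH
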