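import Pool.Agent.H888.DH.Var1

set_option linter.unusedVariables false
set_option linter.unusedSectionVars false
set_option linter.style.haveILetI false

namespace Pool.Agent.H888.DH

open Finset Complex

/-- The joint gcd of `q^k gE` and of the minors. -/
noncomputable def gG {r : ℕ} (k q : ℕ) (x y : Fin r → ℤ) : ℕ :=
  Nat.gcd (q ^ k * gE k x y)
    ((Finset.univ : Finset (Fin r × Fin r)).gcd
      (fun p => x p.1 ^ k * y p.2 ^ k - x p.2 ^ k * y p.1 ^ k)).natAbs

theorem gG_dvd_minor {r : ℕ} (k q : ℕ) (x y : Fin r → ℤ) (l m : Fin r) :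
    (gG k q x y : ℤ) ∣ x l ^ k * y m ^ k - x m ^ k * y l ^ k := by
  have h1 : (gG k q x y : ℤ) ∣ (((Finset.univ : Finset (Fin r × Fin r)).gcd
      (fun p => x p.1 ^ k * y p.2 ^ k - x p.2 ^ k * y p.1 ^ k)).natAbs : ℤ) := by
    unfold gG; exact_mod_cast Nat.gcd_dvd_right _ _
  rw [Int.dvd_natAbs] at h1
  exact h1.trans (Finset.gcd_dvd (f := fun p : Fin r × Fin r =>
    x p.1 ^ k * y p.2 ^ k - x p.2 ^ k * y p.1 ^ k) (Finset.mem_univ (l, m)))

theorem gG_dvd_q {r : ℕ} (k q : ℕ) (x y : Fin r → ℤ) : gG k q x y ∣ q ^ k * gE k x y := by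
  unfold gG; exact Nat.gcd_dvd_left _ _

theorem gE_dvd_gG {r : ℕ} (k q : ℕ) (x y : Fin r → ℤ) : gE k x y ∣ gG k q x y := by
  unfold gG
  apply Nat.dvd_gcd (dvd_mul_left _ _)
  rw [← Int.natCast_dvd]
  apply Finset.dvd_gcd
  intro p _
  have h1 := gE_dvd k x y p.1
  have h2 := gE_dvd k x y p.2
  have e : x p.1 ^ k * y p.2 ^ k - x p.2 ^ k * y p.1 ^ k =
      x p.1 ^ k * (y p.2 ^ k - x p.2 ^ k) - x p.2 ^ k * (y p.1 ^ k - x p.1 ^ k) := by ring
  rw [e]
  exact dvd_sub (h2.mul_left _) (h1.mul_left _)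

theorem gG_pos {r : ℕ} {k q : ℕ} (hq : 1 ≤ q) {x y : Fin r → ℤ} (hg : 1 ≤ gE k x y) : 1 ≤ gG k q x y := by
  unfold gG
  exact Nat.gcd_pos_of_pos_left _ (Nat.mul_pos (pow_pos hq k) hg)

theorem gG_bezout {r : ℕ} (k q : ℕ) (x y : Fin r → ℤ) :
    ∃ (c0 : ℤ) (c : Fin r × Fin r → ℤ), c0 * ((q : ℤ) ^ k * gE k x y) +
      ∑ p, c p * (x p.1 ^ k * y p.2 ^ k - x p.2 ^ k * y p.1 ^ k) = (gG k q x y : ℤ) := by
  obtain ⟨f, hf⟩ := Finset.gcd_eq_sum_mul (Finset.univ : Finset (Fin r × Fin r))
    (fun p => x p.1 ^ k * y p.2 ^ k - x p.2 ^ k * y p.1 ^ k)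
  set D := (Finset.univ : Finset (Fin r × Fin r)).gcd
    (fun p => x p.1 ^ k * y p.2 ^ k - x p.2 ^ k * y p.1 ^ k) with hD
  have h1 : (gG k q x y : ℤ) = Int.gcd ((q ^ k * gE k x y : ℕ) : ℤ) D := by
    unfold gG
    rw [Int.gcd_eq_natAbs, Int.natAbs_natCast]
  have h2 := Int.gcd_eq_gcd_ab ((q ^ k * gE k x y : ℕ) : ℤ) D
  rw [← h1] at h2
  refine ⟨Int.gcdA ((q ^ k * gE k x y : ℕ) : ℤ) D, fun p => Int.gcdB ((q ^ k * gE k x y : ℕ) : ℤ) D * f p, ?_⟩
  rw [h2]
  have e3 : ∑ p, Int.gcdB ((q ^ k * gE k x y : ℕ) : ℤ) D * f p *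
      (x p.1 ^ k * y p.2 ^ k - x p.2 ^ k * y p.1 ^ k) = Int.gcdB ((q ^ k * gE k x y : ℕ) : ℤ) D * D := by
    rw [hf, Finset.mul_sum]
    apply Finset.sum_congr rfl
    intro p _
    ring
  rw [e3]
  push_cast
  ring

/-- `gG = gE π^c`. -/
theorem gG_shape {r : ℕ} {k π jj : ℕ} (hπ : π.Prime) {x y : Fin r → ℤ} (hg : 1 ≤ gE k x y) :
    ∃ c ≤ k * jj, gG k (π ^ jj) x y = gE k x y * π ^ c := by
  obtain ⟨f, hf⟩ := gE_dvd_gG k (π ^ jj) x y
  have h1 := gG_dvd_q k (π ^ jj) x y
  rw [hf, mul_comm ((π ^ jj) ^ k)] at h1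
  have h2 : f ∣ π ^ (k * jj) := by
    have := (Nat.mul_dvd_mul_iff_left (by omega : 0 < gE k x y)).mp h1
    rwa [← pow_mul, mul_comm jj k] at this
  obtain ⟨c, hc, hfc⟩ := (Nat.dvd_prime_pow hπ).mp h2
  exact ⟨c, hc, by rw [hf, hfc]⟩

/-- Refined structure of exact points. -/
theorem exact_struct2 {r : ℕ} (k n q : ℕ) (hn : 1 ≤ n) (hq : 1 ≤ q) (x y : Fin r → ℤ)
    (hg : 1 ≤ gE k x y) (w : Fin (r + 1) → ℤ)
    (hminor : ∀ a b, minor (VV (n * q) k x) (VV (n * q) k y) w a b = 0) :
    ∃ P Q : ℤ, ∀ o, ((n : ℤ) ^ k * gG k q x y) * w o =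
      P * VV (n * q) k x o + Q * VV (n * q) k y o := by
  obtain ⟨c, hc⟩ := gE_bezout k x y
  obtain ⟨P0, Q0, h1, h2⟩ := exact_struct (VV (n * q) k x) (VV (n * q) k y) w (((n * q : ℕ) : ℤ) ^ k)
    (VV_zero _ _ _) (VV_zero _ _ _) (gE k x y : ℤ) c (by simpa only [VV_succ] using hc) hminor
  obtain ⟨f, hf⟩ := gG_dvd_q k q x y
  have hG := gG_pos hq hg
  have hGz : (gG k q x y : ℤ) ≠ 0 := by exact_mod_cast (by omega : gG k q x y ≠ 0)
  have hfpos : f ≠ 0 := by
    rintro rfl
    rw [mul_zero] at hf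
    have : 0 < q ^ k * gE k x y := Nat.mul_pos (pow_pos hq k) hg
    omega
  have hfz : (f : ℤ) ≠ 0 := by exact_mod_cast hfpos
  have hfz' : ((q : ℤ) ^ k * gE k x y) = gG k q x y * f := by exact_mod_cast hf
  obtain ⟨c0, c', hb⟩ := gG_bezout k q x y
  have hP : (f : ℤ) ∣ P0 := by
    have key : P0 * gG k q x y = gG k q x y * (f * (c0 * P0 + (n : ℤ) ^ k * ∑ p : Fin r × Fin r, c' p *
        (w p.1.succ * y p.2 ^ k - w p.2.succ * y p.1 ^ k))) := by
      have e1 : ∀ p : Fin r × Fin r, P0 * (x p.1 ^ k * y p.2 ^ k - x p.2 ^ k * y p.1 ^ k) =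
          gG k q x y * (f * ((n : ℤ) ^ k * (w p.1.succ * y p.2 ^ k - w p.2.succ * y p.1 ^ k))) := by
        intro p
        have a1 := h2 p.1.succ
        have a2 := h2 p.2.succ
        simp only [VV_succ] at a1 a2
        have e2 : (((n * q : ℕ) : ℤ) ^ k * (gE k x y : ℤ)) = (n : ℤ) ^ k * (gG k q x y * f) := by
          rw [← hfz']; push_cast; ring
        rw [e2] at a1 a2
        linear_combination (-(y p.2 ^ k)) * a1 + y p.1 ^ k * a2
      calc P0 * gG k q x y = c0 * P0 * ((q : ℤ) ^ k * gE k x y) +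
            ∑ p, c' p * (P0 * (x p.1 ^ k * y p.2 ^ k - x p.2 ^ k * y p.1 ^ k)) := by
            rw [← hb, mul_add, Finset.mul_sum]
            congr 1
            · ring
            · apply Finset.sum_congr rfl; intro p _; ring
        _ = c0 * P0 * (gG k q x y * f) + ∑ p : Fin r × Fin r, c' p * (gG k q x y * (f * ((n : ℤ) ^ k *
              (w p.1.succ * y p.2 ^ k - w p.2.succ * y p.1 ^ k)))) := by
            rw [hfz']
            congr 1
            apply Finset.sum_congr rfl; intro p _; rw [e1]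
        _ = _ := by
            rw [mul_add, mul_add, Finset.mul_sum, Finset.mul_sum, Finset.mul_sum]
            congr 1
            · ring
            · apply Finset.sum_congr rfl; intro p _; ring
    rw [mul_comm P0] at key
    exact ⟨_, mul_left_cancel₀ hGz key⟩
  have hQ : (f : ℤ) ∣ Q0 := by
    have key : Q0 * gG k q x y = gG k q x y * (f * (c0 * Q0 + (n : ℤ) ^ k * ∑ p : Fin r × Fin r, c' p *
        (x p.1 ^ k * w p.2.succ - x p.2 ^ k * w p.1.succ))) := by
      have e1 : ∀ p : Fin r × Fin r, Q0 * (x p.1 ^ k * y p.2 ^ k - x p.2 ^ k * y p.1 ^ k) =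
          gG k q x y * (f * ((n : ℤ) ^ k * (x p.1 ^ k * w p.2.succ - x p.2 ^ k * w p.1.succ))) := by
        intro p
        have a1 := h2 p.1.succ
        have a2 := h2 p.2.succ
        simp only [VV_succ] at a1 a2
        have e2 : (((n * q : ℕ) : ℤ) ^ k * (gE k x y : ℤ)) = (n : ℤ) ^ k * (gG k q x y * f) := by
          rw [← hfz']; push_cast; ring
        rw [e2] at a1 a2
        linear_combination (x p.2 ^ k) * a1 - x p.1 ^ k * a2
      calc Q0 * gG k q x y = c0 * Q0 * ((q : ℤ) ^ k * gE k x y) +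
            ∑ p, c' p * (Q0 * (x p.1 ^ k * y p.2 ^ k - x p.2 ^ k * y p.1 ^ k)) := by
            rw [← hb, mul_add, Finset.mul_sum]
            congr 1
            · ring
            · apply Finset.sum_congr rfl; intro p _; ring
        _ = c0 * Q0 * (gG k q x y * f) + ∑ p : Fin r × Fin r, c' p * (gG k q x y * (f * ((n : ℤ) ^ k *
              (x p.1 ^ k * w p.2.succ - x p.2 ^ k * w p.1.succ)))) := by
            rw [hfz']
            congr 1
            apply Finset.sum_congr rfl; intro p _; rw [e1]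
        _ = _ := by
            rw [mul_add, mul_add, Finset.mul_sum, Finset.mul_sum, Finset.mul_sum]
            congr 1
            · ring
            · apply Finset.sum_congr rfl; intro p _; ring
    rw [mul_comm Q0] at key
    exact ⟨_, mul_left_cancel₀ hGz key⟩
  obtain ⟨P, hP⟩ := hP
  obtain ⟨Q, hQ⟩ := hQ
  refine ⟨P, Q, fun o => ?_⟩
  have h3 := h2 o
  have e2 : (((n * q : ℕ) : ℤ) ^ k * (gE k x y : ℤ)) = (n : ℤ) ^ k * (gG k q x y * f) := by
    rw [← hfz']; push_cast; ring
  rw [e2, hP, hQ] at h3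
  apply mul_left_cancel₀ hfz
  linear_combination h3

/-- The count of exact points, second version. -/
theorem exact_count2 (r k m J B B0 : ℕ) (V W : Fin (r + 1) → ℤ) (N g : ℕ) (hN : 1 ≤ N) (hg : 1 ≤ g)
    (hB0 : 1 ≤ B0) (hB : 1 ≤ B) (hm : 0 < m) (hJ : 0 < J)
    (hV : ∀ o, |V o| ≤ (B : ℤ) ^ k) (hW : ∀ o, |W o| ≤ (B : ℤ) ^ k) (p : Fin r) (q : Fin (r + 1))
    (hWp : (B0 : ℤ) ^ k ≤ W p.succ) (D : ℤ) (hD : D = V p.succ * W q - V q * W p.succ) (hD0 : D ≠ 0)
    (hDJ : |D| ≤ J * (B : ℤ) ^ k) (hB0J : B0 ^ k ≤ J) (h4 : 4 * J * B ^ k ≤ m)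
    (hfib : ∀ t : ℤ, (∀ o, ((N * g : ℕ) : ℤ) ∣ t * W o) → (g : ℤ) ∣ N * t)
    (S : Finset (ℤ × ℤ)) (hS0 : S ⊆ box2 m)
    (hS : ∀ z ∈ S, ∃ w : Fin (r + 1) → ℤ, ∃ P Q : ℤ, nearW m J V W z w ∧
      ∀ o, (N * g : ℤ) * w o = P * V o + Q * W o) :
    (S.card : ℝ) ≤ 375 * N ^ 3 * g * J ^ 2 * B ^ k / (B0 ^ k * |(D : ℝ)|) := by
  classical
  choose! w P Q hnear hrel using hS
  have hDpos : (0 : ℝ) < |(D : ℝ)| := by rw [abs_pos]; exact_mod_cast hD0
  have hDposZ : (0 : ℤ) < |D| := abs_pos.mpr hD0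
  have hB0k : (0 : ℝ) < (B0 : ℝ) ^ k := by positivity
  have hBk : (0 : ℤ) < (B : ℤ) ^ k := by positivity
  set G : ℤ := N * g with hG
  have hGpos : 0 < G := by positivity
  set I : ℤ × ℤ → ℤ := fun z => G * z.1 - m * P z with hI
  set I' : ℤ × ℤ → ℤ := fun z => G * z.2 + m * Q z with hI'
  have hII : ∀ z ∈ S, ∀ o, I z * V o - I' z * W o = G * (z.1 * V o - z.2 * W o - m * w z o) := by
    intro z hz o
    simp only [hI, hI']
    linear_combination m * hrel z hz o
  have hclose := fun z hz => exact_close r k m J B V W (w z) G hGpos hV hW p.succ q D hD z (P z) (Q z)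
    (hnear z hz) (hrel z hz)
  have hID : ∀ z ∈ S, |I z| * |D| ≤ 2 * G * J * (B : ℤ) ^ k := fun z hz => (hclose z hz).1
  have hID' : ∀ z ∈ S, |I' z| * |D| ≤ 2 * G * J * (B : ℤ) ^ k := fun z hz => (hclose z hz).2
  have h4' : (4 : ℤ) * J * (B : ℤ) ^ k ≤ m := by exact_mod_cast h4
  have hm' : (0 : ℤ) < m := by exact_mod_cast hm
  have hI2 : ∀ z ∈ S, 2 * |I z| ≤ G * m := by
    intro z hz
    have h1 : |I z| ≤ |I z| * |D| := le_mul_of_one_le_right (abs_nonneg _) (by omega)
    have h2 := hID z hz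
    have h3 : G * (4 * J * (B : ℤ) ^ k) ≤ G * m := mul_le_mul_of_nonneg_left h4' hGpos.le
    linarith
  have hI2' : ∀ z ∈ S, 2 * |I' z| ≤ G * m := by
    intro z hz
    have h1 : |I' z| ≤ |I' z| * |D| := le_mul_of_one_le_right (abs_nonneg _) (by omega)
    have h2 := hID' z hz
    have h3 : G * (4 * J * (B : ℤ) ^ k) ≤ G * m := mul_le_mul_of_nonneg_left h4' hGpos.le
    linarith
  have hPb : ∀ z ∈ S, |P z| ≤ 2 * G := by
    intro z hz
    obtain ⟨b1, b2, b3, b4⟩ := mem_box2.mp (hS0 hz)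
    have e : m * P z = G * z.1 - I z := by simp only [hI]; ring
    have h1 : m * |P z| ≤ m * (2 * G) := by
      calc m * |P z| = |(m : ℤ) * P z| := by rw [abs_mul, abs_of_pos hm']
        _ ≤ |G * z.1| + |I z| := by rw [e]; exact abs_sub _ _
        _ ≤ G * m + G * m := by
            have : |G * z.1| ≤ G * m := by
              rw [abs_mul, abs_of_pos hGpos, abs_of_nonneg b1]
              exact mul_le_mul_of_nonneg_left b2.le hGpos.le
            linarith [hI2 z hz, abs_nonneg (I z)]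
        _ = m * (2 * G) := by ring
    exact le_of_mul_le_mul_left h1 hm'
  have hQb : ∀ z ∈ S, |Q z| ≤ 2 * G := by
    intro z hz
    obtain ⟨b1, b2, b3, b4⟩ := mem_box2.mp (hS0 hz)
    have e : m * Q z = I' z - G * z.2 := by simp only [hI']; ring
    have h1 : m * |Q z| ≤ m * (2 * G) := by
      calc m * |Q z| = |(m : ℤ) * Q z| := by rw [abs_mul, abs_of_pos hm']
        _ ≤ |I' z| + |G * z.2| := by rw [e]; exact abs_sub _ _
        _ ≤ G * m + G * m := by
            have : |G * z.2| ≤ G * m := by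
              rw [abs_mul, abs_of_pos hGpos, abs_of_nonneg b3]
              exact mul_le_mul_of_nonneg_left b4.le hGpos.le
            linarith [hI2' z hz, abs_nonneg (I' z)]
        _ = m * (2 * G) := by ring
    exact le_of_mul_le_mul_left h1 hm'
  -- number of classes
  set Cl := S.image (fun z => (P z, Q z)) with hCl
  have hN' : (1 : ℝ) ≤ N := by exact_mod_cast hN
  have hN0z : (N : ℤ) ≠ 0 := by exact_mod_cast (by omega : N ≠ 0)
  have hg' : (1 : ℝ) ≤ g := by exact_mod_cast hg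
  have hClcard : (Cl.card : ℝ) ≤ (5 * (N * g)) * (5 * N ^ 2) := by
    have h1 := card_le_mul_real Cl (Finset.Icc (-(2 * G)) (2 * G)) (fun t => t.1) (by
      intro t ht
      rw [hCl, Finset.mem_image] at ht
      obtain ⟨z, hz, rfl⟩ := ht
      rw [Finset.mem_Icc]
      exact abs_le.mp (hPb z hz)) (5 * N ^ 2) (by
      intro P0 _
      set F := Cl.filter (fun t => t.1 = P0) with hF
      have hinj : F.card = (F.image (fun t => (N : ℤ) * t.2)).card := by
        rw [Finset.card_image_of_injOn]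
        intro t ht t' ht' htt
        exact Prod.ext ((Finset.mem_filter.mp ht).2.trans (Finset.mem_filter.mp ht').2.symm)
          (mul_left_cancel₀ hN0z htt)
      rw [hinj]
      have h2 := card_le_of_dvd_sub (F.image (fun t => (N : ℤ) * t.2)) g (by omega) (4 * N * (N * g))
        (by positivity)
        (by
          intro a ha b hb
          rw [Finset.mem_image] at ha hb
          obtain ⟨t, ht, rfl⟩ := ha
          obtain ⟨t', ht', rfl⟩ := hb
          rw [hF, Finset.mem_filter, hCl, Finset.mem_image] at ht ht'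
          obtain ⟨⟨z, hz, rfl⟩, e1⟩ := ht
          obtain ⟨⟨z', hz', rfl⟩, e2⟩ := ht'
          simp only at e1 e2 ⊢
          rw [← mul_sub]
          apply hfib
          intro o
          have a1 := hrel z hz o
          have a2 := hrel z' hz' o
          rw [e1] at a1
          rw [e2] at a2
          refine ⟨w z o - w z' o, ?_⟩
          push_cast
          rw [hG] at a1 a2
          linear_combination a2 - a1)
        (by
          intro a ha b hb
          rw [Finset.mem_image] at ha hb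
          obtain ⟨t, ht, rfl⟩ := ha
          obtain ⟨t', ht', rfl⟩ := hb
          rw [hF, Finset.mem_filter, hCl, Finset.mem_image] at ht ht'
          obtain ⟨⟨z, hz, rfl⟩, e1⟩ := ht
          obtain ⟨⟨z', hz', rfl⟩, e2⟩ := ht'
          simp only
          have a1 := (abs_le.mp (hQb z hz)).2
          have a2 := (abs_le.mp (hQb z' hz')).1
          have h0 : Q z - Q z' ≤ 4 * G := by linarith
          have h00 : (N : ℤ) * Q z - N * Q z' ≤ 4 * N * G := by
            have := mul_le_mul_of_nonneg_left h0 (by positivity : (0 : ℤ) ≤ N)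
            linarith
          have h3 : (((N : ℤ) * Q z - N * Q z' : ℤ) : ℝ) ≤ ((4 * N * G : ℤ) : ℝ) := by exact_mod_cast h00
          rw [hG] at h3
          push_cast at h3 ⊢
          exact h3)
      refine h2.trans ?_
      have : (4 * N * (N * g) / g : ℝ) = 4 * N ^ 2 := by
        have : (g : ℝ) ≠ 0 := by positivity
        field_simp
      rw [this]
      nlinarith)
    refine h1.trans ?_
    apply mul_le_mul_of_nonneg_right _ (by positivity)
    rw [Int.card_Icc]
    have h3 : ((2 * G + 1 - -(2 * G)).toNat : ℤ) = 4 * G + 1 := by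
      rw [Int.toNat_of_nonneg (by linarith)]; ring
    have h4 : (((2 * G + 1 - -(2 * G)).toNat : ℕ) : ℝ) = 4 * (N * g) + 1 := by
      have : (((2 * G + 1 - -(2 * G)).toNat : ℤ) : ℝ) = ((4 * G + 1 : ℤ) : ℝ) := by rw [h3]
      rw [hG] at this
      push_cast at this
      push_cast
      exact this
    rw [h4]
    have : (1 : ℝ) ≤ N * g := by nlinarith
    linarith
  have hJ' : (0 : ℝ) < J := by exact_mod_cast hJ
  have hmain := card_le_mul_real S Cl (fun z => (P z, Q z))
    (fun z hz => Finset.mem_image_of_mem _ hz)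
    ((5 * (J * B ^ k) / |(D : ℝ)|) * (3 * J / B0 ^ k)) (by
    intro t _
    set F := S.filter (fun z => (P z, Q z) = t) with hF
    have hFi := card_le_mul_real F (F.image (fun z => z.1)) (fun z => z.1)
      (fun z hz => Finset.mem_image_of_mem _ hz) (3 * J / B0 ^ k) (by
      intro i0 _
      set F1 := F.filter (fun z => z.1 = i0) with hF1
      have hinj : F1.card = (F1.image (fun z => z.2)).card := by
        rw [Finset.card_image_of_injOn]
        intro z hz z' hz' hzz
        exact Prod.ext ((Finset.mem_filter.mp hz).2.trans (Finset.mem_filter.mp hz').2.symm) hzz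
      rw [hinj]
      have h2 := card_le_of_dvd_sub (F1.image (fun z => z.2)) 1 one_pos (2 * J / B0 ^ k) (by positivity)
        (by intro a _ b _; exact one_dvd _)
        (by
          intro a ha b hb
          rw [Finset.mem_image] at ha hb
          obtain ⟨z, hz, rfl⟩ := ha
          obtain ⟨z', hz', rfl⟩ := hb
          rw [hF1, Finset.mem_filter, hF, Finset.mem_filter] at hz hz'
          obtain ⟨⟨hzS, ht⟩, hi⟩ := hz
          obtain ⟨⟨hzS', ht'⟩, hi'⟩ := hz'
          have ht2 := ht.trans ht'.symm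
          simp only [Prod.mk.injEq] at ht2
          have e1 := hII z hzS p.succ
          have e2 := hII z' hzS' p.succ
          simp only [hI, hI'] at e1 e2
          have e3 : G * ((z.2 - z'.2) * W p.succ) = - (G * ((z.1 * V p.succ - z.2 * W p.succ - m * w z p.succ) -
              (z'.1 * V p.succ - z'.2 * W p.succ - m * w z' p.succ))) := by
            rw [ht2.1, ht2.2, hi] at e1
            rw [hi'] at e2
            linear_combination e2 - e1 + G * V p.succ * (hi - hi')
          have e4 : (z.2 - z'.2) * W p.succ = - ((z.1 * V p.succ - z.2 * W p.succ - m * w z p.succ) -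
              (z'.1 * V p.succ - z'.2 * W p.succ - m * w z' p.succ)) := by
            have : G * ((z.2 - z'.2) * W p.succ) = G * (- ((z.1 * V p.succ - z.2 * W p.succ - m * w z p.succ) -
              (z'.1 * V p.succ - z'.2 * W p.succ - m * w z' p.succ))) := by rw [e3]; ring
            exact mul_left_cancel₀ hGpos.ne' this
          have e5 : (z.2 - z'.2) * W p.succ ≤ 2 * J := by
            have b1 := (abs_lt.mp (hnear z hzS p.succ)).1
            have b2 := (abs_lt.mp (hnear z' hzS' p.succ)).2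
            linarith
          rcases le_total (z.2 - z'.2) 0 with h0 | h0
          · have : ((z.2 - z'.2 : ℤ) : ℝ) ≤ 0 := by exact_mod_cast h0
            push_cast at this
            have h7 : (0 : ℝ) ≤ 2 * J / B0 ^ k := by positivity
            linarith
          · rw [le_div_iff₀ hB0k]
            have e6 : (z.2 - z'.2) * (B0 : ℤ) ^ k ≤ 2 * J :=
              (mul_le_mul_of_nonneg_left hWp h0).trans e5
            exact_mod_cast e6)
      refine h2.trans ?_
      have h3 : (1 : ℝ) ≤ J / B0 ^ k := by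
        rw [le_div_iff₀ hB0k, one_mul]; exact_mod_cast hB0J
      have h4 : (3 * J / B0 ^ k : ℝ) = 2 * J / B0 ^ k + J / B0 ^ k := by ring
      rw [h4]
      simp only [Nat.cast_one, div_one]
      linarith)
    refine hFi.trans ?_
    apply mul_le_mul_of_nonneg_right _ (by positivity)
    have h2 := card_le_of_dvd_sub (F.image (fun z => z.1)) 1 one_pos (4 * (J * B ^ k) / |(D : ℝ)|)
      (by positivity) (by intro a _ b _; exact one_dvd _)
      (by
        intro a ha b hb
        rw [Finset.mem_image] at ha hb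
        obtain ⟨z, hz, rfl⟩ := ha
        obtain ⟨z', hz', rfl⟩ := hb
        rw [hF, Finset.mem_filter] at hz hz'
        obtain ⟨hzS, ht⟩ := hz
        obtain ⟨hzS', ht'⟩ := hz'
        have ht2 := ht.trans ht'.symm
        simp only [Prod.mk.injEq] at ht2
        have e1 := hID z hzS
        have e2 := hID z' hzS'
        have e3 : G * (|z.1 - z'.1| * |D|) ≤ G * (4 * J * (B : ℤ) ^ k) := by
          have e4 : G * (z.1 - z'.1) = I z - I z' := by
            simp only [hI]; rw [ht2.1]; ring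
          calc G * (|z.1 - z'.1| * |D|) = |G * (z.1 - z'.1)| * |D| := by
                rw [abs_mul, abs_of_pos hGpos]; ring
            _ ≤ (|I z| + |I z'|) * |D| := by
                apply mul_le_mul_of_nonneg_right _ (abs_nonneg _)
                rw [e4]; exact abs_sub _ _
            _ = |I z| * |D| + |I z'| * |D| := by ring
            _ ≤ _ := by linarith
        have e5 : |z.1 - z'.1| * |D| ≤ 4 * J * (B : ℤ) ^ k := le_of_mul_le_mul_left e3 hGpos
        rw [le_div_iff₀ hDpos]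
        have e6 : (z.1 - z'.1) * |D| ≤ 4 * J * (B : ℤ) ^ k :=
          (mul_le_mul_of_nonneg_right (le_abs_self _) (abs_nonneg _)).trans e5
        have e7 : (((z.1 - z'.1) * |D| : ℤ) : ℝ) ≤ ((4 * J * (B : ℤ) ^ k : ℤ) : ℝ) := by
          exact_mod_cast e6
        push_cast at e7
        linarith)
    refine h2.trans ?_
    have h3 : (1 : ℝ) ≤ J * B ^ k / |(D : ℝ)| := by
      rw [le_div_iff₀ hDpos, one_mul]
      have : ((|D| : ℤ) : ℝ) ≤ ((J * (B : ℤ) ^ k : ℤ) : ℝ) := by exact_mod_cast hDJ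
      push_cast at this
      exact this
    have h4 : (5 * (J * B ^ k) / |(D : ℝ)|) = 4 * (J * B ^ k) / |(D : ℝ)| + J * B ^ k / |(D : ℝ)| := by
      ring
    rw [h4]
    simp only [Nat.cast_one, div_one]
    linarith)
  refine hmain.trans ?_
  calc (Cl.card : ℝ) * ((5 * (J * B ^ k) / |(D : ℝ)|) * (3 * J / B0 ^ k))
      ≤ ((5 * (N * g)) * (5 * N ^ 2)) * ((5 * (J * B ^ k) / |(D : ℝ)|) * (3 * J / B0 ^ k)) := by
        apply mul_le_mul_of_nonneg_right hClcard (by positivity)
    _ = _ := by field_simp; ring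

end Pool.Agent.H888.DH
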