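import Pool.Agent.H888.WA.V9
import Pool.Agent.H888.WA.L4

set_option linter.unusedVariables false
set_option linter.unusedSectionVars false
set_option linter.style.haveILetI false

namespace Pool.Agent.H888.DH

open Finset

/-- Perturbation of a real zero to one with all coordinates bounded below. -/
theorem real_perturb (k r : ℕ) (hk : 1 ≤ k) (ε1 : ℝ) (hε1 : 0 < ε1) (hε1' : ε1 ≤ 1) (εr : ℝ)
    (hεr : 0 < εr) :
    ∃ δ : ℝ, 0 < δ ∧ δ ≤ 1 / 2 ∧ ∀ (A : ℝ) (hA : 0 < A) (b : Fin (r + 1) → ℤ),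
      (∀ o, |(b o : ℝ)| ≤ A) → (∀ o, ε1 * A ≤ |(b o : ℝ)|) → ∀ y : Fin (r + 1) → ℝ,
      (∀ o, 0 ≤ y o ∧ y o ≤ 1) → (∃ o, y o = 1) → ∑ o, (b o : ℝ) * (y o) ^ k = 0 →
      ∃ y' : Fin (r + 1) → ℝ, (∀ o, δ ≤ y' o ∧ y' o ≤ 2) ∧ (∀ o, |y' o - y o| ≤ εr) ∧
        ∑ o, (b o : ℝ) * (y' o) ^ k = 0 := by
  classical
  set θ : ℝ := min εr (1 / 2) with hθ
  have hθ0 : 0 < θ := lt_min hεr (by norm_num)
  set δ : ℝ := min θ (ε1 * θ / (r + 1)) with hδ
  have hδ0 : 0 < δ := lt_min hθ0 (by positivity)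
  have hδθ : δ ≤ θ := min_le_left _ _
  have hδ2 : δ ≤ 1 / 2 := hδθ.trans (min_le_right _ _)
  have hδr : δ ≤ εr := hδθ.trans (min_le_left _ _)
  refine ⟨δ, hδ0, hδ2, ?_⟩
  intro A hA b hb1 hb2 y hy hj hsum
  obtain ⟨j, hj⟩ := hj
  have hbj : 0 < |(b j : ℝ)| := lt_of_lt_of_le (by positivity) (hb2 j)
  have hbj0 : (b j : ℝ) ≠ 0 := abs_pos.mp hbj
  set v : Fin (r + 1) → ℝ := fun o => max (y o) δ with hv
  set Δ : ℝ := ∑ o ∈ Finset.univ.erase j, (b o : ℝ) * ((v o) ^ k - (y o) ^ k) with hΔ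
  have hvk : ∀ o, 0 ≤ (v o) ^ k - (y o) ^ k ∧ (v o) ^ k - (y o) ^ k ≤ δ := by
    intro o
    simp only [hv]
    rcases le_total δ (y o) with h | h
    · rw [max_eq_left h, sub_self]; exact ⟨le_rfl, hδ0.le⟩
    · rw [max_eq_right h]
      have h1 : (y o) ^ k ≤ δ ^ k := pow_le_pow_left₀ (hy o).1 h _
      have h2 : δ ^ k ≤ δ := pow_le_of_le_one hδ0.le (by linarith) (by omega)
      have h3 : 0 ≤ (y o) ^ k := pow_nonneg (hy o).1 _
      exact ⟨by linarith, by linarith⟩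
  have hΔb : |Δ| ≤ (r + 1) * (A * δ) := by
    calc |Δ| ≤ ∑ o ∈ Finset.univ.erase j, |(b o : ℝ) * ((v o) ^ k - (y o) ^ k)| :=
          Finset.abs_sum_le_sum_abs _ _
      _ ≤ ∑ o ∈ Finset.univ.erase j, A * δ := by
          apply Finset.sum_le_sum
          intro o _
          rw [abs_mul, abs_of_nonneg (hvk o).1]
          exact mul_le_mul (hb1 o) (hvk o).2 (hvk o).1 hA.le
      _ = ((Finset.univ.erase j).card : ℝ) * (A * δ) := by rw [Finset.sum_const, nsmul_eq_mul]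
      _ ≤ (r + 1) * (A * δ) := by
          apply mul_le_mul_of_nonneg_right _ (by positivity)
          have : (Finset.univ.erase j).card ≤ r + 1 := by
            calc _ ≤ (Finset.univ : Finset (Fin (r + 1))).card := Finset.card_le_card (Finset.erase_subset _ _)
              _ = r + 1 := by simp
          exact_mod_cast this
  have hratio : |Δ / (b j : ℝ)| ≤ θ := by
    rw [abs_div, div_le_iff₀ hbj]
    have h1 : δ * (r + 1) ≤ ε1 * θ := by
      have : δ ≤ ε1 * θ / (r + 1) := min_le_right _ _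
      rwa [le_div_iff₀ (by positivity)] at this
    calc |Δ| ≤ (r + 1) * (A * δ) := hΔb
      _ = A * (δ * (r + 1)) := by ring
      _ ≤ A * (ε1 * θ) := by gcongr
      _ = θ * (ε1 * A) := by ring
      _ ≤ θ * |(b j : ℝ)| := by gcongr; exact hb2 j
  set t : ℝ := 1 - Δ / (b j : ℝ) with ht
  have hθ2 : θ ≤ 1 / 2 := min_le_right _ _
  have hab := abs_le.mp hratio
  have ht1 : 1 / 2 ≤ t := by rw [ht]; linarith [hab.2]
  have ht2 : t ≤ 3 / 2 := by rw [ht]; linarith [hab.1]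
  set s : ℝ := t ^ ((1 : ℝ) / k) with hs
  have hs0 : 0 ≤ s := Real.rpow_nonneg (by linarith) _
  have hsk : s ^ k = t := by
    rw [hs, ← Real.rpow_natCast, ← Real.rpow_mul (by linarith)]
    have : (k : ℝ) ≠ 0 := by positivity
    rw [one_div_mul_cancel this, Real.rpow_one]
  have hs1 : |s - 1| ≤ θ := by
    rcases le_total 1 t with h | h
    · have h1 : 1 ≤ s := by
        by_contra hc
        push Not at hc
        have : s ^ k < 1 := pow_lt_one₀ hs0 hc (by omega)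
        linarith
      have h2 : s ≤ t := by
        rw [← hsk]; exact le_self_pow₀ h1 (by omega)
      rw [abs_of_nonneg (by linarith)]
      have : t - 1 ≤ θ := by rw [ht]; linarith [hab.1]
      linarith
    · have h1 : s ≤ 1 := by
        by_contra hc
        push Not at hc
        have : 1 < s ^ k := one_lt_pow₀ hc (by omega)
        linarith
      have h2 : t ≤ s := by
        rw [← hsk]; exact pow_le_of_le_one hs0 h1 (by omega)
      rw [abs_of_nonpos (by linarith)]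
      have : 1 - t ≤ θ := by rw [ht]; linarith [hab.2]
      linarith
  refine ⟨fun o => if o = j then s else v o, ?_, ?_, ?_⟩
  · intro o
    dsimp only
    have h1 := abs_le.mp hs1
    by_cases ho : o = j
    · rw [if_pos ho]
      constructor
      · linarith [h1.1]
      · linarith [h1.2]
    · rw [if_neg ho]
      refine ⟨le_max_right _ _, ?_⟩
      exact max_le (by linarith [(hy o).2]) (by linarith)
  · intro o
    dsimp only
    by_cases ho : o = j
    · rw [if_pos ho, ho, hj]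
      exact hs1.trans (min_le_left _ _)
    · rw [if_neg ho]
      simp only [hv]
      rcases le_total δ (y o) with h | h
      · rw [max_eq_left h, sub_self, abs_zero]; exact hεr.le
      · rw [max_eq_right h, abs_of_nonneg (by linarith)]
        linarith [(hy o).1]
  · rw [← Finset.add_sum_erase Finset.univ _ (Finset.mem_univ j)] at hsum ⊢
    simp only [if_true]
    have e1 : ∑ o ∈ Finset.univ.erase j, (b o : ℝ) * (if o = j then s else v o) ^ k =
        ∑ o ∈ Finset.univ.erase j, (b o : ℝ) * (y o) ^ k + Δ := by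
      rw [hΔ, ← Finset.sum_add_distrib]
      apply Finset.sum_congr rfl
      intro o ho
      rw [if_neg (Finset.mem_erase.mp ho).1]
      ring
    rw [e1, hsk, ht]
    rw [hj, one_pow] at hsum
    field_simp
    linarith

/-- the cell -/
def CelP {r : ℕ} (Q0 : ℕ) (w : ℝ) (ξ c : Fin r → ℕ) (x : Fin r → ℤ) : Prop :=
  (∀ l, (Q0 : ℤ) ∣ x l - ξ l) ∧ ∀ l, |(x l : ℝ) - c l * w| ≤ 2 * w

theorem celP_of_mem (k r : ℕ) (a : Fin (r + 1) → ℤ) (n p0 e E π n₀ G : ℕ) [hπ : Fact π.Prime]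
    (hE1 : 1 ≤ E) (heE : e ≤ E) (hn₀ : 1 ≤ n₀) (ξ : Fin r → ℕ)
    [NeZero (n₀ ^ k * ((π * nmax p0 E) * G.factorial))]
    (x : Fin r → ℤ)
    (hx : (fun l => ((x l : ℤ) : ZMod (n₀ ^ k * ((π * nmax p0 E) * G.factorial)))) ∈
      SolG k r a n (n₀ ^ k * ((π * nmax p0 E) * G.factorial)) (Gam r p0 e π ξ)) :
    (∀ l, ¬ (π : ℤ) ∣ x l) ∧ ∀ l, ((nmax p0 e : ℕ) : ℤ) ∣ x l - ξ l := by
  classical
  set K := n₀ ^ k * ((π * nmax p0 E) * G.factorial) with hK
  obtain ⟨_, h2⟩ := mem_SolG.mp hx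
  have hKx : ∀ l, (K : ℤ) ∣ ((((x l : ℤ) : ZMod K).val : ℕ) : ℤ) - x l := by
    intro l
    rw [← ZMod.intCast_zmod_eq_zero_iff_dvd]
    push_cast
    rw [ZMod.natCast_zmod_val, sub_self]
  have hK0 : K ≠ 0 := NeZero.ne K
  have hπK : π ∣ K := by
    rw [hK]; exact Dvd.dvd.mul_left (Dvd.dvd.mul_right (dvd_mul_right _ _) _) _
  have hpK : ∀ p ∈ prs p0, p ^ E ∣ K := by
    intro p hp
    rw [hK]
    apply Dvd.dvd.mul_left
    apply Dvd.dvd.mul_right
    apply Dvd.dvd.mul_left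
    exact Finset.dvd_prod_of_mem (fun p => p ^ E) hp
  refine ⟨?_, ?_⟩
  · intro l hd
    have h3 := (h2 π (Nat.mem_primeFactors.mpr ⟨hπ.out, hπK, hK0⟩)).2 rfl l
    apply h3
    have h4 : (π : ℤ) ∣ ((((x l : ℤ) : ZMod K).val : ℕ) : ℤ) - x l :=
      (Int.natCast_dvd_natCast.mpr hπK).trans (hKx l)
    have := dvd_add h4 hd
    rwa [sub_add_cancel] at this
  · intro l
    have h3 : ∀ p ∈ prs p0, ((p ^ e : ℕ) : ℤ) ∣ x l - ξ l := by
      intro p hp
      have hpp := (mem_prs.mp hp).2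
      have hpK' := hpK p hp
      have hmem : p ∈ K.primeFactors :=
        Nat.mem_primeFactors.mpr ⟨hpp, (dvd_pow_self p (by omega)).trans hpK', hK0⟩
      have h4 := (h2 p hmem).1 (mem_prs.mp hp).1 l
      have h5 : ((p : ℤ)) ^ e ∣ ((((x l : ℤ) : ZMod K).val : ℕ) : ℤ) - x l := by
        have h6 : p ^ e ∣ K := (pow_dvd_pow _ heE).trans hpK'
        have h7 : ((p ^ e : ℕ) : ℤ) ∣ (K : ℤ) := Int.natCast_dvd_natCast.mpr h6
        push_cast at h7
        exact h7.trans (hKx l)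
      have := dvd_sub h4 h5
      have e1 : ((((x l : ℤ) : ZMod K).val : ℕ) : ℤ) - (ξ l : ℤ) -
          (((((x l : ℤ) : ZMod K).val : ℕ) : ℤ) - x l) = x l - ξ l := by ring
      rw [e1] at this
      push_cast
      exact this
    have h8 : (∏ p ∈ prs p0, ((p ^ e : ℕ) : ℤ)) ∣ x l - ξ l := by
      apply Finset.prod_dvd_of_coprime _ h3
      intro p hp q hq hpq
      have g1 := (mem_prs.mp (Finset.mem_coe.mp hp)).2
      have g2 := (mem_prs.mp (Finset.mem_coe.mp hq)).2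
      have : Nat.Coprime (p ^ e) (q ^ e) := Nat.Coprime.pow e e ((Nat.coprime_primes g1 g2).mpr hpq)
      exact (Nat.isCoprime_iff_coprime).mpr this
    unfold nmax
    push_cast
    push_cast at h8
    exact h8

end Pool.Agent.H888.DH
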