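import Pool.Agent.H888.WA.V10

set_option linter.unusedVariables false
set_option linter.unusedSectionVars false
set_option linter.style.haveILetI false

namespace Pool.Agent.H888.DH

open Finset

set_option maxHeartbeats 2000000 in
/-- **Cell theorem.** -/
theorem cell_thm (k r n₀ π C0 p0 E e : ℕ) (hk : 3 ≤ k) (hr : 2 * k + 1 ≤ r) (hn : 1 ≤ n₀)
    [hπ : Fact π.Prime] (hE1 : 1 ≤ E) (heE : e ≤ E) (ε1 ρ ρ' c1 : ℝ) (hε1 : 0 < ε1) (hρ : 0 < ρ)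
    (hρk : ρ * k ≤ 1) (hρ' : 0 < ρ') (hρ'ρ : ρ' ≤ ρ)
    (hρ'c : r * k * ρ' / ε1 ≤ ρ / 2 * c1 ^ (k - 1)) (hc1 : 0 < c1) (hρc : 2 * ρ ≤ c1)
    (hC0 : 4 / c1 ≤ C0) (hC02 : 2 ≤ C0) (σ0 : ℝ) (hσ0 : 0 < σ0) (δ : ℝ) (hδ : 0 < δ) :
    ∃ G R1 : ℕ, ∀ R A jj : ℕ, R1 ≤ R → R ^ eA k r ≤ A → A < (R + 1) ^ eA k r →
      n₀ * π ^ jj ≤ R ^ N0 k r → ∀ (ξ c : Fin r → ℕ) (W : Finset (Fin (r + 1) → ℤ)),
      (∀ b ∈ W, b ∈ boxA (r + 1) A ∧ (∀ o, ε1 * A ≤ |(b o : ℝ)|) ∧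
        (∀ x : Fin r → ℤ, (∀ l, 1 ≤ x l ∧ x l ≤ ((R ^ N0 k r : ℕ) : ℤ)) →
          CelP (nmax p0 e) (ρ * ((R ^ N0 k r : ℕ) : ℝ)) ξ c x →
          dot b (VV (n₀ * π ^ jj) k x) ≠ 0) ∧
        (∃ Y : Fin r → ℝ, (∀ l, c1 * ((R ^ N0 k r : ℕ) : ℝ) ≤ Y l ∧ Y l ≤ ((R ^ N0 k r : ℕ) : ℝ) / 2) ∧
          (b 0 : ℝ) * ((n₀ * π ^ jj : ℕ) : ℝ) ^ k + ∑ l, (b (Fin.succ l) : ℝ) * (Y l) ^ k = 0 ∧
          ∀ l, c l * (ρ * ((R ^ N0 k r : ℕ) : ℝ)) ≤ Y l ∧ Y l ≤ (c l + 1) * (ρ * ((R ^ N0 k r : ℕ) : ℝ))) ∧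
        (∀ _ : NeZero (n₀ ^ k * ((π * nmax p0 E) * G.factorial)),
          σ0 * ((n₀ ^ k * ((π * nmax p0 E) * G.factorial) : ℕ) : ℝ) ^ (r - 1) ≤
          (SolG k r b (n₀ * π ^ jj) (n₀ ^ k * ((π * nmax p0 E) * G.factorial)) (Gam r p0 e π ξ)).card)) →
      (W.card : ℝ) ≤ δ * (A : ℝ) ^ (r + 1) := by
  classical
  have hkR : (3 : ℝ) ≤ k := by exact_mod_cast hk
  set τ : ℝ := σ0 * ρ' ^ (r - 1) * ρ / (24 * 2 ^ (r - 1)) with hτ
  have hτ0 : 0 < τ := by positivity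
  obtain ⟨G, η, hη0, hη1, hQ⟩ := per_cell k r n₀ π C0 hk hr hn hπ.out hC02 τ hτ0 δ hδ
  have hnm : 1 ≤ nmax p0 E := by
    apply Nat.one_le_iff_ne_zero.mpr
    unfold nmax
    rw [Finset.prod_ne_zero_iff]
    intro p hp
    exact pow_ne_zero _ (mem_prs.mp hp).2.ne_zero
  have hQ1 : 1 ≤ π * nmax p0 E := Nat.mul_pos hπ.out.pos hnm
  obtain ⟨R1, hmain⟩ := hQ (π * nmax p0 E) hQ1
  set K := n₀ ^ k * ((π * nmax p0 E) * G.factorial) with hK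
  have hKpos : 0 < K := Nat.mul_pos (pow_pos hn k) (Nat.mul_pos hQ1 (Nat.factorial_pos G))
  haveI : NeZero K := ⟨hKpos.ne'⟩
  have hKR : (1 : ℝ) ≤ K := by exact_mod_cast hKpos
  have hC0R' : (0 : ℝ) < C0 := by
    have : (2 : ℝ) ≤ C0 := by exact_mod_cast hC02
    linarith
  obtain ⟨Rb, hRb⟩ := exists_nat_ge (max (max (2 * K / η) (2 * (1 + K) / ρ'))
    (max (max (4 * (1 + K) / (η * ρ)) (4 / c1)) 1))
  refine ⟨G, max R1 Rb, ?_⟩
  intro R A jj hR hA1 hA2 hnq ξ c W hW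
  have hR1 : R1 ≤ R := (le_max_left _ _).trans hR
  have hRb' : Rb ≤ R := (le_max_right _ _).trans hR
  have hRbR : (Rb : ℝ) ≤ R := by exact_mod_cast hRb'
  have hall := hRb.trans hRbR
  have q1 : 2 * K / η ≤ R := ((le_max_left _ _).trans (le_max_left _ _)).trans hall
  have q2 : 2 * (1 + K) / ρ' ≤ R := ((le_max_right _ _).trans (le_max_left _ _)).trans hall
  have q3 : 4 * (1 + K) / (η * ρ) ≤ R :=
    ((le_max_left _ _).trans ((le_max_left _ _).trans (le_max_right _ _))).trans hall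
  have q4 : 4 / c1 ≤ R :=
    ((le_max_right _ _).trans ((le_max_left _ _).trans (le_max_right _ _))).trans hall
  have q5 : (1 : ℝ) ≤ R := ((le_max_right _ _).trans (le_max_right _ _)).trans hall
  set B := R ^ N0 k r with hB
  set L := ⌊η * A * ((B : ℕ) : ℝ) ^ k / ((K : ℕ) : ℝ)⌋₊ with hL
  set B0 := B / C0 + 1 with hB0
  set n := n₀ * π ^ jj with hnn
  have hRpos : 0 < R := by
    have : (0 : ℝ) < R := by linarith
    exact_mod_cast this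
  have hRR : (0 : ℝ) < R := by exact_mod_cast hRpos
  have hN04 : 4 ≤ N0 k r := by unfold N0; omega
  have hRB : (R : ℝ) ≤ B := by
    have : R ≤ B := by
      calc R = R ^ 1 := (pow_one R).symm
        _ ≤ R ^ N0 k r := Nat.pow_le_pow_right hRpos (by omega)
    exact_mod_cast this
  have hBpos : 1 ≤ B := Nat.one_le_pow _ _ hRpos
  have hB1 : (1 : ℝ) ≤ B := by exact_mod_cast hBpos
  have hBR0 : (0 : ℝ) < B := by linarith
  have hApos : 1 ≤ A := (Nat.one_le_pow _ _ hRpos).trans hA1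
  have hAR : (1 : ℝ) ≤ A := by exact_mod_cast hApos
  have hB0R : (B0 : ℝ) ≤ c1 / 2 * B := by
    have h1 : ((B / C0 : ℕ) : ℝ) ≤ B / C0 := Nat.cast_div_le
    have h2 : (B : ℝ) / C0 ≤ c1 / 4 * B := by
      rw [div_le_iff₀ hC0R']
      rw [div_le_iff₀ hc1] at hC0
      nlinarith
    have h3 : (1 : ℝ) ≤ c1 / 4 * B := by
      rw [div_le_iff₀ hc1] at q4
      nlinarith
    have h4 : (B0 : ℝ) = ((B / C0 : ℕ) : ℝ) + 1 := by rw [hB0]; push_cast; ring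
    rw [h4]; linarith
  have hB0pos : 1 ≤ B0 := Nat.le_add_left 1 _
  -- K L bounds
  have hXdef : (K : ℝ) ≤ η / 2 * A * (B : ℝ) ^ k := by
    have h1 : (K : ℝ) ≤ η / 2 * R := by
      rw [div_le_iff₀ hη0] at q1; linarith
    have h2 : (R : ℝ) ≤ A * (B : ℝ) ^ k := by
      calc (R : ℝ) ≤ B := hRB
        _ ≤ (B : ℝ) ^ k := le_self_pow₀ hB1 (by omega)
        _ = 1 * (B : ℝ) ^ k := (one_mul _).symm
        _ ≤ _ := by gcongr
    calc (K : ℝ) ≤ η / 2 * R := h1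
      _ ≤ η / 2 * (A * (B : ℝ) ^ k) := by gcongr
      _ = _ := by ring
  have hLup : (K : ℝ) * L ≤ η * A * (B : ℝ) ^ k := by
    have h1 : (L : ℝ) ≤ η * A * ((B : ℕ) : ℝ) ^ k / K := Nat.floor_le (by positivity)
    rw [le_div_iff₀ (by linarith)] at h1
    linarith
  have hLlow : η / 2 * A * (B : ℝ) ^ k ≤ K * L := by
    have h1 : η * A * ((B : ℕ) : ℝ) ^ k / K < L + 1 := Nat.lt_floor_add_one _
    rw [div_lt_iff₀ (by linarith)] at h1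
    nlinarith
  have hL1 : (1 : ℝ) ≤ L := by
    have h1 : (K : ℝ) * 1 ≤ K * L := by linarith
    exact le_of_mul_le_mul_left h1 (by linarith)
  -- T1, T2
  set T1 := ⌊(ρ' * B - 1) / K⌋₊ with hT1
  set T2 := ⌊(η * ρ * B / 2 - 1) / K⌋₊ with hT2
  have hq2 : (1 + K : ℝ) ≤ ρ' * B / 2 := by
    rw [div_le_iff₀ hρ'] at q2
    nlinarith
  have hq3 : (1 + K : ℝ) ≤ η * ρ * B / 4 := by
    rw [div_le_iff₀ (by positivity)] at q3
    have h1 : (R : ℝ) * (η * ρ) ≤ B * (η * ρ) := by gcongr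
    nlinarith
  have hT1up : (K * T1 + 1 : ℝ) ≤ ρ' * B := by
    have h1 : (T1 : ℝ) ≤ (ρ' * B - 1) / K := Nat.floor_le (by
      apply div_nonneg _ (by linarith)
      linarith)
    rw [le_div_iff₀ (by linarith)] at h1
    linarith
  have hT1low : ρ' * B / (2 * K) ≤ T1 := by
    have h1 : (ρ' * B - 1) / K < T1 + 1 := Nat.lt_floor_add_one _
    rw [div_lt_iff₀ (by linarith)] at h1
    rw [div_le_iff₀ (by linarith)]
    linarith
  have hT2up : (K * T2 + 1 : ℝ) ≤ η * ρ * B / 2 := by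
    have h1 : (T2 : ℝ) ≤ (η * ρ * B / 2 - 1) / K := Nat.floor_le (by
      apply div_nonneg _ (by linarith)
      linarith)
    rw [le_div_iff₀ (by linarith)] at h1
    linarith
  have hT2low : η * ρ * B / (4 * K) ≤ T2 := by
    have h1 : (η * ρ * B / 2 - 1) / K < T2 + 1 := Nat.lt_floor_add_one _
    rw [div_lt_iff₀ (by linarith)] at h1
    rw [div_le_iff₀ (by linarith)]
    linarith
  apply hmain R A jj hR1 hA1 hA2 hnq (CelP (nmax p0 e) (ρ * (B : ℝ)) ξ c) W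
  intro b hb
  obtain ⟨hbb, hbε, hbno, ⟨Y, hY1, hY2, hY3⟩, hbσ⟩ := hW b hb
  refine ⟨hbb, ?_, ?_⟩
  · intro x hxT hxπ hxc
    apply hbno x _ hxc
    intro l
    have h1 := (mem_Tset.mp hxT).1 l
    have h2 : (1 : ℤ) ≤ B0 := by exact_mod_cast hB0pos
    exact ⟨by linarith, h1.2⟩
  · have hbσ' := hbσ inferInstance
    have hcount := region_lower2 k r n K A B B0 L T1 T2 π (by omega) (CelP (nmax p0 e) (ρ * (B : ℝ)) ξ c)
      b ε1 η ρ ρ' c1 hε1 hη0 hη1 hρ hρk hρ' hρ'ρ hρ'c hc1 hρc hApos hBpos (mem_boxA.mp hbb)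
      ⟨0, by omega⟩ (hbε _) Y hY1 hY2 hB0R hLlow hT1up hT2up (SolG k r b n K (Gam r p0 e π ξ))
      (fun z hz => (mem_SolG.mp hz).1) (by
        intro x hx hxS
        obtain ⟨g1, g2⟩ := celP_of_mem k r b n p0 e E π n₀ G hE1 heE hn ξ x hxS
        refine ⟨g1, g2, ?_⟩
        intro l
        have h1 := abs_le.mp (hx l)
        have h2 := hY3 l
        have h3 : ((c l : ℝ) + 1) * (ρ * B) = c l * (ρ * B) + ρ * B := by ring
        rw [abs_le]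
        constructor
        · linarith [h1.1, h2.1]
        · linarith [h1.2, h2.2])
    have h1 : ((SolG k r b n K (Gam r p0 e π ξ)).card : ℝ) * ((T1 : ℝ) ^ (r - 1) * T2) ≤
        ((NsetC k r n K L B B0 π (CelP (nmax p0 e) (ρ * (B : ℝ)) ξ c) b).card : ℝ) := by
      exact_mod_cast hcount
    refine le_trans ?_ h1
    have h2 : (2 * L + 1 : ℝ) ≤ 3 * (η * A * (B : ℝ) ^ k / K) := by
      have : (L : ℝ) ≤ η * A * (B : ℝ) ^ k / K := by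
        rw [le_div_iff₀ (by linarith)]; linarith
      linarith
    calc 2 * (τ * ((B : ℝ) ^ r / (A * (B : ℝ) ^ k)) * (2 * L + 1))
        ≤ 2 * (τ * ((B : ℝ) ^ r / (A * (B : ℝ) ^ k)) * (3 * (η * A * (B : ℝ) ^ k / K))) := by gcongr
      _ = (σ0 * (K : ℝ) ^ (r - 1)) * ((ρ' * B / (2 * K)) ^ (r - 1) * (η * ρ * B / (4 * K))) := by
          have e1 : (B : ℝ) ^ r = (B : ℝ) ^ (r - 1) * B := by rw [← pow_succ]; congr 1; omega
          rw [hτ, e1, div_pow, mul_pow ρ' (B : ℝ), mul_pow 2 (K : ℝ)]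
          field_simp
          ring
      _ ≤ ((SolG k r b n K (Gam r p0 e π ξ)).card : ℝ) * ((T1 : ℝ) ^ (r - 1) * T2) := by gcongr

end Pool.Agent.H888.DH
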