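import Pool.Agent.H888.WA.V11
import Pool.Agent.H888.DH.Loc9

set_option linter.unusedVariables false
set_option linter.unusedSectionVars false
set_option linter.style.haveILetI false

namespace Pool.Agent.H888.DH

open Finset

/-- A primitive `p`-adic zero. -/
def PrimZ (p : ℕ) [Fact p.Prime] (k s : ℕ) (b : Fin s → ℤ) (u : Fin s → ℤ_[p]) : Prop :=
  (∃ o, IsUnit (u o)) ∧ ∑ o, (b o : ℤ_[p]) * (u o) ^ k = 0

/-- A rational zero close to the real target `y` and to the `p`-adic targets. -/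
def ApproxQ (k s m H : ℕ) (b : Fin s → ℤ) (y : Fin s → ℝ)
    (u : ∀ p : ℕ, ∀ _ : Fact p.Prime, Fin s → ℤ_[p]) : Prop :=
  ∃ (z : Fin s → ℤ) (T : ℤ), T ≠ 0 ∧ (∀ i, |z i| ^ k ≤ (H : ℤ)) ∧ ∑ i, b i * z i ^ k = 0 ∧
    (∀ i, |(z i : ℝ) / T - y i| ≤ 1 / m) ∧
    ∀ (p : ℕ) (hp : Fact p.Prime), p ≤ m → ∀ i,
      ‖(z i : ℚ_[p]) / T - (u p hp i : ℚ_[p])‖ ≤ (p : ℝ) ^ (-(m : ℤ))

theorem padic_close {p : ℕ} [hp : Fact p.Prime] (z T : ℤ) (u : ℤ_[p]) (e : ℕ)
    (h : (p : ℤ_[p]) ^ e ∣ (z : ℤ_[p]) - T * u) (hT : ¬ (p : ℤ) ∣ T) :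
    ‖(z : ℚ_[p]) / T - (u : ℚ_[p])‖ ≤ (p : ℝ) ^ (-(e : ℤ)) := by
  have h1 := padic_norm_le _ _ h
  have hT1 : ‖(T : ℤ_[p])‖ = 1 := by
    rw [← PadicInt.isUnit_iff]
    by_contra hc
    have h2 : ‖(T : ℤ_[p])‖ < 1 := by
      rw [PadicInt.isUnit_iff] at hc
      exact lt_of_le_of_ne (PadicInt.norm_le_one _) hc
    rw [PadicInt.norm_lt_one_iff_dvd] at h2
    have h3 : (p : ℤ_[p]) ^ 1 ∣ (T : ℤ_[p]) := by rw [pow_one]; exact h2
    rw [padic_pow_dvd_int, pow_one] at h3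
    exact hT h3
  have hT2 : ‖(T : ℚ_[p])‖ = 1 := by
    rw [← hT1, PadicInt.norm_def, PadicInt.coe_intCast]
  have hT0 : (T : ℚ_[p]) ≠ 0 := by
    intro h0; rw [h0, norm_zero] at hT2; norm_num at hT2
  have e1 : (z : ℚ_[p]) / T - (u : ℚ_[p]) =
      (((z : ℤ_[p]) - T * u : ℤ_[p]) : ℚ_[p]) / (T : ℚ_[p]) := by
    push_cast
    field_simp
  rw [e1, norm_div, hT2, div_one, ← PadicInt.norm_def]
  exact h1

theorem prs_dvd_nmax (p0 e p : ℕ) (hp : p.Prime) (hpp : p ≤ p0) : p ^ e ∣ nmax p0 e :=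
  Finset.dvd_prod_of_mem (fun p => p ^ e) (mem_prs.mpr ⟨hpp, hp⟩)

/-- From an integral solution in the cell to a rational approximation. -/
theorem approx_of_cell (k r m p0 n H : ℕ) (π : ℕ) (hm : 1 ≤ m) (hmp : m ≤ p0) (hπ1 : 1 ≤ π)
    (b : Fin (r + 1) → ℤ)
    (y y' : Fin (r + 1) → ℝ) (u : ∀ p : ℕ, ∀ _ : Fact p.Prime, Fin (r + 1) → ℤ_[p])
    (hyy : ∀ o, |y' o - y o| ≤ 1 / (4 * m)) (X B ρ : ℝ) (hρ : 0 < ρ) (hB : 0 < B)
    (hρm : 48 * π * m * ρ ≤ 1) (hX1 : B / (4 * π) ≤ X) (hX0 : X * y' 0 = n) (hnB : (n : ℝ) ≤ B)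
    (hBH : B ^ k ≤ H) (hQ0X : 2 * (nmax p0 m : ℝ) ≤ X) (hBbig : 128 * m * (π : ℝ) ^ 2 * nmax p0 m ≤ B)
    (ξ c : Fin r → ℕ) (T0 : ℕ)
    (hloc : ∀ (p : ℕ) (hp : Fact p.Prime), p ≤ p0 → ¬ p ∣ T0 ∧
        ((p : ℤ_[p]) ^ m ∣ (n : ℤ_[p]) - T0 * u p hp 0) ∧
        (∀ j, (p : ℤ_[p]) ^ m ∣ (ξ j : ℤ_[p]) - T0 * u p hp (Fin.succ j)))
    (hc : ∀ l, c l * (ρ * B) ≤ X * y' (Fin.succ l) ∧ X * y' (Fin.succ l) ≤ (c l + 1) * (ρ * B))
    (x : Fin r → ℤ) (hx : ∀ l, 1 ≤ x l ∧ (x l : ℝ) ≤ B) (hcel : CelP (nmax p0 m) (ρ * B) ξ c x)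
    (hsol : dot b (VV n k x) = 0) : ApproxQ k (r + 1) m H b y u := by
  classical
  have hmR : (1 : ℝ) ≤ m := by exact_mod_cast hm
  have hπR : (1 : ℝ) ≤ π := by exact_mod_cast hπ1
  set Q0 := nmax p0 m with hQ0
  have hQ0pos : 1 ≤ Q0 := by
    apply Nat.one_le_iff_ne_zero.mpr
    rw [hQ0]; unfold nmax
    rw [Finset.prod_ne_zero_iff]
    intro p hp
    exact pow_ne_zero _ (mem_prs.mp hp).2.ne_zero
  have hQ0R : (1 : ℝ) ≤ Q0 := by exact_mod_cast hQ0pos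
  have hX0' : 0 < X := by linarith
  -- T
  set q : ℤ := ⌊(X - T0) / Q0⌋ with hq
  set T : ℤ := T0 + Q0 * q with hT
  have hTup : (T : ℝ) ≤ X := by
    have h1 : (q : ℝ) ≤ (X - T0) / Q0 := Int.floor_le _
    rw [le_div_iff₀ (by linarith)] at h1
    rw [hT]; push_cast; linarith
  have hTlow : X - Q0 ≤ T := by
    have h1 : (X - T0) / Q0 < q + 1 := Int.lt_floor_add_one _
    rw [div_lt_iff₀ (by linarith)] at h1
    rw [hT]; push_cast; linarith
  have hTX : X / 2 ≤ T := by linarith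
  have hTpos : (0 : ℝ) < T := by linarith
  have hTne : T ≠ 0 := by
    have : (T : ℝ) ≠ 0 := hTpos.ne'
    exact_mod_cast this
  -- the integral vector
  set z : Fin (r + 1) → ℤ := Fin.cons (n : ℤ) x with hz
  have hz0 : z 0 = n := by rw [hz, Fin.cons_zero]
  have hzl : ∀ l : Fin r, z (Fin.succ l) = x l := fun l => by rw [hz, Fin.cons_succ]
  have hzb : ∀ o, 0 ≤ (z o : ℝ) ∧ (z o : ℝ) ≤ B := by
    intro o
    refine Fin.cases ?_ (fun l => ?_) o
    · rw [hz0]; push_cast; exact ⟨by positivity, hnB⟩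
    · rw [hzl]
      have h1 := (hx l).1
      have h2 : (1 : ℝ) ≤ x l := by exact_mod_cast h1
      exact ⟨by linarith, (hx l).2⟩
  have hzX : ∀ o, |(z o : ℝ) / X - y' o| ≤ 1 / (4 * m) := by
    intro o
    refine Fin.cases ?_ (fun l => ?_) o
    · rw [hz0]
      push_cast
      rw [← hX0]
      have : X * y' 0 / X - y' 0 = 0 := by field_simp; ring
      rw [this, abs_zero]; positivity
    · rw [hzl]
      have h1 := abs_le.mp (hcel.2 l)
      have h2 := hc l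
      have h3 : ((c l : ℝ) + 1) * (ρ * B) = c l * (ρ * B) + ρ * B := by ring
      have h4 : |(x l : ℝ) - X * y' (Fin.succ l)| ≤ 3 * (ρ * B) := by
        have : 0 < ρ * B := by positivity
        rw [abs_le]
        constructor
        · linarith [h1.1, h2.2]
        · linarith [h1.2, h2.1]
      have h5 : (x l : ℝ) / X - y' (Fin.succ l) = ((x l : ℝ) - X * y' (Fin.succ l)) / X := by
        field_simp
      rw [h5, abs_div, abs_of_pos hX0', div_le_div_iff₀ hX0' (by positivity), one_mul]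
      calc |(x l : ℝ) - X * y' (Fin.succ l)| * (4 * m) ≤ 3 * (ρ * B) * (4 * m) := by gcongr
        _ = (48 * π * m * ρ) * (B / (4 * π)) := by field_simp; ring
        _ ≤ 1 * (B / (4 * π)) := by gcongr
        _ ≤ X := by linarith
  refine ⟨z, T, hTne, ?_, ?_, ?_, ?_⟩
  · intro o
    obtain ⟨b1, b2⟩ := hzb o
    have h1 : |(z o : ℝ)| ^ k ≤ H := by
      rw [abs_of_nonneg b1]
      exact (pow_le_pow_left₀ b1 b2 k).trans hBH
    exact_mod_cast h1
  · rw [← hsol]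
    unfold dot
    apply Finset.sum_congr rfl
    intro o _
    refine Fin.cases ?_ (fun l => ?_) o
    · rw [hz0, VV_zero]
    · rw [hzl, VV_succ]
  · intro o
    obtain ⟨b1, b2⟩ := hzb o
    have h1 : |(z o : ℝ) / T - (z o : ℝ) / X| ≤ 1 / (4 * m) := by
      have e1 : (z o : ℝ) / T - (z o : ℝ) / X = (z o : ℝ) * (X - T) / (T * X) := by
        field_simp
      rw [e1, abs_of_nonneg (by
        apply div_nonneg (mul_nonneg b1 (by linarith)) (by positivity)), div_le_div_iff₀ (by positivity)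
        (by positivity), one_mul]
      have h2 : (z o : ℝ) * (X - T) ≤ B * Q0 := mul_le_mul b2 (by linarith) (by linarith) hB.le
      have h3 : X / 2 * X ≤ T * X := by gcongr
      have h4 : (B / (4 * π)) * (B / (4 * π)) ≤ X * X := by gcongr
      have h5 : B * Q0 * (4 * m) ≤ (B / (4 * π)) * (B / (4 * π)) / 2 := by
        have e2 : (B / (4 * π)) * (B / (4 * π)) / 2 = B * (B / (32 * (π : ℝ) ^ 2)) := by field_simp; ring
        rw [e2, mul_assoc]
        apply mul_le_mul_of_nonneg_left _ hB.le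
        rw [le_div_iff₀ (by positivity)]
        calc (Q0 : ℝ) * (4 * m) * (32 * (π : ℝ) ^ 2) = 128 * m * (π : ℝ) ^ 2 * Q0 := by ring
          _ ≤ B := hBbig
      calc (z o : ℝ) * (X - T) * (4 * m) ≤ B * Q0 * (4 * m) := by gcongr
        _ ≤ (B / (4 * π)) * (B / (4 * π)) / 2 := h5
        _ ≤ X * X / 2 := by linarith
        _ = X / 2 * X := by ring
        _ ≤ T * X := h3
    have h2 := hzX o
    have h3 := hyy o
    have h4 : (z o : ℝ) / T - y o = ((z o : ℝ) / T - (z o : ℝ) / X) + ((z o : ℝ) / X - y' o) + (y' o - y o) := by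
      ring
    rw [h4]
    calc _ ≤ |(z o : ℝ) / T - (z o : ℝ) / X| + |(z o : ℝ) / X - y' o| + |y' o - y o| := abs_add_three _ _ _
      _ ≤ 1 / (4 * m) + 1 / (4 * m) + 1 / (4 * m) := by linarith
      _ ≤ 1 / m := by
          have : (1 : ℝ) / (4 * m) = (1 / m) / 4 := by field_simp
          rw [this]
          have : (0 : ℝ) < 1 / m := by positivity
          linarith
  · intro p hp hpm i
    obtain ⟨g1, g2, g3⟩ := hloc p hp (hpm.trans hmp)
    have hpQ : (p : ℤ_[p]) ^ m ∣ ((Q0 : ℤ) : ℤ_[p]) := by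
      rw [padic_pow_dvd_int]
      exact_mod_cast prs_dvd_nmax p0 m p hp.out (hpm.trans hmp)
    have hTT : (p : ℤ_[p]) ^ m ∣ (T : ℤ_[p]) - T0 := by
      have e1 : (T : ℤ_[p]) - T0 = ((Q0 : ℤ) : ℤ_[p]) * q := by rw [hT]; push_cast; ring
      rw [e1]; exact hpQ.mul_right _
    apply padic_close
    · refine Fin.cases ?_ (fun l => ?_) i
      · rw [hz0]
        push_cast
        have e1 : (n : ℤ_[p]) - T * u p hp 0 = ((n : ℤ_[p]) - T0 * u p hp 0) - (T - T0) * u p hp 0 := by ring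
        rw [e1]
        exact dvd_sub g2 (hTT.mul_right _)
      · rw [hzl]
        have h6 : (p : ℤ_[p]) ^ m ∣ (((x l - ξ l : ℤ)) : ℤ_[p]) := by
          obtain ⟨w, hw⟩ := hcel.1 l
          rw [hw]; push_cast
          have := hpQ
          push_cast at this
          exact this.mul_right _
        push_cast at h6
        have e1 : (x l : ℤ_[p]) - T * u p hp (Fin.succ l) = ((x l : ℤ_[p]) - ξ l) +
            ((ξ l : ℤ_[p]) - T0 * u p hp (Fin.succ l)) - (T - T0) * u p hp (Fin.succ l) := by ring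
        rw [e1]
        exact dvd_sub (dvd_add h6 (g3 l)) (hTT.mul_right _)
    · intro hd
      apply g1
      have h7 : (p : ℤ) ∣ (Q0 : ℤ) := by
        have h8 : p ∣ Q0 := (dvd_pow_self p (by omega)).trans (prs_dvd_nmax p0 m p hp.out (hpm.trans hmp))
        exact_mod_cast h8
      have h9 : (p : ℤ) ∣ (T0 : ℤ) := by
        have e1 : (T0 : ℤ) = T - Q0 * q := by rw [hT]; ring
        rw [e1]
        exact dvd_sub hd (h7.mul_right _)
      exact_mod_cast h9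

end Pool.Agent.H888.DH
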