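import Pool.Agent.H888.WA.V12
import Pool.Agent.H888.DH.Loc10

set_option linter.unusedVariables false
set_option linter.unusedSectionVars false
set_option linter.style.haveILetI false

namespace Pool.Agent.H888.DH

open Finset

/-- the conditions of the cell theorem -/
def CellCond (k r n₀ π p0 E e G R A jj : ℕ) (ε1 ρ c1 σ0 : ℝ) (ξ c : Fin r → ℕ)
    (b : Fin (r + 1) → ℤ) : Prop :=
  n₀ * π ^ jj ≤ R ^ N0 k r ∧ (∀ o, ε1 * A ≤ |(b o : ℝ)|) ∧
        (∀ x : Fin r → ℤ, (∀ l, 1 ≤ x l ∧ x l ≤ ((R ^ N0 k r : ℕ) : ℤ)) →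
          CelP (nmax p0 e) (ρ * ((R ^ N0 k r : ℕ) : ℝ)) ξ c x →
          dot b (VV (n₀ * π ^ jj) k x) ≠ 0) ∧
        (∃ Y : Fin r → ℝ, (∀ l, c1 * ((R ^ N0 k r : ℕ) : ℝ) ≤ Y l ∧ Y l ≤ ((R ^ N0 k r : ℕ) : ℝ) / 2) ∧
          (b 0 : ℝ) * ((n₀ * π ^ jj : ℕ) : ℝ) ^ k + ∑ l, (b (Fin.succ l) : ℝ) * (Y l) ^ k = 0 ∧
          ∀ l, c l * (ρ * ((R ^ N0 k r : ℕ) : ℝ)) ≤ Y l ∧ Y l ≤ (c l + 1) * (ρ * ((R ^ N0 k r : ℕ) : ℝ))) ∧
        (∀ _ : NeZero (n₀ ^ k * ((π * nmax p0 E) * G.factorial)),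
          σ0 * ((n₀ ^ k * ((π * nmax p0 E) * G.factorial) : ℕ) : ℝ) ^ (r - 1) ≤
          (SolG k r b (n₀ * π ^ jj) (n₀ ^ k * ((π * nmax p0 E) * G.factorial)) (Gam r p0 e π ξ)).card)

theorem cell_thm' (k r n₀ π C0 p0 E e : ℕ) (hk : 3 ≤ k) (hr : 2 * k + 1 ≤ r) (hn : 1 ≤ n₀)
    [hπ : Fact π.Prime] (hE1 : 1 ≤ E) (heE : e ≤ E) (ε1 ρ ρ' c1 : ℝ) (hε1 : 0 < ε1) (hρ : 0 < ρ)
    (hρk : ρ * k ≤ 1) (hρ' : 0 < ρ') (hρ'ρ : ρ' ≤ ρ)
    (hρ'c : r * k * ρ' / ε1 ≤ ρ / 2 * c1 ^ (k - 1)) (hc1 : 0 < c1) (hρc : 2 * ρ ≤ c1)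
    (hC0 : 4 / c1 ≤ C0) (hC02 : 2 ≤ C0) (σ0 : ℝ) (hσ0 : 0 < σ0) (δ : ℝ) (hδ : 0 < δ) :
    ∃ G R1 : ℕ, ∀ R A jj : ℕ, R1 ≤ R → R ^ eA k r ≤ A → A < (R + 1) ^ eA k r →
      ∀ (ξ c : Fin r → ℕ) (W : Finset (Fin (r + 1) → ℤ)),
      (∀ b ∈ W, b ∈ boxA (r + 1) A ∧ CellCond k r n₀ π p0 E e G R A jj ε1 ρ c1 σ0 ξ c b) →
      (W.card : ℝ) ≤ δ * (A : ℝ) ^ (r + 1) := by
  obtain ⟨G, R1, h⟩ := cell_thm k r n₀ π C0 p0 E e hk hr hn hE1 heE ε1 ρ ρ' c1 hε1 hρ hρk hρ' hρ'ρ hρ'c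
    hc1 hρc hC0 hC02 σ0 hσ0 δ hδ
  refine ⟨G, R1, ?_⟩
  intro R A jj hR hA1 hA2 ξ c W hW
  by_cases hn : n₀ * π ^ jj ≤ R ^ N0 k r
  · exact h R A jj hR hA1 hA2 hn ξ c W (fun b hb => ⟨(hW b hb).1, (hW b hb).2.2⟩)
  · have : W = ∅ := by
      rw [Finset.eq_empty_iff_forall_notMem]
      intro b hb
      exact hn (hW b hb).2.1
    rw [this]; simp; positivity

/-- Number of admissible exponents. -/
theorem card_J (π B CJ : ℕ) (hπ : 2 ≤ π) (hB : 1 ≤ B) (lo : ℝ) (hlo : 0 < lo) (hCJ : (B : ℝ) / 2 ≤ lo * CJ)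
    (J : Finset ℕ) (hJ : ∀ j ∈ J, lo < (π : ℝ) ^ j ∧ (π : ℝ) ^ j ≤ B / 2) : J.card ≤ CJ + 1 := by
  rcases Finset.eq_empty_or_nonempty J with h | h
  · rw [h]; simp
  · set j0 := J.min' h with hj0
    have hsub : J ⊆ Finset.Icc j0 (j0 + CJ) := by
      intro j hj
      have h1 : j0 ≤ j := Finset.min'_le J j hj
      rw [Finset.mem_Icc]
      refine ⟨h1, ?_⟩
      have h2 := (hJ j0 (Finset.min'_mem J h)).1
      have h3 := (hJ j hj).2
      obtain ⟨d, rfl⟩ : ∃ d, j = j0 + d := ⟨j - j0, by omega⟩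
      have h4 : (d : ℝ) ≤ (π : ℝ) ^ d := by
        have e1 : d < 2 ^ d := Nat.lt_two_pow_self
        have e2 : (2 : ℕ) ^ d ≤ π ^ d := Nat.pow_le_pow_left hπ _
        exact_mod_cast (e1.trans_le e2).le
      rw [pow_add] at h3
      have h5 : lo * (π : ℝ) ^ d ≤ lo * CJ := by
        calc lo * (π : ℝ) ^ d ≤ (π : ℝ) ^ j0 * (π : ℝ) ^ d := by gcongr
          _ ≤ B / 2 := h3
          _ ≤ _ := hCJ
      have h6 := le_of_mul_le_mul_left h5 hlo
      have h7 : (d : ℝ) ≤ CJ := h4.trans h6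
      have h8 : d ≤ CJ := by exact_mod_cast h7
      omega
    calc J.card ≤ (Finset.Icc j0 (j0 + CJ)).card := Finset.card_le_card hsub
      _ = CJ + 1 := by rw [Nat.card_Icc]; omega

/-- exceptional set at the auxiliary prime -/
theorem card_Epi (k r H π : ℕ) [hπ : Fact π.Prime] (hk : 1 ≤ k) (hr : 5 ≤ r) (hpk : 2 * r * k < π)
    (hH : π ≤ H) (F : Finset (Fin (r + 1) → ℤ))
    (hF : ∀ a ∈ F, a ∈ boxA (r + 1) H ∧ (fun o => ((a o : ℤ) : ZMod π)) ∈ BadPi k r π) :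
    (F.card : ℝ) ≤ (r + 1 + 4 * (k : ℝ) ^ r) * 3 ^ (r + 1) / π * (H : ℝ) ^ (r + 1) := by
  have hπR : (0 : ℝ) < π := by exact_mod_cast hπ.out.pos
  have h1 := card_box_class (r + 1) H π hπ.out.pos (BadPi k r π) F hF
  have h2 := card_BadPi_le (p := π) k r hk hr hpk
  have hπH : (π : ℝ) ≤ H := by exact_mod_cast hH
  have h4 : 2 * (H : ℝ) / π + 1 ≤ 3 * H / π := by
    have e1 : (1 : ℝ) ≤ H / π := by rw [le_div_iff₀ hπR]; linarith
    have : 3 * (H : ℝ) / π = 2 * H / π + H / π := by ring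
    rw [this]; linarith
  calc (F.card : ℝ) ≤ ((BadPi k r π).card : ℝ) * (2 * H / π + 1) ^ (r + 1) := h1
    _ ≤ ((r + 1 + 4 * (k : ℝ) ^ r) * (π : ℝ) ^ r) * (3 * H / π) ^ (r + 1) := by gcongr
    _ = _ := by
        rw [div_pow, mul_pow, pow_succ (π : ℝ)]
        field_simp

set_option maxHeartbeats 4000000 in
theorem pos_bound (k r m : ℕ) (hk : 3 ≤ k) (hr : 2 * k + 1 ≤ r) (hm : 1 ≤ m) (ε : ℝ) (hε : 0 < ε) :
    ∃ H0 : ℕ, ∀ H : ℕ, H0 ≤ H → ∀ F : Finset (Fin (r + 1) → ℤ),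
      (∀ b ∈ F, b ∈ boxA (r + 1) H ∧ (∀ p : ℕ, ∀ _ : Fact p.Prime, Sol ℚ_[p] k (r + 1) b) ∧
        ∃ (y : Fin (r + 1) → ℝ) (u : ∀ p : ℕ, ∀ _ : Fact p.Prime, Fin (r + 1) → ℤ_[p]),
          ((∀ o, 0 ≤ y o ∧ y o ≤ 1) ∧ (∃ o, y o = 1) ∧ ∑ o, (b o : ℝ) * (y o) ^ k = 0) ∧
          (∀ (p : ℕ) (hp : Fact p.Prime), p ≤ m → PrimZ p k (r + 1) b (u p hp)) ∧
          ¬ ApproxQ k (r + 1) m H b y u) →
      (F.card : ℝ) ≤ ε * (H : ℝ) ^ (r + 1) := by
  classical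
  have hr7 : 7 ≤ r := by omega
  have hkR : (3 : ℝ) ≤ k := by exact_mod_cast hk
  have hrR : (7 : ℝ) ≤ r := by exact_mod_cast hr7
  have hmR : (1 : ℝ) ≤ m := by exact_mod_cast hm
  -- ε1
  set ε1 : ℝ := min 1 (ε / (5 * ((r + 1) * 3 ^ (r + 1)))) with hε1d
  have hε1 : 0 < ε1 := lt_min one_pos (by positivity)
  have hε1' : ε1 ≤ 1 := min_le_left _ _
  have hε1'' : (r + 1) * ε1 * 3 ^ (r + 1) ≤ ε / 5 := by
    have h : ε1 ≤ ε / (5 * ((r + 1) * 3 ^ (r + 1))) := min_le_right _ _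
    rw [le_div_iff₀ (by positivity)] at h
    linarith
  -- p0
  obtain ⟨p0', hp0'⟩ := exists_nat_ge (5 * (((k ^ r + r ^ 2 : ℕ) : ℝ) * 3 ^ (r + 1)) / ε)
  set p0 := max (max p0' m) (max 4 k) with hp0d
  have hp04 : 4 ≤ p0 := (le_max_left _ _).trans (le_max_right _ _)
  have hkp0 : k ≤ p0 := (le_max_right _ _).trans (le_max_right _ _)
  have hmp0 : m ≤ p0 := (le_max_right _ _).trans (le_max_left _ _)
  have hp0R : (0 : ℝ) < p0 := by exact_mod_cast (by omega : 0 < p0)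
  have hp0e : ((k ^ r + r ^ 2 : ℕ) : ℝ) * 3 ^ (r + 1) / p0 ≤ ε / 5 := by
    have h1 : 5 * (((k ^ r + r ^ 2 : ℕ) : ℝ) * 3 ^ (r + 1)) / ε ≤ p0 := by
      refine hp0'.trans ?_
      exact_mod_cast (le_max_left p0' m).trans (le_max_left _ _)
    rw [div_le_iff₀ hε] at h1
    rw [div_le_iff₀ hp0R]
    linarith
  -- M
  obtain ⟨M, hM⟩ := exists_nat_ge ((p0 + 1) * (r + 1) * 3 ^ (r + 1) * 5 / ε)
  have hMe : ((p0 : ℝ) + 1) * (r + 1) * (3 ^ (r + 1) / 2 ^ (M + 1)) ≤ ε / 5 := by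
    have h2 : (M : ℝ) ≤ 2 ^ (M + 1) := by
      have : M < 2 ^ M := Nat.lt_two_pow_self
      have h3 : M ≤ 2 ^ (M + 1) := by rw [pow_succ]; omega
      exact_mod_cast h3
    have h1 : (p0 + 1) * (r + 1) * 3 ^ (r + 1) * 5 / ε ≤ (2 : ℝ) ^ (M + 1) := hM.trans h2
    rw [div_le_iff₀ hε] at h1
    rw [mul_div_assoc', div_le_iff₀ (by positivity)]
    linarith
  -- π
  obtain ⟨π', hπ'⟩ := exists_nat_ge (5 * ((r + 1 + 4 * (k : ℝ) ^ r) * 3 ^ (r + 1)) / ε)
  obtain ⟨π, hπge, hπp⟩ := Nat.exists_infinite_primes (max π' (max (p0 + 1) (2 * r * k + 1)))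
  haveI hπF : Fact π.Prime := ⟨hπp⟩
  have hπ1 : π' ≤ π := (le_max_left _ _).trans hπge
  have hπ2 : p0 < π := (le_max_left _ _).trans ((le_max_right _ _).trans hπge)
  have hπ3 : 2 * r * k < π := (le_max_right _ _).trans ((le_max_right _ _).trans hπge)
  have hπR : (2 : ℝ) ≤ π := by exact_mod_cast hπp.two_le
  have hπR0 : (0 : ℝ) < π := by linarith
  have hπe : (r + 1 + 4 * (k : ℝ) ^ r) * 3 ^ (r + 1) / π ≤ ε / 5 := by
    have h1 : 5 * ((r + 1 + 4 * (k : ℝ) ^ r) * 3 ^ (r + 1)) / ε ≤ π := hπ'.trans (by exact_mod_cast hπ1)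
    rw [div_le_iff₀ hε] at h1
    rw [div_le_iff₀ hπR0]
    linarith
  -- real perturbation
  obtain ⟨δ, hδ0, hδ2, hpert⟩ := real_perturb k r (by omega) ε1 hε1 hε1' (1 / (4 * m)) (by positivity)
  set c1 : ℝ := δ / (4 * π) with hc1d
  have hc1 : 0 < c1 := by positivity
  set ρ : ℝ := min (1 / k) (min (c1 / 2) (1 / (48 * π * m))) with hρd
  have hρ0 : 0 < ρ := lt_min (by positivity) (lt_min (by positivity) (by positivity))
  have hρk : ρ * k ≤ 1 := by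
    have : ρ ≤ 1 / k := min_le_left _ _
    rwa [le_div_iff₀ (by linarith)] at this
  have hρc : 2 * ρ ≤ c1 := by
    have : ρ ≤ c1 / 2 := (min_le_right _ _).trans (min_le_left _ _)
    linarith
  have hρm : 48 * π * m * ρ ≤ 1 := by
    have : ρ ≤ 1 / (48 * π * m) := (min_le_right _ _).trans (min_le_right _ _)
    rw [le_div_iff₀ (by positivity)] at this
    linarith
  set ρ' : ℝ := min ρ (ε1 * ρ * c1 ^ (k - 1) / (2 * r * k)) with hρ'd
  have hρ'0 : 0 < ρ' := lt_min hρ0 (by positivity)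
  have hρ'ρ : ρ' ≤ ρ := min_le_left _ _
  have hρ'c : r * k * ρ' / ε1 ≤ ρ / 2 * c1 ^ (k - 1) := by
    have : ρ' ≤ ε1 * ρ * c1 ^ (k - 1) / (2 * r * k) := min_le_right _ _
    rw [le_div_iff₀ (by positivity)] at this
    rw [div_le_iff₀ hε1]
    linarith
  obtain ⟨C0', hC0'⟩ := exists_nat_ge (4 / c1)
  set C0 := max C0' 2 with hC0d
  have hC02 : 2 ≤ C0 := le_max_right _ _
  have hC0 : 4 / c1 ≤ C0 := hC0'.trans (by exact_mod_cast le_max_left _ _)
  -- local parameters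
  set E := 2 * (k + M) + m with hEd
  have hE1 : 1 ≤ E := by omega
  have hmE : m ≤ E := by omega
  set Nm := nmax p0 E with hNm
  set Q0 := nmax p0 m with hQ0
  set σ0 := sig1 r p0 E π with hσ0d
  have hσ0 : 0 < σ0 := sig1_pos _ _ _ _ hπp.pos
  obtain ⟨CJ, hCJ⟩ := exists_nat_ge (2 * π * Nm / δ)
  obtain ⟨Cg, hCg⟩ := exists_nat_ge (1 / (2 * ρ))
  set Ncell : ℕ := Nm * ((CJ + 1) * (Q0 ^ r * (Cg + 1) ^ r)) with hNcell
  set δc : ℝ := ε / (5 * (Ncell + 1)) with hδc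
  have hδc0 : 0 < δc := by positivity
  have hper : ∀ n₀ : ℕ, ∃ G R1 : ℕ, 1 ≤ n₀ → ∀ R A jj : ℕ, R1 ≤ R → R ^ eA k r ≤ A → A < (R + 1) ^ eA k r →
      ∀ (ξ c : Fin r → ℕ) (W : Finset (Fin (r + 1) → ℤ)),
      (∀ b ∈ W, b ∈ boxA (r + 1) A ∧ CellCond k r n₀ π p0 E m G R A jj ε1 ρ c1 σ0 ξ c b) →
      (W.card : ℝ) ≤ δc * (A : ℝ) ^ (r + 1) := by
    intro n₀
    by_cases hn : 1 ≤ n₀
    · obtain ⟨G, R1, h⟩ := cell_thm' k r n₀ π C0 p0 E m hk hr hn hE1 hmE ε1 ρ ρ' c1 hε1 hρ0 hρk hρ'0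
        hρ'ρ hρ'c hc1 hρc hC0 hC02 σ0 hσ0 δc hδc0
      exact ⟨G, R1, fun _ => h⟩
    · exact ⟨0, 0, fun h => absurd h hn⟩
  choose G R1 hGR using hper
  set Gm := (Finset.Icc 1 Nm).sup G with hGm
  set Rm := (Finset.Icc 1 Nm).sup R1 with hRm
  have heA : 1 ≤ eA k r := by
    unfold eA N0
    have : 4 * 4 ≤ (r + k * r ^ 2 + 4) * (k + 1) := Nat.mul_le_mul (by omega) (by omega)
    omega
  obtain ⟨He, hHe⟩ := exists_nat_ge (1 / ε1)
  obtain ⟨Rx, hRx⟩ := exists_nat_ge (max (4 * Nm * π / δ) (max (8 * π * Q0) (128 * m * (π : ℝ) ^ 2 * Q0)))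
  refine ⟨max (max (max 1 He) π) (max (p0 ^ (M + 1)) (max Gm ((max Rm (max Rx 1)) ^ eA k r))), ?_⟩
  intro H hH F hF
  have hH1 : 1 ≤ H := ((le_max_left _ _).trans ((le_max_left _ _).trans (le_max_left _ _))).trans hH
  have hH2 : He ≤ H := ((le_max_right _ _).trans ((le_max_left _ _).trans (le_max_left _ _))).trans hH
  have hHπ : π ≤ H := ((le_max_right _ _).trans (le_max_left _ _)).trans hH
  have hH3 : p0 ^ (M + 1) ≤ H := ((le_max_left _ _).trans (le_max_right _ _)).trans hH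
  have hH4 : Gm ≤ H := ((le_max_left _ _).trans ((le_max_right _ _).trans (le_max_right _ _))).trans hH
  have hH5 : (max Rm (max Rx 1)) ^ eA k r ≤ H :=
    ((le_max_right _ _).trans ((le_max_right _ _).trans (le_max_right _ _))).trans hH
  have hHR : (1 : ℝ) ≤ H := by exact_mod_cast hH1
  have hH2' : 1 ≤ ε1 * H := by
    have h1 : 1 / ε1 ≤ (H : ℝ) := hHe.trans (by exact_mod_cast hH2)
    rw [div_le_iff₀ hε1] at h1
    linarith
  obtain ⟨R, hR1, hR2⟩ := exists_root_floor (eA k r) H heA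
  have hRmax : max Rm (max Rx 1) ≤ R := by
    by_contra hcon
    push Not at hcon
    have : (R + 1) ^ eA k r ≤ (max Rm (max Rx 1)) ^ eA k r := Nat.pow_le_pow_left (by omega) _
    omega
  have hRmR : Rm ≤ R := (le_max_left _ _).trans hRmax
  have hRxR : Rx ≤ R := (le_max_left _ _).trans ((le_max_right _ _).trans hRmax)
  have hR1' : 1 ≤ R := (le_max_right _ _).trans ((le_max_right _ _).trans hRmax)
  set B := R ^ N0 k r with hB
  have hN04 : 4 ≤ N0 k r := by unfold N0; omega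
  have hBkH : ((B : ℕ) : ℝ) ^ k ≤ H := by
    have h1 : B ^ k ≤ H := by
      refine le_trans ?_ hR1
      rw [hB, ← pow_mul]
      apply Nat.pow_le_pow_right hR1'
      unfold eA
      have : N0 k r * (k + 1) = N0 k r * k + N0 k r := by ring
      omega
    exact_mod_cast h1
  have hRB : (R : ℝ) ≤ B := by
    have : R ≤ B := by
      calc R = R ^ 1 := (pow_one R).symm
        _ ≤ R ^ N0 k r := Nat.pow_le_pow_right hR1' (by omega)
    exact_mod_cast this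
  have hBpos : 1 ≤ B := Nat.one_le_pow _ _ hR1'
  have hB1 : (1 : ℝ) ≤ B := by exact_mod_cast hBpos
  have hBR0 : (0 : ℝ) < B := by linarith
  have hRxB : (Rx : ℝ) ≤ B := by
    have : (Rx : ℝ) ≤ R := by exact_mod_cast hRxR
    linarith
  have hx1 : 4 * Nm * π / δ ≤ (B : ℝ) := ((le_max_left _ _).trans hRx).trans hRxB
  have hx2 : 8 * π * Q0 ≤ (B : ℝ) := (((le_max_left _ _).trans (le_max_right _ _)).trans hRx).trans hRxB
  have hx3 : 128 * m * (π : ℝ) ^ 2 * Q0 ≤ (B : ℝ) :=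
    (((le_max_right _ _).trans (le_max_right _ _)).trans hRx).trans hRxB
  have hNm1 : 1 ≤ Nm := by
    apply Nat.one_le_iff_ne_zero.mpr
    rw [hNm]; unfold nmax
    rw [Finset.prod_ne_zero_iff]
    intro p hp
    exact pow_ne_zero _ (mem_prs.mp hp).2.ne_zero
  have hNmR : (1 : ℝ) ≤ Nm := by exact_mod_cast hNm1
  -- exceptional sets
  set E1 := F.filter (fun a => ∃ o, |(a o : ℝ)| < ε1 * H) with hE1'
  set E2 := F.filter (fun a => ∃ p : ℕ, p.Prime ∧ p ≤ p0 ∧ ∃ o, (p : ℤ) ^ (M + 1) ∣ a o) with hE2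
  set E3 := F.filter (fun a => ∃ p : ℕ, ∃ _ : Fact p.Prime, p0 < p ∧ p ≤ Gm ∧
      (fun o => ((a o : ℤ) : ZMod p)) ∈ BadP k r p) with hE3
  set Eπ := F.filter (fun a => (fun o => ((a o : ℤ) : ZMod π)) ∈ BadPi k r π) with hEπ
  set J : Finset ℕ := (Finset.range (B + 1)).filter (fun j => δ * B / (4 * π * Nm) < (π : ℝ) ^ j ∧
    (π : ℝ) ^ j ≤ B / 2) with hJ
  set I : Finset (ℕ × ℕ × (Fin r → ℕ) × (Fin r → ℕ)) := (Finset.Icc 1 Nm) ×ˢ J ×ˢ
    (Fintype.piFinset (fun _ : Fin r => Finset.range Q0)) ×ˢ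
    (Fintype.piFinset (fun _ : Fin r => Finset.range (Cg + 1))) with hI
  set WW : (ℕ × ℕ × (Fin r → ℕ) × (Fin r → ℕ)) → Finset (Fin (r + 1) → ℤ) := fun i =>
    F.filter (fun b => CellCond k r i.1 π p0 E m (G i.1) R H i.2.1 ε1 ρ c1 σ0 i.2.2.1 i.2.2.2 b) with hWW
  have hsub : F ⊆ (E1 ∪ E2) ∪ ((E3 ∪ Eπ) ∪ I.biUnion WW) := by
    intro b hb
    by_contra hcon
    simp only [Finset.mem_union, not_or] at hcon
    obtain ⟨⟨h1, h2⟩, ⟨h3, hπ4⟩, h4⟩ := hcon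
    obtain ⟨hbb, hels, y, u, ⟨hy1, hy2, hy3⟩, hu, hna⟩ := hF b hb
    have h1' : ∀ o, ε1 * H ≤ |(b o : ℝ)| := by
      intro o
      by_contra hc
      push Not at hc
      exact h1 (Finset.mem_filter.mpr ⟨hb, o, hc⟩)
    have h2' : ∀ p : ℕ, p.Prime → p ≤ p0 → ∀ o, ¬ (p : ℤ) ^ (M + 1) ∣ b o := by
      intro p hp hpp o hd
      exact h2 (Finset.mem_filter.mpr ⟨hb, p, hp, hpp, o, hd⟩)
    have hπ4' : (fun o => ((b o : ℤ) : ZMod π)) ∉ BadPi k r π := by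
      intro hc
      exact hπ4 (Finset.mem_filter.mpr ⟨hb, hc⟩)
    -- extended p-adic family
    have hext : ∀ (p : ℕ) (hp : Fact p.Prime), ∃ v : Fin (r + 1) → ℤ_[p],
        PrimZ p k (r + 1) b v ∧ (p ≤ m → v = u p hp) := by
      intro p hp
      by_cases hpm : p ≤ m
      · exact ⟨u p hp, hu p hp hpm, fun _ => rfl⟩
      · obtain ⟨x, hx, hs⟩ := hels p hp
        obtain ⟨v, ⟨o, ho⟩, hv⟩ := primitive_solution (p := p) k r (by omega) b x hx hs
        exact ⟨v, ⟨⟨o, by rw [ho]; exact isUnit_one⟩, hv⟩, fun h => absurd h hpm⟩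
    choose u' hu'1 hu'2 using hext
    have hna' : ¬ ApproxQ k (r + 1) m H b y u' := by
      rintro ⟨x, T, a0, a00, a1, a2, a3⟩
      apply hna
      refine ⟨x, T, a0, a00, a1, a2, ?_⟩
      intro p hp hpm i
      have := a3 p hp hpm i
      rw [hu'2 p hp hpm] at this
      exact this
    -- local density
    obtain ⟨n₀, hn1, hn2, hloc⟩ := sigma_lower2 k r hk hr7 p0 M m π hp04 hkp0 hm hπ2 b u'
      (fun p hp _ => (hu'1 p hp).1) (fun p hp _ => (hu'1 p hp).2) h2' hπ4'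
    have hn1R : (1 : ℝ) ≤ n₀ := by exact_mod_cast hn1
    have hn2R : (n₀ : ℝ) ≤ Nm := by exact_mod_cast hn2
    -- real target
    obtain ⟨y', hy'1, hy'2, hy'3⟩ := hpert (H : ℝ) (by linarith) b
      (fun o => by exact_mod_cast mem_boxA.mp hbb o) h1' y hy1 hy2 hy3
    have hy0 := hy'1 0
    have hy0pos : 0 < y' 0 := lt_of_lt_of_le hδ0 hy0.1
    -- exponent
    have hX0π : (π : ℝ) ≤ y' 0 * B / (4 * n₀) := by
      rw [le_div_iff₀ (by positivity)]
      rw [div_le_iff₀ hδ0] at hx1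
      calc (π : ℝ) * (4 * n₀) ≤ π * (4 * Nm) := by gcongr
        _ = 4 * Nm * π := by ring
        _ ≤ B * δ := hx1
        _ ≤ B * y' 0 := by gcongr; exact hy0.1
        _ = _ := by ring
    obtain ⟨jj, hjj1, hjj2⟩ := exists_nat_pow_near (x := y' 0 * B / (4 * n₀)) (y := (π : ℝ))
      (by linarith) (by linarith)
    have hjj0 : 1 ≤ jj := by
      by_contra hc
      have : jj = 0 := by omega
      rw [this, zero_add, pow_one] at hjj2
      linarith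
    obtain ⟨ξ, T0, hξlt, hTlt, hclose, hdens⟩ := hloc jj hjj0
    set n := n₀ * π ^ jj with hn
    set X : ℝ := (n : ℝ) / y' 0 with hX
    have hnR : (n : ℝ) = n₀ * (π : ℝ) ^ jj := by rw [hn]; push_cast; ring
    have hnpos : (0 : ℝ) < n := by rw [hnR]; positivity
    have hXpos : 0 < X := by positivity
    have hXy : X * y' 0 = n := by rw [hX]; field_simp
    have hnup : (n : ℝ) ≤ y' 0 * B / 4 := by
      rw [hnR]
      rw [le_div_iff₀ (by positivity)] at hjj1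
      linarith
    have hXup : X ≤ B / 4 := by
      rw [hX, div_le_iff₀ hy0pos]
      linarith
    have hXlow : B / (4 * π) ≤ X := by
      rw [hX, div_le_div_iff₀ (by positivity) hy0pos, hnR]
      rw [div_lt_iff₀ (by positivity), pow_succ] at hjj2
      linarith
    have hnB2 : (n : ℝ) ≤ B / 2 := by
      have : y' 0 * B ≤ 2 * B := by gcongr; exact hy0.2
      linarith
    have hnB : (n : ℝ) ≤ B := by linarith
    have hnBN : n ≤ B := by exact_mod_cast hnB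
    -- Y
    set Y : Fin r → ℝ := fun l => X * y' (Fin.succ l) with hY
    have hYb : ∀ l, c1 * (B : ℝ) ≤ Y l ∧ Y l ≤ (B : ℝ) / 2 := by
      intro l
      have h5 := hy'1 (Fin.succ l)
      constructor
      · calc c1 * (B : ℝ) = B / (4 * π) * δ := by rw [hc1d]; field_simp
          _ ≤ X * y' (Fin.succ l) := by gcongr; exact h5.1
      · calc X * y' (Fin.succ l) ≤ B / 4 * 2 := by
              apply mul_le_mul hXup h5.2 (by linarith [h5.1]) (by positivity)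
          _ = _ := by ring
    have hYsum : (b 0 : ℝ) * ((n : ℕ) : ℝ) ^ k + ∑ l, (b (Fin.succ l) : ℝ) * (Y l) ^ k = 0 := by
      rw [Fin.sum_univ_succ] at hy'3
      have e1 : ∑ l : Fin r, (b (Fin.succ l) : ℝ) * (Y l) ^ k =
          X ^ k * ∑ l : Fin r, (b (Fin.succ l) : ℝ) * (y' (Fin.succ l)) ^ k := by
        rw [Finset.mul_sum]
        apply Finset.sum_congr rfl
        intro l _
        simp only [hY]
        rw [mul_pow]; ring
      rw [e1, ← hXy, mul_pow]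
      linear_combination X ^ k * hy'3
    set c : Fin r → ℕ := fun l => ⌊Y l / (ρ * B)⌋₊ with hc
    have hρB : 0 < ρ * (B : ℝ) := by positivity
    have hcb : ∀ l, c l * (ρ * (B : ℝ)) ≤ Y l ∧ Y l ≤ (c l + 1) * (ρ * (B : ℝ)) := by
      intro l
      have hY0 : 0 ≤ Y l := le_trans (by positivity) (hYb l).1
      have h5 : (c l : ℝ) ≤ Y l / (ρ * B) := Nat.floor_le (by positivity)
      have h6 : Y l / (ρ * B) < c l + 1 := Nat.lt_floor_add_one _
      rw [le_div_iff₀ hρB] at h5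
      rw [div_lt_iff₀ hρB] at h6
      exact ⟨h5, h6.le⟩
    apply h4
    rw [Finset.mem_biUnion]
    refine ⟨(n₀, jj, ξ, c), ?_, ?_⟩
    · rw [hI, Finset.mem_product, Finset.mem_product, Finset.mem_product]
      refine ⟨Finset.mem_Icc.mpr ⟨hn1, hn2⟩, ?_, ?_, ?_⟩
      · rw [hJ, Finset.mem_filter, Finset.mem_range]
        have hπjB : (π : ℝ) ^ jj ≤ B / 2 := by
          calc (π : ℝ) ^ jj = 1 * (π : ℝ) ^ jj := (one_mul _).symm
            _ ≤ n₀ * (π : ℝ) ^ jj := by gcongr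
            _ = n := hnR.symm
            _ ≤ _ := hnB2
        refine ⟨?_, ?_, hπjB⟩
        · have e1 : jj < 2 ^ jj := Nat.lt_two_pow_self
          have e2 : (2 : ℕ) ^ jj ≤ π ^ jj := Nat.pow_le_pow_left hπp.two_le _
          have e3 : ((π ^ jj : ℕ) : ℝ) ≤ B := by push_cast; linarith
          have e4 : π ^ jj ≤ B := by exact_mod_cast e3
          have e5 : jj < B + 1 := by omega
          exact e5
        · rw [div_lt_iff₀ (by positivity)]
          rw [div_lt_iff₀ (by positivity), pow_succ] at hjj2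
          calc δ * B ≤ y' 0 * B := by gcongr; exact hy0.1
            _ < (π : ℝ) ^ jj * π * (4 * n₀) := hjj2
            _ ≤ (π : ℝ) ^ jj * π * (4 * Nm) := by gcongr
            _ = _ := by ring
      · rw [Fintype.mem_piFinset]
        intro l
        exact Finset.mem_range.mpr (hξlt l)
      · rw [Fintype.mem_piFinset]
        intro l
        rw [Finset.mem_range]
        have h5 : (c l : ℝ) ≤ Cg := by
          refine le_trans ?_ hCg
          have h6 := (hcb l).1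
          have h7 := (hYb l).2
          rw [le_div_iff₀ (by positivity)]
          have h8 : (c l : ℝ) * (2 * ρ) * B ≤ 1 * B := by linarith
          exact le_of_mul_le_mul_right h8 hBR0
        have h9 : c l ≤ Cg := by exact_mod_cast h5
        exact Nat.lt_succ_of_le h9
    · rw [hWW, Finset.mem_filter]
      refine ⟨hb, hnBN, h1', ?_, ⟨Y, hYb, hYsum, hcb⟩, ?_⟩
      · intro x hx hxc hdot
        apply hna'
        refine approx_of_cell k r m p0 n H π hm hmp0 hπp.one_lt.le b y y' u' hy'2 X B ρ hρ0 hBR0 hρm hXlow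
          hXy hnB hBkH ?_ hx3 ξ c T0 hclose hcb x ?_ hxc hdot
        · have : (2 : ℝ) * Q0 ≤ B / (4 * π) := by
            rw [le_div_iff₀ (by positivity)]
            linarith
          linarith
        · intro l
          exact ⟨(hx l).1, by exact_mod_cast (hx l).2⟩
      · apply hdens (G n₀)
        intro p hp hp1 hp2 _ hbad
        apply h3
        rw [hE3, Finset.mem_filter]
        refine ⟨hb, p, hp, hp1, hp2.trans ?_, hbad⟩
        exact Finset.le_sup (f := G) (Finset.mem_Icc.mpr ⟨hn1, hn2⟩)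
  have c1' : (E1.card : ℝ) ≤ ε / 5 * (H : ℝ) ^ (r + 1) := by
    refine (card_E1 r H ε1 hε1 hH2' E1 (fun a ha => ?_)).trans (by gcongr)
    rw [hE1', Finset.mem_filter] at ha
    exact ⟨(hF a ha.1).1, ha.2⟩
  have c2 : (E2.card : ℝ) ≤ ε / 5 * (H : ℝ) ^ (r + 1) := by
    refine (card_E2 r H p0 M hH3 hH1 E2 (fun a ha => ?_)).trans (by gcongr)
    rw [hE2, Finset.mem_filter] at ha
    exact ⟨(hF a ha.1).1, ha.2⟩
  have c3 : (E3.card : ℝ) ≤ ε / 5 * (H : ℝ) ^ (r + 1) := by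
    refine (card_E3 k r H p0 Gm (by omega) hr7 (by omega) hH4 hH1 E3 (fun a ha => ?_)).trans (by gcongr)
    rw [hE3, Finset.mem_filter] at ha
    exact ⟨(hF a ha.1).1, ha.2⟩
  have cπ : (Eπ.card : ℝ) ≤ ε / 5 * (H : ℝ) ^ (r + 1) := by
    refine (card_Epi k r H π (by omega) (by omega) hπ3 hHπ Eπ (fun a ha => ?_)).trans (by gcongr)
    rw [hEπ, Finset.mem_filter] at ha
    exact ⟨(hF a ha.1).1, ha.2⟩
  have hIcard : I.card ≤ Ncell := by
    rw [hI, Finset.card_product, Finset.card_product, Finset.card_product, Nat.card_Icc,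
      Fintype.card_piFinset, Fintype.card_piFinset, Finset.prod_const, Finset.prod_const,
      Finset.card_univ, Fintype.card_fin, Finset.card_range, Finset.card_range, Nat.add_sub_cancel]
    rw [hNcell]
    apply Nat.mul_le_mul_left
    apply Nat.mul_le_mul_right
    apply card_J π B CJ hπp.two_le hBpos (δ * B / (4 * π * Nm)) (by positivity) _ J (fun j hj => (Finset.mem_filter.mp hj).2)
    rw [div_le_iff₀ hδ0] at hCJ
    have e1 : δ * B / (4 * π * Nm) * CJ = (CJ * δ) * B / (4 * π * Nm) := by ring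
    rw [e1, le_div_iff₀ (by positivity)]
    calc (B : ℝ) / 2 * (4 * π * Nm) = (2 * π * Nm) * B := by ring
      _ ≤ (CJ * δ) * B := by gcongr
  have c4 : ((I.biUnion WW).card : ℝ) ≤ ε / 5 * (H : ℝ) ^ (r + 1) := by
    have h1 : ∀ i ∈ I, ((WW i).card : ℝ) ≤ δc * (H : ℝ) ^ (r + 1) := by
      intro i hi
      rw [hI, Finset.mem_product] at hi
      have hn' := Finset.mem_Icc.mp hi.1
      apply hGR i.1 hn'.1 R H i.2.1 ((Finset.le_sup (f := R1) hi.1).trans hRmR) hR1 hR2 i.2.2.1 i.2.2.2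
      intro a ha
      rw [hWW, Finset.mem_filter] at ha
      exact ⟨(hF a ha.1).1, ha.2⟩
    calc ((I.biUnion WW).card : ℝ) ≤ ∑ i ∈ I, ((WW i).card : ℝ) := by
          exact_mod_cast Finset.card_biUnion_le
      _ ≤ ∑ i ∈ I, δc * (H : ℝ) ^ (r + 1) := Finset.sum_le_sum h1
      _ = I.card * (δc * (H : ℝ) ^ (r + 1)) := by rw [Finset.sum_const, nsmul_eq_mul]
      _ ≤ (Ncell + 1) * (δc * (H : ℝ) ^ (r + 1)) := by
          apply mul_le_mul_of_nonneg_right _ (by positivity)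
          have : (I.card : ℝ) ≤ Ncell := by exact_mod_cast hIcard
          linarith
      _ = _ := by rw [hδc]; field_simp
  have hcard : F.card ≤ (E1.card + E2.card) + ((E3.card + Eπ.card) + (I.biUnion WW).card) :=
    (Finset.card_le_card hsub).trans ((Finset.card_union_le _ _).trans
      (Nat.add_le_add (Finset.card_union_le _ _) ((Finset.card_union_le _ _).trans
        (Nat.add_le_add_right (Finset.card_union_le _ _) _))))
  have hcardR : (F.card : ℝ) ≤ (E1.card + E2.card) + ((E3.card + Eπ.card) + (I.biUnion WW).card) := by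
    exact_mod_cast hcard
  linarith

end Pool.Agent.H888.DH
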