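import Pool.Agent.H888.WA.V1
import Pool.Agent.H888.DH.Var4

set_option linter.unusedVariables false
set_option linter.unusedSectionVars false
set_option linter.style.haveILetI false

namespace Pool.Agent.H888.DH

open Finset Complex

/-- Admissible parameters for `x₀ = n₀ π^jj`. -/
structure Par.Ok2 (P : Par) (n₀ π jj : ℕ) : Prop where
  hk : 3 ≤ P.k
  hr : 2 * P.k + 1 ≤ P.r
  hn : P.n = n₀ * π ^ jj
  hn0 : 1 ≤ n₀
  hπ : π.Prime
  hnB : P.n ≤ P.B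
  hB0 : 1 ≤ P.B0
  hB0B : P.B0 ≤ P.B
  hC0 : P.B ≤ P.C0 * P.B0
  hR : 1 ≤ P.R
  hm : P.m.Prime
  hJ : 0 < P.J
  hA1 : 1 ≤ P.A
  h8 : 8 * P.A * P.J ≤ P.m
  h9 : P.m ≤ 9 * P.A * P.J
  hA : P.A ≤ P.B * P.B ^ P.k
  hAR : P.B * P.B ^ P.k ≤ P.A * P.R
  hcA : (P.A * P.R : ℝ) ≤ P.cA * (P.B * (P.B : ℝ) ^ P.k)
  hJbig : P.B ^ (2 * P.k) ≤ P.J
  h4 : 4 * P.J * P.B ^ P.k ≤ P.m
  hη : 0 ≤ P.η
  hKL : (P.K * P.L : ℝ) ≤ P.η * P.A * (P.B : ℝ) ^ P.k
  hKG : ∀ g : ℕ, 1 ≤ g → g ≤ P.G → n₀ ^ P.k * g ∣ P.K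

/-- The points prime to `π`. -/
noncomputable def Par.T1 (P : Par) (π : ℕ) : Finset (Fin P.r → ℤ) := by
  classical
  exact P.T.filter (fun x => ∀ l, ¬ (π : ℤ) ∣ x l)

theorem Par.mem_T1 {P : Par} {π : ℕ} {x : Fin P.r → ℤ} :
    x ∈ P.T1 π ↔ x ∈ P.T ∧ ∀ l, ¬ (π : ℤ) ∣ x l := by
  classical
  rw [Par.T1, Finset.mem_filter]

section
variable {P : Par} {n₀ π jj : ℕ}

theorem T_pos2 (hP : P.Ok2 n₀ π jj) {x : Fin P.r → ℤ} (hx : x ∈ P.T) (l : Fin P.r) :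
    1 ≤ x l ∧ (P.B0 : ℤ) ≤ x l ∧ x l ≤ P.B := by
  have h1 := (mem_Tset.mp hx).1 l
  have h2 : (1 : ℤ) ≤ P.B0 := by exact_mod_cast hP.hB0
  exact ⟨by linarith, h1.1, h1.2⟩

theorem Ok2.hB (hP : P.Ok2 n₀ π jj) : 1 ≤ P.B := hP.hB0.trans hP.hB0B

theorem Ok2.hn1 (hP : P.Ok2 n₀ π jj) : 1 ≤ P.n := by
  rw [hP.hn]; exact Nat.mul_pos hP.hn0 (pow_pos hP.hπ.pos _)

theorem abs_D_le2 (hP : P.Ok2 n₀ π jj) {x y : Fin P.r → ℤ} (hx : x ∈ P.T) (hy : y ∈ P.T)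
    (o o' : Fin (P.r + 1)) : |VV P.n P.k x o * VV P.n P.k y o' - VV P.n P.k x o' * VV P.n P.k y o| ≤
      (P.B : ℤ) ^ (2 * P.k) := by
  have hnn : ∀ (x : Fin P.r → ℤ), x ∈ P.T → ∀ o, 0 ≤ VV P.n P.k x o := by
    intro x hx o
    refine Fin.cases ?_ ?_ o
    · rw [VV_zero]; positivity
    · intro l; rw [VV_succ]; exact pow_nonneg (by linarith [(T_pos2 hP hx l).1]) _
  have h1 := fun o => (abs_le.mp (abs_VV_le (k := P.k) hP.hnB hP.hB0 hx o)).2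
  have h2 := fun o => (abs_le.mp (abs_VV_le (k := P.k) hP.hnB hP.hB0 hy o)).2
  have hBk : (0 : ℤ) ≤ (P.B : ℤ) ^ P.k := by positivity
  rw [two_mul, pow_add, abs_le]
  have a1 := mul_le_mul (h1 o) (h2 o') (hnn y hy o') hBk
  have a2 := mul_le_mul (h1 o') (h2 o) (hnn y hy o) hBk
  have a3 := mul_nonneg (hnn x hx o) (hnn y hy o')
  have a4 := mul_nonneg (hnn x hx o') (hnn y hy o)
  constructor <;> linarith

/-- Basic count for a pair. -/
theorem card_Ex_le2 (hP : P.Ok2 n₀ π jj) (x y : Fin P.r → ℤ) (hx : x ∈ P.T1 π) (hy : y ∈ P.T1 π)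
    (l0 : Fin P.r) (hne : x l0 ≠ y l0) (p : Fin P.r) (q : Fin (P.r + 1)) (D : ℤ)
    (hD : D = VV P.n P.k x p.succ * VV P.n P.k y q - VV P.n P.k x q * VV P.n P.k y p.succ)
    (hD0 : D ≠ 0) :
    ((P.Ex x y).card : ℝ) ≤ 375 * ((n₀ ^ P.k : ℕ) : ℝ) ^ 3 * gG P.k (π ^ jj) x y * P.J ^ 2 * P.B ^ P.k /
      (P.B0 ^ P.k * |(D : ℝ)|) := by
  have hk := hP.hk
  have hB := Ok2.hB hP
  obtain ⟨hxT, hxπ⟩ := Par.mem_T1.mp hx
  obtain ⟨hyT, hyπ⟩ := Par.mem_T1.mp hy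
  have hg := gE_pos (k := P.k) (by omega) (fun l => by linarith [(T_pos2 hP hxT l).1])
    (fun l => by linarith [(T_pos2 hP hyT l).1]) hne
  have hq1 : 1 ≤ π ^ jj := Nat.one_le_pow _ _ hP.hπ.pos
  have hgG := gG_pos (k := P.k) hq1 hg
  apply exact_count2 P.r P.k P.m P.J P.B P.B0 (VV P.n P.k x) (VV P.n P.k y) (n₀ ^ P.k)
    (gG P.k (π ^ jj) x y)
    (Nat.one_le_pow _ _ hP.hn0) hgG hP.hB0 hB hP.hm.pos hP.hJ (abs_VV_le hP.hnB hP.hB0 hxT)
    (abs_VV_le hP.hnB hP.hB0 hyT) p q _ D hD hD0 _ _ hP.h4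
  · -- fibres
    intro t ht
    have h0 := ht 0
    have hl := ht p.succ
    rw [VV_zero] at h0
    rw [VV_succ] at hl
    have hgN : ((gG P.k (π ^ jj) x y : ℕ) : ℤ) ∣ ((n₀ ^ P.k * gG P.k (π ^ jj) x y : ℕ) : ℤ) := by
      push_cast; exact dvd_mul_left _ _
    have h0' := hgN.trans h0
    have hl' := hgN.trans hl
    have hπP : Prime (π : ℤ) := Nat.prime_iff_prime_int.mp hP.hπ
    have hcop : IsCoprime ((π : ℤ) ^ (jj * P.k)) (y p ^ P.k) := by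
      apply IsCoprime.pow
      exact (hπP.coprime_iff_not_dvd).mpr (hyπ p)
    obtain ⟨u, v, huv⟩ := hcop
    have e1 : ((n₀ ^ P.k : ℕ) : ℤ) * t = u * (t * (P.n : ℤ) ^ P.k) + v * (n₀ : ℤ) ^ P.k * (t * y p ^ P.k) := by
      have e2 : (P.n : ℤ) ^ P.k = (n₀ : ℤ) ^ P.k * (π : ℤ) ^ (jj * P.k) := by
        rw [hP.hn]; push_cast; rw [mul_pow, ← pow_mul]
      rw [e2]
      push_cast
      linear_combination (-((n₀ : ℤ) ^ P.k * t)) * huv
    rw [e1]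
    exact dvd_add (h0'.mul_left _) (hl'.mul_left _)
  · intro z hz; exact (P.mem_Ex hz).2.2.1
  · intro z hz
    obtain ⟨_, _, _, w, hw, hmin⟩ := P.mem_Ex hz
    rw [hP.hn] at hmin
    obtain ⟨P', Q', h2⟩ := exact_struct2 P.k n₀ (π ^ jj) hP.hn0 hq1 x y hg w hmin
    refine ⟨w, P', Q', hw, ?_⟩
    intro o
    have := h2 o
    rw [← hP.hn] at this
    rw [← this]; push_cast; ring
  · rw [VV_succ]
    exact pow_le_pow_left₀ (by positivity) (T_pos2 hP hyT p).2.1 _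
  · rw [hD]
    refine (abs_D_le2 hP hxT hyT _ _).trans ?_
    have : P.B ^ (2 * P.k) ≤ P.J * P.B ^ P.k :=
      hP.hJbig.trans (Nat.le_mul_of_pos_right _ (pow_pos (by omega) _))
    exact_mod_cast this
  · exact le_trans (Nat.pow_le_pow_left hP.hB0B _)
      (le_trans (Nat.pow_le_pow_right hB (by omega)) hP.hJbig)

/-- Weighted bound when `gG ≤ G`. -/
theorem psi_small2 (hP : P.Ok2 n₀ π jj) (x y : Fin P.r → ℤ) (hx : x ∈ P.T1 π) (hy : y ∈ P.T1 π)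
    (l0 : Fin P.r) (hne : x l0 ≠ y l0) (q : Fin (P.r + 1)) (D : ℤ)
    (hD : D = VV P.n P.k x l0.succ * VV P.n P.k y q - VV P.n P.k x q * VV P.n P.k y l0.succ)
    (hD0 : D ≠ 0) (hgG : gG P.k (π ^ jj) x y ≤ P.G) (z : ℤ × ℤ) (hz : z ∈ P.Ex x y) :
    psiN P.m P.K P.L z.1 ≤ 2 * P.η * P.B ^ (2 * P.k) / |(D : ℝ)| ∧
    psiN P.m P.K P.L z.2 ≤ 2 * P.η * P.B ^ (2 * P.k) / |(D : ℝ)| := by
  have hk := hP.hk
  have hB := Ok2.hB hP
  obtain ⟨hxT, hxπ⟩ := Par.mem_T1.mp hx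
  obtain ⟨hyT, hyπ⟩ := Par.mem_T1.mp hy
  have hg := gE_pos (k := P.k) (by omega) (fun l => by linarith [(T_pos2 hP hxT l).1])
    (fun l => by linarith [(T_pos2 hP hyT l).1]) hne
  have hq1 : 1 ≤ π ^ jj := Nat.one_le_pow _ _ hP.hπ.pos
  have hgGpos := gG_pos (k := P.k) hq1 hg
  obtain ⟨_, _, _, w, hw, hmin⟩ := P.mem_Ex hz
  rw [hP.hn] at hmin
  obtain ⟨P', Q', h2⟩ := exact_struct2 P.k n₀ (π ^ jj) hP.hn0 hq1 x y hg w hmin
  rw [← hP.hn] at h2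
  have hn0 : (0 : ℤ) < (n₀ : ℤ) ^ P.k := by
    have : (0 : ℤ) < n₀ := by exact_mod_cast hP.hn0
    positivity
  have hg0 : (0 : ℤ) < (gG P.k (π ^ jj) x y : ℤ) := by exact_mod_cast hgGpos
  set G' : ℤ := (n₀ : ℤ) ^ P.k * gG P.k (π ^ jj) x y with hG'
  have hG'pos : 0 < G' := mul_pos hn0 hg0
  have hclose := exact_close P.r P.k P.m P.J P.B (VV P.n P.k x) (VV P.n P.k y) w G' hG'pos
    (abs_VV_le hP.hnB hP.hB0 hxT) (abs_VV_le hP.hnB hP.hB0 hyT) l0.succ q D hD z P' Q' hw h2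
  have hGK : G' ∣ (P.K : ℤ) := by
    have := hP.hKG _ hgGpos hgG
    rw [hG']; exact_mod_cast this
  have hDpos : (0 : ℝ) < |(D : ℝ)| := by rw [abs_pos]; exact_mod_cast hD0
  have hm : (0 : ℝ) < P.m := by exact_mod_cast hP.hm.pos
  have hG'R : (0 : ℝ) < G' := by exact_mod_cast hG'pos
  have hA1 : (0 : ℝ) < P.A := by exact_mod_cast hP.hA1
  have hJ1 : (0 : ℝ) < P.J := by exact_mod_cast hP.hJ
  have h8 : 8 * (P.A : ℝ) * P.J ≤ P.m := by exact_mod_cast hP.h8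
  have hη := hP.hη
  have main : ∀ (i P0 I0 : ℤ), G' * i = P.m * P0 + I0 → |I0| * |D| ≤ 2 * G' * P.J * (P.B : ℤ) ^ P.k →
      psiN P.m P.K P.L i ≤ 2 * P.η * P.B ^ (2 * P.k) / |(D : ℝ)| := by
    intro i P0 I0 hi hI0
    refine (psiN_le_close P.m P.K P.L hP.hm.pos i G' P0 I0 hG'pos hGK hi).trans ?_
    have hI0' : |(I0 : ℝ)| * |(D : ℝ)| ≤ 2 * G' * P.J * (P.B : ℝ) ^ P.k := by
      have : ((|I0| * |D| : ℤ) : ℝ) ≤ ((2 * G' * P.J * (P.B : ℤ) ^ P.k : ℤ) : ℝ) := by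
        exact_mod_cast hI0
      push_cast at this
      exact this
    rw [div_le_div_iff₀ (by positivity) hDpos]
    have hpi : Real.pi ≤ 4 := Real.pi_le_four
    calc 2 * Real.pi * (P.K * P.L * |(I0 : ℝ)|) * |(D : ℝ)|
        = 2 * Real.pi * (P.K * P.L) * (|(I0 : ℝ)| * |(D : ℝ)|) := by ring
      _ ≤ 2 * Real.pi * (P.η * P.A * (P.B : ℝ) ^ P.k) * (2 * G' * P.J * (P.B : ℝ) ^ P.k) := by
          apply mul_le_mul _ hI0' (by positivity) (by positivity)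
          apply mul_le_mul_of_nonneg_left hP.hKL (by positivity)
      _ ≤ 2 * 4 * (P.η * P.A * (P.B : ℝ) ^ P.k) * (2 * G' * P.J * (P.B : ℝ) ^ P.k) := by
          gcongr
      _ = 2 * P.η * (P.B : ℝ) ^ (2 * P.k) * (G' * (8 * P.A * P.J)) := by
          rw [two_mul P.k, pow_add]; ring
      _ ≤ 2 * P.η * (P.B : ℝ) ^ (2 * P.k) * (G' * P.m) := by gcongr
  constructor
  · exact main z.1 P' (G' * z.1 - P.m * P') (by ring) hclose.1
  · exact main z.2 (-Q') (G' * z.2 + P.m * Q') (by ring) hclose.2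

/-- The constant `C₂`. -/
noncomputable def C2P (P : Par) (n₀ : ℕ) : ℝ := 1500 * ((n₀ ^ P.k : ℕ) : ℝ) ^ 3 * P.J ^ 2 * P.C0 ^ P.k

theorem C2P_nonneg (P : Par) (n₀ : ℕ) : 0 ≤ C2P P n₀ := by unfold C2P; positivity

/-- Bound (a). -/
theorem ExS_le_a2 (hP : P.Ok2 n₀ π jj) (x y : Fin P.r → ℤ) (hx : x ∈ P.T1 π) (hy : y ∈ P.T1 π)
    (l0 : Fin P.r) (hne : x l0 ≠ y l0) (p : Fin P.r) (q : Fin (P.r + 1)) (D : ℤ)
    (hD : D = VV P.n P.k x p.succ * VV P.n P.k y q - VV P.n P.k x q * VV P.n P.k y p.succ)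
    (hD0 : D ≠ 0) :
    P.ExS x y ≤ C2P P n₀ * (gG P.k (π ^ jj) x y / |(D : ℝ)|) := by
  have h1 := P.ExS_le_card x y
  have h2 := card_Ex_le2 hP x y hx hy l0 hne p q D hD hD0
  have hB0 : (0 : ℝ) < P.B0 := by exact_mod_cast hP.hB0
  have hDpos : (0 : ℝ) < |(D : ℝ)| := by rw [abs_pos]; exact_mod_cast hD0
  have hC0 : (P.B : ℝ) ≤ P.C0 * P.B0 := by exact_mod_cast hP.hC0
  have h3 : (P.B : ℝ) ^ P.k ≤ P.C0 ^ P.k * P.B0 ^ P.k := by
    rw [← mul_pow]; gcongr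
  calc P.ExS x y ≤ 4 * (P.Ex x y).card := h1
    _ ≤ 4 * (375 * ((n₀ ^ P.k : ℕ) : ℝ) ^ 3 * gG P.k (π ^ jj) x y * P.J ^ 2 * P.B ^ P.k /
      (P.B0 ^ P.k * |(D : ℝ)|)) := by gcongr
    _ ≤ 4 * (375 * ((n₀ ^ P.k : ℕ) : ℝ) ^ 3 * gG P.k (π ^ jj) x y * P.J ^ 2 * (P.C0 ^ P.k * P.B0 ^ P.k) /
      (P.B0 ^ P.k * |(D : ℝ)|)) := by gcongr
    _ = _ := by unfold C2P; field_simp; ring

/-- Bound (b). -/
theorem ExS_le_b2 (hP : P.Ok2 n₀ π jj) (x y : Fin P.r → ℤ) (hx : x ∈ P.T1 π) (hy : y ∈ P.T1 π)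
    (l0 : Fin P.r) (hne : x l0 ≠ y l0) (q : Fin (P.r + 1)) (D : ℤ)
    (hD : D = VV P.n P.k x l0.succ * VV P.n P.k y q - VV P.n P.k x q * VV P.n P.k y l0.succ)
    (hD0 : D ≠ 0) (hgG : gG P.k (π ^ jj) x y ≤ P.G) :
    P.ExS x y ≤ C2P P n₀ * P.G * (P.η ^ 2 * P.B ^ (4 * P.k) / |(D : ℝ)| ^ 3) := by
  have h2 := card_Ex_le2 hP x y hx hy l0 hne l0 q D hD hD0
  have hB0 : (0 : ℝ) < P.B0 := by exact_mod_cast hP.hB0
  have hDpos : (0 : ℝ) < |(D : ℝ)| := by rw [abs_pos]; exact_mod_cast hD0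
  have hC0 : (P.B : ℝ) ≤ P.C0 * P.B0 := by exact_mod_cast hP.hC0
  have hη := hP.hη
  have h3 : (P.B : ℝ) ^ P.k ≤ P.C0 ^ P.k * P.B0 ^ P.k := by
    rw [← mul_pow]; gcongr
  have hgG' : (gG P.k (π ^ jj) x y : ℝ) ≤ P.G := by exact_mod_cast hgG
  have h4 : P.ExS x y ≤ (P.Ex x y).card * (2 * P.η * P.B ^ (2 * P.k) / |(D : ℝ)|) ^ 2 := by
    unfold Par.ExS
    calc _ ≤ ∑ z ∈ P.Ex x y, (2 * P.η * P.B ^ (2 * P.k) / |(D : ℝ)|) ^ 2 := by
          apply Finset.sum_le_sum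
          intro z hz
          obtain ⟨a1, a2⟩ := psi_small2 hP x y hx hy l0 hne q D hD hD0 hgG z hz
          rw [sq]
          exact mul_le_mul a1 a2 (psiN_nonneg _ _ _ _) (by positivity)
      _ = _ := by rw [Finset.sum_const, nsmul_eq_mul]
  calc P.ExS x y ≤ _ := h4
    _ ≤ (375 * ((n₀ ^ P.k : ℕ) : ℝ) ^ 3 * gG P.k (π ^ jj) x y * P.J ^ 2 * P.B ^ P.k /
      (P.B0 ^ P.k * |(D : ℝ)|)) * (2 * P.η * P.B ^ (2 * P.k) / |(D : ℝ)|) ^ 2 := by gcongr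
    _ ≤ (375 * ((n₀ ^ P.k : ℕ) : ℝ) ^ 3 * P.G * P.J ^ 2 * (P.C0 ^ P.k * P.B0 ^ P.k) /
      (P.B0 ^ P.k * |(D : ℝ)|)) * (2 * P.η * P.B ^ (2 * P.k) / |(D : ℝ)|) ^ 2 := by gcongr
    _ = _ := by
        have e : (P.B : ℝ) ^ (4 * P.k) = (P.B ^ (2 * P.k)) ^ 2 := by rw [← pow_mul]; congr 1; ring
        rw [e]
        unfold C2P
        field_simp
        ring

/-- Number of `y` with two coordinates prescribed, close to the line and in given classes. -/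
theorem group_count2 (k r B0 : ℕ) (hk : 2 ≤ k) (hB0 : 1 ≤ B0) (x : Fin r → ℤ) (l0 q : Fin r)
    (hlq : l0 ≠ q) (hx : (B0 : ℤ) ≤ x l0) (u v : ℤ) (M : ℝ) (hM : 0 ≤ M) (g : ℕ) (hg : 1 ≤ g)
    (Y : Finset (Fin r → ℤ))
    (hY : ∀ y ∈ Y, y l0 = u ∧ y q = v ∧ (∀ l, |((x l0 * y l - x l * u : ℤ) : ℝ)| ≤ M))
    (hd : ∀ y ∈ Y, ∀ y' ∈ Y, ∀ l, (g : ℤ) ∣ y l ^ k - y' l ^ k) :
    (Y.card : ℝ) ≤ (beta k g * (2 * M / B0 / (g : ℝ) ^ ((1 : ℝ) / k) + 1)) ^ (r - 2) := by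
  classical
  set S : Fin r → Finset ℤ := fun l => Y.image (fun y => y l) with hS
  have hsub : Y ⊆ Fintype.piFinset S := by
    intro y hy
    rw [Fintype.mem_piFinset]
    intro l
    exact Finset.mem_image_of_mem _ hy
  set b : ℝ := beta k g * (2 * M / B0 / (g : ℝ) ^ ((1 : ℝ) / k) + 1) with hb
  have hg' : (0 : ℝ) < g := by exact_mod_cast hg
  have hB0' : (0 : ℝ) < B0 := by exact_mod_cast hB0
  have hθ : (0 : ℝ) < (g : ℝ) ^ ((1 : ℝ) / k) := Real.rpow_pos_of_pos hg' _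
  have hb1 : 1 ≤ b := by
    have h1 : (1 : ℝ) ≤ beta k g := one_le_beta _ _ (by omega) (by omega)
    have h2 : (1 : ℝ) ≤ 2 * M / B0 / (g : ℝ) ^ ((1 : ℝ) / k) + 1 := by
      have : 0 ≤ 2 * M / B0 / (g : ℝ) ^ ((1 : ℝ) / k) := by positivity
      linarith
    nlinarith
  calc (Y.card : ℝ) ≤ ((Fintype.piFinset S).card : ℝ) := by exact_mod_cast Finset.card_le_card hsub
    _ = ∏ l, ((S l).card : ℝ) := by rw [Fintype.card_piFinset]; push_cast; rfl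
    _ ≤ b ^ (r - 2) := by
        apply prod_le_pow_sub_two _ b hb1 l0 q hlq (fun l => by positivity)
        · have : (S l0).card ≤ 1 := by
            rw [Finset.card_le_one]
            intro a ha c hc
            rw [hS, Finset.mem_image] at ha hc
            obtain ⟨y, hy, rfl⟩ := ha
            obtain ⟨y', hy', rfl⟩ := hc
            rw [(hY y hy).1, (hY y' hy').1]
          exact_mod_cast this
        · have : (S q).card ≤ 1 := by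
            rw [Finset.card_le_one]
            intro a ha c hc
            rw [hS, Finset.mem_image] at ha hc
            obtain ⟨y, hy, rfl⟩ := ha
            obtain ⟨y', hy', rfl⟩ := hc
            rw [(hY y hy).2.1, (hY y' hy').2.1]
          exact_mod_cast this
        · intro l
          rw [hb]
          apply card_pow_congr_le k g (by omega) hg (S l) _ (2 * M / B0) (by positivity)
          · intro a ha c hc
            rw [hS, Finset.mem_image] at ha hc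
            obtain ⟨y, hy, rfl⟩ := ha
            obtain ⟨y', hy', rfl⟩ := hc
            have e1 : ((y l : ℝ) - y' l) * (x l0 : ℝ) ≤ 2 * M := by
              have h1 := (abs_le.mp ((hY y hy).2.2 l)).2
              have h2 := (abs_le.mp ((hY y' hy').2.2 l)).1
              push_cast at h1 h2
              linarith
            have hx0 : (B0 : ℝ) ≤ x l0 := by exact_mod_cast hx
            rcases le_total ((y l : ℝ) - y' l) 0 with h0 | h0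
            · have : 0 ≤ 2 * M / B0 := by positivity
              linarith
            · rw [le_div_iff₀ hB0']
              calc ((y l : ℝ) - y' l) * B0 ≤ (y l - y' l) * x l0 := mul_le_mul_of_nonneg_left hx0 h0
                _ ≤ 2 * M := e1
          · intro a ha c hc
            rw [hS, Finset.mem_image] at ha hc
            obtain ⟨y, hy, rfl⟩ := ha
            obtain ⟨y', hy', rfl⟩ := hc
            exact hd y hy y' hy' l

/-- Pairs based at `(l0,q)`. -/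
noncomputable def Yb2 (P : Par) (π : ℕ) (x : Fin P.r → ℤ) (l0 q : Fin P.r) :
    Finset (Fin P.r → ℤ) := by
  classical
  exact (P.T1 π).filter (fun y => x l0 ≠ y l0 ∧ x l0 * y q - x q * y l0 ≠ 0 ∧
    ∀ l, |x l0 * y l - x l * y l0| ≤ |x l0 * y q - x q * y l0|)

theorem mem_Yb2 {x : Fin P.r → ℤ} {l0 q : Fin P.r} {y : Fin P.r → ℤ} :
    y ∈ Yb2 P π x l0 q ↔ y ∈ P.T1 π ∧ x l0 ≠ y l0 ∧ x l0 * y q - x q * y l0 ≠ 0 ∧
    ∀ l, |x l0 * y l - x l * y l0| ≤ |x l0 * y q - x q * y l0| := by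
  classical
  rw [Yb2, Finset.mem_filter]

theorem D_lower2 (hP : P.Ok2 n₀ π jj) {x y : Fin P.r → ℤ} (hx : x ∈ P.T) (hy : y ∈ P.T)
    (l0 q : Fin P.r) :
    |((x l0 * y q - x q * y l0 : ℤ) : ℝ)| * (P.B0 : ℝ) ^ (2 * (P.k - 1)) ≤
      |((VV P.n P.k x l0.succ * VV P.n P.k y q.succ - VV P.n P.k x q.succ * VV P.n P.k y l0.succ : ℤ) : ℝ)| := by
  have hk := hP.hk
  have h0 : (0 : ℤ) ≤ P.B0 := by positivity
  have hsq : ∀ a b : ℤ, (P.B0 : ℤ) ≤ a → (P.B0 : ℤ) ≤ b → (P.B0 : ℤ) * P.B0 ≤ a * b :=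
    fun a b ha hb => mul_le_mul ha hb h0 (h0.trans ha)
  have h1 := abs_pow_sub_pow_ge P.k (by omega) (x l0 * y q) (x q * y l0) ((P.B0 : ℤ) * P.B0)
    (by positivity) (hsq _ _ (T_pos2 hP hx l0).2.1 (T_pos2 hP hy q).2.1)
    (hsq _ _ (T_pos2 hP hx q).2.1 (T_pos2 hP hy l0).2.1)
  rw [mul_pow, mul_pow, mul_pow, ← pow_add, ← two_mul] at h1
  simp only [VV_succ]
  exact_mod_cast h1

theorem Yb2_D (hP : P.Ok2 n₀ π jj) {x y : Fin P.r → ℤ} (hx : x ∈ P.T1 π)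
    {l0 q : Fin P.r} (hy : y ∈ Yb2 P π x l0 q) :
    VV P.n P.k x l0.succ * VV P.n P.k y q.succ - VV P.n P.k x q.succ * VV P.n P.k y l0.succ ≠ 0 := by
  obtain ⟨hyT, hne, hΔ, _⟩ := mem_Yb2.mp hy
  have hB0 : (0 : ℝ) < P.B0 := by exact_mod_cast hP.hB0
  have hMpos : (0 : ℝ) < |((x l0 * y q - x q * y l0 : ℤ) : ℝ)| := by
    rw [abs_pos]; exact_mod_cast hΔ
  have h1 := D_lower2 hP (Par.mem_T1.mp hx).1 (Par.mem_T1.mp hyT).1 l0 q
  have hlow : (0 : ℝ) < |((x l0 * y q - x q * y l0 : ℤ) : ℝ)| * (P.B0 : ℝ) ^ (2 * (P.k - 1)) := by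
    positivity
  intro h0
  rw [h0] at h1
  simp only [Int.cast_zero, abs_zero] at h1
  linarith

theorem ExS_le_a3 (hP : P.Ok2 n₀ π jj) (x y : Fin P.r → ℤ) (hx : x ∈ P.T1 π)
    (l0 q : Fin P.r) (hy : y ∈ Yb2 P π x l0 q) :
    P.ExS x y ≤ C2P P n₀ * (gG P.k (π ^ jj) x y /
      (|((x l0 * y q - x q * y l0 : ℤ) : ℝ)| * (P.B0 : ℝ) ^ (2 * (P.k - 1)))) := by
  obtain ⟨hyT, hne, hΔ, _⟩ := mem_Yb2.mp hy
  have hB0 : (0 : ℝ) < P.B0 := by exact_mod_cast hP.hB0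
  have hMpos : (0 : ℝ) < |((x l0 * y q - x q * y l0 : ℤ) : ℝ)| := by
    rw [abs_pos]; exact_mod_cast hΔ
  have h1 := D_lower2 hP (Par.mem_T1.mp hx).1 (Par.mem_T1.mp hyT).1 l0 q
  have hD0 := Yb2_D hP hx hy
  have hlow : (0 : ℝ) < |((x l0 * y q - x q * y l0 : ℤ) : ℝ)| * (P.B0 : ℝ) ^ (2 * (P.k - 1)) := by
    positivity
  refine (ExS_le_a2 hP x y hx hyT l0 hne l0 q.succ _ rfl hD0).trans ?_
  apply mul_le_mul_of_nonneg_left _ (C2P_nonneg _ _)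
  exact div_le_div_of_nonneg_left (by positivity) hlow h1

theorem ExS_le_b3 (hP : P.Ok2 n₀ π jj) (x y : Fin P.r → ℤ) (hx : x ∈ P.T1 π)
    (l0 q : Fin P.r) (hy : y ∈ Yb2 P π x l0 q) (hgG : gG P.k (π ^ jj) x y ≤ P.G) :
    P.ExS x y ≤ C2P P n₀ * P.G * (P.η ^ 2 * P.B ^ (4 * P.k) /
      (|((x l0 * y q - x q * y l0 : ℤ) : ℝ)| * (P.B0 : ℝ) ^ (2 * (P.k - 1))) ^ 3) := by
  obtain ⟨hyT, hne, hΔ, _⟩ := mem_Yb2.mp hy
  have hB0 : (0 : ℝ) < P.B0 := by exact_mod_cast hP.hB0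
  have hMpos : (0 : ℝ) < |((x l0 * y q - x q * y l0 : ℤ) : ℝ)| := by
    rw [abs_pos]; exact_mod_cast hΔ
  have h1 := D_lower2 hP (Par.mem_T1.mp hx).1 (Par.mem_T1.mp hyT).1 l0 q
  have hD0 := Yb2_D hP hx hy
  have hlow : (0 : ℝ) < |((x l0 * y q - x q * y l0 : ℤ) : ℝ)| * (P.B0 : ℝ) ^ (2 * (P.k - 1)) := by
    positivity
  refine (ExS_le_b2 hP x y hx hyT l0 hne q.succ _ rfl hD0 hgG).trans ?_
  have := C2P_nonneg P n₀
  apply mul_le_mul_of_nonneg_left _ (by positivity)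
  apply div_le_div_of_nonneg_left (by positivity) (by positivity)
  gcongr

/-- bounds for the base determinant -/
theorem M_bounds (hP : P.Ok2 n₀ π jj) {x y : Fin P.r → ℤ} (hx : x ∈ P.T) (hy : y ∈ P.T)
    (l0 q : Fin P.r) (h : x l0 * y q - x q * y l0 ≠ 0) :
    1 ≤ |((x l0 * y q - x q * y l0 : ℤ) : ℝ)| ∧ |((x l0 * y q - x q * y l0 : ℤ) : ℝ)| ≤ (P.B : ℝ) ^ 2 := by
  constructor
  · have : (1 : ℤ) ≤ |x l0 * y q - x q * y l0| := Int.one_le_abs h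
    exact_mod_cast this
  · have b1 := T_pos2 hP hx l0
    have b2 := T_pos2 hP hx q
    have b3 := T_pos2 hP hy l0
    have b4 := T_pos2 hP hy q
    have hBnn : (0 : ℤ) ≤ P.B := by positivity
    have c1 : x l0 * y q ≤ (P.B : ℤ) * P.B := mul_le_mul b1.2.2 b4.2.2 (by linarith) hBnn
    have c2 : x q * y l0 ≤ (P.B : ℤ) * P.B := mul_le_mul b2.2.2 b3.2.2 (by linarith) hBnn
    have c3 : 0 ≤ x l0 * y q := mul_nonneg (by linarith) (by linarith)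
    have c4 : 0 ≤ x q * y l0 := mul_nonneg (by linarith) (by linarith)
    have : |x l0 * y q - x q * y l0| ≤ (P.B : ℤ) ^ 2 := by
      rw [abs_le, sq]; constructor <;> linarith
    exact_mod_cast this

/-- E1, for fixed `x`, base `(l0, q)`. -/
theorem E1' (hP : P.Ok2 n₀ π jj) (x : Fin P.r → ℤ) (hx : x ∈ P.T1 π) (l0 q : Fin P.r) :
    ∑ y ∈ (Yb2 P π x l0 q).filter (fun y => gG P.k (π ^ jj) x y ≤ P.G), P.ExS x y ≤
      (P.B : ℝ) ^ 2 * (C2P P n₀ * P.G * (3 ^ P.r * P.C0 ^ (6 * P.k + P.r) *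
        (P.η ^ 2 * P.B ^ P.r / P.B ^ (2 * P.k + 2) + P.B ^ 2 / P.B ^ (2 * P.k)))) := by
  classical
  have hk := hP.hk
  have hB := Ok2.hB hP
  have hxT := (Par.mem_T1.mp hx).1
  have hη := hP.hη
  have hC1 := C2P_nonneg P n₀
  by_cases hlq : l0 = q
  · -- empty
    subst hlq
    have : (Yb2 P π x l0 l0).filter (fun y => gG P.k (π ^ jj) x y ≤ P.G) = ∅ := by
      rw [Finset.filter_eq_empty_iff]
      intro y hy
      exact absurd (by ring) (mem_Yb2.mp hy).2.2.1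
    rw [this, Finset.sum_empty]
    positivity
  set Y := (Yb2 P π x l0 q).filter (fun y => gG P.k (π ^ jj) x y ≤ P.G) with hYdef
  set f : (Fin P.r → ℤ) → ℤ × ℤ := fun y => (y l0, y q) with hf
  set U : Finset (ℤ × ℤ) := (Finset.Icc (1 : ℤ) P.B) ×ˢ (Finset.Icc (1 : ℤ) P.B) with hU
  have hmaps : ∀ y ∈ Y, f y ∈ U := by
    intro y hy
    rw [hYdef, Finset.mem_filter] at hy
    have hyT := (Par.mem_T1.mp (mem_Yb2.mp hy.1).1).1
    rw [hU, Finset.mem_product, Finset.mem_Icc, Finset.mem_Icc]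
    exact ⟨⟨(T_pos2 hP hyT l0).1, (T_pos2 hP hyT l0).2.2⟩,
      ⟨(T_pos2 hP hyT q).1, (T_pos2 hP hyT q).2.2⟩⟩
  set bd : ℝ := C2P P n₀ * P.G * (3 ^ P.r * P.C0 ^ (6 * P.k + P.r) *
        (P.η ^ 2 * P.B ^ P.r / P.B ^ (2 * P.k + 2) + P.B ^ 2 / P.B ^ (2 * P.k))) with hbd
  have hbd0 : 0 ≤ bd := by positivity
  rw [← Finset.sum_fiberwise_of_maps_to hmaps]
  calc ∑ t ∈ U, ∑ y ∈ Y.filter (fun y => f y = t), P.ExS x y ≤ ∑ t ∈ U, bd := by
        apply Finset.sum_le_sum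
        intro t _
        rcases (Y.filter (fun y => f y = t)).eq_empty_or_nonempty with hemp | ⟨y0, hy0⟩
        · rw [hemp, Finset.sum_empty]; exact hbd0
        -- M
        set M : ℝ := |((x l0 * t.2 - x q * t.1 : ℤ) : ℝ)| with hMdef
        have hmem : ∀ y ∈ Y.filter (fun y => f y = t), y ∈ P.T1 π ∧ y l0 = t.1 ∧ y q = t.2 ∧
            x l0 ≠ y l0 ∧ x l0 * y q - x q * y l0 ≠ 0 ∧
            (∀ l, |x l0 * y l - x l * y l0| ≤ |x l0 * y q - x q * y l0|) ∧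
            gG P.k (π ^ jj) x y ≤ P.G := by
          intro y hy
          rw [Finset.mem_filter, hYdef, Finset.mem_filter] at hy
          obtain ⟨⟨hyb, hg⟩, hft⟩ := hy
          obtain ⟨a1, a2, a3, a4⟩ := mem_Yb2.mp hyb
          refine ⟨a1, congrArg Prod.fst hft, congrArg Prod.snd hft, a2, a3, a4, hg⟩
        have hM : 1 ≤ M ∧ M ≤ (P.B : ℝ) ^ 2 := by
          obtain ⟨a1, a2, a3, a4, a5, a6, a7⟩ := hmem y0 hy0
          have := M_bounds hP hxT (Par.mem_T1.mp a1).1 l0 q a5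
          rw [a2, a3] at this
          exact this
        obtain ⟨hM1, hMB⟩ := hM
        have hcount := group_count2 P.k P.r P.B0 (by omega) hP.hB0 x l0 q hlq
          (T_pos2 hP hxT l0).2.1 t.1 t.2 M (by linarith) 1 le_rfl
          (Y.filter (fun y => f y = t)) (by
            intro y hy
            obtain ⟨a1, a2, a3, a4, a5, a6, a7⟩ := hmem y hy
            refine ⟨a2, a3, ?_⟩
            intro l
            have := a6 l
            rw [a2, a3] at this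
            rw [hMdef]; exact_mod_cast this) (by
            intro y _ y' _ l; simp)
        rw [beta_one, Nat.cast_one, one_mul, Real.one_rpow, div_one] at hcount
        have hB0 : (1 : ℝ) ≤ P.B0 := by exact_mod_cast hP.hB0
        have hB0' : (0 : ℝ) < P.B0 := by linarith
        have hMpos : 0 < M := by linarith
        have hterm : ∀ y ∈ Y.filter (fun y => f y = t), P.ExS x y ≤ C2P P n₀ * P.G *
            min (1 / (M * (P.B0 : ℝ) ^ (2 * (P.k - 1))))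
              (P.η ^ 2 * P.B ^ (4 * P.k) / (M * (P.B0 : ℝ) ^ (2 * (P.k - 1))) ^ 3) := by
          intro y hy
          obtain ⟨a1, a2, a3, a4, a5, a6, a7⟩ := hmem y hy
          have hyb : y ∈ Yb2 P π x l0 q := mem_Yb2.mpr ⟨a1, a4, a5, a6⟩
          have e1 := ExS_le_a3 hP x y hx l0 q hyb
          have e2 := ExS_le_b3 hP x y hx l0 q hyb a7
          rw [a2, a3, ← hMdef] at e1 e2
          rw [mul_min_of_nonneg _ _ (by positivity)]
          apply le_min _ e2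
          refine e1.trans ?_
          rw [mul_assoc]
          apply mul_le_mul_of_nonneg_left _ hC1
          have hgG : (gG P.k (π ^ jj) x y : ℝ) ≤ P.G := by exact_mod_cast a7
          rw [mul_one_div]
          gcongr
        calc ∑ y ∈ Y.filter (fun y => f y = t), P.ExS x y
            ≤ (Y.filter (fun y => f y = t)).card • (C2P P n₀ * P.G *
            min (1 / (M * (P.B0 : ℝ) ^ (2 * (P.k - 1))))
              (P.η ^ 2 * P.B ^ (4 * P.k) / (M * (P.B0 : ℝ) ^ (2 * (P.k - 1))) ^ 3)) :=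
              Finset.sum_le_card_nsmul _ _ _ hterm
          _ = ((Y.filter (fun y => f y = t)).card : ℝ) * (C2P P n₀ * P.G *
            min (1 / (M * (P.B0 : ℝ) ^ (2 * (P.k - 1))))
              (P.η ^ 2 * P.B ^ (4 * P.k) / (M * (P.B0 : ℝ) ^ (2 * (P.k - 1))) ^ 3)) := by
              rw [nsmul_eq_mul]
          _ ≤ (2 * M / P.B0 + 1) ^ (P.r - 2) * (C2P P n₀ * P.G *
            min (1 / (M * (P.B0 : ℝ) ^ (2 * (P.k - 1))))
              (P.η ^ 2 * P.B ^ (4 * P.k) / (M * (P.B0 : ℝ) ^ (2 * (P.k - 1))) ^ 3)) := by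
              apply mul_le_mul_of_nonneg_right hcount
              apply mul_nonneg (by positivity)
              apply le_min <;> positivity
          _ = C2P P n₀ * P.G * ((2 * M / P.B0 + 1) ^ (P.r - 2) *
            min (1 / (M * (P.B0 : ℝ) ^ (2 * (P.k - 1))))
              (P.η ^ 2 * P.B ^ (4 * P.k) / (M * (P.B0 : ℝ) ^ (2 * (P.k - 1))) ^ 3)) := by ring
          _ ≤ bd := by
              rw [hbd]
              apply mul_le_mul_of_nonneg_left _ (by positivity)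
              apply E1_num P.k P.r hP.hk hP.hr P.B P.B0 P.C0 P.η M hB0 (by exact_mod_cast hP.hB0B)
                (by exact_mod_cast hP.hC0) hη hM1 hMB
    _ = _ := by
        rw [Finset.sum_const, hU, Finset.card_product, Int.card_Icc, nsmul_eq_mul]
        have h2 : ((P.B : ℤ) + 1 - 1).toNat = P.B := by omega
        rw [h2]; push_cast; ring

end

end Pool.Agent.H888.DH
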