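import Pool.Agent.H888.WA.V2

set_option linter.unusedVariables false
set_option linter.unusedSectionVars false
set_option linter.style.haveILetI false

namespace Pool.Agent.H888.DH

open Finset Complex

/-- the exponent of `π` in `gG / gE`. -/
noncomputable def cc {r : ℕ} (k π jj : ℕ) (x y : Fin r → ℤ) : ℕ := Nat.log π (gG k (π ^ jj) x y / gE k x y)

theorem gG_eq {r : ℕ} {k π jj : ℕ} (hπ : π.Prime) {x y : Fin r → ℤ} (hg : 1 ≤ gE k x y) :
    gG k (π ^ jj) x y = gE k x y * π ^ cc k π jj x y ∧ cc k π jj x y ≤ k * jj := by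
  obtain ⟨c, hc, h⟩ := gG_shape (k := k) (jj := jj) hπ hg
  have h1 : gG k (π ^ jj) x y / gE k x y = π ^ c := by
    rw [h, Nat.mul_div_cancel_left _ (by omega)]
  have h2 : cc k π jj x y = c := by
    unfold cc
    rw [h1, Nat.log_pow hπ.one_lt]
  rw [h2]
  exact ⟨h, hc⟩

theorem class_diff {r : ℕ} {k π q : ℕ} (hπ : π.Prime) {x y y' : Fin r → ℤ} (l0 : Fin r)
    (hx : ¬ (π : ℤ) ∣ x l0) (hl0 : y l0 = y' l0) (g c : ℕ) (hg : 1 ≤ g)
    (h1 : gE k x y = g) (h2 : gE k x y' = g) (h3 : gG k q x y = g * π ^ c) (h4 : gG k q x y' = g * π ^ c)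
    (l : Fin r) : ((g * π ^ c : ℕ) : ℤ) ∣ y l ^ k - y' l ^ k := by
  have a1 := gE_dvd k x y l
  have a2 := gE_dvd k x y' l
  rw [h1] at a1
  rw [h2] at a2
  have a3 : (g : ℤ) ∣ y l ^ k - y' l ^ k := by
    have := dvd_sub a1 a2
    rwa [sub_sub_sub_cancel_right] at this
  obtain ⟨z, hz⟩ := a3
  have b1 := gG_dvd_minor k q x y l0 l
  have b2 := gG_dvd_minor k q x y' l0 l
  rw [h3] at b1
  rw [h4] at b2
  have b3 := dvd_sub b1 b2
  have e1 : x l0 ^ k * y l ^ k - x l ^ k * y l0 ^ k - (x l0 ^ k * y' l ^ k - x l ^ k * y' l0 ^ k) =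
      g * (x l0 ^ k * z) := by
    rw [hl0]
    linear_combination x l0 ^ k * hz
  rw [e1] at b3
  push_cast at b3
  have hg0 : (g : ℤ) ≠ 0 := by exact_mod_cast (by omega : g ≠ 0)
  have b4 : (π : ℤ) ^ c ∣ x l0 ^ k * z := (mul_dvd_mul_iff_left hg0).mp b3
  have hπP : Prime (π : ℤ) := Nat.prime_iff_prime_int.mp hπ
  have hcop : IsCoprime ((π : ℤ) ^ c) (x l0 ^ k) := by
    apply IsCoprime.pow
    exact (hπP.coprime_iff_not_dvd).mpr hx
  have b5 : (π : ℤ) ^ c ∣ z := hcop.dvd_of_dvd_mul_left b4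
  rw [hz]
  push_cast
  exact mul_dvd_mul_left _ b5

theorem beta_mono (k g g' : ℕ) (hk : 1 ≤ k) (hg' : g' ≠ 0) (h : g ∣ g') : beta k g ≤ beta k g' := by
  unfold beta
  apply Nat.mul_le_mul
  · exact Finset.card_le_card (Nat.divisors_subset_of_dvd hg' h)
  · apply Nat.pow_le_pow_right (by positivity)
    exact Finset.card_le_card (Nat.primeFactors_mono h hg')

/-- the summand of the tail -/
noncomputable def Fτ (k r π : ℕ) (s : ℕ × ℕ) : ℝ :=
  ((s.1 * π ^ s.2 : ℕ) : ℝ) * (beta k (s.1 * π ^ s.2) : ℝ) ^ r /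
    (th k s.1 * (th k (s.1 * π ^ s.2)) ^ (r - 1))

/-- Number of `v ≤ B` with `v^k` in one class. -/
theorem count_v2 {k g B : ℕ} (hk : 2 ≤ k) (hg : 1 ≤ g) (hgB : g ≤ B ^ k) (V : Finset ℤ)
    (hV : ∀ v ∈ V, 1 ≤ v ∧ v ≤ B) (hd : ∀ v ∈ V, ∀ v' ∈ V, (g : ℤ) ∣ v ^ k - v' ^ k) :
    (V.card : ℝ) ≤ 2 * beta k g * (B / th k g) := by
  have h1 := card_pow_congr_le k g hk hg V hd B (by positivity) (by
    intro a ha b hb
    have h1 := (hV a ha).2
    have h2 := (hV b hb).1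
    have h1' : (a : ℝ) ≤ B := by exact_mod_cast h1
    have h2' : (1 : ℝ) ≤ b := by exact_mod_cast h2
    linarith)
  have h2 := th_le k g B (by omega) hgB
  have h3 := th_ge_one k g hg
  have h4 : (1 : ℝ) ≤ B / th k g := by rw [le_div_iff₀ (by linarith)]; linarith
  refine h1.trans ?_
  have h5 : (0 : ℝ) ≤ beta k g := by positivity
  calc (beta k g : ℝ) * ((B : ℝ) / (g : ℝ) ^ ((1 : ℝ) / k) + 1)
      ≤ beta k g * (B / th k g + B / th k g) := by
        apply mul_le_mul_of_nonneg_left _ h5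
        have : (B : ℝ) / (g : ℝ) ^ ((1 : ℝ) / k) = B / th k g := rfl
        rw [this]
        linarith
    _ = _ := by ring

/-- number of divisors classes -/
theorem card_gc_le (k π jj B : ℕ) (hk : 1 ≤ k) (β₀ : ℝ) (r : ℕ) (hr : 1 ≤ r)
    (hβ : ∀ q : ℕ, 1 ≤ q → q ≤ B ^ (2 * k) → (beta k q : ℝ) ^ r ≤ β₀) (hB : 1 ≤ B)
    (u x0 : ℤ) (hu : 0 ≤ u ∧ u ≤ B) (hx : 0 ≤ x0 ∧ x0 ≤ B) (hux : u ≠ x0) (S : Finset (ℕ × ℕ))
    (hS : ∀ s ∈ S, (s.1 : ℤ) ∣ u ^ k - x0 ^ k ∧ s.2 ≤ k * jj) :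
    (S.card : ℝ) ≤ β₀ * (k * jj + 1) := by
  classical
  have hne : u ^ k - x0 ^ k ≠ 0 := by
    intro h0
    exact pow_ne_of_ne (k := k) hk hu.1 hx.1 hux (by linarith)
  set h := (u ^ k - x0 ^ k).natAbs with hh
  have hh0 : 1 ≤ h := Int.natAbs_pos.mpr hne
  have hhB : h ≤ B ^ k := by
    have h7 := abs_pow_sub_pow_le (k := k) (B := B) (u := u) (v := x0) hu.1 hu.2 hx.1 hx.2
    have : (h : ℤ) ≤ (B : ℤ) ^ k := by rw [hh, Int.natCast_natAbs]; exact h7
    exact_mod_cast this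
  have hsub : S ⊆ h.divisors ×ˢ Finset.range (k * jj + 1) := by
    intro s hs
    obtain ⟨h1, h2⟩ := hS s hs
    rw [Finset.mem_product, Nat.mem_divisors, Finset.mem_range]
    exact ⟨⟨Int.natCast_dvd.mp h1, by omega⟩, by omega⟩
  have h1 : (S.card : ℝ) ≤ h.divisors.card * (k * jj + 1) := by
    have := Finset.card_le_card hsub
    rw [Finset.card_product, Finset.card_range] at this
    exact_mod_cast this
  have h2 : (h.divisors.card : ℝ) ≤ beta k h := by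
    exact_mod_cast card_divisors_le_beta k h (by omega)
  have h3 : (beta k h : ℝ) ≤ (beta k h : ℝ) ^ r :=
    le_self_pow₀ (one_le_beta _ _ (by omega) (by omega)) (by omega)
  have h4 := hβ h hh0 (hhB.trans (Nat.pow_le_pow_right hB (by omega)))
  refine h1.trans ?_
  apply mul_le_mul_of_nonneg_right (by linarith) (by positivity)

section
variable {P : Par} {n₀ π jj : ℕ}

/-- E2, first regime. -/
theorem E2a (hP : P.Ok2 n₀ π jj) (β₀ τ : ℝ)
    (hβ : ∀ q : ℕ, 1 ≤ q → q ≤ P.B ^ (2 * P.k) → (beta P.k q : ℝ) ^ P.r ≤ β₀)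
    (hτ : ∀ S : Finset (ℕ × ℕ), (∀ s ∈ S, 1 ≤ s.1 ∧ P.G < s.1 * π ^ s.2) →
      ∑ s ∈ S, Fτ P.k P.r π s ≤ τ)
    (x : Fin P.r → ℤ) (hx : x ∈ P.T1 π) (l0 q : Fin P.r) :
    ∑ y ∈ (Yb2 P π x l0 q).filter (fun y => P.G < gG P.k (π ^ jj) x y ∧
      gG P.k (π ^ jj) x y ≤ P.B ^ P.k), P.ExS x y ≤
      (2 * C2P P n₀ * (4 ^ P.r * P.C0 ^ (2 * P.k + P.r))) *
        (2 * P.B ^ P.r * τ / P.B ^ (2 * P.k) + P.B ^ 3 * (β₀ ^ 2 * (P.k * jj + 1)) / P.B ^ P.k) := by
  classical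
  have hk := hP.hk
  have hr := hP.hr
  have hB := Ok2.hB hP
  obtain ⟨hxT, hxπ⟩ := Par.mem_T1.mp hx
  have hBR : (1 : ℝ) ≤ P.B := by exact_mod_cast hB
  have hB0R : (1 : ℝ) ≤ P.B0 := by exact_mod_cast hP.hB0
  have hC1 := C2P_nonneg P n₀
  have hBk2 : P.B ^ P.k ≤ P.B ^ (2 * P.k) := Nat.pow_le_pow_right hB (by omega)
  have hβ0 : 1 ≤ β₀ := by
    have := hβ 1 le_rfl (Nat.one_le_pow _ _ hB)
    rw [beta_one] at this; simpa using this
  have hτ0 : 0 ≤ τ := by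
    have := hτ ∅ (by simp)
    simpa using this
  by_cases hlq : l0 = q
  · subst hlq
    have : (Yb2 P π x l0 l0).filter (fun y => P.G < gG P.k (π ^ jj) x y ∧
      gG P.k (π ^ jj) x y ≤ P.B ^ P.k) = ∅ := by
      rw [Finset.filter_eq_empty_iff]
      intro y hy
      exact absurd (by ring) (mem_Yb2.mp hy).2.2.1
    rw [this, Finset.sum_empty]
    positivity
  set Y := (Yb2 P π x l0 q).filter (fun y => P.G < gG P.k (π ^ jj) x y ∧
      gG P.k (π ^ jj) x y ≤ P.B ^ P.k) with hYdef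
  set f : (Fin P.r → ℤ) → (ℤ × (ℕ × ℕ)) × ℤ := fun y => ((y l0, (gE P.k x y, cc P.k π jj x y)), y q)
    with hf
  have hYmem : ∀ y ∈ Y, y ∈ P.T1 π ∧ y ∈ P.T ∧ x l0 ≠ y l0 ∧ x l0 * y q - x q * y l0 ≠ 0 ∧
      (∀ l, |x l0 * y l - x l * y l0| ≤ |x l0 * y q - x q * y l0|) ∧ P.G < gG P.k (π ^ jj) x y ∧
      gG P.k (π ^ jj) x y ≤ P.B ^ P.k ∧ 1 ≤ gE P.k x y ∧
      gG P.k (π ^ jj) x y = gE P.k x y * π ^ cc P.k π jj x y ∧ cc P.k π jj x y ≤ P.k * jj := by
    intro y hy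
    rw [hYdef, Finset.mem_filter] at hy
    obtain ⟨a1, a2, a3, a4⟩ := mem_Yb2.mp hy.1
    have hyT := (Par.mem_T1.mp a1).1
    have hg := gE_pos (k := P.k) (by omega) (fun l => by linarith [(T_pos2 hP hxT l).1])
      (fun l => by linarith [(T_pos2 hP hyT l).1]) a2
    have := gG_eq (k := P.k) (jj := jj) hP.hπ hg
    exact ⟨a1, hyT, a2, a3, a4, hy.2.1, hy.2.2, hg, this.1, this.2⟩
  -- set of (u,(g,c))
  set W' : Finset (ℤ × (ℕ × ℕ)) := Y.image (fun y => (y l0, (gE P.k x y, cc P.k π jj x y))) with hW'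
  set W : Finset ((ℤ × (ℕ × ℕ)) × ℤ) := Y.image f with hW
  have hmaps : ∀ y ∈ Y, f y ∈ W := fun y hy => Finset.mem_image_of_mem _ hy
  set Φ : ℕ → ℝ := fun g => C2P P n₀ * ((beta P.k g : ℝ) ^ (P.r - 2) * g * (4 ^ P.r * P.C0 ^ (2 * P.k + P.r)) *
    ((P.B : ℝ) ^ 2 / P.B ^ (2 * P.k)) * ((P.B : ℝ) ^ (P.r - 4) / (th P.k g) ^ (P.r - 2) + 1)) with hΦ
  have hΦ0 : ∀ g, 0 ≤ Φ g := by
    intro g; rw [hΦ]; simp only; unfold th; positivity
  -- properties of W'
  have hW'p : ∀ s ∈ W', (1 ≤ s.1 ∧ s.1 ≤ (P.B : ℤ)) ∧ s.1 ≠ x l0 ∧ (s.2.1 : ℤ) ∣ s.1 ^ P.k - x l0 ^ P.k ∧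
      1 ≤ s.2.1 ∧ s.2.2 ≤ P.k * jj ∧ P.G < s.2.1 * π ^ s.2.2 ∧ s.2.1 * π ^ s.2.2 ≤ P.B ^ P.k := by
    intro s hs
    rw [hW', Finset.mem_image] at hs
    obtain ⟨y, hy, rfl⟩ := hs
    obtain ⟨a1, a2, a3, a4, a5, a6, a7, a8, a9, a10⟩ := hYmem y hy
    have h1 := T_pos2 hP a2 l0
    refine ⟨⟨h1.1, h1.2.2⟩, a3.symm, gE_dvd _ _ _ _, a8, a10, ?_, ?_⟩
    · rw [← a9]; exact a6
    · rw [← a9]; exact a7
  have hg'1 : ∀ s ∈ W', 1 ≤ s.2.1 * π ^ s.2.2 := by
    intro s hs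
    have := (hW'p s hs).2.2.2.1
    exact Nat.mul_pos this (pow_pos hP.hπ.pos _)
  rw [← Finset.sum_fiberwise_of_maps_to hmaps]
  have step1 : ∑ t ∈ W, ∑ y ∈ Y.filter (fun y => f y = t), P.ExS x y ≤
      ∑ t ∈ W, Φ (t.1.2.1 * π ^ t.1.2.2) := by
    apply Finset.sum_le_sum
    intro t ht
    rcases (Y.filter (fun y => f y = t)).eq_empty_or_nonempty with hemp | ⟨y0, hy0⟩
    · rw [hemp, Finset.sum_empty]; exact hΦ0 _
    set g' := t.1.2.1 * π ^ t.1.2.2 with hg'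
    set M : ℝ := |((x l0 * t.2 - x q * t.1.1 : ℤ) : ℝ)| with hMdef
    have hmem : ∀ y ∈ Y.filter (fun y => f y = t), y ∈ Y ∧ y l0 = t.1.1 ∧ y q = t.2 ∧
        gE P.k x y = t.1.2.1 ∧ cc P.k π jj x y = t.1.2.2 ∧ gG P.k (π ^ jj) x y = g' := by
      intro y hy
      rw [Finset.mem_filter] at hy
      obtain ⟨hyY, hft⟩ := hy
      have e1 := congrArg Prod.fst hft
      have e2 : gE P.k x y = t.1.2.1 := congrArg Prod.fst (congrArg Prod.snd e1)
      have e3 : cc P.k π jj x y = t.1.2.2 := congrArg Prod.snd (congrArg Prod.snd e1)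
      refine ⟨hyY, congrArg Prod.fst e1, congrArg Prod.snd hft, e2, e3, ?_⟩
      rw [(hYmem y hyY).2.2.2.2.2.2.2.2.1, e2, e3]
    have htW' : t.1 ∈ W' := by
      obtain ⟨b1, b2, b3, b4, b5, b6⟩ := hmem y0 hy0
      rw [hW', Finset.mem_image]
      exact ⟨y0, b1, Prod.ext b2 (Prod.ext b4 b5)⟩
    have hg1 : 1 ≤ g' := hg'1 _ htW'
    have hM : 1 ≤ M ∧ M ≤ (P.B : ℝ) ^ 2 := by
      obtain ⟨b1, b2, b3, b4, b5, b6⟩ := hmem y0 hy0
      obtain ⟨a1, a2, a3, a4, _⟩ := hYmem y0 b1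
      have := M_bounds hP hxT a2 l0 q a4
      rw [b2, b3] at this
      exact this
    obtain ⟨hM1, hMB⟩ := hM
    have hcount := group_count2 P.k P.r P.B0 (by omega) hP.hB0 x l0 q hlq
      (T_pos2 hP hxT l0).2.1 t.1.1 t.2 M (by linarith) g' hg1
      (Y.filter (fun y => f y = t)) (by
        intro y hy
        obtain ⟨b1, b2, b3, b4, b5, b6⟩ := hmem y hy
        obtain ⟨a1, a2, a3, a4, a5, _⟩ := hYmem y b1
        refine ⟨b2, b3, ?_⟩
        intro l
        have := a5 l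
        rw [b2, b3] at this
        rw [hMdef]; exact_mod_cast this) (by
        intro y hy y' hy' l
        obtain ⟨b1, b2, b3, b4, b5, b6⟩ := hmem y hy
        obtain ⟨b1', b2', b3', b4', b5', b6'⟩ := hmem y' hy'
        exact class_diff hP.hπ l0 (hxπ l0) (b2.trans b2'.symm) t.1.2.1 t.1.2.2 (hW'p _ htW').2.2.2.1
          b4 b4' b6 b6' l)
    have hMpos : 0 < M := by linarith
    have hterm : ∀ y ∈ Y.filter (fun y => f y = t), P.ExS x y ≤ C2P P n₀ *
        (g' / (M * (P.B0 : ℝ) ^ (2 * (P.k - 1)))) := by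
      intro y hy
      obtain ⟨b1, b2, b3, b4, b5, b6⟩ := hmem y hy
      obtain ⟨a1, a2, a3, a4, a5, _⟩ := hYmem y b1
      have hyb : y ∈ Yb2 P π x l0 q := mem_Yb2.mpr ⟨a1, a3, a4, a5⟩
      have e1 := ExS_le_a3 hP x y hx l0 q hyb
      rwa [b2, b3, ← hMdef, b6] at e1
    calc ∑ y ∈ Y.filter (fun y => f y = t), P.ExS x y
        ≤ (Y.filter (fun y => f y = t)).card • (C2P P n₀ *
        (g' / (M * (P.B0 : ℝ) ^ (2 * (P.k - 1))))) := Finset.sum_le_card_nsmul _ _ _ hterm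
      _ = ((Y.filter (fun y => f y = t)).card : ℝ) * (C2P P n₀ *
        (g' / (M * (P.B0 : ℝ) ^ (2 * (P.k - 1))))) := by rw [nsmul_eq_mul]
      _ ≤ (beta P.k g' * (2 * M / P.B0 / (g' : ℝ) ^ ((1 : ℝ) / P.k) + 1)) ^ (P.r - 2) * (C2P P n₀ *
        (g' / (M * (P.B0 : ℝ) ^ (2 * (P.k - 1))))) :=
          mul_le_mul_of_nonneg_right hcount (by positivity)
      _ = C2P P n₀ * ((beta P.k g' * (2 * M / P.B0 / th P.k g' + 1)) ^ (P.r - 2) *
        (g' / (M * (P.B0 : ℝ) ^ (2 * (P.k - 1))))) := by unfold th; ring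
      _ ≤ Φ g' := by
          rw [hΦ]
          apply mul_le_mul_of_nonneg_left _ hC1
          exact E2_num P.k P.r hk hr P.B P.B0 P.C0 M (th P.k g') (beta P.k g') g' hB0R
            (by exact_mod_cast hP.hB0B) (by exact_mod_cast hP.hC0) hM1 hMB (th_ge_one _ _ hg1)
            (one_le_beta _ _ (by omega) (by omega)) (by positivity)
  refine step1.trans ?_
  -- sum over v
  have hWmaps : ∀ t ∈ W, t.1 ∈ W' := by
    intro t ht
    rw [hW, Finset.mem_image] at ht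
    obtain ⟨y, hy, rfl⟩ := ht
    exact Finset.mem_image_of_mem _ hy
  rw [← Finset.sum_fiberwise_of_maps_to hWmaps]
  have step2 : ∑ s ∈ W', ∑ t ∈ W.filter (fun t => t.1 = s), Φ (t.1.2.1 * π ^ t.1.2.2) ≤
      ∑ s ∈ W', (2 * beta P.k (s.2.1 * π ^ s.2.2) * (P.B / th P.k (s.2.1 * π ^ s.2.2))) *
        Φ (s.2.1 * π ^ s.2.2) := by
    apply Finset.sum_le_sum
    intro s hs
    have e1 : ∑ t ∈ W.filter (fun t => t.1 = s), Φ (t.1.2.1 * π ^ t.1.2.2) =
        ((W.filter (fun t => t.1 = s)).card : ℝ) * Φ (s.2.1 * π ^ s.2.2) := by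
      rw [Finset.sum_congr rfl (fun t ht => by
        rw [(Finset.mem_filter.mp ht).2] : ∀ t ∈ W.filter (fun t => t.1 = s),
          Φ (t.1.2.1 * π ^ t.1.2.2) = Φ (s.2.1 * π ^ s.2.2))]
      rw [Finset.sum_const, nsmul_eq_mul]
    rw [e1]
    apply mul_le_mul_of_nonneg_right _ (hΦ0 _)
    have hinj : (W.filter (fun t => t.1 = s)).card =
        ((W.filter (fun t => t.1 = s)).image (fun t => t.2)).card := by
      rw [Finset.card_image_of_injOn]
      intro t ht t' ht' htt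
      exact Prod.ext ((Finset.mem_filter.mp ht).2.trans (Finset.mem_filter.mp ht').2.symm) htt
    rw [hinj]
    have hex : ∀ v ∈ (W.filter (fun t => t.1 = s)).image (fun t => t.2), ∃ y ∈ Y, y q = v ∧
        y l0 = s.1 ∧ gE P.k x y = s.2.1 ∧ gG P.k (π ^ jj) x y = s.2.1 * π ^ s.2.2 := by
      intro v hv
      rw [Finset.mem_image] at hv
      obtain ⟨t, ht, rfl⟩ := hv
      rw [Finset.mem_filter, hW, Finset.mem_image] at ht
      obtain ⟨⟨y, hy, rfl⟩, rfl⟩ := ht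
      exact ⟨y, hy, rfl, rfl, rfl, (hYmem y hy).2.2.2.2.2.2.2.2.1⟩
    apply count_v2 (by omega) (hg'1 s hs) (hW'p s hs).2.2.2.2.2.2
    · intro v hv
      obtain ⟨y, hy, rfl, _⟩ := hex v hv
      have := T_pos2 hP (hYmem y hy).2.1 q
      exact ⟨this.1, this.2.2⟩
    · intro v hv v' hv'
      obtain ⟨y, hy, rfl, c1, c2, c3⟩ := hex v hv
      obtain ⟨y', hy', rfl, c1', c2', c3'⟩ := hex v' hv'
      exact class_diff hP.hπ l0 (hxπ l0) (c1.trans c1'.symm) s.2.1 s.2.2 (hW'p _ hs).2.2.2.1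
          c2 c2' c3 c3' q
  refine step2.trans ?_
  set C2 : ℝ := 2 * C2P P n₀ * (4 ^ P.r * P.C0 ^ (2 * P.k + P.r)) with hC2
  have hC20 : 0 ≤ C2 := by positivity
  -- split
  have step3 : ∀ s ∈ W', (2 * beta P.k (s.2.1 * π ^ s.2.2) * (P.B / th P.k (s.2.1 * π ^ s.2.2))) *
        Φ (s.2.1 * π ^ s.2.2) =
      C2 * ((P.B : ℝ) ^ 3 / P.B ^ (2 * P.k)) * ((P.B : ℝ) ^ (P.r - 4) *
        (((s.2.1 * π ^ s.2.2 : ℕ) : ℝ) * (beta P.k (s.2.1 * π ^ s.2.2) : ℝ) ^ (P.r - 1) /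
          (th P.k (s.2.1 * π ^ s.2.2)) ^ (P.r - 1)) +
        ((s.2.1 * π ^ s.2.2 : ℕ) : ℝ) * (beta P.k (s.2.1 * π ^ s.2.2) : ℝ) ^ (P.r - 1) /
          (th P.k (s.2.1 * π ^ s.2.2))) := by
    intro s hs
    have hθ := th_ge_one P.k _ (hg'1 s hs)
    have hθ0 : 0 < th P.k (s.2.1 * π ^ s.2.2) := by linarith
    set g' := s.2.1 * π ^ s.2.2
    have e1 : (beta P.k g' : ℝ) ^ (P.r - 1) = (beta P.k g' : ℝ) ^ (P.r - 2) * beta P.k g' := by
      rw [← pow_succ]; congr 1; omega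
    have e2 : (th P.k g') ^ (P.r - 1) = (th P.k g') ^ (P.r - 2) * th P.k g' := by
      rw [← pow_succ]; congr 1; omega
    rw [hΦ, hC2, e1, e2]
    field_simp
  rw [Finset.sum_congr rfl step3, ← Finset.mul_sum, Finset.sum_add_distrib, ← Finset.mul_sum]
  -- first sum
  have sumA : ∑ s ∈ W', (((s.2.1 * π ^ s.2.2 : ℕ) : ℝ) * (beta P.k (s.2.1 * π ^ s.2.2) : ℝ) ^ (P.r - 1) /
          (th P.k (s.2.1 * π ^ s.2.2)) ^ (P.r - 1)) ≤ 2 * P.B * τ := by
    set GC := W'.image (fun s => s.2) with hGC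
    have hm2 : ∀ s ∈ W', s.2 ∈ GC := fun s hs => Finset.mem_image_of_mem _ hs
    rw [← Finset.sum_fiberwise_of_maps_to hm2]
    calc ∑ g ∈ GC, ∑ s ∈ W'.filter (fun s => s.2 = g),
          (((s.2.1 * π ^ s.2.2 : ℕ) : ℝ) * (beta P.k (s.2.1 * π ^ s.2.2) : ℝ) ^ (P.r - 1) /
          (th P.k (s.2.1 * π ^ s.2.2)) ^ (P.r - 1))
        ≤ ∑ g ∈ GC, 2 * P.B * Fτ P.k P.r π g := by
          apply Finset.sum_le_sum
          intro g hg
          rw [hGC, Finset.mem_image] at hg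
          obtain ⟨s0, hs0, hs0g⟩ := hg
          obtain ⟨p1, p2, p3, p4, p5, p6, p7⟩ := hW'p s0 hs0
          rw [hs0g] at p3 p4 p5 p6 p7
          have hg1 : 1 ≤ g.1 * π ^ g.2 := by rw [← hs0g]; exact hg'1 s0 hs0
          have hθ := th_ge_one P.k _ hg1
          have hθ0 : 0 < th P.k (g.1 * π ^ g.2) := by linarith
          have hθ1 := th_ge_one P.k g.1 p4
          have hθ10 : 0 < th P.k g.1 := by linarith
          have hgB : g.1 ≤ P.B ^ P.k := le_trans (Nat.le_mul_of_pos_right _ (pow_pos hP.hπ.pos _)) p7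
          have e1 : ∑ s ∈ W'.filter (fun s => s.2 = g),
              (((s.2.1 * π ^ s.2.2 : ℕ) : ℝ) * (beta P.k (s.2.1 * π ^ s.2.2) : ℝ) ^ (P.r - 1) /
              (th P.k (s.2.1 * π ^ s.2.2)) ^ (P.r - 1)) =
              ((W'.filter (fun s => s.2 = g)).card : ℝ) *
              (((g.1 * π ^ g.2 : ℕ) : ℝ) * (beta P.k (g.1 * π ^ g.2) : ℝ) ^ (P.r - 1) /
              (th P.k (g.1 * π ^ g.2)) ^ (P.r - 1)) := by
            rw [Finset.sum_congr rfl (fun s hs => by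
              rw [(Finset.mem_filter.mp hs).2] : ∀ s ∈ W'.filter (fun s => s.2 = g),
              (((s.2.1 * π ^ s.2.2 : ℕ) : ℝ) * (beta P.k (s.2.1 * π ^ s.2.2) : ℝ) ^ (P.r - 1) /
              (th P.k (s.2.1 * π ^ s.2.2)) ^ (P.r - 1)) =
              (((g.1 * π ^ g.2 : ℕ) : ℝ) * (beta P.k (g.1 * π ^ g.2) : ℝ) ^ (P.r - 1) /
              (th P.k (g.1 * π ^ g.2)) ^ (P.r - 1)))]
            rw [Finset.sum_const, nsmul_eq_mul]
          rw [e1]
          have hc : ((W'.filter (fun s => s.2 = g)).card : ℝ) ≤ 2 * beta P.k g.1 * (P.B / th P.k g.1) := by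
            have hinj : (W'.filter (fun s => s.2 = g)).card =
                ((W'.filter (fun s => s.2 = g)).image (fun s => s.1)).card := by
              rw [Finset.card_image_of_injOn]
              intro t ht t' ht' htt
              exact Prod.ext htt ((Finset.mem_filter.mp ht).2.trans (Finset.mem_filter.mp ht').2.symm)
            rw [hinj]
            apply count_v (by omega) p4 hgB (x l0 ^ P.k)
            intro v hv
            rw [Finset.mem_image] at hv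
            obtain ⟨s, hs, rfl⟩ := hv
            rw [Finset.mem_filter] at hs
            obtain ⟨o1, o2, o3, o4, _⟩ := hW'p s hs.1
            rw [hs.2] at o3
            exact ⟨o1.1, o1.2, o3⟩
          have hβle : (beta P.k g.1 : ℝ) ≤ beta P.k (g.1 * π ^ g.2) := by
            exact_mod_cast beta_mono P.k _ _ (by omega) (by omega) (dvd_mul_right _ _)
          calc _ ≤ (2 * beta P.k (g.1 * π ^ g.2) * (P.B / th P.k g.1)) *
                (((g.1 * π ^ g.2 : ℕ) : ℝ) * (beta P.k (g.1 * π ^ g.2) : ℝ) ^ (P.r - 1) /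
                (th P.k (g.1 * π ^ g.2)) ^ (P.r - 1)) := by
                apply mul_le_mul_of_nonneg_right _ (by positivity)
                refine hc.trans ?_
                gcongr
            _ = 2 * P.B * Fτ P.k P.r π g := by
                have e3 : (beta P.k (g.1 * π ^ g.2) : ℝ) ^ P.r =
                    (beta P.k (g.1 * π ^ g.2) : ℝ) ^ (P.r - 1) * beta P.k (g.1 * π ^ g.2) := by
                  rw [← pow_succ]; congr 1; omega
                unfold Fτ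
                rw [e3]
                field_simp
      _ = 2 * P.B * ∑ g ∈ GC, Fτ P.k P.r π g := by rw [Finset.mul_sum]
      _ ≤ 2 * P.B * τ := by
          apply mul_le_mul_of_nonneg_left _ (by positivity)
          apply hτ
          intro g hg
          rw [hGC, Finset.mem_image] at hg
          obtain ⟨s0, hs0, hs0g⟩ := hg
          obtain ⟨p1, p2, p3, p4, p5, p6, p7⟩ := hW'p s0 hs0
          rw [hs0g] at p4 p6
          exact ⟨p4, p6⟩
  -- second sum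
  have sumB : ∑ s ∈ W', ((s.2.1 * π ^ s.2.2 : ℕ) : ℝ) * (beta P.k (s.2.1 * π ^ s.2.2) : ℝ) ^ (P.r - 1) /
          (th P.k (s.2.1 * π ^ s.2.2)) ≤
      P.B * ((β₀ * (P.k * jj + 1)) * (β₀ * P.B ^ (P.k - 1))) := by
    have hm1 : ∀ s ∈ W', s.1 ∈ Finset.Icc (1 : ℤ) P.B := by
      intro s hs
      rw [Finset.mem_Icc]
      exact (hW'p s hs).1
    rw [← Finset.sum_fiberwise_of_maps_to hm1]
    calc ∑ u ∈ Finset.Icc (1 : ℤ) P.B, ∑ s ∈ W'.filter (fun s => s.1 = u),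
          ((s.2.1 * π ^ s.2.2 : ℕ) : ℝ) * (beta P.k (s.2.1 * π ^ s.2.2) : ℝ) ^ (P.r - 1) /
          (th P.k (s.2.1 * π ^ s.2.2))
        ≤ ∑ u ∈ Finset.Icc (1 : ℤ) P.B, ((β₀ * (P.k * jj + 1)) * (β₀ * P.B ^ (P.k - 1))) := by
          apply Finset.sum_le_sum
          intro u hu
          rw [Finset.mem_Icc] at hu
          rcases (W'.filter (fun s => s.1 = u)).eq_empty_or_nonempty with hemp | ⟨s0, hs0⟩
          · rw [hemp, Finset.sum_empty]; positivity
          have hux : u ≠ x l0 := by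
            rw [Finset.mem_filter] at hs0
            rw [← hs0.2]; exact (hW'p s0 hs0.1).2.1
          have hx0 := T_pos2 hP hxT l0
          have hcard : ((W'.filter (fun s => s.1 = u)).card : ℝ) ≤ β₀ * (P.k * jj + 1) := by
            have hinj : (W'.filter (fun s => s.1 = u)).card =
                ((W'.filter (fun s => s.1 = u)).image (fun s => s.2)).card := by
              rw [Finset.card_image_of_injOn]
              intro t ht t' ht' htt
              exact Prod.ext ((Finset.mem_filter.mp ht).2.trans (Finset.mem_filter.mp ht').2.symm) htt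
            rw [hinj]
            apply card_gc_le P.k π jj P.B (by omega) β₀ P.r (by omega) hβ hB u (x l0)
              ⟨by linarith, hu.2⟩ ⟨by linarith, hx0.2.2⟩ hux
            intro s hs
            rw [Finset.mem_image] at hs
            obtain ⟨t, ht, rfl⟩ := hs
            rw [Finset.mem_filter] at ht
            obtain ⟨p1, p2, p3, p4, p5, _⟩ := hW'p t ht.1
            rw [ht.2] at p3
            exact ⟨p3, p5⟩
          calc ∑ s ∈ W'.filter (fun s => s.1 = u),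
                ((s.2.1 * π ^ s.2.2 : ℕ) : ℝ) * (beta P.k (s.2.1 * π ^ s.2.2) : ℝ) ^ (P.r - 1) /
                (th P.k (s.2.1 * π ^ s.2.2))
              ≤ (W'.filter (fun s => s.1 = u)).card • (β₀ * (P.B : ℝ) ^ (P.k - 1)) := by
                apply Finset.sum_le_card_nsmul
                intro s hs
                have hs1 := (Finset.mem_filter.mp hs).1
                have hs' := hg'1 s hs1
                have hsB := (hW'p s hs1).2.2.2.2.2.2
                have hθ := th_ge_one P.k _ hs'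
                have h1 : (beta P.k (s.2.1 * π ^ s.2.2) : ℝ) ^ (P.r - 1) ≤ β₀ := by
                  refine le_trans ?_ (hβ _ hs' (hsB.trans hBk2))
                  apply pow_le_pow_right₀ (one_le_beta _ _ (by omega) (by omega)) (by omega)
                have h2 := div_th_le P.k _ P.B (by omega) hs' hsB
                calc ((s.2.1 * π ^ s.2.2 : ℕ) : ℝ) * (beta P.k (s.2.1 * π ^ s.2.2) : ℝ) ^ (P.r - 1) /
                      (th P.k (s.2.1 * π ^ s.2.2))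
                    = (beta P.k (s.2.1 * π ^ s.2.2) : ℝ) ^ (P.r - 1) *
                      (((s.2.1 * π ^ s.2.2 : ℕ) : ℝ) / th P.k (s.2.1 * π ^ s.2.2)) := by ring
                  _ ≤ β₀ * (P.B : ℝ) ^ (P.k - 1) := by
                      apply mul_le_mul h1 h2 _ (by linarith)
                      have : 0 ≤ th P.k (s.2.1 * π ^ s.2.2) := by linarith
                      positivity
            _ = ((W'.filter (fun s => s.1 = u)).card : ℝ) * (β₀ * (P.B : ℝ) ^ (P.k - 1)) := by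
                rw [nsmul_eq_mul]
            _ ≤ (β₀ * (P.k * jj + 1)) * (β₀ * (P.B : ℝ) ^ (P.k - 1)) := by
                apply mul_le_mul_of_nonneg_right hcard (by positivity)
      _ = _ := by
          rw [Finset.sum_const, Int.card_Icc, nsmul_eq_mul]
          have h2 : ((P.B : ℤ) + 1 - 1).toNat = P.B := by omega
          rw [h2]
  have hB0' : (0 : ℝ) < P.B := by linarith
  calc C2 * ((P.B : ℝ) ^ 3 / P.B ^ (2 * P.k)) * ((P.B : ℝ) ^ (P.r - 4) *
        (∑ s ∈ W', (((s.2.1 * π ^ s.2.2 : ℕ) : ℝ) * (beta P.k (s.2.1 * π ^ s.2.2) : ℝ) ^ (P.r - 1) /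
          (th P.k (s.2.1 * π ^ s.2.2)) ^ (P.r - 1))) +
        ∑ s ∈ W', ((s.2.1 * π ^ s.2.2 : ℕ) : ℝ) * (beta P.k (s.2.1 * π ^ s.2.2) : ℝ) ^ (P.r - 1) /
          (th P.k (s.2.1 * π ^ s.2.2)))
      ≤ C2 * ((P.B : ℝ) ^ 3 / P.B ^ (2 * P.k)) * ((P.B : ℝ) ^ (P.r - 4) * (2 * P.B * τ) +
        P.B * ((β₀ * (P.k * jj + 1)) * (β₀ * P.B ^ (P.k - 1)))) := by
        apply mul_le_mul_of_nonneg_left _ (by positivity)
        apply add_le_add _ sumB
        apply mul_le_mul_of_nonneg_left sumA (by positivity)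
    _ = _ := by
        have e1 : (P.B : ℝ) ^ P.r = (P.B : ℝ) ^ (P.r - 4) * (P.B : ℝ) ^ 4 := by
          rw [← pow_add]; congr 1; omega
        have e2 : (P.B : ℝ) ^ (2 * P.k) = (P.B : ℝ) ^ P.k * ((P.B : ℝ) ^ (P.k - 1) * P.B) := by
          rw [← pow_succ, ← pow_add]; congr 1; omega
        rw [e1, e2]
        field_simp

end

end Pool.Agent.H888.DH
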