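import Pool.Agent.H888.WA.V3

set_option linter.unusedVariables false
set_option linter.unusedSectionVars false
set_option linter.style.haveILetI false

namespace Pool.Agent.H888.DH

open Finset Complex

theorem th_ge_of_lt {k g B : ℕ} (hk : 1 ≤ k) (h : B ^ k ≤ g) (hg : 1 ≤ g) : (B : ℝ) ≤ th k g := by
  have h1 : (B : ℝ) ^ k ≤ (th k g) ^ k := by
    rw [th_pow k g hk]; exact_mod_cast h
  exact le_of_pow_le_pow_left₀ (by omega) (by linarith [th_ge_one k g hg]) h1

section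
variable {P : Par} {n₀ π jj : ℕ}

/-- pairs with huge gcd -/
noncomputable def Y2s (P : Par) (π jj : ℕ) (x : Fin P.r → ℤ) (l0 q : Fin P.r) :
    Finset (Fin P.r → ℤ) := by
  classical
  exact (Yb2 P π x l0 q).filter (fun y => P.B ^ P.k < gG P.k (π ^ jj) x y)

theorem gG_le_of_Yb2 (hP : P.Ok2 n₀ π jj) {x y : Fin P.r → ℤ} (hx : x ∈ P.T1 π) {l0 q : Fin P.r}
    (hy : y ∈ Yb2 P π x l0 q) :
    (gG P.k (π ^ jj) x y : ℤ) ≤ |VV P.n P.k x l0.succ * VV P.n P.k y q.succ -
      VV P.n P.k x q.succ * VV P.n P.k y l0.succ| ∧ gG P.k (π ^ jj) x y ≤ P.B ^ (2 * P.k) := by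
  have hD0 := Yb2_D hP hx hy
  have hyT := (Par.mem_T1.mp (mem_Yb2.mp hy).1).1
  have hxT := (Par.mem_T1.mp hx).1
  have h1 := gG_dvd_minor P.k (π ^ jj) x y l0 q
  have h2 : (gG P.k (π ^ jj) x y : ℤ) ≤ |VV P.n P.k x l0.succ * VV P.n P.k y q.succ -
      VV P.n P.k x q.succ * VV P.n P.k y l0.succ| :=
    Int.le_of_dvd (abs_pos.mpr hD0) ((dvd_abs _ _).mpr h1)
  refine ⟨h2, ?_⟩
  have h3 := abs_D_le2 hP hxT hyT l0.succ q.succ
  exact_mod_cast h2.trans h3

theorem card_Y2s (hP : P.Ok2 n₀ π jj) (β₀ : ℝ)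
    (hβ : ∀ q : ℕ, 1 ≤ q → q ≤ P.B ^ (2 * P.k) → (beta P.k q : ℝ) ^ P.r ≤ β₀)
    (x : Fin P.r → ℤ) (hx : x ∈ P.T1 π) (l0 q : Fin P.r) :
    ((Y2s P π jj x l0 q).card : ℝ) ≤ (P.B * (β₀ * (P.k * jj + 1))) * (2 ^ P.r * β₀) := by
  classical
  have hk := hP.hk
  have hr := hP.hr
  have hB := Ok2.hB hP
  obtain ⟨hxT, hxπ⟩ := Par.mem_T1.mp hx
  have hβ0 : 1 ≤ β₀ := by
    have := hβ 1 le_rfl (Nat.one_le_pow _ _ hB)
    rw [beta_one] at this; simpa using this
  set Y := Y2s P π jj x l0 q with hYdef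
  have hYmem : ∀ y ∈ Y, y ∈ P.T ∧ x l0 ≠ y l0 ∧ P.B ^ P.k < gG P.k (π ^ jj) x y ∧
      gG P.k (π ^ jj) x y ≤ P.B ^ (2 * P.k) ∧ 1 ≤ gE P.k x y ∧
      gG P.k (π ^ jj) x y = gE P.k x y * π ^ cc P.k π jj x y ∧ cc P.k π jj x y ≤ P.k * jj := by
    intro y hy
    rw [hYdef, Y2s, Finset.mem_filter] at hy
    obtain ⟨a1, a2, a3, a4⟩ := mem_Yb2.mp hy.1
    have hyT := (Par.mem_T1.mp a1).1
    have hg := gE_pos (k := P.k) (by omega) (fun l => by linarith [(T_pos2 hP hxT l).1])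
      (fun l => by linarith [(T_pos2 hP hyT l).1]) a2
    have := gG_eq (k := P.k) (jj := jj) hP.hπ hg
    exact ⟨hyT, a2, hy.2, (gG_le_of_Yb2 hP hx hy.1).2, hg, this.1, this.2⟩
  set f : (Fin P.r → ℤ) → (ℤ × (ℕ × ℕ)) := fun y => (y l0, (gE P.k x y, cc P.k π jj x y)) with hf
  have h1 := card_le_mul_real Y (Y.image f) f (fun y hy => Finset.mem_image_of_mem _ hy) (2 ^ P.r * β₀) (by
    intro t ht
    set F := Y.filter (fun y => f y = t) with hF
    rcases F.eq_empty_or_nonempty with hemp | ⟨y0, hy0⟩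
    · rw [hemp]; simp; positivity
    set g' := t.2.1 * π ^ t.2.2 with hg'
    have hmem : ∀ y ∈ F, y ∈ Y ∧ y l0 = t.1 ∧ gE P.k x y = t.2.1 ∧ gG P.k (π ^ jj) x y = g' := by
      intro y hy
      rw [hF, Finset.mem_filter] at hy
      obtain ⟨hyY, hft⟩ := hy
      have e2 : gE P.k x y = t.2.1 := congrArg Prod.fst (congrArg Prod.snd hft)
      have e3 : cc P.k π jj x y = t.2.2 := congrArg Prod.snd (congrArg Prod.snd hft)
      refine ⟨hyY, congrArg Prod.fst hft, e2, ?_⟩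
      rw [(hYmem y hyY).2.2.2.2.2.1, e2, e3]
    obtain ⟨b1, b2, b3, b4⟩ := hmem y0 hy0
    have hg'B : P.B ^ P.k < g' := by rw [← b4]; exact (hYmem y0 b1).2.2.1
    have hg'B2 : g' ≤ P.B ^ (2 * P.k) := by rw [← b4]; exact (hYmem y0 b1).2.2.2.1
    have hg1 : 1 ≤ g' := by omega
    have ht1 : 1 ≤ t.2.1 := by rw [← b3]; exact (hYmem y0 b1).2.2.2.2.1
    have hsub : F ⊆ Fintype.piFinset (fun l => F.image (fun y => y l)) := by
      intro y hy
      rw [Fintype.mem_piFinset]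
      intro l; exact Finset.mem_image_of_mem _ hy
    have hl : ∀ l, ((F.image (fun y => y l)).card : ℝ) ≤ 2 * beta P.k g' := by
      intro l
      have h2 := card_pow_congr_le P.k g' (by omega) hg1 (F.image (fun y => y l)) (by
        intro a ha b hb
        rw [Finset.mem_image] at ha hb
        obtain ⟨y, hy, rfl⟩ := ha
        obtain ⟨y', hy', rfl⟩ := hb
        obtain ⟨c1, c2, c3, c4⟩ := hmem y hy
        obtain ⟨c1', c2', c3', c4'⟩ := hmem y' hy'
        exact class_diff hP.hπ l0 (hxπ l0) (c2.trans c2'.symm) t.2.1 t.2.2 ht1 c3 c3' c4 c4' l) P.B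
        (by positivity) (by
        intro a ha b hb
        rw [Finset.mem_image] at ha hb
        obtain ⟨y, hy, rfl⟩ := ha
        obtain ⟨y', hy', rfl⟩ := hb
        have h3 := (T_pos2 hP (hYmem y (hmem y hy).1).1 l).2.2
        have h4 := (T_pos2 hP (hYmem y' (hmem y' hy').1).1 l).1
        have h3' : (y l : ℝ) ≤ P.B := by exact_mod_cast h3
        have h4' : (1 : ℝ) ≤ y' l := by exact_mod_cast h4
        linarith)
      refine h2.trans ?_
      have h5 := th_ge_of_lt (k := P.k) (by omega) hg'B.le hg1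
      have hBR : (0 : ℝ) < P.B := by exact_mod_cast (by omega : 0 < P.B)
      have h6 : (P.B : ℝ) / (g' : ℝ) ^ ((1 : ℝ) / P.k) ≤ 1 := by
        rw [div_le_one (by unfold th at h5; linarith)]; exact h5
      have h7 : (0 : ℝ) ≤ beta P.k g' := by positivity
      calc (beta P.k g' : ℝ) * ((P.B : ℝ) / (g' : ℝ) ^ ((1 : ℝ) / P.k) + 1) ≤ beta P.k g' * (1 + 1) := by
            apply mul_le_mul_of_nonneg_left _ h7; linarith
        _ = _ := by ring
    calc (F.card : ℝ) ≤ ((Fintype.piFinset (fun l => F.image (fun y => y l))).card : ℝ) := by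
          exact_mod_cast Finset.card_le_card hsub
      _ = ∏ l, ((F.image (fun y => y l)).card : ℝ) := by rw [Fintype.card_piFinset]; push_cast; rfl
      _ ≤ ∏ l : Fin P.r, (2 * beta P.k g' : ℝ) :=
          Finset.prod_le_prod (fun l _ => by positivity) (fun l _ => hl l)
      _ = 2 ^ P.r * (beta P.k g' : ℝ) ^ P.r := by
          rw [Finset.prod_const, Finset.card_univ, Fintype.card_fin, mul_pow]
      _ ≤ _ := by
          apply mul_le_mul_of_nonneg_left (hβ g' hg1 hg'B2) (by positivity))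
  refine h1.trans ?_
  apply mul_le_mul_of_nonneg_right _ (by positivity)
  have h2 := card_le_mul_real (Y.image f) (Finset.Icc (1 : ℤ) P.B) (fun s => s.1) (by
    intro s hs
    rw [Finset.mem_image] at hs
    obtain ⟨y, hy, rfl⟩ := hs
    have := T_pos2 hP (hYmem y hy).1 l0
    rw [Finset.mem_Icc]
    exact ⟨this.1, this.2.2⟩) (β₀ * (P.k * jj + 1)) (by
    intro u hu
    rw [Finset.mem_Icc] at hu
    set F := (Y.image f).filter (fun s => s.1 = u) with hF
    rcases F.eq_empty_or_nonempty with hemp | ⟨s0, hs0⟩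
    · rw [hemp]; simp; positivity
    have hinj : F.card = (F.image (fun s => s.2)).card := by
      rw [Finset.card_image_of_injOn]
      intro t ht t' ht' htt
      exact Prod.ext ((Finset.mem_filter.mp ht).2.trans (Finset.mem_filter.mp ht').2.symm) htt
    have hux : u ≠ x l0 := by
      rw [hF, Finset.mem_filter, Finset.mem_image] at hs0
      obtain ⟨⟨y, hy, rfl⟩, rfl⟩ := hs0
      exact (hYmem y hy).2.1.symm
    have hx0 := T_pos2 hP hxT l0
    rw [hinj]
    apply card_gc_le P.k π jj P.B (by omega) β₀ P.r (by omega) hβ hB u (x l0)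
      ⟨by linarith, hu.2⟩ ⟨by linarith, hx0.2.2⟩ hux
    intro s hs
    rw [Finset.mem_image] at hs
    obtain ⟨t, ht, rfl⟩ := hs
    rw [hF, Finset.mem_filter, Finset.mem_image] at ht
    obtain ⟨⟨y, hy, rfl⟩, rfl⟩ := ht
    exact ⟨gE_dvd _ _ _ _, (hYmem y hy).2.2.2.2.2.2⟩)
  refine h2.trans (le_of_eq ?_)
  rw [Int.card_Icc]
  have h3 : ((P.B : ℤ) + 1 - 1).toNat = P.B := by omega
  rw [h3]

/-- pairs with huge gcd and all minors small multiples of it -/
noncomputable def Y3s (P : Par) (π jj Dl : ℕ) (x : Fin P.r → ℤ) (l0 q : Fin P.r) :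
    Finset (Fin P.r → ℤ) := by
  classical
  exact (Y2s P π jj x l0 q).filter (fun y => ∀ p q' : Fin P.r,
    |x p ^ P.k * y q' ^ P.k - x q' ^ P.k * y p ^ P.k| ≤ gG P.k (π ^ jj) x y * Dl)

theorem E2b (hP : P.Ok2 n₀ π jj) (β₀ : ℝ) (Dl : ℕ) (hDl : 1 ≤ Dl)
    (hβ : ∀ q : ℕ, 1 ≤ q → q ≤ P.B ^ (2 * P.k) → (beta P.k q : ℝ) ^ P.r ≤ β₀)
    (x : Fin P.r → ℤ) (hx : x ∈ P.T1 π) (l0 q : Fin P.r) :
    ∑ y ∈ Y2s P π jj x l0 q, P.ExS x y ≤
      C2P P n₀ * ((P.B * (β₀ * (P.k * jj + 1))) * (2 ^ P.r * β₀) / Dl) +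
      C2P P n₀ * (Y3s P π jj Dl x l0 q).card := by
  classical
  have hk := hP.hk
  have hC1 := C2P_nonneg P n₀
  have hDlR : (0 : ℝ) < Dl := by exact_mod_cast (by omega : 0 < Dl)
  obtain ⟨hxT, hxπ⟩ := Par.mem_T1.mp hx
  rw [← Finset.sum_filter_add_sum_filter_not (Y2s P π jj x l0 q) (fun y => ¬ ∀ p q' : Fin P.r,
    |x p ^ P.k * y q' ^ P.k - x q' ^ P.k * y p ^ P.k| ≤ gG P.k (π ^ jj) x y * Dl)]
  apply add_le_add
  · calc _ ≤ ((Y2s P π jj x l0 q).filter (fun y => ¬ ∀ p q' : Fin P.r,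
          |x p ^ P.k * y q' ^ P.k - x q' ^ P.k * y p ^ P.k| ≤ gG P.k (π ^ jj) x y * Dl)).card •
            (C2P P n₀ * (1 / Dl)) := by
          apply Finset.sum_le_card_nsmul
          intro y hy
          rw [Finset.mem_filter, Y2s, Finset.mem_filter] at hy
          obtain ⟨⟨hyb, hgB⟩, hns⟩ := hy
          push Not at hns
          obtain ⟨p, q', hpq⟩ := hns
          obtain ⟨a1, a2, a3, a4⟩ := mem_Yb2.mp hyb
          have hgpos : (0 : ℤ) < gG P.k (π ^ jj) x y := by exact_mod_cast (by omega)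
          set D := VV P.n P.k x p.succ * VV P.n P.k y q'.succ - VV P.n P.k x q'.succ * VV P.n P.k y p.succ
            with hD
          have hDD : D = x p ^ P.k * y q' ^ P.k - x q' ^ P.k * y p ^ P.k := by
            rw [hD]; simp only [VV_succ]
          rw [← hDD] at hpq
          have hDlz : (0 : ℤ) < Dl := by exact_mod_cast (by omega : 0 < Dl)
          have hDpos : 0 < |D| := lt_trans (by positivity) hpq
          have hD0 : D ≠ 0 := abs_pos.mp hDpos
          refine (ExS_le_a2 hP x y hx a1 l0 a2 p q'.succ D hD hD0).trans ?_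
          apply mul_le_mul_of_nonneg_left _ hC1
          have hDposR : (0 : ℝ) < |(D : ℝ)| := by exact_mod_cast hDpos
          rw [div_le_div_iff₀ hDposR hDlR, one_mul]
          exact_mod_cast hpq.le
      _ = (((Y2s P π jj x l0 q).filter (fun y => ¬ ∀ p q' : Fin P.r,
          |x p ^ P.k * y q' ^ P.k - x q' ^ P.k * y p ^ P.k| ≤ gG P.k (π ^ jj) x y * Dl)).card : ℝ) *
            (C2P P n₀ * (1 / Dl)) := by rw [nsmul_eq_mul]
      _ ≤ ((Y2s P π jj x l0 q).card : ℝ) * (C2P P n₀ * (1 / Dl)) := by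
          apply mul_le_mul_of_nonneg_right _ (by positivity)
          exact_mod_cast Finset.card_filter_le _ _
      _ ≤ ((P.B * (β₀ * (P.k * jj + 1))) * (2 ^ P.r * β₀)) * (C2P P n₀ * (1 / Dl)) := by
          apply mul_le_mul_of_nonneg_right _ (by positivity)
          exact card_Y2s hP β₀ hβ x hx l0 q
      _ = _ := by ring
  · have hfe : (Y2s P π jj x l0 q).filter (fun y => ¬ ¬ ∀ p q' : Fin P.r,
        |x p ^ P.k * y q' ^ P.k - x q' ^ P.k * y p ^ P.k| ≤ gG P.k (π ^ jj) x y * Dl) =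
        Y3s P π jj Dl x l0 q := by
      rw [Y3s]
      apply Finset.filter_congr
      intro y _
      rw [not_not]
    rw [hfe]
    calc _ ≤ (Y3s P π jj Dl x l0 q).card • (C2P P n₀) := by
          apply Finset.sum_le_card_nsmul
          intro y hy
          rw [Y3s, Finset.mem_filter, Y2s, Finset.mem_filter] at hy
          obtain ⟨⟨hyb, hgB⟩, _⟩ := hy
          obtain ⟨a1, a2, a3, a4⟩ := mem_Yb2.mp hyb
          have hD0 := Yb2_D hP hx hyb
          refine (ExS_le_a2 hP x y hx a1 l0 a2 l0 q.succ _ rfl hD0).trans ?_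
          have hle := (gG_le_of_Yb2 hP hx hyb).1
          set D := VV P.n P.k x l0.succ * VV P.n P.k y q.succ - VV P.n P.k x q.succ * VV P.n P.k y l0.succ
          have hDposR : (0 : ℝ) < |(D : ℝ)| := by rw [abs_pos]; exact_mod_cast hD0
          have h2 : (gG P.k (π ^ jj) x y : ℝ) / |(D : ℝ)| ≤ 1 := by
            rw [div_le_one hDposR]; exact_mod_cast hle
          calc C2P P n₀ * ((gG P.k (π ^ jj) x y : ℝ) / |(D : ℝ)|) ≤ C2P P n₀ * 1 :=
                mul_le_mul_of_nonneg_left h2 hC1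
            _ = _ := mul_one _
      _ = _ := by rw [nsmul_eq_mul, mul_comm]

theorem sum_Y3s (hP : P.Ok2 n₀ π jj) (Dl : ℕ) (hDl : 1 ≤ Dl) (l0 q : Fin P.r) :
    ∑ x ∈ P.T1 π, ((Y3s P π jj Dl x l0 q).card : ℝ) ≤ (P.B : ℝ) ^ 4 * (3 * Dl) ^ (2 * P.r) := by
  classical
  have hk := hP.hk
  set S := (P.T1 π).sigma (fun x => Y3s P π jj Dl x l0 q) with hS
  have hScard : ∑ x ∈ P.T1 π, ((Y3s P π jj Dl x l0 q).card : ℝ) = S.card := by
    rw [hS, Finset.card_sigma]; push_cast; rfl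
  rw [hScard]
  set U : Finset (((ℤ × ℤ) × (ℤ × ℤ)) × ((Fin P.r → ℤ) × (Fin P.r → ℤ))) :=
    (((Finset.Icc (1 : ℤ) P.B) ×ˢ (Finset.Icc (1 : ℤ) P.B)) ×ˢ
      ((Finset.Icc (1 : ℤ) P.B) ×ˢ (Finset.Icc (1 : ℤ) P.B))) ×ˢ
      ((Fintype.piFinset (fun _ => Finset.Icc (-(Dl : ℤ)) Dl)) ×ˢ
        (Fintype.piFinset (fun _ => Finset.Icc (-(Dl : ℤ)) Dl))) with hU
  have hUcard : (U.card : ℝ) ≤ (P.B : ℝ) ^ 4 * (3 * Dl) ^ (2 * P.r) := by
    rw [hU, Finset.card_product, Finset.card_product, Finset.card_product, Finset.card_product,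
      Fintype.card_piFinset, Finset.prod_const, Finset.card_univ, Fintype.card_fin, Int.card_Icc,
      Int.card_Icc]
    have h2 : ((P.B : ℤ) + 1 - 1).toNat = P.B := by omega
    have h3 : ((Dl : ℤ) + 1 - -(Dl : ℤ)).toNat = 2 * Dl + 1 := by omega
    rw [h2, h3]
    push_cast
    have hDlR : (1 : ℝ) ≤ Dl := by exact_mod_cast hDl
    have h4 : (2 * (Dl : ℝ) + 1) ^ P.r ≤ (3 * Dl) ^ P.r := by gcongr; linarith
    calc (P.B : ℝ) * P.B * (P.B * P.B) * ((2 * (Dl : ℝ) + 1) ^ P.r * (2 * (Dl : ℝ) + 1) ^ P.r)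
        ≤ (P.B : ℝ) * P.B * (P.B * P.B) * ((3 * (Dl : ℝ)) ^ P.r * (3 * (Dl : ℝ)) ^ P.r) := by gcongr
      _ = _ := by rw [two_mul P.r, pow_add]; ring
  refine le_trans ?_ hUcard
  have hmem : ∀ s ∈ S, s.1 ∈ P.T1 π ∧ s.2 ∈ P.T1 π ∧ s.2 ∈ Yb2 P π s.1 l0 q ∧
      0 < gG P.k (π ^ jj) s.1 s.2 ∧ ∀ p q' : Fin P.r,
        |s.1 p ^ P.k * s.2 q' ^ P.k - s.1 q' ^ P.k * s.2 p ^ P.k| ≤ gG P.k (π ^ jj) s.1 s.2 * Dl := by
    intro s hs
    rw [hS, Finset.mem_sigma, Y3s, Finset.mem_filter, Y2s, Finset.mem_filter] at hs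
    obtain ⟨h1, ⟨h2, h3⟩, h4⟩ := hs
    exact ⟨h1, (mem_Yb2.mp h2).1, h2, by omega, h4⟩
  have hcard : S.card ≤ U.card := by
    apply Finset.card_le_card_of_injOn (fun s => (((s.1 l0, s.1 q), (s.2 l0, s.2 q)),
      ((fun l => (s.1 l0 ^ P.k * s.2 l ^ P.k - s.1 l ^ P.k * s.2 l0 ^ P.k) / (gG P.k (π ^ jj) s.1 s.2 : ℤ)),
       (fun l => (s.1 q ^ P.k * s.2 l ^ P.k - s.1 l ^ P.k * s.2 q ^ P.k) / (gG P.k (π ^ jj) s.1 s.2 : ℤ)))))
    · intro s hs
      obtain ⟨h1, h2, h3, h4, h5⟩ := hmem s hs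
      have h1T := (Par.mem_T1.mp h1).1
      have h2T := (Par.mem_T1.mp h2).1
      have hgz : (0 : ℤ) < (gG P.k (π ^ jj) s.1 s.2 : ℤ) := by exact_mod_cast h4
      have hdiv : ∀ p l : Fin P.r, -(Dl : ℤ) ≤ (s.1 p ^ P.k * s.2 l ^ P.k - s.1 l ^ P.k * s.2 p ^ P.k) /
          (gG P.k (π ^ jj) s.1 s.2 : ℤ) ∧ (s.1 p ^ P.k * s.2 l ^ P.k - s.1 l ^ P.k * s.2 p ^ P.k) /
          (gG P.k (π ^ jj) s.1 s.2 : ℤ) ≤ Dl := by
        intro p l
        obtain ⟨c, hc⟩ := gG_dvd_minor P.k (π ^ jj) s.1 s.2 p l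
        have h6 := h5 p l
        rw [hc, Int.mul_ediv_cancel_left _ hgz.ne']
        rw [hc, abs_mul, abs_of_pos hgz] at h6
        exact abs_le.mp (le_of_mul_le_mul_left h6 hgz)
      rw [Finset.mem_coe, hU]
      simp only [Finset.mem_product, Finset.mem_Icc, Fintype.mem_piFinset]
      exact ⟨⟨⟨⟨(T_pos2 hP h1T l0).1, (T_pos2 hP h1T l0).2.2⟩, ⟨(T_pos2 hP h1T q).1, (T_pos2 hP h1T q).2.2⟩⟩,
        ⟨⟨(T_pos2 hP h2T l0).1, (T_pos2 hP h2T l0).2.2⟩, ⟨(T_pos2 hP h2T q).1, (T_pos2 hP h2T q).2.2⟩⟩⟩,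
        fun l => hdiv l0 l, fun l => hdiv q l⟩
    · intro s hs s' hs' hss
      obtain ⟨h1, h2, h3, h4, h5⟩ := hmem s hs
      obtain ⟨h1', h2', h3', h4', h5'⟩ := hmem s' hs'
      simp only [Prod.mk.injEq] at hss
      obtain ⟨⟨⟨e1, e2⟩, ⟨e3, e4⟩⟩, e5, e6⟩ := hss
      have hgz : (gG P.k (π ^ jj) s.1 s.2 : ℤ) ≠ 0 := by exact_mod_cast h4.ne'
      have hgz' : (gG P.k (π ^ jj) s'.1 s'.2 : ℤ) ≠ 0 := by exact_mod_cast h4'.ne'
      -- quotients
      have hc : ∀ p l : Fin P.r, ∃ c : ℤ, s.1 p ^ P.k * s.2 l ^ P.k - s.1 l ^ P.k * s.2 p ^ P.k =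
          gG P.k (π ^ jj) s.1 s.2 * c := fun p l => gG_dvd_minor P.k (π ^ jj) s.1 s.2 p l
      have hc' : ∀ p l : Fin P.r, ∃ c : ℤ, s'.1 p ^ P.k * s'.2 l ^ P.k - s'.1 l ^ P.k * s'.2 p ^ P.k =
          gG P.k (π ^ jj) s'.1 s'.2 * c := fun p l => gG_dvd_minor P.k (π ^ jj) s'.1 s'.2 p l
      choose c hc using hc
      choose c' hc' using hc'
      have f1 : ∀ l, c l0 l = c' l0 l := by
        intro l
        have := congrFun e5 l
        rwa [hc, hc', Int.mul_ediv_cancel_left _ hgz, Int.mul_ediv_cancel_left _ hgz'] at this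
      have f2 : ∀ l, c q l = c' q l := by
        intro l
        have := congrFun e6 l
        rwa [hc, hc', Int.mul_ediv_cancel_left _ hgz, Int.mul_ediv_cancel_left _ hgz'] at this
      have hc0 : c l0 q ≠ 0 := by
        intro h0
        have hD0 := Yb2_D hP h1 h3
        apply hD0
        simp only [VV_succ]
        rw [hc, h0, mul_zero]
      have g1 : ∀ l, s.1 l ^ P.k * c l0 q = s.1 q ^ P.k * c l0 l - s.1 l0 ^ P.k * c q l := by
        intro l
        apply mul_left_cancel₀ hgz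
        linear_combination (-(s.1 l ^ P.k)) * hc l0 q + s.1 q ^ P.k * hc l0 l - s.1 l0 ^ P.k * hc q l
      have g1' : ∀ l, s'.1 l ^ P.k * c' l0 q = s'.1 q ^ P.k * c' l0 l - s'.1 l0 ^ P.k * c' q l := by
        intro l
        apply mul_left_cancel₀ hgz'
        linear_combination (-(s'.1 l ^ P.k)) * hc' l0 q + s'.1 q ^ P.k * hc' l0 l - s'.1 l0 ^ P.k * hc' q l
      have g2 : ∀ l, s.2 l ^ P.k * c l0 q = s.2 q ^ P.k * c l0 l - s.2 l0 ^ P.k * c q l := by
        intro l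
        apply mul_left_cancel₀ hgz
        linear_combination (-(s.2 l ^ P.k)) * hc l0 q + s.2 q ^ P.k * hc l0 l - s.2 l0 ^ P.k * hc q l
      have g2' : ∀ l, s'.2 l ^ P.k * c' l0 q = s'.2 q ^ P.k * c' l0 l - s'.2 l0 ^ P.k * c' q l := by
        intro l
        apply mul_left_cancel₀ hgz'
        linear_combination (-(s'.2 l ^ P.k)) * hc' l0 q + s'.2 q ^ P.k * hc' l0 l - s'.2 l0 ^ P.k * hc' q l
      have h1T := (Par.mem_T1.mp h1).1
      have h2T := (Par.mem_T1.mp h2).1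
      have h1T' := (Par.mem_T1.mp h1').1
      have h2T' := (Par.mem_T1.mp h2').1
      have i1 : s.1 = s'.1 := by
        funext l
        have h6 := g1 l
        have h7 := g1' l
        rw [← f1, ← f1, ← f2, ← e1, ← e2] at h7
        have h8 : s.1 l ^ P.k = s'.1 l ^ P.k := mul_right_cancel₀ hc0 (h6.trans h7.symm)
        exact (pow_left_inj₀ (by linarith [(T_pos2 hP h1T l).1]) (by linarith [(T_pos2 hP h1T' l).1])
          (by omega)).mp h8
      have i2 : s.2 = s'.2 := by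
        funext l
        have h6 := g2 l
        have h7 := g2' l
        rw [← f1, ← f1, ← f2, ← e3, ← e4] at h7
        have h8 : s.2 l ^ P.k = s'.2 l ^ P.k := mul_right_cancel₀ hc0 (h6.trans h7.symm)
        exact (pow_left_inj₀ (by linarith [(T_pos2 hP h2T l).1]) (by linarith [(T_pos2 hP h2T' l).1])
          (by omega)).mp h8
      exact Sigma.ext i1 (heq_of_eq i2)
  exact_mod_cast hcard

/-- Pairs on the line through `x`. -/
noncomputable def Yp2 (P : Par) (π : ℕ) (x : Fin P.r → ℤ) (l0 : Fin P.r) : Finset (Fin P.r → ℤ) := by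
  classical
  exact (P.T1 π).filter (fun y => x l0 ≠ y l0 ∧ ∀ l, x l0 * y l = x l * y l0)

theorem mem_Yp2 {x : Fin P.r → ℤ} {l0 : Fin P.r} {y : Fin P.r → ℤ} :
    y ∈ Yp2 P π x l0 ↔ y ∈ P.T1 π ∧ x l0 ≠ y l0 ∧ ∀ l, x l0 * y l = x l * y l0 := by
  classical
  rw [Yp2, Finset.mem_filter]

theorem E3' (hP : P.Ok2 n₀ π jj) (x : Fin P.r → ℤ) (hx : x ∈ P.T1 π) (l0 : Fin P.r) :
    ∑ y ∈ Yp2 P π x l0, P.ExS x y ≤ (2 * P.C0 * P.R) * C2P P n₀ := by
  classical
  have hk := hP.hk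
  have hr := hP.hr
  have hB := Ok2.hB hP
  have hC1 := C2P_nonneg P n₀
  have hB0 : (0 : ℝ) < P.B0 := by exact_mod_cast hP.hB0
  obtain ⟨hxT, hxπ⟩ := Par.mem_T1.mp hx
  have hterm : ∀ y ∈ Yp2 P π x l0, P.ExS x y ≤ C2P P n₀ := by
    intro y hy
    obtain ⟨hyT1, hne, hpar⟩ := mem_Yp2.mp hy
    have hyT := (Par.mem_T1.mp hyT1).1
    have hx0 := T_pos2 hP hxT l0
    have hy0 := T_pos2 hP hyT l0
    have hpne : x l0 ^ P.k ≠ y l0 ^ P.k :=
      pow_ne_of_ne (k := P.k) (by omega) (by linarith) (by linarith) hne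
    set D := (VV P.n P.k x l0.succ * VV P.n P.k y 0 - VV P.n P.k x 0 * VV P.n P.k y l0.succ) with hD
    have hD' : D = (P.n : ℤ) ^ P.k * (x l0 ^ P.k - y l0 ^ P.k) := by
      rw [hD, VV_succ, VV_succ, VV_zero, VV_zero]; ring
    have hnz : (P.n : ℤ) ≠ 0 := by
      have := Ok2.hn1 hP
      exact_mod_cast (by omega : P.n ≠ 0)
    have hD0 : D ≠ 0 := by
      rw [hD']
      exact mul_ne_zero (pow_ne_zero _ hnz) (sub_ne_zero.mpr hpne)
    have h1 := ExS_le_a2 hP x y hx hyT1 l0 hne l0 0 D hD hD0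
    have hdvd : (gG P.k (π ^ jj) x y : ℤ) ∣ D := by
      have a1 : (gG P.k (π ^ jj) x y : ℤ) ∣ (((π ^ jj) ^ P.k * gE P.k x y : ℕ) : ℤ) := by
        exact_mod_cast gG_dvd_q P.k (π ^ jj) x y
      refine a1.trans ?_
      rw [hD', hP.hn]
      push_cast
      rw [mul_pow]
      have a2 := gE_dvd P.k x y l0
      have a3 : (gE P.k x y : ℤ) ∣ x l0 ^ P.k - y l0 ^ P.k := by
        rw [← dvd_neg, neg_sub]; exact a2
      rw [mul_assoc]
      exact Dvd.dvd.mul_left (mul_dvd_mul_left _ a3) _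
    have h2 : (gG P.k (π ^ jj) x y : ℤ) ≤ |D| :=
      Int.le_of_dvd (abs_pos.mpr hD0) ((dvd_abs _ _).mpr hdvd)
    have h2' : (gG P.k (π ^ jj) x y : ℝ) ≤ |(D : ℝ)| := by exact_mod_cast h2
    have hDpos : (0 : ℝ) < |(D : ℝ)| := by rw [abs_pos]; exact_mod_cast hD0
    have h4 : (gG P.k (π ^ jj) x y : ℝ) / |(D : ℝ)| ≤ 1 := by rw [div_le_one hDpos]; exact h2'
    calc P.ExS x y ≤ _ := h1
      _ ≤ C2P P n₀ * 1 := mul_le_mul_of_nonneg_left h4 hC1
      _ = C2P P n₀ := mul_one _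
  have hcard : ((Yp2 P π x l0).card : ℝ) ≤ 2 * P.C0 * P.R := by
    -- second index
    obtain ⟨l1, hl1⟩ : ∃ l1 : Fin P.r, l1 ≠ l0 := by
      haveI : Nontrivial (Fin P.r) := Fin.nontrivial_iff_two_le.mpr (by omega)
      exact exists_ne l0
    have hinj : (Yp2 P π x l0).card = ((Yp2 P π x l0).image (fun y => y l0)).card := by
      rw [Finset.card_image_of_injOn]
      intro y hy y' hy' hyy
      obtain ⟨_, _, hpar⟩ := mem_Yp2.mp hy
      obtain ⟨_, _, hpar'⟩ := mem_Yp2.mp hy'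
      funext l
      have h1 := hpar l
      have h2 := hpar' l
      have hyy' : y l0 = y' l0 := hyy
      rw [hyy'] at h1
      have h3 : x l0 * y l = x l0 * y' l := h1.trans h2.symm
      exact mul_left_cancel₀ (by have := (T_pos2 hP hxT l0).1; omega) h3
    rw [hinj]
    set d := Int.gcd (x l0) (x l1) with hd
    have hdR : d ≤ P.R := (mem_Tset.mp hxT).2 l0 l1 hl1.symm
    have hx0 := T_pos2 hP hxT l0
    have hd0 : 0 < d := Int.gcd_pos_of_ne_zero_left _ (by omega)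
    obtain ⟨a, ha⟩ : (d : ℤ) ∣ x l0 := Int.gcd_dvd_left _ _
    obtain ⟨b, hb⟩ : (d : ℤ) ∣ x l1 := Int.gcd_dvd_right _ _
    have hd0' : (0 : ℤ) < d := by exact_mod_cast hd0
    have ha0 : 0 < a := by
      by_contra hcon
      push Not at hcon
      nlinarith
    have hcop : IsCoprime a b := by
      rw [Int.isCoprime_iff_gcd_eq_one]
      have e := Int.gcd_div_gcd_div_gcd (i := x l0) (j := x l1) hd0
      rw [← hd] at e
      rwa [ha, hb, Int.mul_ediv_cancel_left _ hd0'.ne', Int.mul_ediv_cancel_left _ hd0'.ne'] at e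
    have hdvd : ∀ u ∈ (Yp2 P π x l0).image (fun y => y l0), a ∣ u := by
      intro u hu
      rw [Finset.mem_image] at hu
      obtain ⟨y, hy, rfl⟩ := hu
      obtain ⟨_, _, hpar⟩ := mem_Yp2.mp hy
      have h1 := hpar l1
      rw [ha, hb] at h1
      have h2 : a * y l1 = b * y l0 := by
        have : (d : ℤ) * (a * y l1) = d * (b * y l0) := by linear_combination h1
        exact mul_left_cancel₀ hd0'.ne' this
      exact hcop.dvd_of_dvd_mul_left ⟨y l1, h2.symm⟩
    have haN : ((a.toNat : ℕ) : ℤ) = a := Int.toNat_of_nonneg ha0.le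
    have h1 := card_le_of_dvd_sub ((Yp2 P π x l0).image (fun y => y l0)) a.toNat (by omega) P.B
      (by positivity) (by
        intro u hu v hv
        rw [haN]
        exact dvd_sub (hdvd u hu) (hdvd v hv)) (by
        intro u hu v hv
        rw [Finset.mem_image] at hu hv
        obtain ⟨y, hy, rfl⟩ := hu
        obtain ⟨y', hy', rfl⟩ := hv
        have e1 := (T_pos2 hP (Par.mem_T1.mp (mem_Yp2.mp hy).1).1 l0).2.2
        have e2 := (T_pos2 hP (Par.mem_T1.mp (mem_Yp2.mp hy').1).1 l0).1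
        have e1' : (y l0 : ℝ) ≤ P.B := by exact_mod_cast e1
        have e2' : (1 : ℝ) ≤ y' l0 := by exact_mod_cast e2
        linarith)
    refine h1.trans ?_
    have haR : (0 : ℝ) < a.toNat := by
      have : 0 < a.toNat := by omega
      exact_mod_cast this
    -- B ≤ C0 B0 ≤ C0 x = C0 d a ≤ C0 R a
    have h2 : (P.B : ℝ) ≤ P.C0 * P.R * a.toNat := by
      have e1 : (P.B : ℝ) ≤ P.C0 * P.B0 := by exact_mod_cast hP.hC0
      have e2 : (P.B0 : ℝ) ≤ d * a.toNat := by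
        have : (P.B0 : ℤ) ≤ d * (a.toNat : ℤ) := by rw [haN, ← ha]; exact hx0.2.1
        exact_mod_cast this
      have e3 : (d : ℝ) ≤ P.R := by exact_mod_cast hdR
      calc (P.B : ℝ) ≤ P.C0 * P.B0 := e1
        _ ≤ P.C0 * (d * a.toNat) := by gcongr
        _ ≤ P.C0 * (P.R * a.toNat) := by gcongr
        _ = _ := by ring
    have h3 : (P.B : ℝ) / a.toNat ≤ P.C0 * P.R := by rw [div_le_iff₀ haR]; exact h2
    have h4 : (1 : ℝ) ≤ P.C0 * P.R := by
      have e1 : 1 ≤ P.C0 := by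
        by_contra hcon
        have : P.C0 = 0 := by omega
        have h5 := hP.hC0
        rw [this, zero_mul] at h5
        omega
      have e2 : 1 ≤ P.C0 * P.R := Nat.one_le_iff_ne_zero.mpr (Nat.mul_ne_zero (by omega) (by have := hP.hR; omega))
      exact_mod_cast e2
    linarith
  calc ∑ y ∈ Yp2 P π x l0, P.ExS x y ≤ (Yp2 P π x l0).card • C2P P n₀ :=
        Finset.sum_le_card_nsmul _ _ _ hterm
    _ = ((Yp2 P π x l0).card : ℝ) * C2P P n₀ := by rw [nsmul_eq_mul]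
    _ ≤ _ := mul_le_mul_of_nonneg_right hcard hC1

/-- The diagonal `x = y`. -/
theorem Ediag' (hP : P.Ok2 n₀ π jj) (x : Fin P.r → ℤ) (hx : x ∈ P.T1 π) :
    P.ExS x x ≤ 36 * ((n₀ ^ P.k : ℕ) : ℝ) * P.C0 ^ P.k * P.m * P.J / P.B ^ P.k := by
  classical
  have hk := hP.hk
  have hr := hP.hr
  have hB := Ok2.hB hP
  have hB0 : (0 : ℝ) < P.B0 := by exact_mod_cast hP.hB0
  have hBR : (0 : ℝ) < P.B := by exact_mod_cast (by omega : 0 < P.B)
  have hJ : (0 : ℝ) < P.J := by exact_mod_cast hP.hJ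
  obtain ⟨hxT, hxπ⟩ := Par.mem_T1.mp hx
  set N := P.n ^ P.k with hN
  set N0' := n₀ ^ P.k with hN0'
  set Q := (π ^ jj) ^ P.k with hQ
  have hNQ : N = N0' * Q := by rw [hN, hP.hn, mul_pow]
  have hN1 : 1 ≤ N := Nat.one_le_pow _ _ (Ok2.hn1 hP)
  have hN01 : 1 ≤ N0' := Nat.one_le_pow _ _ hP.hn0
  have hQ1 : 1 ≤ Q := Nat.one_le_pow _ _ (Nat.one_le_pow _ _ hP.hπ.pos)
  have hm : (0 : ℤ) < P.m := by exact_mod_cast hP.hm.pos
  haveI : Nonempty (Fin P.r) := ⟨⟨0, by omega⟩⟩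
  set l : Fin P.r := Classical.arbitrary _ with hl
  have hxl := T_pos2 hP hxT l
  have hxk : (P.B0 : ℤ) ^ P.k ≤ x l ^ P.k := pow_le_pow_left₀ (by positivity) hxl.2.1 _
  have hxk' : x l ^ P.k ≤ (P.B : ℤ) ^ P.k := pow_le_pow_left₀ (by linarith) hxl.2.2 _
  have hxpos : 0 < x l ^ P.k := pow_pos (by linarith) _
  have h4 : (4 : ℤ) * P.J * (P.B : ℤ) ^ P.k ≤ P.m := by exact_mod_cast hP.h4
  have hNB : (N : ℤ) ≤ (P.B : ℤ) ^ P.k := by
    have : N ≤ P.B ^ P.k := Nat.pow_le_pow_left hP.hnB _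
    exact_mod_cast this
  have hJz : (0 : ℤ) < P.J := by exact_mod_cast hP.hJ
  have hBk : (0 : ℤ) < (P.B : ℤ) ^ P.k := by positivity
  have hNz : (1 : ℤ) ≤ N := by exact_mod_cast hN1
  have hQz : (1 : ℤ) ≤ Q := by exact_mod_cast hQ1
  have hex : ∀ z ∈ P.Ex x x, ∃ w0 wl : ℤ, |(z.1 - z.2) * N - P.m * w0| < P.J ∧
      |(z.1 - z.2) * x l ^ P.k - P.m * wl| < P.J := by
    intro z hz
    obtain ⟨_, _, _, w, hw, _⟩ := P.mem_Ex hz
    refine ⟨w 0, w l.succ, ?_, ?_⟩
    · have := hw 0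
      rw [VV_zero] at this
      rw [hN]; push_cast
      rw [sub_mul]; exact this
    · have := hw l.succ
      rw [VV_succ] at this
      rw [sub_mul]; exact this
  choose! w0 wl hw0 hwl using hex
  have hrel : ∀ z ∈ P.Ex x x, w0 z * x l ^ P.k = wl z * N := by
    intro z hz
    have e : (P.m : ℤ) * (w0 z * x l ^ P.k - wl z * N) =
        ((z.1 - z.2) * x l ^ P.k - P.m * wl z) * N - ((z.1 - z.2) * N - P.m * w0 z) * x l ^ P.k := by
      ring
    have h1 : |(P.m : ℤ) * (w0 z * x l ^ P.k - wl z * N)| < P.m := by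
      rw [e]
      calc _ ≤ |((z.1 - z.2) * x l ^ P.k - P.m * wl z) * N| +
            |((z.1 - z.2) * N - P.m * w0 z) * x l ^ P.k| := abs_sub _ _
        _ ≤ P.J * (P.B : ℤ) ^ P.k + P.J * (P.B : ℤ) ^ P.k := by
            apply add_le_add
            · rw [abs_mul, abs_of_pos (by linarith : (0 : ℤ) < N)]
              exact mul_le_mul (hwl z hz).le hNB (by linarith) hJz.le
            · rw [abs_mul, abs_of_pos hxpos]
              exact mul_le_mul (hw0 z hz).le hxk' hxpos.le hJz.le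
        _ < P.m := by
            have : 0 < P.J * (P.B : ℤ) ^ P.k := by positivity
            linarith
    rw [abs_mul, abs_of_pos hm] at h1
    have h2 : |w0 z * x l ^ P.k - wl z * N| < 1 :=
      lt_of_mul_lt_mul_left (by rw [mul_one]; exact h1) hm.le
    have := Int.abs_lt_one_iff.mp h2
    linarith
  have hw0Q : ∀ z ∈ P.Ex x x, (Q : ℤ) ∣ w0 z := by
    intro z hz
    have h1 := hrel z hz
    have hπP : Prime (π : ℤ) := Nat.prime_iff_prime_int.mp hP.hπ
    have hcop : IsCoprime (Q : ℤ) (x l ^ P.k) := by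
      rw [hQ]; push_cast
      rw [← pow_mul]
      apply IsCoprime.pow
      exact (hπP.coprime_iff_not_dvd).mpr (hxπ l)
    apply hcop.dvd_of_dvd_mul_right
    rw [h1, hNQ]
    push_cast
    exact ⟨wl z * N0', by push_cast; ring⟩
  have hw0b : ∀ z ∈ P.Ex x x, |w0 z / Q| ≤ N0' := by
    intro z hz
    have hzb := mem_box2.mp (P.mem_Ex hz).2.2.1
    have h1 : |z.1 - z.2| < P.m := by rw [abs_lt]; constructor <;> linarith
    have h2 : |(P.m : ℤ) * w0 z| < P.m * (N + 1) := by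
      have e : (P.m : ℤ) * w0 z = (z.1 - z.2) * N - ((z.1 - z.2) * N - P.m * w0 z) := by ring
      rw [e]
      calc _ ≤ |(z.1 - z.2) * N| + |(z.1 - z.2) * N - P.m * w0 z| := abs_sub _ _
        _ < P.m * N + P.m := by
            have a1 : |(z.1 - z.2) * N| ≤ P.m * N := by
              rw [abs_mul, abs_of_pos (by linarith : (0 : ℤ) < N)]
              exact mul_le_mul_of_nonneg_right h1.le (by linarith)
            have a2 := hw0 z hz
            have a3 : (P.J : ℤ) ≤ P.m := by nlinarith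
            linarith
        _ = _ := by ring
    rw [abs_mul, abs_of_pos hm] at h2
    have h3 := lt_of_mul_lt_mul_left h2 hm.le
    obtain ⟨c, hc⟩ := hw0Q z hz
    rw [hc, Int.mul_ediv_cancel_left _ (by linarith : (Q : ℤ) ≠ 0)]
    rw [hc, abs_mul, abs_of_pos (by linarith : (0 : ℤ) < Q)] at h3
    have h4 : (Q : ℤ) * |c| ≤ Q * N0' := by
      have : (N : ℤ) = Q * N0' := by rw [hNQ]; push_cast; ring
      rw [← this]; omega
    exact le_of_mul_le_mul_left h4 (by linarith)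
  -- fibre over j
  have hcard : ((P.Ex x x).card : ℝ) ≤ P.m * (3 * N0' * (3 * P.J / P.B0 ^ P.k)) := by
    have h1 := card_le_mul_real (P.Ex x x) (Finset.Ico (0 : ℤ) P.m) (fun z => z.2) (by
      intro z hz
      have := mem_box2.mp (P.mem_Ex hz).2.2.1
      rw [Finset.mem_Ico]; exact this.2.2) (3 * N0' * (3 * P.J / P.B0 ^ P.k)) (by
      intro j _
      have h2 := card_le_mul_real ((P.Ex x x).filter (fun z => z.2 = j)) (Finset.Icc (-(N0' : ℤ)) N0')
        (fun z => w0 z / Q) (by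
          intro z hz
          rw [Finset.mem_Icc]
          exact abs_le.mp (hw0b z (Finset.mem_filter.mp hz).1)) (3 * P.J / P.B0 ^ P.k) (by
          intro c _
          set F := (((P.Ex x x).filter (fun z => z.2 = j)).filter (fun z => w0 z / Q = c)) with hF
          have hinj : F.card = (F.image (fun z => z.1)).card := by
            rw [Finset.card_image_of_injOn]
            intro z hz z' hz' hzz
            have e1 := (Finset.mem_filter.mp (Finset.mem_filter.mp hz).1).2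
            have e2 := (Finset.mem_filter.mp (Finset.mem_filter.mp hz').1).2
            exact Prod.ext hzz (e1.trans e2.symm)
          rw [hinj]
          have h3 := card_le_of_dvd_sub (F.image (fun z => z.1)) 1 one_pos (2 * P.J / P.B0 ^ P.k)
            (by positivity) (by intro a _ b _; exact one_dvd _) (by
              intro a ha b hb
              rw [Finset.mem_image] at ha hb
              obtain ⟨z, hz, rfl⟩ := ha
              obtain ⟨z', hz', rfl⟩ := hb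
              rw [hF, Finset.mem_filter, Finset.mem_filter] at hz hz'
              obtain ⟨⟨hzE, hj⟩, hc⟩ := hz
              obtain ⟨⟨hzE', hj'⟩, hc'⟩ := hz'
              have hw00 : w0 z = w0 z' := by
                obtain ⟨a1, ha1⟩ := hw0Q z hzE
                obtain ⟨a2, ha2⟩ := hw0Q z' hzE'
                rw [ha1, Int.mul_ediv_cancel_left _ (by linarith : (Q : ℤ) ≠ 0)] at hc
                rw [ha2, Int.mul_ediv_cancel_left _ (by linarith : (Q : ℤ) ≠ 0)] at hc'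
                rw [ha1, ha2, hc, hc']
              have hwleq : wl z = wl z' := by
                have e1 := hrel z hzE
                have e2 := hrel z' hzE'
                rw [hw00] at e1
                exact mul_right_cancel₀ (by linarith : (N : ℤ) ≠ 0) (e1.symm.trans e2)
              have e3 := hwl z hzE
              have e4 := hwl z' hzE'
              rw [hwleq, hj] at e3
              rw [hj'] at e4
              have e5 : (z.1 - z'.1) * x l ^ P.k ≤ 2 * P.J := by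
                have b1 := (abs_lt.mp e3).2
                have b2 := (abs_lt.mp e4).1
                linarith
              have hB0k : (0 : ℝ) < (P.B0 : ℝ) ^ P.k := by positivity
              rcases le_total (z.1 - z'.1) 0 with h0 | h0
              · have : ((z.1 - z'.1 : ℤ) : ℝ) ≤ 0 := by exact_mod_cast h0
                push_cast at this
                have h7 : (0 : ℝ) ≤ 2 * P.J / P.B0 ^ P.k := by positivity
                linarith
              · rw [le_div_iff₀ hB0k]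
                have e6 : (z.1 - z'.1) * (P.B0 : ℤ) ^ P.k ≤ 2 * P.J :=
                  (mul_le_mul_of_nonneg_left hxk h0).trans e5
                exact_mod_cast e6)
          refine h3.trans ?_
          have h5 : (1 : ℝ) ≤ P.J / P.B0 ^ P.k := by
            have hB0k : (0 : ℝ) < (P.B0 : ℝ) ^ P.k := by positivity
            rw [le_div_iff₀ hB0k, one_mul]
            have : P.B0 ^ P.k ≤ P.J := by
              calc P.B0 ^ P.k ≤ P.B ^ P.k := Nat.pow_le_pow_left hP.hB0B _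
                _ ≤ P.B ^ (2 * P.k) := Nat.pow_le_pow_right hB (by omega)
                _ ≤ P.J := hP.hJbig
            exact_mod_cast this
          have h6 : (3 * P.J / P.B0 ^ P.k : ℝ) = 2 * P.J / P.B0 ^ P.k + P.J / P.B0 ^ P.k := by ring
          rw [h6]
          simp only [Nat.cast_one, div_one]
          linarith)
      refine h2.trans ?_
      apply mul_le_mul_of_nonneg_right _ (by positivity)
      rw [Int.card_Icc]
      have h7 : ((N0' : ℤ) + 1 - -(N0' : ℤ)).toNat = 2 * N0' + 1 := by omega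
      rw [h7]; push_cast
      have : (1 : ℝ) ≤ N0' := by exact_mod_cast hN01
      linarith)
    refine h1.trans ?_
    rw [Int.card_Ico]
    have h8 : ((P.m : ℤ) - 0).toNat = P.m := by omega
    rw [h8]
  have hC0 : (P.B : ℝ) ≤ P.C0 * P.B0 := by exact_mod_cast hP.hC0
  have h3 : (P.B : ℝ) ^ P.k ≤ P.C0 ^ P.k * P.B0 ^ P.k := by
    rw [← mul_pow]; gcongr
  have hB0k : (0 : ℝ) < (P.B0 : ℝ) ^ P.k := by positivity
  have hBk' : (0 : ℝ) < (P.B : ℝ) ^ P.k := by positivity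
  calc P.ExS x x ≤ 4 * (P.Ex x x).card := P.ExS_le_card x x
    _ ≤ 4 * (P.m * (3 * N0' * (3 * P.J / P.B0 ^ P.k))) := by gcongr
    _ = 36 * N0' * P.m * P.J * (1 / P.B0 ^ P.k) := by ring
    _ ≤ 36 * N0' * P.m * P.J * (P.C0 ^ P.k / P.B ^ P.k) := by
        apply mul_le_mul_of_nonneg_left _ (by positivity)
        rw [div_le_div_iff₀ hB0k hBk', one_mul]; exact h3
    _ = _ := by ring

end

end Pool.Agent.H888.DH
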