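import Pool.Agent.H888.WA.V4

set_option linter.unusedVariables false
set_option linter.unusedSectionVars false
set_option linter.style.haveILetI false

namespace Pool.Agent.H888.DH

open Finset Complex

/-- `N(a) - N_loc(a)` over an arbitrary finite set of points. -/
noncomputable def DDs (k r n K L : ℕ) (T' : Finset (Fin r → ℤ)) (a : Fin (r + 1) → ℤ) : ℝ :=
  ∑ x ∈ T', ((if dot a (VV n k x) = 0 then 1 else 0) -
    (1 / (2 * L + 1 : ℝ)) * ∑ t ∈ Finset.Icc (-(L : ℤ)) L, (if dot a (VV n k x) = K * t then 1 else 0))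

/-- Quadruples `(x,y,(i,j))` with all coordinates near. -/
noncomputable def NearSetS (k r n m J : ℕ) (T' : Finset (Fin r → ℤ)) :
    Finset ((Fin r → ℤ) × (Fin r → ℤ) × (ℤ × ℤ)) := by
  classical
  exact (T' ×ˢ T' ×ˢ (box2 m)).filter (fun p =>
    ∃ w, nearW m J (VV n k p.1) (VV n k p.2.1) p.2.2 w)

section
variable {m : ℕ} [NeZero m]

theorem DDs_eq (k r n K L : ℕ) (T' : Finset (Fin r → ℤ)) (a : Fin (r + 1) → ℤ)
    (ha : ∀ x ∈ T', |dot a (VV n k x)| + K * L < m) :
    ((DDs k r n K L T' a : ℝ) : ℂ) =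
      ∑ p ∈ (Finset.univ : Finset (ZMod m)) ×ˢ (T'),
        (psi K L p.1 / m) * ee (∑ o, ((a o : ℤ) : ZMod m) * (p.1 * ((VV n k p.2 o : ℤ) : ZMod m))) := by
  classical
  rw [Finset.sum_product_right]
  unfold DDs
  push_cast
  apply Finset.sum_congr rfl
  intro x hx
  have hd := ha x hx
  set d := dot a (VV n k x) with hdd
  have h0 : |d| < m := by
    have : (0 : ℤ) ≤ K * L := by positivity
    linarith
  have hL0 : (2 * (L : ℂ) + 1) ≠ 0 := by
    have : (2 * (L : ℝ) + 1) ≠ 0 := by positivity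
    exact_mod_cast this
  have e1 : ∀ i : ZMod m, ee (∑ o, ((a o : ℤ) : ZMod m) * (i * ((VV n k x o : ℤ) : ZMod m))) =
      ee (i * (d : ZMod m)) := by
    intro i
    congr 1
    rw [hdd, dot]
    push_cast
    rw [Finset.mul_sum]
    apply Finset.sum_congr rfl
    intro o _
    ring
  simp_rw [e1]
  have e2 : ∀ i : ZMod m, psi K L i / m * ee (i * (d : ZMod m)) =
      (1 / (m : ℂ)) * ee (i * (d : ZMod m)) - (1 / (2 * L + 1 : ℂ)) *
        ∑ t ∈ Finset.Icc (-(L : ℤ)) L, (1 / (m : ℂ)) * ee (i * ((d - K * t : ℤ) : ZMod m)) := by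
    intro i
    unfold psi
    rw [← Finset.mul_sum]
    have e3 : ∑ t ∈ Finset.Icc (-(L : ℤ)) L, ee (i * ((d - K * t : ℤ) : ZMod m)) =
        (∑ t ∈ Finset.Icc (-(L : ℤ)) L, ee (-(i * ((K * t : ℤ) : ZMod m)))) * ee (i * (d : ZMod m)) := by
      rw [Finset.sum_mul]
      apply Finset.sum_congr rfl
      intro t _
      rw [← ee_add]
      congr 1
      push_cast
      ring
    rw [e3]
    ring
  simp_rw [e2]
  rw [Finset.sum_sub_distrib, ← Finset.mul_sum, sum_ee_int d h0]
  congr 1
  · split_ifs <;> simp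
  rw [← Finset.mul_sum]
  congr 1
  rw [Finset.sum_comm]
  apply Finset.sum_congr rfl
  intro t ht
  rw [Finset.mem_Icc] at ht
  rw [← Finset.mul_sum, sum_ee_int (d - K * t) (by
    have h1 : |(K : ℤ) * t| ≤ K * L := by
      rw [abs_mul, abs_of_nonneg (by positivity : (0 : ℤ) ≤ (K : ℤ))]
      exact mul_le_mul_of_nonneg_left (abs_le.mpr ht) (by positivity)
    have h2 := abs_sub d (K * t)
    linarith)]
  have : (d - K * t = 0) ↔ (d = K * t) := sub_eq_zero
  by_cases h : d = K * t
  · rw [if_pos h, if_pos (this.mpr h)]; simp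
  · rw [if_neg h, if_neg (fun h' => h (this.mp h'))]; simp

end

theorem second_moment_DDs (k r n K L m J A : ℕ) (T' : Finset (Fin r → ℤ)) (hm : 0 < m) (hJ : 0 < J) (hJm : J ≤ m)
    (h8 : 8 * A * J ≤ m) (h2A : 2 * A < m)
    (ha : ∀ a ∈ boxA (r + 1) A, ∀ x ∈ T', |dot a (VV n k x)| + K * L < m) :
    ∑ a ∈ boxA (r + 1) A, (DDs k r n K L T' a) ^ 2 ≤
      (2 : ℝ) ^ (r + 1) * (m / J : ℝ) ^ (r + 1) * (1 / (m : ℝ) ^ 2) *
        ∑ p ∈ NearSetS k r n m J T', psiN m K L p.2.2.1 * psiN m K L p.2.2.2 := by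
  classical
  haveI : NeZero m := ⟨hm.ne'⟩
  set P := (Finset.univ : Finset (ZMod m)) ×ˢ (T') with hP
  set c : (ZMod m × (Fin r → ℤ)) → ℂ := fun p => psi K L p.1 / m with hc
  set v : (ZMod m × (Fin r → ℤ)) → Fin (r + 1) → ZMod m :=
    fun p o => p.1 * ((VV n k p.2 o : ℤ) : ZMod m) with hv
  have hsm := second_moment (m := m) J hJ hJm P c v
  rw [Fintype.card_fin] at hsm
  set F : (Fin (r + 1) → ZMod m) → ℝ := fun a => ‖∑ p ∈ P, c p * ee (∑ l, a l * v p l)‖ ^ 2 with hF
  have hm' : (0 : ℝ) < m := by exact_mod_cast hm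
  -- left side
  have hL : ∑ a ∈ boxA (r + 1) A, (DDs k r n K L T' a) ^ 2 ≤
      (2 : ℝ) ^ (r + 1) * ∑ a : Fin (r + 1) → ZMod m, (∏ l, WW J (a l)) * F a := by
    set red : (Fin (r + 1) → ℤ) → (Fin (r + 1) → ZMod m) := fun a l => (a l : ZMod m) with hred
    have hinj : Set.InjOn red (boxA (r + 1) A : Set (Fin (r + 1) → ℤ)) := by
      intro a haa b hbb hab
      have haa' := mem_boxA.mp haa
      have hbb' := mem_boxA.mp hbb
      funext l
      have h1 : ((a l : ℤ) : ZMod m) = ((b l : ℤ) : ZMod m) := congrFun hab l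
      rw [← sub_eq_zero] at h1
      have h2 : (((a l - b l : ℤ)) : ZMod m) = 0 := by push_cast; exact h1
      rw [ZMod.intCast_zmod_eq_zero_iff_dvd] at h2
      have h3 : |a l - b l| < m := by
        have := abs_sub (a l) (b l)
        have h4 : (2 * A : ℤ) < m := by exact_mod_cast h2A
        linarith [haa' l, hbb' l]
      have := Int.eq_zero_of_abs_lt_dvd h2 h3
      linarith
    calc ∑ a ∈ boxA (r + 1) A, (DDs k r n K L T' a) ^ 2
        ≤ ∑ a ∈ boxA (r + 1) A, (2 : ℝ) ^ (r + 1) * ((∏ l, WW J (red a l)) * F (red a)) := by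
          apply Finset.sum_le_sum
          intro a haa
          have haa' := mem_boxA.mp haa
          have h1 : F (red a) = (DDs k r n K L T' a) ^ 2 := by
            have h2 := DDs_eq (m := m) k r n K L T' a (ha a haa)
            simp only [hF, hc, hv, hP, hred]
            rw [← h2, Complex.norm_real, Real.norm_eq_abs, sq_abs]
          rw [h1]
          have h3 : (1 / 2 : ℝ) ^ (r + 1) ≤ ∏ l, WW J (red a l) := by
            calc (1 / 2 : ℝ) ^ (r + 1) = ∏ l : Fin (r + 1), (1 / 2 : ℝ) := by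
                  rw [Finset.prod_const, Finset.card_univ, Fintype.card_fin]
              _ ≤ _ := by
                  apply Finset.prod_le_prod (fun _ _ => by norm_num)
                  intro l _
                  apply WW_lower J hJ
                  have h4 : (8 * A * J : ℤ) ≤ m := by exact_mod_cast h8
                  have h5 : 8 * |a l| * J ≤ 8 * (A : ℤ) * J := by
                    apply mul_le_mul_of_nonneg_right _ (by positivity)
                    linarith [haa' l]
                  linarith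
          have h6 : (1 : ℝ) ≤ (2 : ℝ) ^ (r + 1) * ∏ l, WW J (red a l) := by
            calc (1 : ℝ) = (2 : ℝ) ^ (r + 1) * (1 / 2) ^ (r + 1) := by
                  rw [← mul_pow]; norm_num
              _ ≤ _ := mul_le_mul_of_nonneg_left h3 (by positivity)
          rw [← mul_assoc]
          nth_rewrite 1 [← one_mul ((DDs k r n K L T' a) ^ 2)]
          exact mul_le_mul_of_nonneg_right h6 (by positivity)
      _ = (2 : ℝ) ^ (r + 1) * ∑ a ∈ (boxA (r + 1) A).image red, (∏ l, WW J (a l)) * F a := by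
          rw [Finset.sum_image hinj, Finset.mul_sum]
      _ ≤ _ := by
          apply mul_le_mul_of_nonneg_left _ (by positivity)
          apply Finset.sum_le_sum_of_subset_of_nonneg (Finset.subset_univ _)
          intro a _ _
          exact mul_nonneg (Finset.prod_nonneg (fun l _ => WW_nonneg _ _)) (by positivity)
  refine hL.trans ?_
  have h5 : (2 : ℝ) ^ (r + 1) * ∑ a : Fin (r + 1) → ZMod m, (∏ l, WW J (a l)) * F a ≤
      (2 : ℝ) ^ (r + 1) * ((m / J : ℝ) ^ (r + 1) * ∑ p ∈ P, ∑ p' ∈ P, ‖c p‖ * ‖c p'‖ *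
        (if ∀ l, nearZ J (v p l - v p' l) then 1 else 0)) :=
    mul_le_mul_of_nonneg_left hsm (by positivity)
  refine h5.trans ?_
  have h6 : ∑ p ∈ P, ∑ p' ∈ P, ‖c p‖ * ‖c p'‖ *
        (if ∀ l, nearZ J (v p l - v p' l) then 1 else 0) ≤ (1 / (m : ℝ) ^ 2) *
        ∑ p ∈ NearSetS k r n m J T', psiN m K L p.2.2.1 * psiN m K L p.2.2.2 := by
    rw [← Finset.sum_product']
    -- restrict to near ones
    set G : ((ZMod m × (Fin r → ℤ)) × (ZMod m × (Fin r → ℤ))) → ((Fin r → ℤ) × (Fin r → ℤ) × (ℤ × ℤ)) :=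
      fun q => (q.1.2, q.2.2, ((q.1.1.val : ℤ), (q.2.1.val : ℤ))) with hG
    have hGinj : Function.Injective G := by
      intro q q' hqq
      simp only [hG, Prod.mk.injEq] at hqq
      obtain ⟨e1, e2, e3, e4⟩ := hqq
      have e3' : q.1.1 = q'.1.1 := ZMod.val_injective m (by exact_mod_cast e3)
      have e4' : q.2.1 = q'.2.1 := ZMod.val_injective m (by exact_mod_cast e4)
      exact Prod.ext (Prod.ext e3' e1) (Prod.ext e4' e2)
    calc ∑ q ∈ P ×ˢ P, ‖c q.1‖ * ‖c q.2‖ *
          (if ∀ l, nearZ J (v q.1 l - v q.2 l) then (1 : ℝ) else 0)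
        = ∑ q ∈ (P ×ˢ P).filter (fun q => ∀ l, nearZ J (v q.1 l - v q.2 l)), ‖c q.1‖ * ‖c q.2‖ := by
          rw [Finset.sum_filter]
          apply Finset.sum_congr rfl
          intro q _
          split_ifs <;> simp
      _ = ∑ q ∈ (P ×ˢ P).filter (fun q => ∀ l, nearZ J (v q.1 l - v q.2 l)),
            (1 / (m : ℝ) ^ 2) * (psiN m K L (G q).2.2.1 * psiN m K L (G q).2.2.2) := by
          apply Finset.sum_congr rfl
          intro q _
          simp only [hc, hG]
          rw [norm_div, norm_div, psi_eq, psi_eq, Complex.norm_natCast]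
          field_simp
      _ = ∑ p ∈ ((P ×ˢ P).filter (fun q => ∀ l, nearZ J (v q.1 l - v q.2 l))).image G,
            (1 / (m : ℝ) ^ 2) * (psiN m K L p.2.2.1 * psiN m K L p.2.2.2) := by
          rw [Finset.sum_image (fun _ _ _ _ h => hGinj h)]
      _ ≤ ∑ p ∈ NearSetS k r n m J T',
            (1 / (m : ℝ) ^ 2) * (psiN m K L p.2.2.1 * psiN m K L p.2.2.2) := by
          apply Finset.sum_le_sum_of_subset_of_nonneg
          · intro p hp
            rw [Finset.mem_image] at hp
            obtain ⟨q, hq, rfl⟩ := hp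
            rw [Finset.mem_filter, Finset.mem_product] at hq
            obtain ⟨⟨hq1, hq2⟩, hn⟩ := hq
            rw [NearSetS, Finset.mem_filter, Finset.mem_product, Finset.mem_product]
            refine ⟨⟨(Finset.mem_product.mp hq1).2, (Finset.mem_product.mp hq2).2, ?_⟩, ?_⟩
            · refine mem_box2.mpr ⟨?_, ?_, ?_, ?_⟩
              · simp only [hG]; positivity
              · simp only [hG]; exact_mod_cast ZMod.val_lt _
              · simp only [hG]; positivity
              · simp only [hG]; exact_mod_cast ZMod.val_lt _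
            · have h7 : ∀ o, near m J ((q.1.1.val : ℤ) * VV n k q.1.2 o - (q.2.1.val : ℤ) * VV n k q.2.2 o) := by
                intro o
                apply near_of_nearZ (m := m)
                have := hn o
                simp only [hv] at this
                push_cast
                rw [ZMod.natCast_zmod_val, ZMod.natCast_zmod_val]
                exact this
              choose w hw using h7
              exact ⟨w, hw⟩
          · intro p _ _
            exact mul_nonneg (by positivity) (mul_nonneg (psiN_nonneg _ _ _ _) (psiN_nonneg _ _ _ _))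
      _ = _ := by rw [← Finset.mul_sum]
  calc _ ≤ (2 : ℝ) ^ (r + 1) * ((m / J : ℝ) ^ (r + 1) * ((1 / (m : ℝ) ^ 2) *
        ∑ p ∈ NearSetS k r n m J T', psiN m K L p.2.2.1 * psiN m K L p.2.2.2)) := by
        apply mul_le_mul_of_nonneg_left _ (by positivity)
        apply mul_le_mul_of_nonneg_left h6 (by positivity)
    _ = _ := by ring

end Pool.Agent.H888.DH
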