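import Pool.Agent.H888.WA.V5
import Pool.Agent.H888.DH.Var5

set_option linter.unusedVariables false
set_option linter.unusedSectionVars false
set_option linter.style.haveILetI false

namespace Pool.Agent.H888.DH

open Finset Complex

section
variable {P : Par} {n₀ π jj : ℕ}

theorem sum_NearS (P : Par) (π : ℕ) (T' : Finset (Fin P.r → ℤ)) (hT' : T' ⊆ P.T1 π) :
    ∑ p ∈ NearSetS P.k P.r P.n P.m P.J T', psiN P.m P.K P.L p.2.2.1 * psiN P.m P.K P.L p.2.2.2 ≤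
      4 * ((R3set P.k P.r P.n P.m P.J P.B P.B0 P.R).card : ℝ) +
        ∑ x ∈ P.T1 π, ∑ y ∈ P.T1 π, P.ExS x y := by
  classical
  set NS := NearSetS P.k P.r P.n P.m P.J T' with hNS
  set RS := R3set P.k P.r P.n P.m P.J P.B P.B0 P.R with hRS
  set F : ((Fin P.r → ℤ) × (Fin P.r → ℤ) × (ℤ × ℤ)) → ℝ :=
    fun p => psiN P.m P.K P.L p.2.2.1 * psiN P.m P.K P.L p.2.2.2 with hF
  have hF0 : ∀ p, 0 ≤ F p := fun p => mul_nonneg (psiN_nonneg _ _ _ _) (psiN_nonneg _ _ _ _)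
  have hF4 : ∀ p, F p ≤ 4 := by
    intro p
    calc _ ≤ (2 : ℝ) * 2 := mul_le_mul (psiN_le_two _ _ _ _) (psiN_le_two _ _ _ _)
          (psiN_nonneg _ _ _ _) (by norm_num)
      _ = 4 := by norm_num
  rw [← Finset.sum_filter_add_sum_filter_not NS (fun p => p ∈ RS)]
  apply add_le_add
  · calc ∑ p ∈ NS.filter (fun p => p ∈ RS), F p ≤ (NS.filter (fun p => p ∈ RS)).card • (4 : ℝ) :=
          Finset.sum_le_card_nsmul _ _ _ (fun p _ => hF4 p)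
      _ = ((NS.filter (fun p => p ∈ RS)).card : ℝ) * 4 := by rw [nsmul_eq_mul]
      _ ≤ (RS.card : ℝ) * 4 := by
          apply mul_le_mul_of_nonneg_right _ (by norm_num)
          have : NS.filter (fun p => p ∈ RS) ⊆ RS := fun p hp => (Finset.mem_filter.mp hp).2
          exact_mod_cast Finset.card_le_card this
      _ = _ := by ring
  · have hsub : NS.filter (fun p => ¬ p ∈ RS) ⊆ (P.T1 π ×ˢ P.T1 π ×ˢ (box2 P.m)).filter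
        (fun p => p.2.2 ∈ P.Ex p.1 p.2.1) := by
      intro p hp
      rw [Finset.mem_filter] at hp
      have hp1 := hp.1
      rw [hNS, NearSetS, Finset.mem_filter, Finset.mem_product, Finset.mem_product] at hp1
      have m1 := hT' hp1.1.1
      have m2 := hT' hp1.1.2.1
      rw [Finset.mem_filter, Finset.mem_product, Finset.mem_product]
      refine ⟨⟨m1, m2, hp1.1.2.2⟩, ?_⟩
      rw [Par.Ex, Finset.mem_filter]
      refine ⟨hp1.1.2.2, ?_, hp.2⟩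
      rw [NearSet, Finset.mem_filter, Finset.mem_product, Finset.mem_product]
      exact ⟨⟨(Par.mem_T1.mp m1).1, (Par.mem_T1.mp m2).1, hp1.1.2.2⟩, hp1.2⟩
    refine (Finset.sum_le_sum_of_subset_of_nonneg hsub (fun p _ _ => hF0 p)).trans ?_
    rw [Finset.sum_filter, Finset.sum_product]
    apply Finset.sum_le_sum
    intro x _
    rw [Finset.sum_product]
    apply Finset.sum_le_sum
    intro y _
    unfold Par.ExS
    rw [← Finset.sum_filter]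
    apply le_of_eq
    apply Finset.sum_congr _ (fun _ _ => rfl)
    ext z
    rw [Finset.mem_filter]
    constructor
    · intro h; exact h.2
    · intro h
      exact ⟨(P.mem_Ex h).2.2.1, h⟩

/-- Bound for fixed `x`. -/
noncomputable def Ex0 (P : Par) (n₀ jj : ℕ) (β₀ τ Dl : ℝ) : ℝ :=
  36 * ((n₀ ^ P.k : ℕ) : ℝ) * P.C0 ^ P.k * P.m * P.J / P.B ^ P.k +
      P.r * ((2 * P.C0 * P.R) * C2P P n₀) + P.r ^ 2 * (
        ((P.B : ℝ) ^ 2 * (C2P P n₀ * P.G * (3 ^ P.r * P.C0 ^ (6 * P.k + P.r) *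
        (P.η ^ 2 * P.B ^ P.r / P.B ^ (2 * P.k + 2) + P.B ^ 2 / P.B ^ (2 * P.k))))) +
        (2 * C2P P n₀ * (4 ^ P.r * P.C0 ^ (2 * P.k + P.r))) *
        (2 * P.B ^ P.r * τ / P.B ^ (2 * P.k) + P.B ^ 3 * (β₀ ^ 2 * (P.k * jj + 1)) / P.B ^ P.k) +
        C2P P n₀ * ((P.B * (β₀ * (P.k * jj + 1))) * (2 ^ P.r * β₀) / Dl))

theorem sum_Ex2 (hP : P.Ok2 n₀ π jj) (β₀ τ : ℝ) (Dl : ℕ) (hDl : 1 ≤ Dl)
    (hβ : ∀ q : ℕ, 1 ≤ q → q ≤ P.B ^ (2 * P.k) → (beta P.k q : ℝ) ^ P.r ≤ β₀)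
    (hτ : ∀ S : Finset (ℕ × ℕ), (∀ s ∈ S, 1 ≤ s.1 ∧ P.G < s.1 * π ^ s.2) →
      ∑ s ∈ S, Fτ P.k P.r π s ≤ τ)
    (x : Fin P.r → ℤ) (hx : x ∈ P.T1 π) :
    ∑ y ∈ P.T1 π, P.ExS x y ≤ Ex0 P n₀ jj β₀ τ Dl +
      C2P P n₀ * ∑ lq : Fin P.r × Fin P.r, ((Y3s P π jj Dl x lq.1 lq.2).card : ℝ) := by
  classical
  set U : Finset (Fin P.r) := Finset.univ
  have hsub : P.T1 π ⊆ ({x} ∪ U.biUnion (fun l0 => Yp2 P π x l0)) ∪
      (U ×ˢ U).biUnion (fun lq => Yb2 P π x lq.1 lq.2) := by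
    intro y hy
    by_cases hxy : x = y
    · rw [Finset.mem_union, Finset.mem_union]; left; left
      rw [Finset.mem_singleton]; exact hxy.symm
    · obtain ⟨l0, hl0⟩ := Function.ne_iff.mp hxy
      by_cases hpar : ∀ l, x l0 * y l = x l * y l0
      · rw [Finset.mem_union, Finset.mem_union]; left; right
        rw [Finset.mem_biUnion]
        exact ⟨l0, Finset.mem_univ _, mem_Yp2.mpr ⟨hy, hl0, hpar⟩⟩
      · rw [Finset.mem_union]; right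
        push Not at hpar
        obtain ⟨l1, hl1⟩ := hpar
        haveI : Nonempty (Fin P.r) := ⟨l0⟩
        obtain ⟨q, hq⟩ := Finite.exists_max (fun l => |x l0 * y l - x l * y l0|)
        rw [Finset.mem_biUnion]
        refine ⟨(l0, q), Finset.mem_product.mpr ⟨Finset.mem_univ _, Finset.mem_univ _⟩,
          mem_Yb2.mpr ⟨hy, hl0, ?_, hq⟩⟩
        intro h0
        have h1 : |x l0 * y l1 - x l1 * y l0| ≤ |x l0 * y q - x q * y l0| := hq l1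
        rw [h0, abs_zero] at h1
        have := abs_nonpos_iff.mp h1
        exact hl1 (by linarith)
  have hnn : ∀ y, 0 ≤ P.ExS x y := fun y => P.ExS_nonneg x y
  have hU : (U.card : ℝ) = P.r := by simp [U]
  have hUnion : ∀ (A B : Finset (Fin P.r → ℤ)), ∑ y ∈ A ∪ B, P.ExS x y ≤
      ∑ y ∈ A, P.ExS x y + ∑ y ∈ B, P.ExS x y := by
    intro A B
    rw [← Finset.sum_union_inter]
    have : 0 ≤ ∑ y ∈ A ∩ B, P.ExS x y := Finset.sum_nonneg (fun y _ => hnn y)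
    linarith
  have hbi : ∀ {ι : Type} [DecidableEq ι] (s : Finset ι) (t : ι → Finset (Fin P.r → ℤ)) (b : ι → ℝ),
      (∀ i ∈ s, ∑ y ∈ t i, P.ExS x y ≤ b i) → ∑ y ∈ s.biUnion t, P.ExS x y ≤ ∑ i ∈ s, b i := by
    intro ι _ s t b h
    induction s using Finset.induction_on with
    | empty => simp
    | insert a s ha ih =>
      rw [Finset.biUnion_insert, Finset.sum_insert ha]
      refine (hUnion _ _).trans ?_
      exact add_le_add (h a (Finset.mem_insert_self a s))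
        (ih (fun i hi => h i (Finset.mem_insert_of_mem hi)))
  set b0 : ℝ := ((P.B : ℝ) ^ 2 * (C2P P n₀ * P.G * (3 ^ P.r * P.C0 ^ (6 * P.k + P.r) *
        (P.η ^ 2 * P.B ^ P.r / P.B ^ (2 * P.k + 2) + P.B ^ 2 / P.B ^ (2 * P.k))))) +
        (2 * C2P P n₀ * (4 ^ P.r * P.C0 ^ (2 * P.k + P.r))) *
        (2 * P.B ^ P.r * τ / P.B ^ (2 * P.k) + P.B ^ 3 * (β₀ ^ 2 * (P.k * jj + 1)) / P.B ^ P.k) +
        C2P P n₀ * ((P.B * (β₀ * (P.k * jj + 1))) * (2 ^ P.r * β₀) / Dl) with hb0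
  calc ∑ y ∈ P.T1 π, P.ExS x y ≤ ∑ y ∈ ({x} ∪ U.biUnion (fun l0 => Yp2 P π x l0)) ∪
      (U ×ˢ U).biUnion (fun lq => Yb2 P π x lq.1 lq.2), P.ExS x y :=
        Finset.sum_le_sum_of_subset_of_nonneg hsub (fun y _ _ => hnn y)
    _ ≤ (∑ y ∈ {x}, P.ExS x y + ∑ y ∈ U.biUnion (fun l0 => Yp2 P π x l0), P.ExS x y) +
        ∑ y ∈ (U ×ˢ U).biUnion (fun lq => Yb2 P π x lq.1 lq.2), P.ExS x y := by
        refine (hUnion _ _).trans ?_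
        have := hUnion {x} (U.biUnion (fun l0 => Yp2 P π x l0))
        linarith
    _ ≤ (36 * ((n₀ ^ P.k : ℕ) : ℝ) * P.C0 ^ P.k * P.m * P.J / P.B ^ P.k +
          P.r * ((2 * P.C0 * P.R) * C2P P n₀)) +
        ∑ lq ∈ U ×ˢ U, (b0 + C2P P n₀ * ((Y3s P π jj Dl x lq.1 lq.2).card : ℝ)) := by
        apply add_le_add
        · apply add_le_add
          · rw [Finset.sum_singleton]; exact Ediag' hP x hx
          · have := hbi U (fun l0 => Yp2 P π x l0) _ (fun l0 _ => E3' hP x hx l0)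
            rwa [Finset.sum_const, nsmul_eq_mul, hU] at this
        · apply hbi (U ×ˢ U) (fun lq => Yb2 P π x lq.1 lq.2)
          intro lq _
          have e1 := E1' hP x hx lq.1 lq.2
          have e2 := E2a hP β₀ τ hβ hτ x hx lq.1 lq.2
          have e3 := E2b hP β₀ Dl hDl hβ x hx lq.1 lq.2
          rw [← Finset.sum_filter_add_sum_filter_not (Yb2 P π x lq.1 lq.2)
            (fun y => gG P.k (π ^ jj) x y ≤ P.G)]
          have hsplit : ∑ y ∈ (Yb2 P π x lq.1 lq.2).filter (fun y => ¬ gG P.k (π ^ jj) x y ≤ P.G), P.ExS x y ≤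
              ∑ y ∈ (Yb2 P π x lq.1 lq.2).filter (fun y => P.G < gG P.k (π ^ jj) x y ∧
                gG P.k (π ^ jj) x y ≤ P.B ^ P.k), P.ExS x y +
              ∑ y ∈ Y2s P π jj x lq.1 lq.2, P.ExS x y := by
            refine le_trans (Finset.sum_le_sum_of_subset_of_nonneg ?_ (fun y _ _ => hnn y)) (hUnion _ _)
            intro y hy
            rw [Finset.mem_filter, not_le] at hy
            rw [Finset.mem_union]
            by_cases h : gG P.k (π ^ jj) x y ≤ P.B ^ P.k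
            · left; rw [Finset.mem_filter]; exact ⟨hy.1, hy.2, h⟩
            · right; rw [Y2s, Finset.mem_filter]; exact ⟨hy.1, not_le.mp h⟩
          rw [hb0]
          linarith
    _ = _ := by
        rw [Finset.sum_add_distrib, Finset.sum_const, Finset.card_product, nsmul_eq_mul,
          ← Finset.mul_sum]
        unfold Ex0
        rw [hb0]
        have : (U ×ˢ U) = (Finset.univ : Finset (Fin P.r × Fin P.r)) := Finset.univ_product_univ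
        rw [this]
        push_cast
        rw [hU]
        ring

/-- The error quantity. -/
noncomputable def Err2 (P : Par) (n₀ jj : ℕ) (β₀ τ Dl : ℝ) : ℝ :=
  54 * P.r ^ 2 * 2 ^ P.r * β₀ * (P.R : ℝ) ^ (P.r + P.k * P.r ^ 2 + 1) / P.B +
  324 * ((n₀ ^ P.k : ℕ) : ℝ) * P.C0 ^ P.k * P.cA / P.R +
  (1500 * ((n₀ ^ P.k : ℕ) : ℝ) ^ 3 * P.C0 ^ P.k) *
    (P.r ^ 2 * P.G * 3 ^ P.r * P.C0 ^ (6 * P.k + P.r) * (P.η ^ 2 + 1 / P.B) +
      2 * P.r ^ 2 * 4 ^ P.r * P.C0 ^ (2 * P.k + P.r) * (2 * τ + β₀ ^ 2 * (P.k * jj + 1) / P.B) +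
      2 * P.r * P.C0 * P.R / P.B +
      P.r ^ 2 * (β₀ ^ 2 * (P.k * jj + 1) * 2 ^ P.r / Dl) +
      P.r ^ 2 * ((3 * Dl) ^ (2 * P.r) / P.B ^ 4))

set_option maxHeartbeats 4000000 in
theorem sum_total2 (hP : P.Ok2 n₀ π jj) (β₀ τ : ℝ) (Dl : ℕ) (hDl : 1 ≤ Dl)
    (hβ : ∀ q : ℕ, 1 ≤ q → q ≤ P.B ^ (2 * P.k) → (beta P.k q : ℝ) ^ P.r ≤ β₀)
    (hτ : ∀ S : Finset (ℕ × ℕ), (∀ s ∈ S, 1 ≤ s.1 ∧ P.G < s.1 * π ^ s.2) →
      ∑ s ∈ S, Fτ P.k P.r π s ≤ τ)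
    (T' : Finset (Fin P.r → ℤ)) (hT' : T' ⊆ P.T1 π) :
    ∑ p ∈ NearSetS P.k P.r P.n P.m P.J T', psiN P.m P.K P.L p.2.2.1 * psiN P.m P.K P.L p.2.2.2 ≤
      (P.J : ℝ) ^ 2 * (P.B ^ (2 * P.r) / P.B ^ (2 * P.k)) * Err2 P n₀ jj β₀ τ Dl := by
  have hk := hP.hk
  have hr := hP.hr
  have hB : 1 ≤ P.B := hP.hB0.trans hP.hB0B
  have hBR : (1 : ℝ) ≤ P.B := by exact_mod_cast hB
  have hB' : (0 : ℝ) < P.B := by linarith
  have hJ : (0 : ℝ) < P.J := by exact_mod_cast hP.hJ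
  have hA : (0 : ℝ) < P.A := by exact_mod_cast hP.hA1
  have hm : (0 : ℝ) < P.m := by exact_mod_cast hP.hm.pos
  have hR : (1 : ℝ) ≤ P.R := by exact_mod_cast hP.hR
  have hR' : (0 : ℝ) < P.R := by linarith
  have hη := hP.hη
  have hDlR : (0 : ℝ) < Dl := by exact_mod_cast (by omega : 0 < Dl)
  have hβ0 : 1 ≤ β₀ := by
    have := hβ 1 le_rfl (Nat.one_le_pow _ _ hB)
    rw [beta_one] at this; simpa using this
  have hτ0 : 0 ≤ τ := by simpa using hτ ∅ (by simp)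
  have hB2 : P.B ^ (2 * P.k) ≤ P.J := hP.hJbig
  have hJm : P.J < P.m := by
    have h1 : 8 * P.J ≤ P.m := by
      calc 8 * P.J ≤ 8 * P.A * P.J := by
            apply Nat.mul_le_mul_right; have := hP.hA1; omega
        _ ≤ P.m := hP.h8
    have := hP.hJ
    omega
  set X : ℝ := (P.B : ℝ) ^ (2 * P.r) / P.B ^ (2 * P.k) with hX
  have hX0 : 0 < X := by positivity
  -- R3
  have hA2 : P.A ≤ P.B ^ (2 * P.k) := by
    calc P.A ≤ P.B * P.B ^ P.k := hP.hA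
      _ = P.B ^ (P.k + 1) := by rw [pow_succ]; ring
      _ ≤ P.B ^ (2 * P.k) := Nat.pow_le_pow_right hB (by omega)
  have hβ' : ∀ q : ℕ, 1 ≤ q → q ≤ P.B ^ P.k → (beta P.k q : ℝ) ^ P.r ≤ β₀ := by
    intro q h1 h2
    exact hβ q h1 (h2.trans (Nat.pow_le_pow_right hB (by omega)))
  have hR3 := card_R3set_le P.k P.r P.n P.m P.J P.A P.B P.B0 P.R (by omega) hP.hm hP.hJ hP.hA1 hP.hB0 hB
    hP.hR hP.hnB hP.h8 hP.h4 hA2 hP.hA hP.hAR hB2 (lt_of_le_of_lt hB2 hJm) β₀ hβ'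
  have hJm8 : (P.J : ℝ) / P.m ≤ P.R / (8 * (P.B * (P.B : ℝ) ^ P.k)) := by
    rw [div_le_div_iff₀ hm (by positivity)]
    have e1 : 8 * (P.A : ℝ) * P.J ≤ P.m := by exact_mod_cast hP.h8
    have e2 : (P.B : ℝ) * (P.B : ℝ) ^ P.k ≤ P.A * P.R := by exact_mod_cast hP.hAR
    calc (P.J : ℝ) * (8 * (P.B * (P.B : ℝ) ^ P.k)) ≤ P.J * (8 * (P.A * P.R)) := by gcongr
      _ = P.R * (8 * P.A * P.J) := by ring
      _ ≤ P.R * P.m := by gcongr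
  have hpart1 : 4 * ((R3set P.k P.r P.n P.m P.J P.B P.B0 P.R).card : ℝ) ≤ (P.J : ℝ) ^ 2 * X *
      (54 * P.r ^ 2 * 2 ^ P.r * β₀ * (P.R : ℝ) ^ (P.r + P.k * P.r ^ 2 + 1) / P.B) := by
    calc 4 * ((R3set P.k P.r P.n P.m P.J P.B P.B0 P.R).card : ℝ)
        ≤ 4 * (2 * P.r ^ 2 * (((P.B : ℝ) ^ P.r * (P.B * P.B) * (54 * P.J ^ 3 / P.m)) *
        (β₀ * (2 ^ P.r * ((P.R : ℝ) ^ P.r * (P.R : ℝ) ^ (P.k * P.r ^ 2) * P.B))))) := by gcongr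
      _ = (8 * 54 * P.r ^ 2 * 2 ^ P.r * β₀ * P.J ^ 2 * ((P.R : ℝ) ^ P.r * (P.R : ℝ) ^ (P.k * P.r ^ 2)) *
            ((P.B : ℝ) ^ P.r * (P.B * P.B * P.B))) * (P.J / P.m) := by ring
      _ ≤ (8 * 54 * P.r ^ 2 * 2 ^ P.r * β₀ * P.J ^ 2 * ((P.R : ℝ) ^ P.r * (P.R : ℝ) ^ (P.k * P.r ^ 2)) *
            ((P.B : ℝ) ^ P.r * (P.B * P.B * P.B))) * (P.R / (8 * (P.B * (P.B : ℝ) ^ P.k))) := by gcongr
      _ = (54 * P.r ^ 2 * 2 ^ P.r * β₀ * P.J ^ 2 * (P.R : ℝ) ^ (P.r + P.k * P.r ^ 2 + 1)) *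
            ((P.B : ℝ) ^ (P.r + 3) / (P.B : ℝ) ^ (P.k + 1)) := by
          rw [pow_add (P.R : ℝ), pow_add (P.R : ℝ), pow_add (P.B : ℝ), pow_add (P.B : ℝ)]
          field_simp
          try ring
      _ ≤ (54 * P.r ^ 2 * 2 ^ P.r * β₀ * P.J ^ 2 * (P.R : ℝ) ^ (P.r + P.k * P.r ^ 2 + 1)) *
            ((P.B : ℝ) ^ (2 * P.r) / (P.B : ℝ) ^ (2 * P.k + 1)) := by
          apply mul_le_mul_of_nonneg_left _ (by positivity)
          apply div_pow_le_aux hBR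
          omega
      _ = _ := by
          rw [hX, pow_succ (P.B : ℝ) (2 * P.k)]
          field_simp
  -- exact part
  have hT : ((P.T1 π).card : ℝ) ≤ (P.B : ℝ) ^ P.r := by
    have h1 : (P.T1 π).card ≤ (P.T).card := Finset.card_le_card (fun x hx => (Par.mem_T1.mp hx).1)
    have h2 : (P.T).card ≤ P.B ^ P.r := by exact_mod_cast card_Tset_le hP.hB0
    exact_mod_cast h1.trans h2
  have hcA := hP.hcA
  have hcA0 : 0 ≤ P.cA := by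
    by_contra hcon
    push Not at hcon
    have : P.cA * (P.B * (P.B : ℝ) ^ P.k) < 0 := mul_neg_of_neg_of_pos hcon (by positivity)
    have : (0 : ℝ) < P.A * P.R := by positivity
    linarith
  have hC1 := C2P_nonneg P n₀
  have hEx0 : 0 ≤ Ex0 P n₀ jj β₀ τ Dl := by unfold Ex0; positivity
  have hpart2 : ∑ x ∈ P.T1 π, ∑ y ∈ P.T1 π, P.ExS x y ≤ (P.B : ℝ) ^ P.r * Ex0 P n₀ jj β₀ τ Dl +
      C2P P n₀ * (P.r ^ 2 * ((P.B : ℝ) ^ 4 * (3 * Dl) ^ (2 * P.r))) := by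
    calc _ ≤ ∑ x ∈ P.T1 π, (Ex0 P n₀ jj β₀ τ Dl +
          C2P P n₀ * ∑ lq : Fin P.r × Fin P.r, ((Y3s P π jj Dl x lq.1 lq.2).card : ℝ)) :=
          Finset.sum_le_sum (fun x hx => sum_Ex2 hP β₀ τ Dl hDl hβ hτ x hx)
      _ = ((P.T1 π).card : ℝ) * Ex0 P n₀ jj β₀ τ Dl + C2P P n₀ *
          ∑ lq : Fin P.r × Fin P.r, ∑ x ∈ P.T1 π, ((Y3s P π jj Dl x lq.1 lq.2).card : ℝ) := by
          rw [Finset.sum_add_distrib, Finset.sum_const, nsmul_eq_mul, ← Finset.mul_sum, Finset.sum_comm]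
      _ ≤ (P.B : ℝ) ^ P.r * Ex0 P n₀ jj β₀ τ Dl + C2P P n₀ *
          ∑ lq : Fin P.r × Fin P.r, ((P.B : ℝ) ^ 4 * (3 * Dl) ^ (2 * P.r)) := by
          apply add_le_add
          · exact mul_le_mul_of_nonneg_right hT hEx0
          · apply mul_le_mul_of_nonneg_left _ hC1
            exact Finset.sum_le_sum (fun lq _ => sum_Y3s hP Dl hDl lq.1 lq.2)
      _ = _ := by
          rw [Finset.sum_const, Finset.card_univ, Fintype.card_prod, Fintype.card_fin, nsmul_eq_mul]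
          push_cast
          ring
  refine (sum_NearS P π T' hT').trans ?_
  refine (add_le_add hpart1 hpart2).trans ?_
  unfold Err2
  -- pieces of B^r * Ex
  have hm9 : (P.m : ℝ) ≤ 9 * P.A * P.J := by exact_mod_cast hP.h9
  have pA : (P.B : ℝ) ^ P.r * (36 * ((n₀ ^ P.k : ℕ) : ℝ) * P.C0 ^ P.k * P.m * P.J / P.B ^ P.k) ≤
      (P.J : ℝ) ^ 2 * X * (324 * ((n₀ ^ P.k : ℕ) : ℝ) * P.C0 ^ P.k * P.cA / P.R) := by
    have hAle : (P.A : ℝ) ≤ P.cA * (P.B * (P.B : ℝ) ^ P.k) / P.R := by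
      rw [le_div_iff₀ hR']; exact hcA
    calc (P.B : ℝ) ^ P.r * (36 * ((n₀ ^ P.k : ℕ) : ℝ) * P.C0 ^ P.k * P.m * P.J / P.B ^ P.k)
        ≤ (P.B : ℝ) ^ P.r * (36 * ((n₀ ^ P.k : ℕ) : ℝ) * P.C0 ^ P.k * (9 * P.A * P.J) * P.J / P.B ^ P.k) := by
          gcongr
      _ ≤ (P.B : ℝ) ^ P.r * (36 * ((n₀ ^ P.k : ℕ) : ℝ) * P.C0 ^ P.k *
            (9 * (P.cA * (P.B * (P.B : ℝ) ^ P.k) / P.R) * P.J) * P.J / P.B ^ P.k) := by
          gcongr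
      _ = ((P.J : ℝ) ^ 2 * (324 * ((n₀ ^ P.k : ℕ) : ℝ) * P.C0 ^ P.k * P.cA / P.R)) *
            ((P.B : ℝ) ^ (P.r + 1) / (P.B : ℝ) ^ 0) := by
          rw [pow_succ, pow_zero]
          field_simp
          ring
      _ ≤ ((P.J : ℝ) ^ 2 * (324 * ((n₀ ^ P.k : ℕ) : ℝ) * P.C0 ^ P.k * P.cA / P.R)) *
            ((P.B : ℝ) ^ (2 * P.r) / (P.B : ℝ) ^ (2 * P.k)) := by
          apply mul_le_mul_of_nonneg_left _ (by positivity)
          apply div_pow_le_aux hBR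
          omega
      _ = _ := by rw [hX]; ring
  have pB : (P.B : ℝ) ^ P.r * (P.r * ((2 * P.C0 * P.R) * C2P P n₀)) ≤
      (P.J : ℝ) ^ 2 * X * ((1500 * ((n₀ ^ P.k : ℕ) : ℝ) ^ 3 * P.C0 ^ P.k) * (2 * P.r * P.C0 * P.R / P.B)) := by
    calc (P.B : ℝ) ^ P.r * (P.r * ((2 * P.C0 * P.R) * C2P P n₀))
        = ((P.J : ℝ) ^ 2 * ((1500 * ((n₀ ^ P.k : ℕ) : ℝ) ^ 3 * P.C0 ^ P.k) * (2 * P.r * P.C0 * P.R))) *
            ((P.B : ℝ) ^ P.r / (P.B : ℝ) ^ 0) := by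
          unfold C2P; rw [pow_zero]; ring
      _ ≤ ((P.J : ℝ) ^ 2 * ((1500 * ((n₀ ^ P.k : ℕ) : ℝ) ^ 3 * P.C0 ^ P.k) * (2 * P.r * P.C0 * P.R))) *
            ((P.B : ℝ) ^ (2 * P.r) / (P.B : ℝ) ^ (2 * P.k + 1)) := by
          apply mul_le_mul_of_nonneg_left _ (by positivity)
          apply div_pow_le_aux hBR
          omega
      _ = _ := by
          rw [hX, pow_succ (P.B : ℝ) (2 * P.k)]
          field_simp
  have pC : (P.B : ℝ) ^ P.r * (P.r ^ 2 * ((P.B : ℝ) ^ 2 * (C2P P n₀ * P.G * (3 ^ P.r * P.C0 ^ (6 * P.k + P.r) *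
        (P.η ^ 2 * P.B ^ P.r / P.B ^ (2 * P.k + 2) + P.B ^ 2 / P.B ^ (2 * P.k)))))) ≤
      (P.J : ℝ) ^ 2 * X * ((1500 * ((n₀ ^ P.k : ℕ) : ℝ) ^ 3 * P.C0 ^ P.k) *
        (P.r ^ 2 * P.G * 3 ^ P.r * P.C0 ^ (6 * P.k + P.r) * (P.η ^ 2 + 1 / P.B))) := by
    calc (P.B : ℝ) ^ P.r * (P.r ^ 2 * ((P.B : ℝ) ^ 2 * (C2P P n₀ * P.G * (3 ^ P.r * P.C0 ^ (6 * P.k + P.r) *
        (P.η ^ 2 * P.B ^ P.r / P.B ^ (2 * P.k + 2) + P.B ^ 2 / P.B ^ (2 * P.k))))))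
        = (P.J : ℝ) ^ 2 * ((1500 * ((n₀ ^ P.k : ℕ) : ℝ) ^ 3 * P.C0 ^ P.k) *
            (P.r ^ 2 * P.G * 3 ^ P.r * P.C0 ^ (6 * P.k + P.r))) *
            (P.η ^ 2 * (P.B ^ (2 * P.r) / P.B ^ (2 * P.k)) + (P.B : ℝ) ^ (P.r + 4) / P.B ^ (2 * P.k)) := by
          unfold C2P
          rw [pow_add (P.B : ℝ) (2 * P.k) 2, pow_add (P.B : ℝ) P.r 4, two_mul P.r, pow_add (P.B : ℝ) P.r P.r]
          field_simp
      _ ≤ (P.J : ℝ) ^ 2 * ((1500 * ((n₀ ^ P.k : ℕ) : ℝ) ^ 3 * P.C0 ^ P.k) *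
            (P.r ^ 2 * P.G * 3 ^ P.r * P.C0 ^ (6 * P.k + P.r))) *
            (P.η ^ 2 * (P.B ^ (2 * P.r) / P.B ^ (2 * P.k)) + (P.B : ℝ) ^ (2 * P.r) / P.B ^ (2 * P.k + 1)) := by
          apply mul_le_mul_of_nonneg_left _ (by positivity)
          have := div_pow_le_aux hBR (a := P.r + 4) (b := 2 * P.k) (c := 2 * P.r) (d := 2 * P.k + 1) (by omega)
          linarith
      _ = _ := by
          rw [hX, pow_succ (P.B : ℝ) (2 * P.k)]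
          field_simp
  have pD : (P.B : ℝ) ^ P.r * (P.r ^ 2 * ((2 * C2P P n₀ * (4 ^ P.r * P.C0 ^ (2 * P.k + P.r))) *
        (2 * P.B ^ P.r * τ / P.B ^ (2 * P.k) + P.B ^ 3 * (β₀ ^ 2 * (P.k * jj + 1)) / P.B ^ P.k))) ≤
      (P.J : ℝ) ^ 2 * X * ((1500 * ((n₀ ^ P.k : ℕ) : ℝ) ^ 3 * P.C0 ^ P.k) *
        (2 * P.r ^ 2 * 4 ^ P.r * P.C0 ^ (2 * P.k + P.r) * (2 * τ + β₀ ^ 2 * (P.k * jj + 1) / P.B))) := by
    calc (P.B : ℝ) ^ P.r * (P.r ^ 2 * ((2 * C2P P n₀ * (4 ^ P.r * P.C0 ^ (2 * P.k + P.r))) *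
        (2 * P.B ^ P.r * τ / P.B ^ (2 * P.k) + P.B ^ 3 * (β₀ ^ 2 * (P.k * jj + 1)) / P.B ^ P.k)))
        = (P.J : ℝ) ^ 2 * ((1500 * ((n₀ ^ P.k : ℕ) : ℝ) ^ 3 * P.C0 ^ P.k) *
            (2 * P.r ^ 2 * 4 ^ P.r * P.C0 ^ (2 * P.k + P.r))) *
            (2 * τ * (P.B ^ (2 * P.r) / P.B ^ (2 * P.k)) + (β₀ ^ 2 * (P.k * jj + 1)) *
              ((P.B : ℝ) ^ (P.r + 3) / P.B ^ P.k)) := by
          unfold C2P
          rw [pow_add (P.B : ℝ) P.r 3, two_mul P.r, pow_add (P.B : ℝ) P.r P.r]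
          field_simp
      _ ≤ (P.J : ℝ) ^ 2 * ((1500 * ((n₀ ^ P.k : ℕ) : ℝ) ^ 3 * P.C0 ^ P.k) *
            (2 * P.r ^ 2 * 4 ^ P.r * P.C0 ^ (2 * P.k + P.r))) *
            (2 * τ * (P.B ^ (2 * P.r) / P.B ^ (2 * P.k)) + (β₀ ^ 2 * (P.k * jj + 1)) *
              ((P.B : ℝ) ^ (2 * P.r) / P.B ^ (2 * P.k + 1))) := by
          apply mul_le_mul_of_nonneg_left _ (by positivity)
          have := div_pow_le_aux hBR (a := P.r + 3) (b := P.k) (c := 2 * P.r) (d := 2 * P.k + 1) (by omega)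
          have h2 : 0 ≤ β₀ ^ 2 * (P.k * jj + 1) := by positivity
          have := mul_le_mul_of_nonneg_left this h2
          linarith
      _ = _ := by
          rw [hX, pow_succ (P.B : ℝ) (2 * P.k)]
          field_simp
  have pE : (P.B : ℝ) ^ P.r * (P.r ^ 2 * (C2P P n₀ * ((P.B * (β₀ * (P.k * jj + 1))) *
        (2 ^ P.r * β₀) / Dl))) ≤
      (P.J : ℝ) ^ 2 * X * ((1500 * ((n₀ ^ P.k : ℕ) : ℝ) ^ 3 * P.C0 ^ P.k) *
        (P.r ^ 2 * (β₀ ^ 2 * (P.k * jj + 1) * 2 ^ P.r / Dl))) := by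
    calc (P.B : ℝ) ^ P.r * (P.r ^ 2 * (C2P P n₀ * ((P.B * (β₀ * (P.k * jj + 1))) *
        (2 ^ P.r * β₀) / Dl)))
        = ((P.J : ℝ) ^ 2 * ((1500 * ((n₀ ^ P.k : ℕ) : ℝ) ^ 3 * P.C0 ^ P.k) *
        (P.r ^ 2 * (β₀ ^ 2 * (P.k * jj + 1) * 2 ^ P.r / Dl)))) * ((P.B : ℝ) ^ (P.r + 1) / P.B ^ 0) := by
          unfold C2P
          rw [pow_zero, pow_succ]
          ring
      _ ≤ ((P.J : ℝ) ^ 2 * ((1500 * ((n₀ ^ P.k : ℕ) : ℝ) ^ 3 * P.C0 ^ P.k) *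
        (P.r ^ 2 * (β₀ ^ 2 * (P.k * jj + 1) * 2 ^ P.r / Dl)))) *
            ((P.B : ℝ) ^ (2 * P.r) / (P.B : ℝ) ^ (2 * P.k)) := by
          apply mul_le_mul_of_nonneg_left _ (by positivity)
          apply div_pow_le_aux hBR
          omega
      _ = _ := by rw [hX]; ring
  have pF : C2P P n₀ * (P.r ^ 2 * ((P.B : ℝ) ^ 4 * (3 * Dl) ^ (2 * P.r))) ≤
      (P.J : ℝ) ^ 2 * X * ((1500 * ((n₀ ^ P.k : ℕ) : ℝ) ^ 3 * P.C0 ^ P.k) *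
        (P.r ^ 2 * ((3 * Dl) ^ (2 * P.r) / P.B ^ 4))) := by
    calc C2P P n₀ * (P.r ^ 2 * ((P.B : ℝ) ^ 4 * (3 * Dl) ^ (2 * P.r)))
        = ((P.J : ℝ) ^ 2 * ((1500 * ((n₀ ^ P.k : ℕ) : ℝ) ^ 3 * P.C0 ^ P.k) *
            (P.r ^ 2 * (3 * Dl) ^ (2 * P.r)))) * ((P.B : ℝ) ^ 4 / P.B ^ 0) := by
          unfold C2P; rw [pow_zero]; ring
      _ ≤ ((P.J : ℝ) ^ 2 * ((1500 * ((n₀ ^ P.k : ℕ) : ℝ) ^ 3 * P.C0 ^ P.k) *
            (P.r ^ 2 * (3 * Dl) ^ (2 * P.r)))) * ((P.B : ℝ) ^ (2 * P.r) / P.B ^ (2 * P.k + 4)) := by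
          apply mul_le_mul_of_nonneg_left _ (by positivity)
          apply div_pow_le_aux hBR
          omega
      _ = _ := by
          rw [hX, pow_add (P.B : ℝ) (2 * P.k) 4]
          field_simp
  unfold Ex0
  have hdist : (P.B : ℝ) ^ P.r * (36 * ((n₀ ^ P.k : ℕ) : ℝ) * P.C0 ^ P.k * P.m * P.J / P.B ^ P.k +
      P.r * ((2 * P.C0 * P.R) * C2P P n₀) + P.r ^ 2 * (
        ((P.B : ℝ) ^ 2 * (C2P P n₀ * P.G * (3 ^ P.r * P.C0 ^ (6 * P.k + P.r) *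
        (P.η ^ 2 * P.B ^ P.r / P.B ^ (2 * P.k + 2) + P.B ^ 2 / P.B ^ (2 * P.k))))) +
        (2 * C2P P n₀ * (4 ^ P.r * P.C0 ^ (2 * P.k + P.r))) *
        (2 * P.B ^ P.r * τ / P.B ^ (2 * P.k) + P.B ^ 3 * (β₀ ^ 2 * (P.k * jj + 1)) / P.B ^ P.k) +
        C2P P n₀ * ((P.B * (β₀ * (P.k * jj + 1))) * (2 ^ P.r * β₀) / Dl))) =
      (P.B : ℝ) ^ P.r * (36 * ((n₀ ^ P.k : ℕ) : ℝ) * P.C0 ^ P.k * P.m * P.J / P.B ^ P.k) +
      (P.B : ℝ) ^ P.r * (P.r * ((2 * P.C0 * P.R) * C2P P n₀)) +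
      (P.B : ℝ) ^ P.r * (P.r ^ 2 * ((P.B : ℝ) ^ 2 * (C2P P n₀ * P.G * (3 ^ P.r * P.C0 ^ (6 * P.k + P.r) *
        (P.η ^ 2 * P.B ^ P.r / P.B ^ (2 * P.k + 2) + P.B ^ 2 / P.B ^ (2 * P.k)))))) +
      (P.B : ℝ) ^ P.r * (P.r ^ 2 * ((2 * C2P P n₀ * (4 ^ P.r * P.C0 ^ (2 * P.k + P.r))) *
        (2 * P.B ^ P.r * τ / P.B ^ (2 * P.k) + P.B ^ 3 * (β₀ ^ 2 * (P.k * jj + 1)) / P.B ^ P.k))) +
      (P.B : ℝ) ^ P.r * (P.r ^ 2 * (C2P P n₀ * ((P.B * (β₀ * (P.k * jj + 1))) * (2 ^ P.r * β₀) / Dl))) := by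
    ring
  rw [hdist]
  have htot := add_le_add (add_le_add (add_le_add (add_le_add (add_le_add pA pB) pC) pD) pE) pF
  refine (add_le_add_right htot _).trans (le_of_eq ?_)
  ring

/-- **Second moment bound.** -/
theorem second_moment2 (hP : P.Ok2 n₀ π jj) (β₀ τ : ℝ) (Dl : ℕ) (hDl : 1 ≤ Dl)
    (hβ : ∀ q : ℕ, 1 ≤ q → q ≤ P.B ^ (2 * P.k) → (beta P.k q : ℝ) ^ P.r ≤ β₀)
    (hτ : ∀ S : Finset (ℕ × ℕ), (∀ s ∈ S, 1 ≤ s.1 ∧ P.G < s.1 * π ^ s.2) →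
      ∑ s ∈ S, Fτ P.k P.r π s ≤ τ)
    (T' : Finset (Fin P.r → ℤ)) (hT' : T' ⊆ P.T1 π)
    (hmbig : ∀ a ∈ boxA (P.r + 1) P.A, ∀ x ∈ T', |dot a (VV P.n P.k x)| + P.K * P.L < P.m) :
    ∑ a ∈ boxA (P.r + 1) P.A, (DDs P.k P.r P.n P.K P.L T' a) ^ 2 ≤
      18 ^ (P.r + 1) * (P.A : ℝ) ^ (P.r + 1) * (P.B ^ P.r / (P.A * P.B ^ P.k)) ^ 2 *
        Err2 P n₀ jj β₀ τ Dl := by
  have hk := hP.hk
  have hr := hP.hr
  have hB : 1 ≤ P.B := hP.hB0.trans hP.hB0B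
  have hBR : (1 : ℝ) ≤ P.B := by exact_mod_cast hB
  have hB' : (0 : ℝ) < P.B := by linarith
  have hJ : (0 : ℝ) < P.J := by exact_mod_cast hP.hJ
  have hA : (0 : ℝ) < P.A := by exact_mod_cast hP.hA1
  have hm : (0 : ℝ) < P.m := by exact_mod_cast hP.hm.pos
  have h8J : 8 * P.J ≤ P.m := by
    calc 8 * P.J ≤ 8 * P.A * P.J := by
          apply Nat.mul_le_mul_right; have := hP.hA1; omega
      _ ≤ P.m := hP.h8
  have h2A : 2 * P.A < P.m := by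
    have h1 := hP.h8
    have h2 := hP.hJ
    have h3 := hP.hA1
    have : 8 * P.A ≤ 8 * P.A * P.J := Nat.le_mul_of_pos_right _ h2
    omega
  have h1 := second_moment_DDs P.k P.r P.n P.K P.L P.m P.J P.A T' hP.hm.pos hP.hJ
    (by have := hP.hJ; omega) hP.h8 h2A hmbig
  have h2 := sum_total2 hP β₀ τ Dl hDl hβ hτ T' hT'
  have hErr : 0 ≤ Err2 P n₀ jj β₀ τ Dl := by
    have h3 : 0 ≤ ∑ p ∈ NearSetS P.k P.r P.n P.m P.J T',
        psiN P.m P.K P.L p.2.2.1 * psiN P.m P.K P.L p.2.2.2 :=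
      Finset.sum_nonneg (fun p _ => mul_nonneg (psiN_nonneg _ _ _ _) (psiN_nonneg _ _ _ _))
    have h4 : 0 < (P.J : ℝ) ^ 2 * (P.B ^ (2 * P.r) / P.B ^ (2 * P.k)) := by positivity
    exact nonneg_of_mul_nonneg_right (h3.trans h2) h4
  have hm9 : (P.m : ℝ) ≤ 9 * P.A * P.J := by exact_mod_cast hP.h9
  have hmJ : (P.m : ℝ) / P.J ≤ 9 * P.A := by rw [div_le_iff₀ hJ]; exact hm9
  calc _ ≤ _ := h1
    _ ≤ (2 : ℝ) ^ (P.r + 1) * (P.m / P.J : ℝ) ^ (P.r + 1) * (1 / (P.m : ℝ) ^ 2) *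
        ((P.J : ℝ) ^ 2 * (P.B ^ (2 * P.r) / P.B ^ (2 * P.k)) * Err2 P n₀ jj β₀ τ Dl) := by gcongr
    _ = (2 : ℝ) ^ (P.r + 1) * (P.m / P.J : ℝ) ^ (P.r - 1) *
        ((P.B ^ (2 * P.r) / P.B ^ (2 * P.k)) * Err2 P n₀ jj β₀ τ Dl) := by
        have : (P.m / P.J : ℝ) ^ (P.r + 1) = (P.m / P.J : ℝ) ^ (P.r - 1) * (P.m / P.J) ^ 2 := by
          rw [← pow_add]; congr 1; omega
        rw [this]
        field_simp
    _ ≤ (2 : ℝ) ^ (P.r + 1) * (9 * P.A : ℝ) ^ (P.r - 1) *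
        ((P.B ^ (2 * P.r) / P.B ^ (2 * P.k)) * Err2 P n₀ jj β₀ τ Dl) := by gcongr
    _ ≤ 18 ^ (P.r + 1) * (P.A : ℝ) ^ (P.r - 1) *
        ((P.B ^ (2 * P.r) / P.B ^ (2 * P.k)) * Err2 P n₀ jj β₀ τ Dl) := by
        apply mul_le_mul_of_nonneg_right _ (by positivity)
        rw [mul_pow, ← mul_assoc]
        apply mul_le_mul_of_nonneg_right _ (by positivity)
        calc (2 : ℝ) ^ (P.r + 1) * 9 ^ (P.r - 1) ≤ 2 ^ (P.r + 1) * 9 ^ (P.r + 1) := by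
              apply mul_le_mul_of_nonneg_left _ (by positivity)
              exact pow_le_pow_right₀ (by norm_num) (by omega)
          _ = 18 ^ (P.r + 1) := by rw [← mul_pow]; norm_num
    _ = _ := by
        have e1 : (P.A : ℝ) ^ (P.r + 1) = (P.A : ℝ) ^ (P.r - 1) * (P.A : ℝ) ^ 2 := by
          rw [← pow_add]; congr 1; omega
        have e2 : (P.B : ℝ) ^ (2 * P.r) = ((P.B : ℝ) ^ P.r) ^ 2 := by rw [← pow_mul]; congr 1; ring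
        have e3 : (P.B : ℝ) ^ (2 * P.k) = ((P.B : ℝ) ^ P.k) ^ 2 := by rw [← pow_mul]; congr 1; ring
        rw [e1, e2, e3]
        field_simp

end

end Pool.Agent.H888.DH
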