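import Pool.Agent.H888.WA.V6
import Pool.Agent.H888.DH.PropA

set_option linter.unusedVariables false
set_option linter.unusedSectionVars false
set_option linter.style.haveILetI false

namespace Pool.Agent.H888.DH

open Finset

/-- Tail of the arithmetic series. -/
theorem exists_tail2 (k r π : ℕ) (hk : 3 ≤ k) (hr : 2 * k + 1 ≤ r) (hπ : 2 ≤ π) (ε : ℝ) (hε : 0 < ε) :
    ∃ G : ℕ, ∀ S : Finset (ℕ × ℕ), (∀ s ∈ S, 1 ≤ s.1 ∧ G < s.1 * π ^ s.2) →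
      ∑ s ∈ S, Fτ k r π s ≤ ε := by
  classical
  obtain ⟨C, hC0, hC⟩ := beta_bound k (4 * k * r)
  have hk' : (0 : ℝ) < k := by positivity
  have hk3 : (3 : ℝ) ≤ k := by exact_mod_cast hk
  set c : ℝ := (C : ℝ) ^ ((1 : ℝ) / (4 * k)) with hc
  have hc0 : 0 ≤ c := by positivity
  set ρ : ℝ := (2 : ℝ) ^ (-(1 / 2 : ℝ)) with hρ
  have hρ0 : 0 < ρ := by positivity
  have hρ1 : ρ < 1 := by
    rw [hρ]; exact Real.rpow_lt_one_of_one_lt_of_neg (by norm_num) (by norm_num)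
  set f : ℕ × ℕ → ℝ := Fτ k r π with hf
  have hnn : ∀ s, 0 ≤ f s := by
    intro s
    simp only [hf, Fτ]
    have h1 : 0 ≤ th k s.1 := by unfold th; positivity
    have h2 : 0 ≤ th k (s.1 * π ^ s.2) := by unfold th; positivity
    positivity
  have hbound : ∀ s : ℕ × ℕ, f s ≤ c * ((1 / (s.1 : ℝ) ^ ((1 : ℝ) + 3 / (4 * k))) * ρ ^ s.2) := by
    rintro ⟨g, e⟩
    rcases Nat.eq_zero_or_pos g with rfl | hg
    · have : f (0, e) = 0 := by simp [hf, Fτ]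
      rw [this]; positivity
    have hg' : (0 : ℝ) < g := by exact_mod_cast hg
    set w : ℕ := g * π ^ e with hw
    have hπ0 : 0 < π := by omega
    have hwpos : 0 < w := Nat.mul_pos hg (pow_pos hπ0 _)
    have hw' : (0 : ℝ) < w := by exact_mod_cast hwpos
    have hwR : (w : ℝ) = (g : ℝ) * (π : ℝ) ^ e := by rw [hw]; push_cast; ring
    -- beta^r ≤ c w^{1/(4k)}
    have h1 : ((beta k w : ℝ)) ^ r ≤ c * (w : ℝ) ^ ((1 : ℝ) / (4 * k)) := by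
      have e1 : ((beta k w : ℝ) ^ r) ^ (4 * k) ≤ C * w := by
        rw [← pow_mul, mul_comm r (4 * k)]
        exact_mod_cast hC w hwpos.ne'
      have e2 : (beta k w : ℝ) ^ r = (((beta k w : ℝ) ^ r) ^ (4 * k)) ^ ((1 : ℝ) / (4 * k)) := by
        rw [← Real.rpow_natCast ((beta k w : ℝ) ^ r) (4 * k), ← Real.rpow_mul (by positivity)]
        push_cast
        rw [mul_one_div_cancel (by positivity), Real.rpow_one]
      rw [e2, hc, ← Real.mul_rpow (by positivity) (by positivity)]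
      exact Real.rpow_le_rpow (by positivity) e1 (by positivity)
    have hth := th_ge_one k w hwpos
    have h2 : (w : ℝ) ^ (2 : ℝ) ≤ (th k w) ^ (r - 1) := by
      have e1 : (th k w) ^ (2 * k) = (w : ℝ) ^ (2 : ℝ) := by
        unfold th
        rw [← Real.rpow_natCast, ← Real.rpow_mul hw'.le]
        congr 1
        push_cast
        field_simp
      rw [← e1]
      exact pow_le_pow_right₀ hth (by omega)
    have hwp : (0 : ℝ) < (w : ℝ) ^ (2 : ℝ) := Real.rpow_pos_of_pos hw' _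
    have hgp : (0 : ℝ) < (g : ℝ) ^ ((1 : ℝ) / k) := Real.rpow_pos_of_pos hg' _
    have hπR : (2 : ℝ) ≤ π := by exact_mod_cast hπ
    calc f (g, e) = (w : ℝ) * (beta k w) ^ r / (th k g * (th k w) ^ (r - 1)) := rfl
      _ ≤ (w : ℝ) * (c * (w : ℝ) ^ ((1 : ℝ) / (4 * k))) / ((g : ℝ) ^ ((1 : ℝ) / k) * (w : ℝ) ^ (2 : ℝ)) := by
          apply div_le_div₀ (by positivity) _ (by positivity) _
          · apply mul_le_mul_of_nonneg_left h1 hw'.le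
          · unfold th at h2 ⊢
            apply mul_le_mul_of_nonneg_left h2 hgp.le
      _ = c * (1 / (g : ℝ) ^ ((1 : ℝ) / k) * (w : ℝ) ^ (-(1 : ℝ) + 1 / (4 * k))) := by
          have e3 : (w : ℝ) * (w : ℝ) ^ ((1 : ℝ) / (4 * k)) =
              (w : ℝ) ^ (-(1 : ℝ) + 1 / (4 * k)) * (w : ℝ) ^ (2 : ℝ) := by
            nth_rewrite 1 [← Real.rpow_one (w : ℝ)]
            rw [← Real.rpow_add hw', ← Real.rpow_add hw']
            congr 1
            ring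
          rw [div_eq_iff (by positivity)]
          calc (w : ℝ) * (c * (w : ℝ) ^ ((1 : ℝ) / (4 * k))) = c * ((w : ℝ) * (w : ℝ) ^ ((1 : ℝ) / (4 * k))) := by ring
            _ = _ := by
              rw [e3]
              field_simp
      _ ≤ c * (1 / (g : ℝ) ^ ((1 : ℝ) / k) * ((g : ℝ) ^ (-(1 : ℝ) + 1 / (4 * k)) * ρ ^ e)) := by
          apply mul_le_mul_of_nonneg_left _ hc0
          apply mul_le_mul_of_nonneg_left _ (by positivity)
          rw [hwR, Real.mul_rpow hg'.le (by positivity)]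
          apply mul_le_mul_of_nonneg_left _ (by positivity)
          have e4 : ρ ^ e = ((2 : ℝ) ^ e) ^ (-(1 / 2 : ℝ)) := by
            rw [hρ, ← Real.rpow_natCast ((2 : ℝ) ^ (-(1 / 2 : ℝ))) e, ← Real.rpow_mul (by norm_num),
              mul_comm, Real.rpow_mul (by norm_num), Real.rpow_natCast]
          rw [e4]
          have hpe : (1 : ℝ) ≤ (2 : ℝ) ^ e := one_le_pow₀ (by norm_num)
          have hpe2 : (2 : ℝ) ^ e ≤ (π : ℝ) ^ e := pow_le_pow_left₀ (by norm_num) hπR _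
          calc ((π : ℝ) ^ e) ^ (-(1 : ℝ) + 1 / (4 * k)) ≤ ((π : ℝ) ^ e) ^ (-(1 / 2 : ℝ)) := by
                apply Real.rpow_le_rpow_of_exponent_le (hpe.trans hpe2)
                have : (1 : ℝ) / (4 * k) ≤ 1 / 12 := by
                  apply one_div_le_one_div_of_le (by norm_num); linarith
                linarith
            _ ≤ ((2 : ℝ) ^ e) ^ (-(1 / 2 : ℝ)) := by
                apply Real.rpow_le_rpow_of_nonpos (by positivity) hpe2 (by norm_num)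
      _ = c * ((1 / (g : ℝ) ^ ((1 : ℝ) + 3 / (4 * k))) * ρ ^ e) := by
          have e5 : 1 / (g : ℝ) ^ ((1 : ℝ) / k) * (g : ℝ) ^ (-(1 : ℝ) + 1 / (4 * k)) =
              1 / (g : ℝ) ^ ((1 : ℝ) + 3 / (4 * k)) := by
            rw [one_div ((g : ℝ) ^ ((1 : ℝ) / k)), one_div ((g : ℝ) ^ ((1 : ℝ) + 3 / (4 * k))),
              ← Real.rpow_neg hg'.le, ← Real.rpow_neg hg'.le, ← Real.rpow_add hg']
            congr 1
            field_simp
            ring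
          rw [← e5]; ring
  have hs1 : Summable (fun g : ℕ => 1 / (g : ℝ) ^ ((1 : ℝ) + 3 / (4 * k))) := by
    rw [Real.summable_one_div_nat_rpow]
    have : (0 : ℝ) < 3 / (4 * k) := by positivity
    linarith
  have hs2 : Summable (fun e : ℕ => ρ ^ e) := summable_geometric_of_lt_one hρ0.le hρ1
  have hs3 : Summable (fun s : ℕ × ℕ => (1 / (s.1 : ℝ) ^ ((1 : ℝ) + 3 / (4 * k))) * ρ ^ s.2) :=
    Summable.mul_of_nonneg hs1 hs2 (fun g => by positivity) (fun e => by positivity)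
  have hsum : Summable f := by
    apply Summable.of_nonneg_of_le hnn hbound
    exact hs3.mul_left c
  rw [summable_iff_vanishing_norm] at hsum
  obtain ⟨S0, hS0⟩ := hsum ε hε
  refine ⟨S0.sup (fun s => s.1 * π ^ s.2), ?_⟩
  intro S hS
  have hdisj : Disjoint S S0 := by
    rw [Finset.disjoint_left]
    intro s hs hs0
    have h1 := (hS s hs).2
    have h2 : s.1 * π ^ s.2 ≤ S0.sup (fun s => s.1 * π ^ s.2) := Finset.le_sup (f := fun s => s.1 * π ^ s.2) hs0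
    omega
  have := hS0 S hdisj
  rw [Real.norm_eq_abs] at this
  exact (le_abs_self _).trans this.le

/-- The parameters attached to `R, A`. -/
noncomputable def mkPar2 (k r n₀ π jj C0 G Q : ℕ) (η : ℝ) (R A m : ℕ) : Par where
  k := k
  r := r
  n := n₀ * π ^ jj
  K := n₀ ^ k * (Q * G.factorial)
  L := ⌊η * A * ((R ^ N0 k r : ℕ) : ℝ) ^ k / ((n₀ ^ k * (Q * G.factorial) : ℕ) : ℝ)⌋₊
  m := m
  J := m / (8 * A)
  A := A
  B := R ^ N0 k r
  B0 := R ^ N0 k r / C0 + 1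
  R := R
  G := G
  C0 := C0
  η := η
  cA := 2 ^ eA k r

set_option maxHeartbeats 4000000 in
theorem propB (k r n₀ π C0 : ℕ) (hk : 3 ≤ k) (hr : 2 * k + 1 ≤ r) (hn : 1 ≤ n₀) (hπ : π.Prime)
    (hC0 : 2 ≤ C0) (ε : ℝ) (hε : 0 < ε) :
    ∃ (G : ℕ) (η : ℝ), 0 < η ∧ η ≤ 1 ∧ ∀ Q : ℕ, 1 ≤ Q → ∃ R1 : ℕ, ∀ R A jj : ℕ, R1 ≤ R →
      R ^ eA k r ≤ A → A < (R + 1) ^ eA k r → n₀ * π ^ jj ≤ R ^ N0 k r →
      ∀ T' : Finset (Fin r → ℤ), (∀ x ∈ T', x ∈ Tset r (R ^ N0 k r / C0 + 1) (R ^ N0 k r) R ∧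
        ∀ l, ¬ (π : ℤ) ∣ x l) →
      ∑ a ∈ boxA (r + 1) A, (DDs k r (n₀ * π ^ jj) (n₀ ^ k * (Q * G.factorial))
        ⌊η * A * ((R ^ N0 k r : ℕ) : ℝ) ^ k / ((n₀ ^ k * (Q * G.factorial) : ℕ) : ℝ)⌋₊ T' a) ^ 2 ≤
      ε * (A : ℝ) ^ (r + 1) * (((R ^ N0 k r : ℕ) : ℝ) ^ r / (A * ((R ^ N0 k r : ℕ) : ℝ) ^ k)) ^ 2 := by
  -- constants
  set ε' : ℝ := ε / 18 ^ (r + 1) with hε'
  have hε'0 : 0 < ε' := by positivity
  set cτ : ℝ := (1500 * ((n₀ ^ k : ℕ) : ℝ) ^ 3 * C0 ^ k) * (2 * r ^ 2 * 4 ^ r * C0 ^ (2 * k + r)) * 2 with hcτ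
  have hC0R : (0 : ℝ) < C0 := by exact_mod_cast (by omega : 0 < C0)
  have hnR : (0 : ℝ) < ((n₀ ^ k : ℕ) : ℝ) := by exact_mod_cast pow_pos hn k
  have hrR : (0 : ℝ) < r := by exact_mod_cast (by omega : 0 < r)
  have hcτ0 : 0 < cτ := by positivity
  obtain ⟨G, hG⟩ := exists_tail2 k r π hk hr hπ.two_le (ε' / (3 * cτ)) (by positivity)
  set cη : ℝ := (1500 * ((n₀ ^ k : ℕ) : ℝ) ^ 3 * C0 ^ k) * (r ^ 2 * G * 3 ^ r * C0 ^ (6 * k + r)) + 1 with hcη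
  have hcη0 : 0 < cη := by positivity
  set η : ℝ := min 1 (Real.sqrt (ε' / (3 * cη))) with hη
  have hη0 : 0 < η := lt_min one_pos (Real.sqrt_pos.mpr (by positivity))
  have hη1 : η ≤ 1 := min_le_left _ _
  have hη2 : η ^ 2 ≤ ε' / (3 * cη) := by
    rw [← Real.sq_sqrt (show 0 ≤ ε' / (3 * cη) by positivity)]
    have := min_le_right 1 (Real.sqrt (ε' / (3 * cη)))
    gcongr
  obtain ⟨Cβ, hCβ0, hCβ⟩ := beta_bound k (r * (N0 k r * (2 * k)))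
  have hCβR : (1 : ℝ) ≤ Cβ := by exact_mod_cast hCβ0
  set cJ : ℝ := k * N0 k r + 1 with hcJ
  have hcJ0 : 0 < cJ := by positivity
  set cR : ℝ := 54 * r ^ 2 * 2 ^ r * Cβ + 324 * ((n₀ ^ k : ℕ) : ℝ) * C0 ^ k * 2 ^ eA k r +
    (1500 * ((n₀ ^ k : ℕ) : ℝ) ^ 3 * C0 ^ k) * (r ^ 2 * G * 3 ^ r * C0 ^ (6 * k + r) +
      2 * r ^ 2 * 4 ^ r * C0 ^ (2 * k + r) * (Cβ ^ 2 * cJ) + 2 * r * C0 +
      r ^ 2 * (Cβ ^ 2 * cJ * 2 ^ r) + r ^ 2 * 3 ^ (2 * r)) with hcR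
  have hcR0 : 0 < cR := by positivity
  obtain ⟨R2, hR2⟩ := exists_nat_ge (cR * 3 / ε')
  refine ⟨G, η, hη0, hη1, ?_⟩
  intro Q hQ
  refine ⟨max (max R2 2) (max n₀ (2 ^ eA k r)), ?_⟩
  intro R A jj hR hA1 hA2 hnq T' hT'
  have hRR2 : R2 ≤ R := (le_max_left _ _).trans ((le_max_left _ _).trans hR)
  have hR22 : 2 ≤ R := (le_max_right R2 2).trans ((le_max_left _ _).trans hR)
  have hRn : n₀ ≤ R := (le_max_left n₀ _).trans ((le_max_right _ _).trans hR)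
  have hRe : 2 ^ eA k r ≤ R := (le_max_right n₀ _).trans ((le_max_right _ _).trans hR)
  have hN0 : N0 k r = r + k * r ^ 2 + 4 := rfl
  have hN01 : 4 ≤ N0 k r := by omega
  have heA1 : eA k r + 1 = N0 k r * (k + 1) := by
    unfold eA
    have : 1 ≤ N0 k r * (k + 1) := Nat.one_le_iff_ne_zero.mpr (Nat.mul_ne_zero (by omega) (by omega))
    omega
  have hRpos : 0 < R := by omega
  have hAR : R ^ N0 k r * (R ^ N0 k r) ^ k ≤ A * R := by
    calc R ^ N0 k r * (R ^ N0 k r) ^ k = R ^ (N0 k r * (k + 1)) := by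
          rw [← pow_succ', ← pow_mul]
      _ = R ^ eA k r * R := by rw [← heA1, pow_succ]
      _ ≤ A * R := Nat.mul_le_mul_right _ hA1
  have hAup : A ≤ 2 ^ eA k r * R ^ eA k r := by
    calc A ≤ (R + 1) ^ eA k r := hA2.le
      _ ≤ (2 * R) ^ eA k r := Nat.pow_le_pow_left (by omega) _
      _ = _ := by rw [mul_pow]
  have hA3 : A ≤ R ^ N0 k r * (R ^ N0 k r) ^ k := by
    calc A ≤ 2 ^ eA k r * R ^ eA k r := hAup
      _ ≤ R * R ^ eA k r := Nat.mul_le_mul_right _ hRe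
      _ = R ^ (eA k r + 1) := by rw [pow_succ]; ring
      _ = R ^ N0 k r * (R ^ N0 k r) ^ k := by rw [heA1, ← pow_succ', ← pow_mul]
  have hcA : A * R ≤ 2 ^ eA k r * (R ^ N0 k r * (R ^ N0 k r) ^ k) := by
    calc A * R ≤ (2 ^ eA k r * R ^ eA k r) * R := Nat.mul_le_mul_right _ hAup
      _ = 2 ^ eA k r * R ^ (eA k r + 1) := by rw [pow_succ]; ring
      _ = _ := by rw [heA1, ← pow_succ', ← pow_mul]
  have hApos : 1 ≤ A := (Nat.one_le_pow _ _ hRpos).trans hA1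
  have hBR : R ≤ R ^ N0 k r := by
    calc R = R ^ 1 := (pow_one R).symm
      _ ≤ R ^ N0 k r := Nat.pow_le_pow_right hRpos (by omega)
  have hB2 : 2 ≤ R ^ N0 k r := hR22.trans hBR
  have hABk : (R ^ N0 k r) ^ k ≤ A := by
    have h1 : R * (R ^ N0 k r) ^ k ≤ A * R := (Nat.mul_le_mul_right _ hBR).trans hAR
    rw [mul_comm A R] at h1
    exact Nat.le_of_mul_le_mul_left h1 hRpos
  -- jj bound
  have hjj : jj ≤ N0 k r * R := by
    have h1 : 2 ^ jj ≤ R ^ N0 k r := by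
      calc 2 ^ jj ≤ π ^ jj := Nat.pow_le_pow_left hπ.two_le _
        _ ≤ n₀ * π ^ jj := Nat.le_mul_of_pos_left _ hn
        _ ≤ _ := hnq
    have h2 : R ≤ 2 ^ R := Nat.lt_two_pow_self.le
    have h3 : 2 ^ jj ≤ 2 ^ (R * N0 k r) := by
      calc 2 ^ jj ≤ R ^ N0 k r := h1
        _ ≤ (2 ^ R) ^ N0 k r := Nat.pow_le_pow_left h2 _
        _ = _ := by rw [← pow_mul]
    rw [mul_comm]
    exact (Nat.pow_le_pow_iff_right (by norm_num)).mp h3
  have hRR : (0 : ℝ) < R := by exact_mod_cast hRpos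
  have hR1 : (1 : ℝ) ≤ R := by exact_mod_cast hRpos
  have hjjR : (k : ℝ) * jj + 1 ≤ cJ * R := by
    have h1 : (jj : ℝ) ≤ N0 k r * R := by exact_mod_cast hjj
    calc (k : ℝ) * jj + 1 ≤ k * (N0 k r * R) + R := by
          have : (k : ℝ) * jj ≤ k * (N0 k r * R) := by gcongr
          linarith
      _ = _ := by rw [hcJ]; ring
  -- choose m
  set B := R ^ N0 k r with hB
  set K := n₀ ^ k * (Q * G.factorial) with hK
  set L := ⌊η * A * ((B : ℕ) : ℝ) ^ k / ((K : ℕ) : ℝ)⌋₊ with hL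
  obtain ⟨m, hmge, hmp⟩ := Nat.exists_infinite_primes
    (8 * A * (B ^ (2 * k) + 8) + ((r + 1) * A * B ^ k + K * L) + 1)
  have hJ1 : B ^ (2 * k) + 8 ≤ m / (8 * A) := by
    rw [Nat.le_div_iff_mul_le (by omega)]
    calc (B ^ (2 * k) + 8) * (8 * A) = 8 * A * (B ^ (2 * k) + 8) := by ring
      _ ≤ m := by omega
  set P := mkPar2 k r n₀ π jj C0 G Q η R A m with hPdef
  have hKpos : 0 < K := Nat.mul_pos (pow_pos hn k) (Nat.mul_pos hQ (Nat.factorial_pos G))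
  have hOk : P.Ok2 n₀ π jj := {
    hk := hk
    hr := hr
    hn := rfl
    hn0 := hn
    hπ := hπ
    hnB := hnq
    hB0 := Nat.le_add_left 1 _
    hB0B := by
      show B / C0 + 1 ≤ B
      have : B / C0 ≤ B / 2 := Nat.div_le_div_left hC0 (by norm_num)
      omega
    hC0 := by
      show B ≤ C0 * (B / C0 + 1)
      have := Nat.lt_mul_div_succ B (by omega : 0 < C0)
      exact this.le
    hR := hRpos
    hm := hmp
    hJ := by show 0 < m / (8 * A); omega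
    hA1 := hApos
    h8 := by show 8 * A * (m / (8 * A)) ≤ m; exact Nat.mul_div_le m (8 * A)
    h9 := by
      show m ≤ 9 * A * (m / (8 * A))
      have h1 := Nat.lt_mul_div_succ m (by omega : 0 < 8 * A)
      have h2 : 8 * A * (m / (8 * A) + 1) ≤ 9 * A * (m / (8 * A)) := by
        have : 8 ≤ m / (8 * A) := by omega
        nlinarith
      omega
    hA := hA3
    hAR := hAR
    hcA := by
      show ((A : ℝ) * R) ≤ 2 ^ eA k r * ((B : ℕ) * ((B : ℕ) : ℝ) ^ k)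
      exact_mod_cast hcA
    hJbig := by show B ^ (2 * k) ≤ m / (8 * A); omega
    h4 := by
      show 4 * (m / (8 * A)) * B ^ k ≤ m
      calc 4 * (m / (8 * A)) * B ^ k ≤ 4 * (m / (8 * A)) * A := Nat.mul_le_mul_left _ hABk
        _ ≤ 8 * A * (m / (8 * A)) := by nlinarith [Nat.zero_le (m / (8 * A) * A)]
        _ ≤ m := Nat.mul_div_le m (8 * A)
    hη := hη0.le
    hKL := by
      show ((K : ℝ) * L) ≤ η * A * ((B : ℕ) : ℝ) ^ k
      have hKR : (0 : ℝ) < K := by exact_mod_cast hKpos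
      have h1 : (L : ℝ) ≤ η * A * ((B : ℕ) : ℝ) ^ k / K := Nat.floor_le (by positivity)
      calc (K : ℝ) * L ≤ K * (η * A * ((B : ℕ) : ℝ) ^ k / K) := by gcongr
        _ = _ := by field_simp
    hKG := by
      intro g hg1 hgG
      exact Nat.mul_dvd_mul_left _ ((Nat.dvd_factorial hg1 hgG).mul_left _) }
  have hβ : ∀ q : ℕ, 1 ≤ q → q ≤ P.B ^ (2 * P.k) → (beta P.k q : ℝ) ^ P.r ≤ Cβ * R := by
    intro q hq1 hq2
    have hq2' : q ≤ B ^ (2 * k) := hq2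
    have h1 := hCβ q (by omega)
    have h2 : ((beta k q : ℝ) ^ r) ^ (N0 k r * (2 * k)) ≤ ((Cβ : ℝ) * R) ^ (N0 k r * (2 * k)) := by
      rw [← pow_mul]
      calc (beta k q : ℝ) ^ (r * (N0 k r * (2 * k))) ≤ Cβ * q := by exact_mod_cast h1
        _ ≤ Cβ * ((B : ℕ) : ℝ) ^ (2 * k) := by
            apply mul_le_mul_of_nonneg_left _ (by positivity)
            exact_mod_cast hq2'
        _ = Cβ * (R : ℝ) ^ (N0 k r * (2 * k)) := by
            rw [hB]; push_cast; rw [← pow_mul]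
        _ ≤ (Cβ : ℝ) ^ (N0 k r * (2 * k)) * (R : ℝ) ^ (N0 k r * (2 * k)) := by
            apply mul_le_mul_of_nonneg_right _ (by positivity)
            exact le_self_pow₀ hCβR (Nat.mul_ne_zero (by omega) (by omega))
        _ = _ := by rw [mul_pow]
    exact le_of_pow_le_pow_left₀ (Nat.mul_ne_zero (by omega) (by omega)) (by positivity) h2
  have hτ : ∀ S : Finset (ℕ × ℕ), (∀ s ∈ S, 1 ≤ s.1 ∧ P.G < s.1 * π ^ s.2) →
      ∑ s ∈ S, Fτ P.k P.r π s ≤ ε' / (3 * cτ) := hG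
  have hT'P : T' ⊆ P.T1 π := by
    intro x hx
    exact Par.mem_T1.mpr (hT' x hx)
  have hdot : ∀ a ∈ boxA (P.r + 1) P.A, ∀ x ∈ T', |dot a (VV P.n P.k x)| + P.K * P.L < P.m := by
    intro a ha x hx
    have ha' := mem_boxA.mp ha
    have hxT : x ∈ P.T := (Par.mem_T1.mp (hT'P hx)).1
    have h1 : |dot a (VV P.n P.k x)| ≤ ((r + 1) * A * B ^ k : ℕ) := by
      unfold dot
      calc |∑ o, a o * VV P.n P.k x o| ≤ ∑ o, |a o * VV P.n P.k x o| := Finset.abs_sum_le_sum_abs _ _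
        _ ≤ ∑ o : Fin (P.r + 1), ((A : ℤ) * (B : ℤ) ^ k) := by
            apply Finset.sum_le_sum
            intro o _
            rw [abs_mul]
            exact mul_le_mul (ha' o) (abs_VV_le hOk.hnB hOk.hB0 hxT o) (abs_nonneg _) (by positivity)
        _ = _ := by
            rw [Finset.sum_const, Finset.card_univ, Fintype.card_fin, nsmul_eq_mul]
            have : P.r = r := rfl
            rw [this]; push_cast; ring
    have h2 : (((r + 1) * A * B ^ k : ℕ) : ℤ) + (K : ℤ) * L < m := by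
      have : (r + 1) * A * B ^ k + K * L < m := by omega
      exact_mod_cast this
    have h3 : (P.K : ℤ) * P.L = (K : ℤ) * L := rfl
    have h4 : (P.m : ℤ) = m := rfl
    rw [h3, h4]
    linarith
  have hmain := second_moment2 hOk (Cβ * R) (ε' / (3 * cτ)) (R ^ 4) (Nat.one_le_pow _ _ hRpos) hβ hτ T' hT'P hdot
  have hErr : Err2 P n₀ jj (Cβ * R) (ε' / (3 * cτ)) ((R ^ 4 : ℕ) : ℝ) ≤ ε' := by
    have eB : ((B : ℕ) : ℝ) = (R : ℝ) ^ N0 k r := by rw [hB]; push_cast; rfl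
    have t1 : (R : ℝ) ^ (r + k * r ^ 2 + 1) * R / (R : ℝ) ^ N0 k r ≤ 1 / R := by
      rw [div_le_div_iff₀ (by positivity) hRR, one_mul, ← pow_succ, ← pow_succ]
      apply pow_le_pow_right₀ hR1
      rw [hN0]; omega
    have t2 : 1 / (R : ℝ) ^ N0 k r ≤ 1 / R := by
      rw [div_le_div_iff₀ (by positivity) hRR, one_mul, one_mul]
      exact le_self_pow₀ hR1 (by omega)
    have t3 : (R : ℝ) ^ 3 / (R : ℝ) ^ N0 k r ≤ 1 / R := by
      rw [div_le_div_iff₀ (by positivity) hRR, one_mul, ← pow_succ]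
      exact pow_le_pow_right₀ hR1 (by omega)
    have t4 : (R : ℝ) / (R : ℝ) ^ N0 k r ≤ 1 / R := by
      rw [div_le_div_iff₀ (by positivity) hRR, one_mul]
      nth_rewrite 1 [← pow_one (R : ℝ)]
      rw [← pow_succ]
      exact pow_le_pow_right₀ hR1 (by omega)
    have t5 : (R : ℝ) ^ 3 / (R : ℝ) ^ 4 ≤ 1 / R := by
      rw [div_le_div_iff₀ (by positivity) hRR, one_mul, ← pow_succ]
    have t6 : ((R : ℝ) ^ 4) ^ (2 * r) / ((R : ℝ) ^ N0 k r) ^ 4 ≤ 1 / R := by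
      rw [div_le_div_iff₀ (by positivity) hRR, one_mul, ← pow_mul, ← pow_mul, ← pow_succ]
      apply pow_le_pow_right₀ hR1
      rw [hN0]
      have h1 : 3 * (7 * r) ≤ k * r ^ 2 := by
        rw [sq]
        exact Nat.mul_le_mul hk (Nat.mul_le_mul_right _ (by omega))
      omega
    unfold Err2
    have hgoal : (54 : ℝ) * P.r ^ 2 * 2 ^ P.r * (Cβ * R) * (P.R : ℝ) ^ (P.r + P.k * P.r ^ 2 + 1) / P.B +
      324 * ((n₀ ^ P.k : ℕ) : ℝ) * P.C0 ^ P.k * P.cA / P.R +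
      (1500 * ((n₀ ^ P.k : ℕ) : ℝ) ^ 3 * P.C0 ^ P.k) *
        (P.r ^ 2 * P.G * 3 ^ P.r * P.C0 ^ (6 * P.k + P.r) * (P.η ^ 2 + 1 / P.B) +
          2 * P.r ^ 2 * 4 ^ P.r * P.C0 ^ (2 * P.k + P.r) *
            (2 * (ε' / (3 * cτ)) + (Cβ * R) ^ 2 * (P.k * jj + 1) / P.B) +
          2 * P.r * P.C0 * P.R / P.B +
          P.r ^ 2 * ((Cβ * R) ^ 2 * (P.k * jj + 1) * 2 ^ P.r / ((R ^ 4 : ℕ) : ℝ)) +
          P.r ^ 2 * ((3 * ((R ^ 4 : ℕ) : ℝ)) ^ (2 * P.r) / P.B ^ 4)) ≤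
      54 * r ^ 2 * 2 ^ r * (Cβ : ℝ) * ((R : ℝ) ^ (r + k * r ^ 2 + 1) * R / (R : ℝ) ^ N0 k r) +
      324 * ((n₀ ^ k : ℕ) : ℝ) * C0 ^ k * 2 ^ eA k r * (1 / R) +
      (1500 * ((n₀ ^ k : ℕ) : ℝ) ^ 3 * C0 ^ k) *
        (r ^ 2 * G * 3 ^ r * C0 ^ (6 * k + r) * (1 / (R : ℝ) ^ N0 k r) +
          2 * r ^ 2 * 4 ^ r * C0 ^ (2 * k + r) * (Cβ ^ 2 * cJ) * ((R : ℝ) ^ 3 / (R : ℝ) ^ N0 k r) +
          2 * r * C0 * (R / (R : ℝ) ^ N0 k r) +
          r ^ 2 * (Cβ ^ 2 * cJ * 2 ^ r) * ((R : ℝ) ^ 3 / (R : ℝ) ^ 4) +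
          r ^ 2 * 3 ^ (2 * r) * (((R : ℝ) ^ 4) ^ (2 * r) / ((R : ℝ) ^ N0 k r) ^ 4)) +
      (1500 * ((n₀ ^ k : ℕ) : ℝ) ^ 3 * C0 ^ k) * (r ^ 2 * G * 3 ^ r * C0 ^ (6 * k + r)) * η ^ 2 +
      cτ * (ε' / (3 * cτ)) := by
      have hstep : ((Cβ : ℝ) * R) ^ 2 * (k * jj + 1) ≤ Cβ ^ 2 * cJ * R ^ 3 := by
        calc ((Cβ : ℝ) * R) ^ 2 * (k * jj + 1) ≤ ((Cβ : ℝ) * R) ^ 2 * (cJ * R) :=
              mul_le_mul_of_nonneg_left hjjR (by positivity)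
          _ = _ := by ring
      simp only [hPdef, mkPar2]
      rw [← hB, eB]
      push_cast
      have hs1 : ((Cβ : ℝ) * R) ^ 2 * (k * jj + 1) / (R : ℝ) ^ N0 k r ≤
          Cβ ^ 2 * cJ * R ^ 3 / (R : ℝ) ^ N0 k r := by gcongr
      have hs2 : ((Cβ : ℝ) * R) ^ 2 * (k * jj + 1) * 2 ^ r / (R : ℝ) ^ 4 ≤
          Cβ ^ 2 * cJ * R ^ 3 * 2 ^ r / (R : ℝ) ^ 4 := by gcongr
      calc _ ≤ (54 : ℝ) * r ^ 2 * 2 ^ r * (Cβ * R) * (R : ℝ) ^ (r + k * r ^ 2 + 1) / (R : ℝ) ^ N0 k r +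
          324 * (n₀ : ℝ) ^ k * C0 ^ k * 2 ^ eA k r / R +
          (1500 * ((n₀ : ℝ) ^ k) ^ 3 * C0 ^ k) *
            (r ^ 2 * G * 3 ^ r * C0 ^ (6 * k + r) * (η ^ 2 + 1 / (R : ℝ) ^ N0 k r) +
              2 * r ^ 2 * 4 ^ r * C0 ^ (2 * k + r) *
                (2 * (ε' / (3 * cτ)) + Cβ ^ 2 * cJ * R ^ 3 / (R : ℝ) ^ N0 k r) +
              2 * r * C0 * R / (R : ℝ) ^ N0 k r +
              r ^ 2 * (Cβ ^ 2 * cJ * R ^ 3 * 2 ^ r / (R : ℝ) ^ 4) +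
              r ^ 2 * ((3 * (R : ℝ) ^ 4) ^ (2 * r) / ((R : ℝ) ^ N0 k r) ^ 4)) := by gcongr
        _ = _ := by
          rw [hcτ]
          push_cast
          rw [mul_pow (3 : ℝ)]
          ring
    refine hgoal.trans ?_
    have s1 : cτ * (ε' / (3 * cτ)) = ε' / 3 := by field_simp
    have s2 : (1500 * ((n₀ ^ k : ℕ) : ℝ) ^ 3 * C0 ^ k) * (r ^ 2 * G * 3 ^ r * C0 ^ (6 * k + r)) * η ^ 2 ≤
        ε' / 3 := by
      calc _ ≤ cη * η ^ 2 := by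
            apply mul_le_mul_of_nonneg_right _ (by positivity)
            rw [hcη]; linarith
        _ ≤ cη * (ε' / (3 * cη)) := mul_le_mul_of_nonneg_left hη2 hcη0.le
        _ = ε' / 3 := by field_simp
    have s3 : 54 * r ^ 2 * 2 ^ r * (Cβ : ℝ) * ((R : ℝ) ^ (r + k * r ^ 2 + 1) * R / (R : ℝ) ^ N0 k r) +
      324 * ((n₀ ^ k : ℕ) : ℝ) * C0 ^ k * 2 ^ eA k r * (1 / R) +
      (1500 * ((n₀ ^ k : ℕ) : ℝ) ^ 3 * C0 ^ k) *
        (r ^ 2 * G * 3 ^ r * C0 ^ (6 * k + r) * (1 / (R : ℝ) ^ N0 k r) +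
          2 * r ^ 2 * 4 ^ r * C0 ^ (2 * k + r) * (Cβ ^ 2 * cJ) * ((R : ℝ) ^ 3 / (R : ℝ) ^ N0 k r) +
          2 * r * C0 * (R / (R : ℝ) ^ N0 k r) +
          r ^ 2 * (Cβ ^ 2 * cJ * 2 ^ r) * ((R : ℝ) ^ 3 / (R : ℝ) ^ 4) +
          r ^ 2 * 3 ^ (2 * r) * (((R : ℝ) ^ 4) ^ (2 * r) / ((R : ℝ) ^ N0 k r) ^ 4)) ≤ ε' / 3 := by
      calc _ ≤ 54 * r ^ 2 * 2 ^ r * (Cβ : ℝ) * (1 / R) +
              324 * ((n₀ ^ k : ℕ) : ℝ) * C0 ^ k * 2 ^ eA k r * (1 / R) +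
              (1500 * ((n₀ ^ k : ℕ) : ℝ) ^ 3 * C0 ^ k) *
                (r ^ 2 * G * 3 ^ r * C0 ^ (6 * k + r) * (1 / R) +
                  2 * r ^ 2 * 4 ^ r * C0 ^ (2 * k + r) * (Cβ ^ 2 * cJ) * (1 / R) +
                  2 * r * C0 * (1 / R) + r ^ 2 * (Cβ ^ 2 * cJ * 2 ^ r) * (1 / R) +
                  r ^ 2 * 3 ^ (2 * r) * (1 / R)) := by gcongr
        _ = cR / R := by rw [hcR]; ring
        _ ≤ ε' / 3 := by
            rw [div_le_div_iff₀ hRR (by norm_num)]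
            have h1 : cR * 3 / ε' ≤ R := hR2.trans (by exact_mod_cast hRR2)
            rw [div_le_iff₀ hε'0] at h1
            linarith
    linarith
  have hA0 : (0 : ℝ) < A := by exact_mod_cast hApos
  refine hmain.trans ?_
  have hfin : (18 : ℝ) ^ (P.r + 1) * (P.A : ℝ) ^ (P.r + 1) * (P.B ^ P.r / (P.A * P.B ^ P.k)) ^ 2 *
      Err2 P n₀ jj (Cβ * R) (ε' / (3 * cτ)) ((R ^ 4 : ℕ) : ℝ) ≤ (18 : ℝ) ^ (P.r + 1) * (P.A : ℝ) ^ (P.r + 1) *
      (P.B ^ P.r / (P.A * P.B ^ P.k)) ^ 2 * ε' :=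
    mul_le_mul_of_nonneg_left hErr (by positivity)
  refine hfin.trans (le_of_eq ?_)
  rw [hε']
  show (18 : ℝ) ^ (r + 1) * (A : ℝ) ^ (r + 1) * (((B : ℕ) : ℝ) ^ r / (A * ((B : ℕ) : ℝ) ^ k)) ^ 2 *
    (ε / 18 ^ (r + 1)) = _
  field_simp

end Pool.Agent.H888.DH
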