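import Pool.Agent.H888.WA.V7
import Pool.Agent.H888.DH.Loc8

set_option linter.unusedVariables false
set_option linter.unusedSectionVars false
set_option linter.style.haveILetI false

namespace Pool.Agent.H888.DH

open Finset

/-- points of the cell, prime to `π`, counted by the local approximation. -/
noncomputable def NsetC (k r n K L B B0 π : ℕ) (Cel : (Fin r → ℤ) → Prop) (a : Fin (r + 1) → ℤ) :
    Finset (Fin r → ℤ) := by
  classical
  exact (Nset k r n K L B B0 a).filter (fun x => (∀ l, ¬ (π : ℤ) ∣ x l) ∧ Cel x)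

/-- points of `NsetC` violating the gcd condition. -/
noncomputable def BsetC (k r n K L B B0 R π : ℕ) (Cel : (Fin r → ℤ) → Prop) (a : Fin (r + 1) → ℤ) :
    Finset (Fin r → ℤ) := by
  classical
  exact (NsetC k r n K L B B0 π Cel a).filter (fun x => ∃ l l', l ≠ l' ∧ R < Int.gcd (x l) (x l'))

/-- Number of coefficient vectors for a fixed value. -/
theorem card_a_fixed2 (k r n g0 A B0 : ℕ) (hk : 1 ≤ k) (hr : 1 ≤ r) (hn : 1 ≤ n) (hB0 : 1 ≤ B0)
    (x : Fin r → ℤ) (hx : ∀ l, (B0 : ℤ) ≤ x l) (hg0x : ∀ l, Int.gcd (x l ^ k) ((n : ℤ) ^ k) ≤ g0) (v : ℤ) (F : Finset (Fin (r + 1) → ℤ))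
    (hF : ∀ a ∈ F, a ∈ boxA (r + 1) A ∧ dot a (VV n k x) = v) :
    (F.card : ℝ) ≤ (2 * A + 1) ^ (r - 1) * (2 * A * (g0 : ℝ) / (B0 : ℝ) ^ k + 1) := by
  classical
  have hB0' : (1 : ℤ) ≤ B0 := by exact_mod_cast hB0
  set l1 : Fin r := ⟨0, by omega⟩ with hl1
  have hX : (0 : ℤ) < x l1 ^ k := pow_pos (by linarith [hx l1]) _
  have hXB : (B0 : ℤ) ^ k ≤ x l1 ^ k := pow_le_pow_left₀ (by linarith) (hx l1) _
  set T : Finset ({j : Fin r // j ≠ l1} → ℤ) := Fintype.piFinset (fun _ => Finset.Icc (-(A : ℤ)) A) with hT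
  have hTcard : (T.card : ℝ) = (2 * A + 1) ^ (r - 1) := by
    rw [hT, Fintype.card_piFinset, Finset.prod_const, Int.card_Icc, Finset.card_univ,
      Fintype.card_subtype_compl]
    have h1 : ((A : ℤ) + 1 - -(A : ℤ)).toNat = 2 * A + 1 := by omega
    rw [h1]
    simp
  have h1 := card_le_mul_real F T (fun a j => a (Fin.succ j.1)) (by
    intro a ha
    rw [hT, Fintype.mem_piFinset]
    intro j
    rw [Finset.mem_Icc]
    exact abs_le.mp (mem_boxA.mp (hF a ha).1 _)) (2 * A * (g0 : ℝ) / (B0 : ℝ) ^ k + 1) (by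
    intro t _
    set Q := F.filter (fun a => (fun j : {j : Fin r // j ≠ l1} => a (Fin.succ j.1)) = t) with hQ
    -- relation between elements of Q
    have hrel : ∀ a ∈ Q, ∀ b ∈ Q, (a 0 - b 0) * (n : ℤ) ^ k + (a (Fin.succ l1) - b (Fin.succ l1)) * x l1 ^ k = 0 := by
      intro a ha b hb
      rw [hQ, Finset.mem_filter] at ha hb
      have e1 := (hF a ha.1).2
      have e2 := (hF b hb.1).2
      rw [dot_VV, ← Finset.add_sum_erase Finset.univ _ (Finset.mem_univ l1)] at e1 e2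
      have e3 : ∑ l ∈ Finset.univ.erase l1, a (Fin.succ l) * x l ^ k =
          ∑ l ∈ Finset.univ.erase l1, b (Fin.succ l) * x l ^ k := by
        apply Finset.sum_congr rfl
        intro l hl
        have hne : l ≠ l1 := (Finset.mem_erase.mp hl).1
        have : a (Fin.succ l) = b (Fin.succ l) := by
          have := congrFun (ha.2.trans hb.2.symm) ⟨l, hne⟩
          exact this
        rw [this]
      linear_combination e1 - e2 - e3
    have hinj : Q.card = (Q.image (fun a => a 0)).card := by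
      rw [Finset.card_image_of_injOn]
      intro a ha b hb hab
      have hab' : a 0 = b 0 := hab
      have e1 := hrel a ha b hb
      rw [hab', sub_self, zero_mul, zero_add] at e1
      have e2 : a (Fin.succ l1) = b (Fin.succ l1) := by
        rcases mul_eq_zero.mp e1 with h | h
        · linarith
        · exact absurd h hX.ne'
      rw [Finset.mem_coe, hQ, Finset.mem_filter] at ha hb
      funext o
      refine Fin.cases hab' ?_ o
      intro l
      by_cases hl : l = l1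
      · rw [hl]; exact e2
      · have := congrFun (ha.2.trans hb.2.symm) ⟨l, hl⟩
        exact this
    rw [hinj]
    -- gcd
    set g := Int.gcd (x l1 ^ k) ((n : ℤ) ^ k) with hg
    have hg0 : 0 < g := Int.gcd_pos_of_ne_zero_left _ hX.ne'
    have hgn : (g : ℤ) ≤ (g0 : ℤ) := by exact_mod_cast hg0x l1
    obtain ⟨X', hX'⟩ : (g : ℤ) ∣ x l1 ^ k := Int.gcd_dvd_left _ _
    obtain ⟨n', hn'⟩ : (g : ℤ) ∣ (n : ℤ) ^ k := Int.gcd_dvd_right _ _
    have hgz : (0 : ℤ) < g := by exact_mod_cast hg0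
    have hX'0 : 0 < X' := by
      by_contra hcon
      push Not at hcon
      nlinarith
    have hcop : IsCoprime X' n' := by
      rw [Int.isCoprime_iff_gcd_eq_one]
      have e := Int.gcd_div_gcd_div_gcd (i := x l1 ^ k) (j := (n : ℤ) ^ k) hg0
      rw [← hg] at e
      rwa [hX', hn', Int.mul_ediv_cancel_left _ hgz.ne', Int.mul_ediv_cancel_left _ hgz.ne'] at e
    have hXN : ((X'.toNat : ℕ) : ℤ) = X' := Int.toNat_of_nonneg hX'0.le
    have h2 := card_le_of_dvd_sub (Q.image (fun a => a 0)) X'.toNat (by omega) (2 * A) (by positivity)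
      (by
        intro u hu w hw
        rw [Finset.mem_image] at hu hw
        obtain ⟨a, ha, rfl⟩ := hu
        obtain ⟨b, hb, rfl⟩ := hw
        rw [hXN]
        have e1 := hrel a ha b hb
        rw [hX', hn'] at e1
        have e2 : (g : ℤ) * ((a 0 - b 0) * n' + (a (Fin.succ l1) - b (Fin.succ l1)) * X') = 0 := by
          linear_combination e1
        have e3 : (a 0 - b 0) * n' + (a (Fin.succ l1) - b (Fin.succ l1)) * X' = 0 := by
          rcases mul_eq_zero.mp e2 with h | h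
          · exact absurd h hgz.ne'
          · exact h
        apply hcop.dvd_of_dvd_mul_right
        exact ⟨-(a (Fin.succ l1) - b (Fin.succ l1)), by linear_combination e3⟩)
      (by
        intro u hu w hw
        rw [Finset.mem_image] at hu hw
        obtain ⟨a, ha, rfl⟩ := hu
        obtain ⟨b, hb, rfl⟩ := hw
        rw [hQ, Finset.mem_filter] at ha hb
        have h1 := abs_le.mp (mem_boxA.mp (hF a ha.1).1 0)
        have h2 := abs_le.mp (mem_boxA.mp (hF b hb.1).1 0)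
        have : a 0 - b 0 ≤ 2 * A := by linarith [h1.2, h2.1]
        exact_mod_cast this)
    refine h2.trans ?_
    have hX'R : (0 : ℝ) < X'.toNat := by exact_mod_cast (by omega : 0 < X'.toNat)
    have hB0R : (0 : ℝ) < (B0 : ℝ) ^ k := by
      have : (0 : ℝ) < B0 := by exact_mod_cast hB0
      positivity
    have h3 : (B0 : ℝ) ^ k ≤ (g0 : ℝ) * X'.toNat := by
      have e1 : (B0 : ℤ) ^ k ≤ (g0 : ℤ) * (X'.toNat : ℤ) := by
        rw [hXN]
        calc (B0 : ℤ) ^ k ≤ x l1 ^ k := hXB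
          _ = g * X' := hX'
          _ ≤ (g0 : ℤ) * X' := mul_le_mul_of_nonneg_right hgn hX'0.le
      exact_mod_cast e1
    have h4 : 2 * (A : ℝ) / X'.toNat ≤ 2 * A * (g0 : ℝ) / (B0 : ℝ) ^ k := by
      rw [div_le_div_iff₀ hX'R hB0R]
      calc 2 * (A : ℝ) * (B0 : ℝ) ^ k ≤ 2 * A * ((g0 : ℝ) * X'.toNat) := by gcongr
        _ = _ := by ring
    linarith)
  rw [hTcard] at h1
  exact h1

/-- first moment of the gcd-bad points. -/
theorem gcd_moment2 (k r n g0 K L A B B0 R π : ℕ) (Cel : (Fin r → ℤ) → Prop) (hk : 1 ≤ k) (hr : 1 ≤ r) (hn : 1 ≤ n) (hB0 : 1 ≤ B0)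
    (hB : 1 ≤ B) (hR : 1 ≤ R) (hg0 : ∀ x : ℤ, ¬ (π : ℤ) ∣ x → Int.gcd (x ^ k) ((n : ℤ) ^ k) ≤ g0) :
    ∑ a ∈ boxA (r + 1) A, ((BsetC k r n K L B B0 R π Cel a).card : ℝ) ≤
      ((r : ℝ) ^ 2 * ((B : ℝ) ^ (r - 2) * ((B : ℝ) ^ 2 / R))) *
        ((2 * L + 1) * ((2 * A + 1) ^ (r - 1) * (2 * A * (g0 : ℝ) / (B0 : ℝ) ^ k + 1))) := by
  classical
  set X : Finset (Fin r → ℤ) := (Fintype.piFinset (fun _ => Finset.Icc (B0 : ℤ) B)).filter
    (fun x => (∃ l l', l ≠ l' ∧ R < Int.gcd (x l) (x l')) ∧ ((∀ l, ¬ (π : ℤ) ∣ x l) ∧ Cel x)) with hX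
  have hXcard := card_badx r B B0 R hB0 hB hR X (by
    intro x hx
    rw [hX, Finset.mem_filter, Fintype.mem_piFinset] at hx
    exact ⟨fun l => Finset.mem_Icc.mp (hx.1 l), hx.2.1⟩)
  have h1 : ∀ a, ((BsetC k r n K L B B0 R π Cel a).card : ℝ) = ∑ x ∈ X,
      (if ∃ t ∈ Finset.Icc (-(L : ℤ)) L, dot a (VV n k x) = K * t then (1 : ℝ) else 0) := by
    intro a
    rw [← Finset.sum_filter, Finset.sum_const, nsmul_eq_mul, mul_one]
    congr 2
    rw [BsetC, NsetC, Nset, hX, Finset.filter_filter, Finset.filter_filter, Finset.filter_filter]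
    apply Finset.filter_congr
    intro x _
    tauto
  simp only [h1]
  rw [Finset.sum_comm]
  calc ∑ x ∈ X, ∑ a ∈ boxA (r + 1) A,
        (if ∃ t ∈ Finset.Icc (-(L : ℤ)) L, dot a (VV n k x) = K * t then (1 : ℝ) else 0)
      ≤ ∑ x ∈ X, ((2 * L + 1) * ((2 * A + 1) ^ (r - 1) * (2 * A * (g0 : ℝ) / (B0 : ℝ) ^ k + 1)) : ℝ) := by
        apply Finset.sum_le_sum
        intro x hx
        rw [hX, Finset.mem_filter, Fintype.mem_piFinset] at hx
        rw [← Finset.sum_filter, Finset.sum_const, nsmul_eq_mul, mul_one]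
        have hsub : (boxA (r + 1) A).filter (fun a => ∃ t ∈ Finset.Icc (-(L : ℤ)) L, dot a (VV n k x) = K * t) ⊆
            (Finset.Icc (-(L : ℤ)) L).biUnion (fun t => (boxA (r + 1) A).filter (fun a => dot a (VV n k x) = K * t)) := by
          intro a ha
          rw [Finset.mem_filter] at ha
          obtain ⟨hab, t, ht, hdt⟩ := ha
          rw [Finset.mem_biUnion]
          exact ⟨t, ht, Finset.mem_filter.mpr ⟨hab, hdt⟩⟩
        calc _ ≤ (((Finset.Icc (-(L : ℤ)) L).biUnion (fun t => (boxA (r + 1) A).filter (fun a => dot a (VV n k x) = K * t))).card : ℝ) := by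
              exact_mod_cast Finset.card_le_card hsub
          _ ≤ ∑ t ∈ Finset.Icc (-(L : ℤ)) L, (((boxA (r + 1) A).filter (fun a => dot a (VV n k x) = K * t)).card : ℝ) := by
              exact_mod_cast Finset.card_biUnion_le
          _ ≤ ∑ t ∈ Finset.Icc (-(L : ℤ)) L, ((2 * A + 1) ^ (r - 1) * (2 * A * (g0 : ℝ) / (B0 : ℝ) ^ k + 1) : ℝ) := by
              apply Finset.sum_le_sum
              intro t _
              apply card_a_fixed2 k r n g0 A B0 hk hr hn hB0 x (fun l => (Finset.mem_Icc.mp (hx.1 l)).1)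
                (fun l => hg0 _ (hx.2.2.1 l)) (K * t)
              intro a ha
              exact Finset.mem_filter.mp ha
          _ = _ := by
              rw [Finset.sum_const, Int.card_Icc, nsmul_eq_mul]
              have h2 : ((L : ℤ) + 1 - -(L : ℤ)).toNat = 2 * L + 1 := by omega
              rw [h2]; push_cast; ring
    _ = X.card * ((2 * L + 1) * ((2 * A + 1) ^ (r - 1) * (2 * A * (g0 : ℝ) / (B0 : ℝ) ^ k + 1))) := by
        rw [Finset.sum_const, nsmul_eq_mul]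
    _ ≤ _ := mul_le_mul_of_nonneg_right hXcard (by positivity)

/-- If there is no solution in the cell, then `DDs` is minus the local count. -/
theorem DDs_of_no_sol (k r n K L B B0 R π : ℕ) (Cel : (Fin r → ℤ) → Prop) (hK : 0 < K)
    (a : Fin (r + 1) → ℤ) (T' : Finset (Fin r → ℤ))
    (hT' : ∀ x, x ∈ T' ↔ x ∈ Tset r B0 B R ∧ (∀ l, ¬ (π : ℤ) ∣ x l) ∧ Cel x)
    (hno : ∀ x ∈ T', dot a (VV n k x) ≠ 0) :
    ((NsetC k r n K L B B0 π Cel a).card : ℝ) - ((BsetC k r n K L B B0 R π Cel a).card : ℝ) ≤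
      (2 * L + 1) * |DDs k r n K L T' a| := by
  classical
  set Q := (NsetC k r n K L B B0 π Cel a).filter (fun x => ¬ ∃ l l', l ≠ l' ∧ R < Int.gcd (x l) (x l')) with hQ
  have h1 : (NsetC k r n K L B B0 π Cel a).card = (BsetC k r n K L B B0 R π Cel a).card + Q.card := by
    rw [BsetC, hQ]
    exact (Finset.card_filter_add_card_filter_not _).symm
  have h2 : DDs k r n K L T' a = -((1 / (2 * L + 1 : ℝ)) * ∑ x ∈ T',
      ∑ t ∈ Finset.Icc (-(L : ℤ)) L, (if dot a (VV n k x) = K * t then (1 : ℝ) else 0)) := by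
    unfold DDs
    rw [Finset.mul_sum, ← Finset.sum_neg_distrib]
    apply Finset.sum_congr rfl
    intro x hx
    rw [if_neg (hno x hx), zero_sub]
  have h3 : (Q.card : ℝ) ≤ ∑ x ∈ T',
      ∑ t ∈ Finset.Icc (-(L : ℤ)) L, (if dot a (VV n k x) = K * t then (1 : ℝ) else 0) := by
    calc (Q.card : ℝ) = ∑ x ∈ Q, (1 : ℝ) := by rw [Finset.sum_const, nsmul_eq_mul, mul_one]
      _ ≤ ∑ x ∈ Q, ∑ t ∈ Finset.Icc (-(L : ℤ)) L, (if dot a (VV n k x) = K * t then (1 : ℝ) else 0) := by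
          apply Finset.sum_le_sum
          intro x hx
          rw [hQ, Finset.mem_filter, NsetC, Finset.mem_filter, Nset, Finset.mem_filter] at hx
          obtain ⟨⟨⟨_, t, ht, hdt⟩, _⟩, _⟩ := hx
          calc (1 : ℝ) = (if dot a (VV n k x) = K * t then (1 : ℝ) else 0) := by rw [if_pos hdt]
            _ ≤ _ := Finset.single_le_sum (f := fun t : ℤ => (if dot a (VV n k x) = K * t then (1 : ℝ) else 0))
                (fun t _ => by positivity) ht
      _ ≤ _ := by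
          apply Finset.sum_le_sum_of_subset_of_nonneg
          · intro x hx
            rw [hQ, Finset.mem_filter, NsetC, Finset.mem_filter, Nset, Finset.mem_filter,
              Fintype.mem_piFinset] at hx
            rw [hT', mem_Tset]
            refine ⟨⟨fun l => Finset.mem_Icc.mp (hx.1.1.1 l), ?_⟩, hx.1.2⟩
            intro l l' hll
            by_contra hcon
            push Not at hcon
            exact hx.2 ⟨l, l', hll, hcon⟩
          · intro x _ _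
            exact Finset.sum_nonneg (fun t _ => by positivity)
  set SS := ∑ x ∈ T',
      ∑ t ∈ Finset.Icc (-(L : ℤ)) L, (if dot a (VV n k x) = K * t then (1 : ℝ) else 0) with hSS
  have h4 : 0 ≤ SS := Finset.sum_nonneg (fun x _ => Finset.sum_nonneg (fun t _ => by positivity))
  rw [h2, abs_neg, abs_of_nonneg (by positivity)]
  have h5 : ((NsetC k r n K L B B0 π Cel a).card : ℝ) = (BsetC k r n K L B B0 R π Cel a).card + Q.card := by
    exact_mod_cast h1
  rw [h5]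
  have h6 : (2 * (L : ℝ) + 1) * (1 / (2 * L + 1 : ℝ) * SS) = SS := by
    have : (2 * (L : ℝ) + 1) ≠ 0 := by positivity
    field_simp
  rw [h6]
  linarith


/-- gcd of a power prime to `π` with `(n₀ π^jj)^k`. -/
theorem gcd_pow_le (k n₀ π jj : ℕ) (hn : 1 ≤ n₀) (hπ : π.Prime) (x : ℤ) (hx : ¬ (π : ℤ) ∣ x) :
    Int.gcd (x ^ k) (((n₀ * π ^ jj : ℕ) : ℤ) ^ k) ≤ n₀ ^ k := by
  obtain ⟨g, hg⟩ : ∃ g, g = Int.gcd (x ^ k) (((n₀ * π ^ jj : ℕ) : ℤ) ^ k) := ⟨_, rfl⟩
  have h1 : (g : ℤ) ∣ x ^ k := hg ▸ Int.gcd_dvd_left _ _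
  have h2 : (g : ℤ) ∣ ((n₀ * π ^ jj : ℕ) : ℤ) ^ k := hg ▸ Int.gcd_dvd_right _ _
  rw [← hg]
  have hπP : Prime (π : ℤ) := Nat.prime_iff_prime_int.mp hπ
  have h3 : IsCoprime (x ^ k) (((π : ℤ) ^ jj) ^ k) := by
    apply IsCoprime.pow
    apply IsCoprime.pow_right
    exact ((hπP.coprime_iff_not_dvd).mpr hx).symm
  have h4 : IsCoprime (g : ℤ) (((π : ℤ) ^ jj) ^ k) :=
    IsCoprime.of_isCoprime_of_dvd_left h3 h1
  have h5 : (((n₀ * π ^ jj : ℕ) : ℤ)) ^ k = ((n₀ ^ k : ℕ) : ℤ) * (((π : ℤ) ^ jj) ^ k) := by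
    push_cast; rw [mul_pow]
  rw [h5] at h2
  have h6 := h4.dvd_of_dvd_mul_right h2
  have h7 : g ∣ n₀ ^ k := by exact_mod_cast h6
  exact Nat.le_of_dvd (pow_pos hn k) h7

set_option maxHeartbeats 2000000 in
/-- **Per-cell bound.** -/
theorem per_cell (k r n₀ π C0 : ℕ) (hk : 3 ≤ k) (hr : 2 * k + 1 ≤ r) (hn : 1 ≤ n₀) (hπ : π.Prime)
    (hC0 : 2 ≤ C0) (τ : ℝ) (hτ0 : 0 < τ) (δ : ℝ) (hδ : 0 < δ) :
    ∃ (G : ℕ) (η : ℝ), 0 < η ∧ η ≤ 1 ∧ ∀ Q : ℕ, 1 ≤ Q → ∃ R1 : ℕ, ∀ R A jj : ℕ, R1 ≤ R →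
      R ^ eA k r ≤ A → A < (R + 1) ^ eA k r → n₀ * π ^ jj ≤ R ^ N0 k r →
      ∀ Cel : (Fin r → ℤ) → Prop, ∀ W : Finset (Fin (r + 1) → ℤ),
      (∀ a ∈ W, a ∈ boxA (r + 1) A ∧
        (∀ x ∈ Tset r (R ^ N0 k r / C0 + 1) (R ^ N0 k r) R, (∀ l, ¬ (π : ℤ) ∣ x l) → Cel x →
          dot a (VV (n₀ * π ^ jj) k x) ≠ 0) ∧
        2 * (τ * (((R ^ N0 k r : ℕ) : ℝ) ^ r / (A * ((R ^ N0 k r : ℕ) : ℝ) ^ k)) *
          (2 * (⌊η * A * ((R ^ N0 k r : ℕ) : ℝ) ^ k / ((n₀ ^ k * (Q * G.factorial) : ℕ) : ℝ)⌋₊ : ℝ) + 1)) ≤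
        ((NsetC k r (n₀ * π ^ jj) (n₀ ^ k * (Q * G.factorial))
          ⌊η * A * ((R ^ N0 k r : ℕ) : ℝ) ^ k / ((n₀ ^ k * (Q * G.factorial) : ℕ) : ℝ)⌋₊
          (R ^ N0 k r) (R ^ N0 k r / C0 + 1) π Cel a).card : ℝ)) →
      (W.card : ℝ) ≤ δ * (A : ℝ) ^ (r + 1) := by
  classical
  have hkR : (3 : ℝ) ≤ k := by exact_mod_cast hk
  have hC0R : (2 : ℝ) ≤ C0 := by exact_mod_cast hC0
  have hC0R' : (0 : ℝ) < C0 := by linarith
  obtain ⟨G, η, hη0, hη1, hA⟩ := propB k r n₀ π C0 hk hr hn hπ hC0 (δ / 2 * τ ^ 2) (by positivity)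
  refine ⟨G, η, hη0, hη1, ?_⟩
  intro Q hQ
  obtain ⟨R1, hA⟩ := hA Q hQ
  set K := n₀ ^ k * (Q * G.factorial) with hK
  have hKpos : 0 < K := Nat.mul_pos (pow_pos hn k) (Nat.mul_pos hQ (Nat.factorial_pos G))
  have hKR : (1 : ℝ) ≤ K := by exact_mod_cast hKpos
  have hnR : (1 : ℝ) ≤ n₀ := by exact_mod_cast hn
  set c4 : ℝ := (1 / τ) * (r ^ 2 * 3 ^ r * (n₀ : ℝ) ^ k * C0 ^ k) with hc4
  have hrR : (7 : ℝ) ≤ r := by exact_mod_cast (by omega : 7 ≤ r)
  obtain ⟨Rb, hRb⟩ := exists_nat_ge (max (c4 * 2 / δ) 1)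
  refine ⟨max R1 Rb, ?_⟩
  intro R A jj hR hA1 hA2 hnq Cel W hW
  have hR1 : R1 ≤ R := (le_max_left _ _).trans hR
  have hRb' : Rb ≤ R := (le_max_right _ _).trans hR
  have hRbR : (Rb : ℝ) ≤ R := by exact_mod_cast hRb'
  have hall := hRb.trans hRbR
  have q5 : c4 * 2 / δ ≤ R := (le_max_left _ _).trans hall
  have q6 : (1 : ℝ) ≤ R := (le_max_right _ _).trans hall
  set B := R ^ N0 k r with hB
  set L := ⌊η * A * ((B : ℕ) : ℝ) ^ k / ((K : ℕ) : ℝ)⌋₊ with hL
  set B0 := B / C0 + 1 with hB0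
  set n := n₀ * π ^ jj with hnn
  have hn1 : 1 ≤ n := Nat.mul_pos hn (pow_pos hπ.pos _)
  set T' : Finset (Fin r → ℤ) := (Tset r B0 B R).filter (fun x => (∀ l, ¬ (π : ℤ) ∣ x l) ∧ Cel x) with hT'
  have hT'mem : ∀ x, x ∈ T' ↔ x ∈ Tset r B0 B R ∧ (∀ l, ¬ (π : ℤ) ∣ x l) ∧ Cel x := by
    intro x; rw [hT', Finset.mem_filter]
  have hmain := hA R A jj hR1 hA1 hA2 hnq T' (by
    intro x hx
    have := (hT'mem x).mp hx
    exact ⟨this.1, this.2.1⟩)
  have hRpos : 0 < R := by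
    have : (0 : ℝ) < R := by linarith
    exact_mod_cast this
  have hRR : (0 : ℝ) < R := by exact_mod_cast hRpos
  have hN04 : 4 ≤ N0 k r := by unfold N0; omega
  have hBpos : 1 ≤ B := Nat.one_le_pow _ _ hRpos
  have hB1 : (1 : ℝ) ≤ B := by exact_mod_cast hBpos
  have hBR0 : (0 : ℝ) < B := by linarith
  have hApos : 1 ≤ A := (Nat.one_le_pow _ _ hRpos).trans hA1
  have hAR : (1 : ℝ) ≤ A := by exact_mod_cast hApos
  have hABk : (B : ℝ) ^ k ≤ A := by
    have : B ^ k ≤ A := by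
      calc B ^ k = R ^ (N0 k r * k) := by rw [hB, ← pow_mul]
        _ ≤ R ^ eA k r := by
            apply Nat.pow_le_pow_right hRpos
            unfold eA
            have : N0 k r * (k + 1) = N0 k r * k + N0 k r := by ring
            omega
        _ ≤ A := hA1
    exact_mod_cast this
  set μ : ℝ := (B : ℝ) ^ r / (A * (B : ℝ) ^ k) with hμ
  have hμ0 : 0 < μ := by positivity
  have hBB0 : (B : ℝ) ≤ C0 * B0 := by
    have := (Nat.lt_mul_div_succ B (by omega : 0 < C0)).le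
    exact_mod_cast this
  have hB0pos : 1 ≤ B0 := Nat.le_add_left 1 _
  have hB0R0 : (0 : ℝ) < B0 := by exact_mod_cast hB0pos
  -- exceptional sets
  set E4 := (boxA (r + 1) A).filter (fun a => τ * μ * (2 * L + 1) ≤
    ((BsetC k r n K L B B0 R π Cel a).card : ℝ)) with hE4
  set E5 := (boxA (r + 1) A).filter (fun a => τ * μ ≤ |DDs k r n K L T' a|) with hE5
  have hWsub : W ⊆ E4 ∪ E5 := by
    intro a haW
    obtain ⟨hab, hnosol, hNlow⟩ := hW a haW
    rw [Finset.mem_union]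
    by_contra hcon
    push Not at hcon
    obtain ⟨h4, h5⟩ := hcon
    rw [hE4, Finset.mem_filter] at h4
    rw [hE5, Finset.mem_filter] at h5
    have h4' : ((BsetC k r n K L B B0 R π Cel a).card : ℝ) < τ * μ * (2 * L + 1) := by
      by_contra hc; push Not at hc; exact h4 ⟨hab, hc⟩
    have h5' : |DDs k r n K L T' a| < τ * μ := by
      by_contra hc; push Not at hc; exact h5 ⟨hab, hc⟩
    have hDD := DDs_of_no_sol k r n K L B B0 R π Cel hKpos a T' hT'mem (by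
      intro x hx
      have := (hT'mem x).mp hx
      exact hnosol x this.1 this.2.1 this.2.2)
    have h6 : (2 * (L : ℝ) + 1) * |DDs k r n K L T' a| < (2 * L + 1) * (τ * μ) := by
      apply mul_lt_mul_of_pos_left h5' (by positivity)
    linarith
  -- card E5
  have hE5card : (E5.card : ℝ) ≤ δ / 2 * (A : ℝ) ^ (r + 1) := by
    have h1 : (E5.card : ℝ) * (τ * μ) ^ 2 ≤ (δ / 2 * (A : ℝ) ^ (r + 1)) * (τ * μ) ^ 2 := by
      calc (E5.card : ℝ) * (τ * μ) ^ 2 = ∑ a ∈ E5, (τ * μ) ^ 2 := by rw [Finset.sum_const, nsmul_eq_mul]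
        _ ≤ ∑ a ∈ E5, (DDs k r n K L T' a) ^ 2 := by
            apply Finset.sum_le_sum
            intro a ha
            rw [hE5, Finset.mem_filter] at ha
            rw [← sq_abs (DDs k r n K L T' a)]
            have := ha.2
            gcongr
        _ ≤ ∑ a ∈ boxA (r + 1) A, (DDs k r n K L T' a) ^ 2 :=
            Finset.sum_le_sum_of_subset_of_nonneg (Finset.filter_subset _ _) (fun _ _ _ => by positivity)
        _ ≤ δ / 2 * τ ^ 2 * (A : ℝ) ^ (r + 1) * μ ^ 2 := hmain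
        _ = _ := by ring
    exact le_of_mul_le_mul_right h1 (by positivity)
  -- card E4
  have hE4card : (E4.card : ℝ) ≤ δ / 2 * (A : ℝ) ^ (r + 1) := by
    have hgm := gcd_moment2 k r n (n₀ ^ k) K L A B B0 R π Cel (by omega) (by omega) hn1 hB0pos hBpos hRpos
      (fun x hx => gcd_pow_le k n₀ π jj hn hπ x hx)
    push_cast at hgm
    have h1 : (E4.card : ℝ) * (τ * μ * (2 * L + 1)) ≤
        ((r : ℝ) ^ 2 * ((B : ℝ) ^ (r - 2) * ((B : ℝ) ^ 2 / R))) *
        ((2 * L + 1) * ((2 * A + 1) ^ (r - 1) * (2 * A * (n₀ : ℝ) ^ k / (B0 : ℝ) ^ k + 1))) := by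
      calc (E4.card : ℝ) * (τ * μ * (2 * L + 1)) = ∑ a ∈ E4, (τ * μ * (2 * L + 1)) := by
            rw [Finset.sum_const, nsmul_eq_mul]
        _ ≤ ∑ a ∈ E4, ((BsetC k r n K L B B0 R π Cel a).card : ℝ) := by
            apply Finset.sum_le_sum
            intro a ha
            rw [hE4, Finset.mem_filter] at ha
            exact ha.2
        _ ≤ ∑ a ∈ boxA (r + 1) A, ((BsetC k r n K L B B0 R π Cel a).card : ℝ) :=
            Finset.sum_le_sum_of_subset_of_nonneg (Finset.filter_subset _ _) (fun _ _ _ => by positivity)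
        _ ≤ _ := hgm
    have h2 : (2 * (A : ℝ) + 1) ^ (r - 1) * (2 * A * (n₀ : ℝ) ^ k / (B0 : ℝ) ^ k + 1) ≤
        (3 * (A : ℝ)) ^ (r - 1) * (3 * A * ((n₀ : ℝ) ^ k * C0 ^ k / B ^ k)) := by
      apply mul_le_mul
      · gcongr; linarith
      · have e1 : 1 / (B0 : ℝ) ^ k ≤ C0 ^ k / B ^ k := by
          rw [div_le_div_iff₀ (by positivity) (by positivity), one_mul, ← mul_pow]
          gcongr
        have e2 : 2 * (A : ℝ) * (n₀ : ℝ) ^ k / (B0 : ℝ) ^ k ≤ 2 * A * ((n₀ : ℝ) ^ k * C0 ^ k / B ^ k) := by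
          calc 2 * (A : ℝ) * (n₀ : ℝ) ^ k / (B0 : ℝ) ^ k = 2 * A * (n₀ : ℝ) ^ k * (1 / (B0 : ℝ) ^ k) := by ring
            _ ≤ 2 * A * (n₀ : ℝ) ^ k * (C0 ^ k / B ^ k) := by gcongr
            _ = _ := by ring
        have e3 : (1 : ℝ) ≤ A * ((n₀ : ℝ) ^ k * C0 ^ k / B ^ k) := by
          have f1 : (1 : ℝ) ≤ A / (B : ℝ) ^ k := by rw [le_div_iff₀ (by positivity)]; linarith
          have f2 : (1 : ℝ) ≤ (n₀ : ℝ) ^ k * C0 ^ k := by
            have g1 : (1 : ℝ) ≤ (n₀ : ℝ) ^ k := one_le_pow₀ hnR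
            have g2 : (1 : ℝ) ≤ (C0 : ℝ) ^ k := one_le_pow₀ (by linarith)
            nlinarith
          calc (1 : ℝ) = 1 * 1 := by norm_num
            _ ≤ (A / (B : ℝ) ^ k) * ((n₀ : ℝ) ^ k * C0 ^ k) := by gcongr
            _ = _ := by ring
        linarith
      · positivity
      · positivity
    have h3 : (E4.card : ℝ) * (τ * μ * (2 * L + 1)) ≤
        (c4 / R * (A : ℝ) ^ (r + 1)) * (τ * μ * (2 * L + 1)) := by
      calc _ ≤ _ := h1
        _ ≤ ((r : ℝ) ^ 2 * ((B : ℝ) ^ (r - 2) * ((B : ℝ) ^ 2 / R))) *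
          ((2 * L + 1) * ((3 * (A : ℝ)) ^ (r - 1) * (3 * A * ((n₀ : ℝ) ^ k * C0 ^ k / B ^ k)))) := by gcongr
        _ = _ := by
            have e1 : (B : ℝ) ^ r = (B : ℝ) ^ (r - 2) * B ^ 2 := by rw [← pow_add]; congr 1; omega
            have e2 : (3 : ℝ) ^ r = 3 ^ (r - 1) * 3 := by rw [← pow_succ]; congr 1; omega
            have e3 : (A : ℝ) ^ (r + 1) = (A : ℝ) ^ (r - 1) * A ^ 2 := by rw [← pow_add]; congr 1; omega
            rw [hc4, hμ, e1, e2, e3, mul_pow]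
            field_simp
    have h4 : (E4.card : ℝ) ≤ c4 / R * (A : ℝ) ^ (r + 1) := le_of_mul_le_mul_right h3 (by positivity)
    refine h4.trans ?_
    apply mul_le_mul_of_nonneg_right _ (by positivity)
    rw [div_le_div_iff₀ hRR (by norm_num)]
    rw [div_le_iff₀ hδ] at q5
    linarith
  calc (W.card : ℝ) ≤ ((E4 ∪ E5).card : ℝ) := by exact_mod_cast Finset.card_le_card hWsub
    _ ≤ (E4.card : ℝ) + E5.card := by exact_mod_cast Finset.card_union_le _ _
    _ ≤ δ / 2 * (A : ℝ) ^ (r + 1) + δ / 2 * (A : ℝ) ^ (r + 1) := add_le_add hE4card hE5card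
    _ = _ := by ring

end Pool.Agent.H888.DH
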