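import Pool.Agent.H888.WA.V8

set_option linter.unusedVariables false
set_option linter.unusedSectionVars false
set_option linter.style.haveILetI false

namespace Pool.Agent.H888.DH

open Finset

theorem pow_sub_pow_ge (k : ℕ) (a b : ℝ) (hb : 0 ≤ b) (hab : b ≤ a) :
    a ^ k * (a - b) ≤ a ^ (k + 1) - b ^ (k + 1) := by
  have h2 : b ^ k ≤ a ^ k := pow_le_pow_left₀ hb hab _
  have h3 : b * b ^ k ≤ b * a ^ k := mul_le_mul_of_nonneg_left h2 hb
  rw [pow_succ', pow_succ']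
  linarith

set_option maxHeartbeats 1000000 in
/-- **Lower bound for the number of points near a real solution.** -/
theorem region_lower2 (k r n K A B B0 L T1 T2 π : ℕ) [NeZero K] (hk : 2 ≤ k)
    (Cel : (Fin r → ℤ) → Prop) (a : Fin (r + 1) → ℤ) (ε1 η ρ ρ' c1 : ℝ) (hε1 : 0 < ε1)
    (hη : 0 < η) (hη1 : η ≤ 1) (hρ : 0 < ρ) (hρk : ρ * k ≤ 1) (hρ' : 0 < ρ') (hρ'ρ : ρ' ≤ ρ)
    (hρ'c : r * k * ρ' / ε1 ≤ ρ / 2 * c1 ^ (k - 1)) (hc1 : 0 < c1) (hρc : 2 * ρ ≤ c1)
    (hA : 1 ≤ A) (hB : 1 ≤ B) (ha : ∀ o, |a o| ≤ A) (i : Fin r)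
    (hai : ε1 * A ≤ |(a (Fin.succ i) : ℝ)|) (Y : Fin r → ℝ)
    (hY : ∀ l, c1 * B ≤ Y l ∧ Y l ≤ B / 2)
    (hsum : (a 0 : ℝ) * (n : ℝ) ^ k + ∑ l, (a (Fin.succ l) : ℝ) * (Y l) ^ k = 0)
    (hB0 : (B0 : ℝ) ≤ c1 / 2 * B) (hKL : η / 2 * A * (B : ℝ) ^ k ≤ K * L)
    (hT1 : (K * T1 + 1 : ℝ) ≤ ρ' * B) (hT2 : (K * T2 + 1 : ℝ) ≤ η * ρ * B / 2)
    (S : Finset (Fin r → ZMod K)) (hS : ∀ z ∈ S, z ∈ SolN k r a n K)
    (hCel : ∀ x : Fin r → ℤ, (∀ l, |(x l : ℝ) - Y l| ≤ ρ * B) → (fun l => ((x l : ℤ) : ZMod K)) ∈ S →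
      (∀ l, ¬ (π : ℤ) ∣ x l) ∧ Cel x) :
    S.card * (T1 ^ (r - 1) * T2) ≤ (NsetC k r n K L B B0 π Cel a).card := by
  classical
  have hBR : (0 : ℝ) < B := by exact_mod_cast (by omega : 0 < B)
  have hAR : (0 : ℝ) < A := by exact_mod_cast (by omega : 0 < A)
  have hkR : (2 : ℝ) ≤ k := by exact_mod_cast hk
  have hai0' : (0 : ℝ) < |(a (Fin.succ i) : ℝ)| := lt_of_lt_of_le (by positivity) hai
  have hai0 : (a (Fin.succ i) : ℝ) ≠ 0 := abs_pos.mp hai0'
  have hρ12 : ρ ≤ 1 / 2 := by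
    have : ρ * 2 ≤ ρ * k := mul_le_mul_of_nonneg_left hkR hρ.le
    linarith
  have hY0 : ∀ l, 0 < Y l := fun l => lt_of_lt_of_le (by positivity) (hY l).1
  -- points other than i
  set xo : (Fin r → ZMod K) → ({l : Fin r // l ≠ i} → Fin T1) → Fin r → ℤ :=
    fun z t l => if h : l ≠ i then pt ⌈Y l⌉ (z l) (t ⟨l, h⟩) else 0 with hxo
  have hxo_l : ∀ z t l, l ≠ i → Y l ≤ xo z t l ∧ (xo z t l : ℝ) ≤ Y l + ρ' * B := by
    intro z t l hl
    simp only [hxo]
    rw [dif_pos hl]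
    have e1 := pt_ge ⌈Y l⌉ (z l) (t ⟨l, hl⟩ : ℕ)
    have e2 := pt_le ⌈Y l⌉ (z l) (t ⟨l, hl⟩ : ℕ) T1 (t ⟨l, hl⟩).2
    have e4 := Int.le_ceil (Y l)
    have e5 := Int.ceil_lt_add_one (Y l)
    have e1' : ((⌈Y l⌉ : ℤ) : ℝ) ≤ (pt ⌈Y l⌉ (z l) (t ⟨l, hl⟩ : ℕ) : ℝ) := by exact_mod_cast e1
    have e2' : (pt ⌈Y l⌉ (z l) (t ⟨l, hl⟩ : ℕ) : ℝ) ≤ (⌈Y l⌉ : ℝ) + K * T1 - 1 := by exact_mod_cast e2
    constructor
    · linarith
    · linarith
  -- the value Y
  set YY : (Fin r → ZMod K) → ({l : Fin r // l ≠ i} → Fin T1) → ℝ := fun z t =>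
    -(((a 0 : ℝ) * (n : ℝ) ^ k + ∑ l ∈ Finset.univ.erase i, (a (Fin.succ l) : ℝ) * (xo z t l : ℝ) ^ k) /
      (a (Fin.succ i) : ℝ)) with hYY
  obtain ⟨k', hk'⟩ : ∃ k', k = k' + 1 := ⟨k - 1, by omega⟩
  have hk1 : k - 1 = k' := by omega
  have hBk : (B : ℝ) ^ k = (B : ℝ) ^ k' * B := by rw [hk', pow_succ]
  have hYi : (Y i) ^ k = -(((a 0 : ℝ) * (n : ℝ) ^ k + ∑ l ∈ Finset.univ.erase i, (a (Fin.succ l) : ℝ) * (Y l) ^ k) /
      (a (Fin.succ i) : ℝ)) := by
    rw [← Finset.add_sum_erase Finset.univ _ (Finset.mem_univ i)] at hsum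
    field_simp
    linarith
  have hdiffY : ∀ z t, |YY z t - (Y i) ^ k| ≤ ρ / 2 * c1 ^ k' * (B : ℝ) ^ k := by
    intro z t
    have e1 : YY z t - (Y i) ^ k = ∑ l ∈ Finset.univ.erase i,
        (-((a (Fin.succ l) : ℝ) / (a (Fin.succ i) : ℝ))) * ((xo z t l : ℝ) ^ k - (Y l) ^ k) := by
      rw [hYi]
      simp only [hYY]
      have : ∑ l ∈ Finset.univ.erase i,
        (-((a (Fin.succ l) : ℝ) / (a (Fin.succ i) : ℝ))) * ((xo z t l : ℝ) ^ k - (Y l) ^ k) =
        -((∑ l ∈ Finset.univ.erase i, (a (Fin.succ l) : ℝ) * (xo z t l : ℝ) ^ k) / (a (Fin.succ i) : ℝ)) +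
        (∑ l ∈ Finset.univ.erase i, (a (Fin.succ l) : ℝ) * (Y l) ^ k) / (a (Fin.succ i) : ℝ) := by
        rw [Finset.sum_div, Finset.sum_div, ← Finset.sum_neg_distrib, ← Finset.sum_add_distrib]
        apply Finset.sum_congr rfl
        intro l _
        ring
      rw [this]
      field_simp
      ring
    rw [e1]
    calc |∑ l ∈ Finset.univ.erase i,
        (-((a (Fin.succ l) : ℝ) / (a (Fin.succ i) : ℝ))) * ((xo z t l : ℝ) ^ k - (Y l) ^ k)|
        ≤ ∑ l ∈ Finset.univ.erase i,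
          |(-((a (Fin.succ l) : ℝ) / (a (Fin.succ i) : ℝ))) * ((xo z t l : ℝ) ^ k - (Y l) ^ k)| :=
          Finset.abs_sum_le_sum_abs _ _
      _ ≤ ∑ l ∈ Finset.univ.erase i, (1 / ε1) * (k * (B : ℝ) ^ k' * (ρ' * B)) := by
          apply Finset.sum_le_sum
          intro l hl
          have hl' := (Finset.mem_erase.mp hl).1
          obtain ⟨b1, b2⟩ := hxo_l z t l hl'
          have b0 : (0 : ℝ) ≤ xo z t l := (hY0 l).le.trans b1
          rw [abs_mul, abs_neg]
          have h1 : |(a (Fin.succ l) : ℝ) / (a (Fin.succ i) : ℝ)| ≤ 1 / ε1 := by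
            rw [abs_div, div_le_div_iff₀ hai0' hε1, one_mul]
            have h1 : |(a (Fin.succ l) : ℝ)| ≤ A := by exact_mod_cast ha (Fin.succ l)
            nlinarith [abs_nonneg (a (Fin.succ l) : ℝ)]
          have h2 : |(xo z t l : ℝ) ^ k - (Y l) ^ k| ≤ k * (B : ℝ) ^ k' * (ρ' * B) := by
            rw [abs_of_nonneg (by
              have := pow_le_pow_left₀ (hY0 l).le b1 k
              linarith)]
            have h3 := pow_sub_pow_le k' (xo z t l : ℝ) (Y l) (hY0 l).le b1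
            rw [← hk'] at h3
            have h4 : (xo z t l : ℝ) ≤ B := by
              have := (hY l).2
              nlinarith
            refine h3.trans ?_
            have hkk : ((k' : ℝ) + 1) = k := by rw [hk']; push_cast; ring
            rw [hkk]
            apply mul_le_mul _ (by linarith) (by linarith) (by positivity)
            apply mul_le_mul_of_nonneg_left (pow_le_pow_left₀ b0 h4 _) (by positivity)
          exact mul_le_mul h1 h2 (abs_nonneg _) (by positivity)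
      _ = ((Finset.univ.erase i).card : ℝ) * ((1 / ε1) * (k * (B : ℝ) ^ k' * (ρ' * B))) := by
          rw [Finset.sum_const, nsmul_eq_mul]
      _ ≤ r * ((1 / ε1) * (k * (B : ℝ) ^ k' * (ρ' * B))) := by
          apply mul_le_mul_of_nonneg_right _ (by positivity)
          have : (Finset.univ.erase i).card ≤ r := by
            calc _ ≤ (Finset.univ : Finset (Fin r)).card := Finset.card_le_card (Finset.erase_subset _ _)
              _ = r := by simp
          exact_mod_cast this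
      _ = (r * k * ρ' / ε1) * (B : ℝ) ^ k := by rw [hBk]; ring
      _ ≤ _ := by
          rw [hk1] at hρ'c
          exact mul_le_mul_of_nonneg_right hρ'c (by positivity)
  have hYb : ∀ z t, (Y i - ρ * B / 2) ^ k ≤ YY z t ∧ YY z t ≤ (Y i + ρ * B / 2) ^ k := by
    intro z t
    have h1 := abs_le.mp (hdiffY z t)
    have hYi1 := (hY i).1
    have hlow0 : 0 ≤ Y i - ρ * B / 2 := by nlinarith
    have hstep : ρ / 2 * c1 ^ k' * (B : ℝ) ^ k ≤ (Y i) ^ k' * (ρ * B / 2) := by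
      calc ρ / 2 * c1 ^ k' * (B : ℝ) ^ k = (c1 * B) ^ k' * (ρ * B / 2) := by rw [hBk, mul_pow]; ring
        _ ≤ _ := by
            apply mul_le_mul_of_nonneg_right _ (by positivity)
            exact pow_le_pow_left₀ (by positivity) hYi1 _
    constructor
    · have h2 := pow_sub_pow_ge k' (Y i) (Y i - ρ * B / 2) hlow0 (by nlinarith)
      rw [← hk'] at h2
      have e : Y i - (Y i - ρ * B / 2) = ρ * B / 2 := by ring
      rw [e] at h2
      linarith [h1.1]
    · have h2 := pow_sub_pow_ge k' (Y i + ρ * B / 2) (Y i) (hY0 i).le (by nlinarith)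
      rw [← hk'] at h2
      have e : Y i + ρ * B / 2 - Y i = ρ * B / 2 := by ring
      rw [e] at h2
      have h3 : (Y i) ^ k' * (ρ * B / 2) ≤ (Y i + ρ * B / 2) ^ k' * (ρ * B / 2) := by
        apply mul_le_mul_of_nonneg_right _ (by positivity)
        exact pow_le_pow_left₀ (hY0 i).le (by nlinarith) _
      linarith [h1.2]
  have hlow : 0 ≤ Y i - ρ * B / 2 := by
    have := (hY i).1
    nlinarith
  -- the root y
  set yy : (Fin r → ZMod K) → ({l : Fin r // l ≠ i} → Fin T1) → ℝ := fun z t =>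
    (YY z t) ^ ((1 : ℝ) / k) with hyy
  have hYY0 : ∀ z t, 0 ≤ YY z t := fun z t => le_trans (pow_nonneg hlow _) (hYb z t).1
  have hyk : ∀ z t, (yy z t) ^ k = YY z t := by
    intro z t
    simp only [hyy]
    rw [← Real.rpow_natCast, ← Real.rpow_mul (hYY0 z t)]
    have : (k : ℝ) ≠ 0 := by positivity
    rw [one_div_mul_cancel this, Real.rpow_one]
  have hy0 : ∀ z t, 0 ≤ yy z t := fun z t => Real.rpow_nonneg (hYY0 z t) _
  have hyb : ∀ z t, Y i - ρ * B / 2 ≤ yy z t ∧ yy z t ≤ Y i + ρ * B / 2 := by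
    intro z t
    constructor
    · apply le_of_pow_le_pow_left₀ (by omega : k ≠ 0) (hy0 z t)
      rw [hyk]; exact (hYb z t).1
    · apply le_of_pow_le_pow_left₀ (by omega : k ≠ 0) (by have := hY0 i; positivity)
      rw [hyk]; exact (hYb z t).2
  -- full point
  set xf : ((Fin r → ZMod K) × ({l : Fin r // l ≠ i} → Fin T1)) × Fin T2 → Fin r → ℤ :=
    fun q l => if l = i then pt ⌈yy q.1.1 q.1.2⌉ (q.1.1 i) (q.2 : ℕ) else xo q.1.1 q.1.2 l with hxf
  have hcard : ((S ×ˢ (Finset.univ : Finset ({l : Fin r // l ≠ i} → Fin T1))) ×ˢ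
      (Finset.univ : Finset (Fin T2))).card = S.card * (T1 ^ (r - 1) * T2) := by
    rw [Finset.card_product, Finset.card_product, Finset.card_univ, Finset.card_univ, Fintype.card_fin,
      Fintype.card_fun, Fintype.card_fin, Fintype.card_subtype_compl]
    simp [mul_assoc]
  rw [← hcard]
  apply Finset.card_le_card_of_injOn xf
  · intro q hq
    rw [Finset.mem_coe, Finset.mem_product, Finset.mem_product] at hq
    obtain ⟨⟨hz, _⟩, _⟩ := hq
    set z := q.1.1 with hz'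
    set t := q.1.2 with ht'
    have hxi : xf q i = pt ⌈yy z t⌉ (z i) (q.2 : ℕ) := by simp only [hxf]; rw [if_pos trivial]
    have hxl : ∀ l, l ≠ i → xf q l = xo z t l := by
      intro l hl; simp only [hxf]; rw [if_neg hl]
    obtain ⟨y1, y2⟩ := hyb z t
    have g1 := pt_ge ⌈yy z t⌉ (z i) (q.2 : ℕ)
    have g2 := pt_le ⌈yy z t⌉ (z i) (q.2 : ℕ) T2 q.2.2
    rw [← hxi] at g1 g2
    have g3 := Int.le_ceil (yy z t)
    have g4 := Int.ceil_lt_add_one (yy z t)
    have g1' : ((⌈yy z t⌉ : ℤ) : ℝ) ≤ (xf q i : ℝ) := by exact_mod_cast g1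
    have g2' : (xf q i : ℝ) ≤ (⌈yy z t⌉ : ℝ) + K * T2 - 1 := by exact_mod_cast g2
    have hxiy : yy z t ≤ xf q i := by linarith
    have hxiw : (xf q i : ℝ) ≤ yy z t + η * ρ * B / 2 := by linarith
    have hηρ : η * ρ * B / 2 ≤ ρ * B / 2 := by
      have : η * (ρ * B) ≤ 1 * (ρ * B) := mul_le_mul_of_nonneg_right hη1 (by positivity)
      linarith
    have hnear : ∀ l, |(xf q l : ℝ) - Y l| ≤ ρ * B := by
      intro l
      by_cases hl : l = i
      · rw [hl, abs_le]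
        constructor <;> linarith
      · rw [hxl l hl]
        obtain ⟨b1, b2⟩ := hxo_l z t l hl
        have : ρ' * B ≤ ρ * B := mul_le_mul_of_nonneg_right hρ'ρ hBR.le
        have h0 : 0 < ρ * B := by positivity
        rw [abs_le]
        constructor <;> linarith
    have hρB : ρ * B ≤ B / 2 := by
      have := mul_le_mul_of_nonneg_right hρ12 hBR.le
      linarith
    have hbounds : ∀ l, (B0 : ℤ) ≤ xf q l ∧ xf q l ≤ B := by
      intro l
      have h1 := abs_le.mp (hnear l)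
      have h2 := hY l
      have h3 : ρ * B ≤ c1 / 2 * B := by
        apply mul_le_mul_of_nonneg_right _ hBR.le; linarith
      have hreal : (B0 : ℝ) ≤ xf q l ∧ (xf q l : ℝ) ≤ B := by
        constructor <;> linarith [h1.1, h1.2, h2.1, h2.2]
      exact ⟨by exact_mod_cast hreal.1, by exact_mod_cast hreal.2⟩
    have hxiB : (xf q i : ℝ) ≤ B := by exact_mod_cast (hbounds i).2
    -- congruence
    have hcong : ∀ l, ((xf q l : ℤ) : ZMod K) = z l := by
      intro l
      by_cases hl : l = i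
      · rw [hl, hxi, pt_cast]
      · rw [hxl l hl]
        simp only [hxo]
        rw [dif_pos hl, pt_cast]
    have hKdvd : (K : ℤ) ∣ dot a (VV n k (xf q)) := by
      rw [dot_VV, ← ZMod.intCast_zmod_eq_zero_iff_dvd]
      push_cast
      simp only [hcong]
      exact mem_SolN.mp (hS z hz)
    -- size
    have hval : ((dot a (VV n k (xf q)) : ℤ) : ℝ) = (a (Fin.succ i) : ℝ) * ((xf q i : ℝ) ^ k - YY z t) := by
      rw [dot_VV]
      push_cast
      rw [← Finset.add_sum_erase Finset.univ _ (Finset.mem_univ i)]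
      have e1 : ∑ l ∈ Finset.univ.erase i, (a (Fin.succ l) : ℝ) * (xf q l : ℝ) ^ k =
          ∑ l ∈ Finset.univ.erase i, (a (Fin.succ l) : ℝ) * (xo z t l : ℝ) ^ k := by
        apply Finset.sum_congr rfl
        intro l hl
        rw [hxl l (Finset.mem_erase.mp hl).1]
      rw [e1]
      simp only [hYY]
      field_simp
      ring
    have hdiff : (xf q i : ℝ) ^ k - YY z t ≤ η / 2 * (B : ℝ) ^ k := by
      rw [← hyk z t]
      have h1 := pow_sub_pow_le k' (xf q i : ℝ) (yy z t) (hy0 z t) hxiy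
      rw [← hk'] at h1
      have hkk : ((k' : ℝ) + 1) = k := by rw [hk']; push_cast; ring
      rw [hkk] at h1
      have h2 : (xf q i : ℝ) - yy z t ≤ η * ρ * B / 2 := by linarith
      have h3 : (xf q i : ℝ) ^ k' ≤ (B : ℝ) ^ k' :=
        pow_le_pow_left₀ (le_trans (hy0 z t) hxiy) hxiB _
      calc _ ≤ _ := h1
        _ ≤ k * (B : ℝ) ^ k' * (η * ρ * B / 2) := by
            apply mul_le_mul _ h2 (by linarith) (by positivity)
            apply mul_le_mul_of_nonneg_left h3 (by positivity)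
        _ = (ρ * k) * (η / 2 * (B : ℝ) ^ k) := by rw [hBk]; ring
        _ ≤ 1 * (η / 2 * (B : ℝ) ^ k) := mul_le_mul_of_nonneg_right hρk (by positivity)
        _ = _ := one_mul _
    have hdiff0 : 0 ≤ (xf q i : ℝ) ^ k - YY z t := by
      rw [← hyk z t]
      have : (yy z t) ^ k ≤ (xf q i : ℝ) ^ k := pow_le_pow_left₀ (hy0 z t) hxiy _
      linarith
    have hsize : |((dot a (VV n k (xf q)) : ℤ) : ℝ)| ≤ K * L := by
      rw [hval, abs_mul, abs_of_nonneg hdiff0]
      have h1 : |(a (Fin.succ i) : ℝ)| ≤ A := by exact_mod_cast ha (Fin.succ i)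
      calc _ ≤ (A : ℝ) * (η / 2 * (B : ℝ) ^ k) := mul_le_mul h1 hdiff hdiff0 (by positivity)
        _ = η / 2 * A * (B : ℝ) ^ k := by ring
        _ ≤ _ := hKL
    have hzS : (fun l => ((xf q l : ℤ) : ZMod K)) ∈ S := by
      have : (fun l => ((xf q l : ℤ) : ZMod K)) = z := funext hcong
      rw [this]; exact hz
    rw [Finset.mem_coe, NsetC, Finset.mem_filter, Nset, Finset.mem_filter, Fintype.mem_piFinset]
    refine ⟨⟨fun l => Finset.mem_Icc.mpr (hbounds l), ?_⟩, hCel (xf q) hnear hzS⟩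
    obtain ⟨s, hs⟩ := hKdvd
    refine ⟨s, ?_, hs⟩
    rw [Finset.mem_Icc, ← abs_le]
    have hKpos : (0 : ℝ) < K := by exact_mod_cast Nat.pos_of_ne_zero (NeZero.ne K)
    rw [hs] at hsize
    push_cast at hsize
    rw [abs_mul, abs_of_pos hKpos] at hsize
    have := le_of_mul_le_mul_left hsize hKpos
    exact_mod_cast this
  · intro q _ q' _ hqq
    have h1 : ∀ l, l ≠ i → xo q.1.1 q.1.2 l = xo q'.1.1 q'.1.2 l := by
      intro l hl
      have := congrFun hqq l
      simp only [hxf] at this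
      rwa [if_neg hl, if_neg hl] at this
    have h2 : ∀ l (hl : l ≠ i), q.1.1 l = q'.1.1 l ∧ (q.1.2 ⟨l, hl⟩ : ℕ) = (q'.1.2 ⟨l, hl⟩ : ℕ) := by
      intro l hl
      have := h1 l hl
      simp only [hxo] at this
      rw [dif_pos hl, dif_pos hl] at this
      exact pt_inj this
    have ht : q.1.2 = q'.1.2 := by
      funext ⟨l, hl⟩
      exact Fin.ext (h2 l hl).2
    have hYeq : YY q.1.1 q.1.2 = YY q'.1.1 q'.1.2 := by
      simp only [hYY]
      congr 3
      apply Finset.sum_congr rfl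
      intro l hl
      rw [h1 l (Finset.mem_erase.mp hl).1]
    have h3 := congrFun hqq i
    simp only [hxf, if_true] at h3
    have hyeq : yy q.1.1 q.1.2 = yy q'.1.1 q'.1.2 := by simp only [hyy]; rw [hYeq]
    rw [hyeq] at h3
    obtain ⟨h4, h5⟩ := pt_inj h3
    have hz : q.1.1 = q'.1.1 := by
      funext l
      by_cases hl : l = i
      · rw [hl]; exact h4
      · exact (h2 l hl).1
    exact Prod.ext (Prod.ext hz ht) (Fin.ext h5)

end Pool.Agent.H888.DH
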